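import Mathlib

set_option autoImplicit false

/-!
The ring `Lam = F_3[X_0, X_1, ...]/(X_i^2)`.
-/

namespace Pool.Agent.H5.Ext

open MvPolynomial

noncomputable section

abbrev I0 : Ideal (MvPolynomial ℕ (ZMod 3)) :=
  Ideal.span (Set.range fun i : ℕ => (X i : MvPolynomial ℕ (ZMod 3)) ^ 2)

abbrev Lam : Type := MvPolynomial ℕ (ZMod 3) ⧸ I0

/-- the generators -/
def tau (i : ℕ) : Lam := Ideal.Quotient.mk I0 (X i)

theorem tau_sq (i : ℕ) : tau i * tau i = 0 := by
  rw [tau, ← map_mul, ← pow_two]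
  exact Ideal.Quotient.eq_zero_iff_mem.2 (Ideal.subset_span ⟨i, rfl⟩)

/-- products over finite sets -/
def tauS (S : Finset ℕ) : Lam := ∏ i ∈ S, tau i

theorem tauS_union {S T : Finset ℕ} (h : Disjoint S T) : tauS (S ∪ T) = tauS S * tauS T :=
  Finset.prod_union h

theorem tauS_sq {S : Finset ℕ} (h : S.Nonempty) : tauS S * tauS S = 0 := by
  obtain ⟨i, hi⟩ := h
  rw [tauS, ← Finset.mul_prod_erase S _ hi]
  linear_combination (∏ x ∈ S.erase i, tau x) * (∏ x ∈ S.erase i, tau x) * tau_sq i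

theorem tauS_ne_zero (S : Finset ℕ) : tauS S ≠ 0 := by
  intro h
  have h1 : (∏ i ∈ S, (X i : MvPolynomial ℕ (ZMod 3))) ∈ I0 := by
    rw [← Ideal.Quotient.eq_zero_iff_mem, map_prod]
    exact h
  have h2 : (∏ i ∈ S, (X i : MvPolynomial ℕ (ZMod 3))) =
      monomial (∑ i ∈ S, Finsupp.single i 1) 1 := by
    rw [monomial_sum_one]
    rfl
  have h3 : I0 = Ideal.span ((fun s : ℕ →₀ ℕ => monomial s (1 : ZMod 3)) ''
      (Set.range fun i : ℕ => Finsupp.single i 2)) := by
    rw [I0]
    congr 1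
    ext p
    simp [X_pow_eq_monomial]
  rw [h3, mem_ideal_span_monomial_image, h2] at h1
  obtain ⟨si, ⟨i, rfl⟩, hle⟩ := h1 (∑ i ∈ S, Finsupp.single i 1) (by
    rw [support_monomial, if_neg one_ne_zero]; exact Finset.mem_singleton_self _)
  have h4 := hle i
  simp only [Finsupp.single_eq_same, Finsupp.coe_finsetSum, Finset.sum_apply] at h4
  have h5 : ∑ c ∈ S, (Finsupp.single c 1 : ℕ →₀ ℕ) i ≤ 1 := by
    simp only [Finsupp.single_apply, Finset.sum_ite_eq']
    split_ifs <;> simp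
  omega

/-- the augmentation -/
def eps : Lam →+* ZMod 3 :=
  Ideal.Quotient.lift I0 (constantCoeff : MvPolynomial ℕ (ZMod 3) →+* ZMod 3) (by
    intro a ha
    have : I0 ≤ RingHom.ker (constantCoeff : MvPolynomial ℕ (ZMod 3) →+* ZMod 3) := by
      rw [Ideal.span_le]
      rintro _ ⟨i, rfl⟩
      simp [RingHom.mem_ker]
    exact this ha)

theorem eps_mk (q : MvPolynomial ℕ (ZMod 3)) :
    eps (Ideal.Quotient.mk I0 q) = constantCoeff q := rfl

theorem eps_tau (i : ℕ) : eps (tau i) = 0 := by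
  rw [tau, eps_mk, constantCoeff_X]

theorem eps_alg (c : ZMod 3) : eps (algebraMap (ZMod 3) Lam c) = c := by
  show eps (Ideal.Quotient.mk I0 (C c)) = c
  rw [eps_mk, constantCoeff_C]

theorem eps_tauS {S : Finset ℕ} (h : S.Nonempty) : eps (tauS S) = 0 := by
  obtain ⟨i, hi⟩ := h
  rw [tauS, map_prod]
  exact Finset.prod_eq_zero hi (eps_tau i)

/-- kill the variables in `U` -/
def phi (U : Finset ℕ) : Lam →+* Lam :=
  Ideal.Quotient.lift I0 (eval₂Hom (algebraMap (ZMod 3) Lam)
    (fun i => if i ∈ U then 0 else tau i)) (by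
    intro a ha
    have : I0 ≤ RingHom.ker (eval₂Hom (algebraMap (ZMod 3) Lam)
        (fun i => if i ∈ U then (0 : Lam) else tau i)) := by
      rw [Ideal.span_le]
      rintro _ ⟨i, rfl⟩
      simp only [SetLike.mem_coe, RingHom.mem_ker, map_pow, coe_eval₂Hom, eval₂_X]
      split_ifs
      · simp
      · rw [pow_two]; exact tau_sq i
    exact this ha)

theorem phi_mk (U : Finset ℕ) (q : MvPolynomial ℕ (ZMod 3)) :
    phi U (Ideal.Quotient.mk I0 q) = eval₂Hom (algebraMap (ZMod 3) Lam)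
      (fun i => if i ∈ U then 0 else tau i) q := rfl

theorem phi_tau (U : Finset ℕ) (i : ℕ) : phi U (tau i) = if i ∈ U then 0 else tau i := by
  conv_lhs => rw [tau]
  rw [phi_mk, coe_eval₂Hom, eval₂_X]

theorem phi_alg (U : Finset ℕ) (c : ZMod 3) :
    phi U (algebraMap (ZMod 3) Lam c) = algebraMap (ZMod 3) Lam c := by
  show phi U (Ideal.Quotient.mk I0 (C c)) = _
  rw [phi_mk, coe_eval₂Hom, eval₂_C]

theorem phi_tauS {U S : Finset ℕ} (h : Disjoint S U) : phi U (tauS S) = tauS S := by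
  rw [tauS, map_prod]
  refine Finset.prod_congr rfl fun i hi => ?_
  rw [phi_tau, if_neg (Finset.disjoint_left.1 h hi)]

theorem ind {p : Lam → Prop} (hC : ∀ c, p (algebraMap (ZMod 3) Lam c))
    (hadd : ∀ x y, p x → p y → p (x + y)) (hmul : ∀ x i, p x → p (x * tau i)) : ∀ x, p x := by
  intro x
  obtain ⟨q, rfl⟩ := Ideal.Quotient.mk_surjective x
  induction q using MvPolynomial.induction_on with
  | C a => exact hC a
  | add p q hp hq => rw [map_add]; exact hadd _ _ hp hq
  | mul_X p i hp => rw [map_mul]; exact hmul _ _ hp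

theorem exists_phi (x : Lam) : ∃ U : Finset ℕ, ∀ U', U ⊆ U' →
    phi U' x = algebraMap (ZMod 3) Lam (eps x) := by
  revert x
  apply ind
  · intro c
    exact ⟨∅, fun U' _ => by rw [phi_alg, eps_alg]⟩
  · rintro x y ⟨U, hU⟩ ⟨V, hV⟩
    refine ⟨U ∪ V, fun U' h => ?_⟩
    rw [map_add, map_add, map_add, hU U' (Finset.union_subset_left h),
      hV U' (Finset.union_subset_right h)]
  · rintro x i -
    refine ⟨{i}, fun U' h => ?_⟩
    rw [map_mul, map_mul, phi_tau, eps_tau, if_pos (h (Finset.mem_singleton_self i))]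
    simp

instance : Nontrivial Lam := eps.domain_nontrivial

instance : CharP Lam 3 :=
  charP_of_injective_algebraMap (algebraMap (ZMod 3) Lam).injective 3

theorem cube (x : Lam) : x ^ 3 = algebraMap (ZMod 3) Lam (eps x) := by
  revert x
  apply ind
  · intro c
    rw [eps_alg, ← map_pow]
    congr 1
    revert c; decide
  · intro x y hx hy
    rw [add_pow_char, hx, hy, map_add, map_add]
  · intro x i hx
    rw [mul_pow, map_mul, eps_tau, mul_zero, map_zero, pow_succ (tau i), pow_two, tau_sq]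
    ring

theorem nilp {x : Lam} (h : eps x = 0) : x ^ 3 = 0 := by
  rw [cube, h, map_zero]

theorem three_eq_zero : (3 : Lam) = 0 := by
  have := CharP.cast_eq_zero Lam 3
  exact_mod_cast this

end

end Pool.Agent.H5.Ext
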