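import Mathlib

set_option autoImplicit false

namespace Pool.Agent.H5.M0ef770

/-- The equation `x - 2 y = p(z)` is partition regular over the positive integers: for every
colouring with finitely many colours there are positive `x, y, z` of the same colour solving it. -/
def IsPartitionRegular (p : Polynomial ℤ) : Prop :=
  ∀ (r : ℕ) (c : ℕ → Fin r), ∃ x y z : ℕ, 0 < x ∧ 0 < y ∧ 0 < z ∧ c x = c y ∧ c y = c z ∧
    (x : ℤ) - 2 * (y : ℤ) = p.eval (z : ℤ)

/-- logarithmic colour: same colour excludes ratio of squares in `[b, b^3)` -/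
theorem log_sep (b u v : ℕ) (hb : 2 ≤ b) (hu : 0 < u) (h1 : b * u ≤ v) (h2 : v < b ^ 3 * u) :
    Nat.log b v % 4 ≠ Nat.log b u % 4 := by
  have hv : 0 < v := lt_of_lt_of_le (Nat.mul_pos (by omega) hu) h1
  set k := Nat.log b u with hk
  have a1 : b ^ k ≤ u := Nat.pow_log_le_self b (by omega)
  have a2 : u < b ^ (k + 1) := Nat.lt_pow_succ_log_self (by omega) u
  have b1 : k + 1 ≤ Nat.log b v := by
    apply Nat.le_log_of_pow_le (by omega)
    calc b ^ (k + 1) = b * b ^ k := by ring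
      _ ≤ b * u := Nat.mul_le_mul_left _ a1
      _ ≤ v := h1
  have b2 : Nat.log b v < k + 4 := by
    apply Nat.log_lt_of_lt_pow (by omega)
    calc v < b ^ 3 * u := h2
      _ ≤ b ^ 3 * b ^ (k + 1) := Nat.mul_le_mul_left _ a2.le
      _ = b ^ (k + 4) := by ring
  omega

theorem poly_bound (p : Polynomial ℤ) (hd : 1 ≤ p.natDegree) :
    ∃ A : ℕ, ∀ z : ℕ, A ≤ z → z ^ p.natDegree ≤ 2 * (p.eval (z : ℤ)).natAbs ∧
      (p.eval (z : ℤ)).natAbs ≤ A * z ^ p.natDegree := by
  set d := p.natDegree with hdd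
  obtain ⟨e, he⟩ : ∃ e, d = e + 1 := ⟨d - 1, by omega⟩
  let B : ℤ := ∑ i ∈ Finset.range d, |p.coeff i|
  have hB : 0 ≤ B := Finset.sum_nonneg (fun i _ => abs_nonneg _)
  have hlead : p.coeff d ≠ 0 := by
    rw [hdd]
    apply Polynomial.leadingCoeff_ne_zero.2
    rintro rfl
    simp at hdd; omega
  have hlow : ∀ z : ℕ, 1 ≤ z → |p.eval (z : ℤ) - p.coeff d * (z : ℤ) ^ d| ≤ B * (z : ℤ) ^ e := by
    intro z hz
    have hz' : (1 : ℤ) ≤ (z : ℤ) := by exact_mod_cast hz
    rw [Polynomial.eval_eq_sum_range, ← hdd, Finset.sum_range_succ, add_sub_cancel_right]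
    calc |∑ i ∈ Finset.range d, p.coeff i * (z : ℤ) ^ i|
        ≤ ∑ i ∈ Finset.range d, |p.coeff i * (z : ℤ) ^ i| := Finset.abs_sum_le_sum_abs _ _
      _ ≤ ∑ i ∈ Finset.range d, |p.coeff i| * (z : ℤ) ^ e := by
          apply Finset.sum_le_sum
          intro i hi
          rw [Finset.mem_range] at hi
          rw [abs_mul, abs_of_nonneg (pow_nonneg (by omega : (0 : ℤ) ≤ z) i)]
          apply mul_le_mul_of_nonneg_left _ (abs_nonneg _)
          exact pow_le_pow_right₀ hz' (by omega)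
      _ = B * (z : ℤ) ^ e := by rw [Finset.sum_mul]
  refine ⟨(2 * B + |p.coeff d| + 1).toNat, ?_⟩
  intro z hz
  have hA : ((2 * B + |p.coeff d| + 1).toNat : ℤ) = 2 * B + |p.coeff d| + 1 :=
    Int.toNat_of_nonneg (by positivity)
  have hz1 : 2 * B + |p.coeff d| + 1 ≤ (z : ℤ) := by
    rw [← hA]; exact_mod_cast hz
  have hc1 : 1 ≤ |p.coeff d| := Int.one_le_abs hlead
  have hz0 : 1 ≤ z := by
    have : (1 : ℤ) ≤ (z : ℤ) := by linarith
    exact_mod_cast this
  have h1 := hlow z hz0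
  have hze : (1 : ℤ) ≤ (z : ℤ) ^ e := one_le_pow₀ (by exact_mod_cast hz0)
  have hzd : (z : ℤ) ^ d = (z : ℤ) ^ e * (z : ℤ) := by rw [he, pow_succ]
  have h2 : |p.coeff d * (z : ℤ) ^ d| = |p.coeff d| * (z : ℤ) ^ d := by
    rw [abs_mul, abs_of_nonneg (pow_nonneg (by omega : (0 : ℤ) ≤ z) d)]
  have h3 : |p.coeff d * (z : ℤ) ^ d| ≤ |p.eval (z : ℤ)| + B * (z : ℤ) ^ e := by
    have := abs_sub_abs_le_abs_sub (p.coeff d * (z : ℤ) ^ d) (p.eval (z : ℤ))
    rw [abs_sub_comm] at this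
    linarith
  have h4 : |p.eval (z : ℤ)| ≤ |p.coeff d * (z : ℤ) ^ d| + B * (z : ℤ) ^ e := by
    have := abs_sub_abs_le_abs_sub (p.eval (z : ℤ)) (p.coeff d * (z : ℤ) ^ d)
    linarith
  have h5 : 2 * B * (z : ℤ) ^ e ≤ (z : ℤ) ^ d := by
    rw [hzd, mul_comm]
    apply mul_le_mul_of_nonneg_left _ (by linarith)
    linarith
  have hzdpos : 0 ≤ (z : ℤ) ^ d := by positivity
  constructor
  · have : (z : ℤ) ^ d ≤ 2 * |p.eval (z : ℤ)| := by
      rw [h2] at h3
      have h6 : (z : ℤ) ^ d ≤ |p.coeff d| * (z : ℤ) ^ d := le_mul_of_one_le_left hzdpos hc1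
      linarith
    rw [Int.abs_eq_natAbs] at this
    exact_mod_cast this
  · have : |p.eval (z : ℤ)| ≤ (2 * B + |p.coeff d| + 1) * (z : ℤ) ^ d := by
      rw [h2] at h4
      have h7 : B * (z : ℤ) ^ e ≤ B * (z : ℤ) ^ d := by
        apply mul_le_mul_of_nonneg_left _ hB
        rw [hzd]
        exact le_mul_of_one_le_right (by linarith) (by exact_mod_cast hz0)
      have h8 : 0 ≤ B * (z : ℤ) ^ d := mul_nonneg hB hzdpos
      nlinarith
    rw [← hA, Int.abs_eq_natAbs] at this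
    exact_mod_cast this

theorem not_pr (p : Polynomial ℤ) (hd : 2 ≤ p.natDegree)
    (hno : ∀ z : ℕ, 0 < z → p.eval (z : ℤ) ≠ -(z : ℤ)) : ¬ IsPartitionRegular p := by
  intro hpr
  obtain ⟨A, hA⟩ := poly_bound p (by omega)
  set d := p.natDegree with hdd
  -- threshold
  obtain ⟨Bd, hBd0⟩ : ∃ Bd, Bd = d + Nat.log 2 (5 * A + 5) + 2 := ⟨_, rfl⟩
  obtain ⟨L0, hL0⟩ : ∃ L0, L0 = 2 * Bd + 4 := ⟨_, rfl⟩
  obtain ⟨N0, hN0⟩ : ∃ N0, N0 = A + 2 ^ L0 := ⟨_, rfl⟩
  let c1 : ℕ → ℕ := fun n => Nat.log 2 (n ^ 2) % 4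
  let c2 : ℕ → ℕ := fun n => Nat.log d ((Nat.log 2 n) ^ 2) % 4
  have hc1 : ∀ n, c1 n < 4 := fun n => Nat.mod_lt _ (by norm_num)
  have hc2 : ∀ n, c2 n < 4 := fun n => Nat.mod_lt _ (by norm_num)
  let c : ℕ → Fin (N0 + 1 + 16) := fun n =>
    if h : n ≤ N0 then ⟨n, by omega⟩ else ⟨N0 + 1 + (4 * c1 n + c2 n), by
      have := hc1 n; have := hc2 n; omega⟩
  obtain ⟨x, y, z, hx, hy, hz, hxy, hyz, heq⟩ := hpr _ c
  by_cases hzN : z ≤ N0
  · -- small colours
    have hcz : (c z).val = z := by simp only [c, dif_pos hzN]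
    have hyN : y = z := by
      have h1 : (c y).val = z := by rw [hyz, hcz]
      by_cases hy' : y ≤ N0
      · simpa only [c, dif_pos hy'] using h1
      · simp only [c, dif_neg hy'] at h1; omega
    have hxN : x = z := by
      have h1 : (c x).val = z := by rw [hxy, hyz, hcz]
      by_cases hx' : x ≤ N0
      · simpa only [c, dif_pos hx'] using h1
      · simp only [c, dif_neg hx'] at h1; omega
    apply hno z hz
    rw [← heq, hxN, hyN]; ring
  · have hcz : (c z).val = N0 + 1 + (4 * c1 z + c2 z) := by simp only [c, dif_neg hzN]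
    have hbig : ∀ w, (c w).val = (c z).val → c1 w = c1 z ∧ c2 w = c2 z := by
      intro w hw
      rw [hcz] at hw
      by_cases hw' : w ≤ N0
      · simp only [c, dif_pos hw'] at hw; omega
      · simp only [c, dif_neg hw'] at hw
        have := hc1 w; have := hc2 w; have := hc1 z; have := hc2 z
        omega
    obtain ⟨y1, y2⟩ := hbig y (by rw [hyz])
    obtain ⟨x1, x2⟩ := hbig x (by rw [hxy, hyz])
    push Not at hzN
    have hAz : A ≤ z := by
      calc A ≤ A + 2 ^ L0 := Nat.le_add_right _ _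
        _ = N0 := hN0.symm
        _ ≤ z := hzN.le
    obtain ⟨p1, p2⟩ := hA z hAz
    set P := p.eval (z : ℤ) with hP
    -- |P| > y / 2
    have hPy : y < 2 * P.natAbs := by
      by_contra hcon
      push Not at hcon
      have e1 : (2 : ℤ) * |P| ≤ y := by
        rw [Int.abs_eq_natAbs]; exact_mod_cast hcon
      have e2 : (3 : ℤ) * y ≤ 2 * x := by
        have := neg_abs_le P
        linarith
      have e3 : (2 : ℤ) * x ≤ 5 * y := by
        have := le_abs_self P
        linarith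
      have e2' : 3 * y ≤ 2 * x := by exact_mod_cast e2
      have e3' : 2 * x ≤ 5 * y := by exact_mod_cast e3
      have := log_sep 2 (y ^ 2) (x ^ 2) (by norm_num) (by positivity) (by nlinarith) (by nlinarith)
      apply this
      show c1 x = c1 y
      rw [x1, y1]
    -- choose w
    have hw : ∃ w, c2 w = c2 z ∧ P.natAbs ≤ 2 * w ∧ w ≤ 5 * P.natAbs := by
      rcases le_total 0 P with h0 | h0
      · refine ⟨x, x2, ?_, ?_⟩
        · zify; rw [abs_of_nonneg h0]; linarith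
        · have : ((y : ℕ) : ℤ) < 2 * |P| := by rw [Int.abs_eq_natAbs]; exact_mod_cast hPy
          zify; rw [abs_of_nonneg h0] at *; linarith
      · refine ⟨y, y2, ?_, ?_⟩
        · zify; rw [abs_of_nonpos h0]
          have : (0 : ℤ) < x := by exact_mod_cast hx
          linarith
        · omega
    obtain ⟨w, w1, w2, w3⟩ := hw
    set L := Nat.log 2 z with hL
    have hLL : L0 ≤ L := by
      apply Nat.le_log_of_pow_le (by norm_num)
      omega
    have z1 : 2 ^ L ≤ z := Nat.pow_log_le_self 2 (by omega)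
    have z2 : z < 2 ^ (L + 1) := Nat.lt_pow_succ_log_self (by norm_num) z
    -- lower bound for log w
    have l1 : d * L - 2 ≤ Nat.log 2 w := by
      apply Nat.le_log_of_pow_le (by norm_num)
      have h1 : 2 ^ (d * L) ≤ 4 * w := by
        calc 2 ^ (d * L) = (2 ^ L) ^ d := by rw [← pow_mul, mul_comm]
          _ ≤ z ^ d := Nat.pow_le_pow_left z1 d
          _ ≤ 2 * P.natAbs := p1
          _ ≤ 4 * w := by omega
      have h2 : 2 ^ (d * L) = 4 * 2 ^ (d * L - 2) := by
        have h3 : 2 ≤ d * L := by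
          have := Nat.mul_le_mul hd (show 4 ≤ L by omega)
          omega
        calc 2 ^ (d * L) = 2 ^ (2 + (d * L - 2)) := by rw [Nat.add_sub_cancel' h3]
          _ = 4 * 2 ^ (d * L - 2) := by rw [pow_add]; norm_num
      omega
    have l2 : Nat.log 2 w < d * L + Bd := by
      apply Nat.log_lt_of_lt_pow (by
        rintro rfl
        have : 0 < z ^ d := by positivity
        omega)
      have h1 : 5 * A + 5 < 2 ^ (Nat.log 2 (5 * A + 5) + 1) := Nat.lt_pow_succ_log_self (by norm_num) _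
      have h2 : z ^ d ≤ 2 ^ ((L + 1) * d) := by
        rw [pow_mul]; exact Nat.pow_le_pow_left z2.le d
      calc w ≤ 5 * P.natAbs := w3
        _ ≤ 5 * (A * z ^ d) := Nat.mul_le_mul_left 5 p2
        _ ≤ 5 * (A * z ^ d) + 5 * z ^ d := Nat.le_add_right _ _
        _ = (5 * A + 5) * z ^ d := by ring
        _ ≤ (5 * A + 5) * 2 ^ ((L + 1) * d) := Nat.mul_le_mul_left _ h2
        _ < 2 ^ (Nat.log 2 (5 * A + 5) + 1) * 2 ^ ((L + 1) * d) :=
            Nat.mul_lt_mul_of_pos_right h1 (by positivity)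
        _ = 2 ^ (d * L + d + Nat.log 2 (5 * A + 5) + 1) := by rw [← pow_add]; congr 1; ring
        _ ≤ 2 ^ (d * L + Bd) := Nat.pow_le_pow_right (by norm_num) (by
            rw [hBd0]; omega)
    have hBL : 2 * Bd + 4 ≤ L := by omega
    obtain ⟨e, he⟩ : ∃ e, d = e + 2 := ⟨d - 2, by omega⟩
    have hdL : 2 * L ≤ d * L := Nat.mul_le_mul_right L hd
    have s1 : d * L ^ 2 ≤ (Nat.log 2 w) ^ 2 := by
      have h1 : d * L ≤ Nat.log 2 w + 2 := by omega
      have h2 : d * L ^ 2 ≤ (d * L - 2) ^ 2 := by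
        obtain ⟨g, hg⟩ : ∃ g, d * L = g + 2 := ⟨d * L - 2, by omega⟩
        have h4 : d * L - 2 = g := by omega
        rw [h4]
        have h5 : d * L ^ 2 = (g + 2) * L := by rw [← hg]; ring
        rw [h5]
        have h6 : 2 * L ≤ g + 2 := by rw [← hg]; exact hdL
        have h7 : 6 ≤ g := by omega
        have h8 := Nat.mul_le_mul_left (g + 2) h6
        have h9 := Nat.mul_le_mul_left g h7
        have h10 : (g + 2) * (2 * L) = 2 * ((g + 2) * L) := by ring
        have h11 : (g + 2) * (g + 2) = g * g + 4 * g + 4 := by ring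
        have h12 : g ^ 2 = g * g := by ring
        omega
      exact le_trans h2 (Nat.pow_le_pow_left (by omega) 2)
    have s2 : (Nat.log 2 w) ^ 2 < d ^ 3 * L ^ 2 := by
      have h1 : (Nat.log 2 w) ^ 2 < (d * L + Bd) ^ 2 := Nat.pow_lt_pow_left l2 (by norm_num)
      have h2 : (d * L + Bd) ^ 2 ≤ d ^ 3 * L ^ 2 := by
        have h3 : 2 * Bd ≤ L := by omega
        have h4 : 2 * (d * L + Bd) ≤ (2 * d + 1) * L := by
          have : (2 * d + 1) * L = 2 * (d * L) + L := by ring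
          omega
        have h5 : 4 * (d * L + Bd) ^ 2 ≤ (2 * d + 1) ^ 2 * L ^ 2 := by
          calc 4 * (d * L + Bd) ^ 2 = (2 * (d * L + Bd)) ^ 2 := by ring
            _ ≤ ((2 * d + 1) * L) ^ 2 := Nat.pow_le_pow_left h4 2
            _ = _ := by ring
        have h6 : (2 * d + 1) ^ 2 ≤ 4 * d ^ 3 := by
          rw [he]
          have : 4 * (e + 2) ^ 3 = (2 * (e + 2) + 1) ^ 2 + (4 * e ^ 3 + 20 * e ^ 2 + 28 * e + 7) := by
            ring
          omega
        have h7 : (2 * d + 1) ^ 2 * L ^ 2 ≤ 4 * d ^ 3 * L ^ 2 := Nat.mul_le_mul_right _ h6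
        have h8 : 4 * d ^ 3 * L ^ 2 = 4 * (d ^ 3 * L ^ 2) := by ring
        omega
      exact lt_of_lt_of_le h1 h2
    have := log_sep d (L ^ 2) ((Nat.log 2 w) ^ 2) hd (pow_pos (by omega) 2) s1 s2
    exact this w1

theorem pr_of_const (p : Polynomial ℤ) (z : ℕ) (hz : 0 < z) (h : p.eval (z : ℤ) = -(z : ℤ)) :
    IsPartitionRegular p := by
  intro r c
  exact ⟨z, z, z, hz, hz, hz, rfl, rfl, by rw [h]; ring⟩

theorem main (p : Polynomial ℤ) (hd : 2 ≤ p.natDegree) :
    IsPartitionRegular p ↔ ∃ z : ℕ, 0 < z ∧ p.eval (z : ℤ) = -(z : ℤ) := by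
  constructor
  · intro h
    by_contra hno
    push Not at hno
    exact not_pr p hd hno h
  · rintro ⟨z, hz, h⟩
    exact pr_of_const p z hz h

end Pool.Agent.H5.M0ef770
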