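import Mathlib

set_option autoImplicit false

namespace Pool.Agent.H5.M195d7c

section Words

variable {σ : Type} [DecidableEq σ]

/-- The letter `a` of the target alphabet. -/
abbrev la : Bool ⊕ σ := Sum.inl false
/-- The letter `b` of the target alphabet. -/
abbrev lb : Bool ⊕ σ := Sum.inl true

/-- Images of the letters under the first morphism. -/
def hh (x y z s : σ) : List (Bool ⊕ σ) :=
  if s = x then [la, la, lb, la, lb]
  else if s = y then [la, lb, la]
  else if s = z then [la, lb, la, lb]
  else [Sum.inr s]

/-- Images of the letters under the second morphism. -/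
def gg (x y z s : σ) : List (Bool ⊕ σ) :=
  if s = x then [la]
  else if s = y then [lb, la, lb, la, la, lb, la]
  else if s = z then [lb, la, lb, la]
  else [Sum.inr s]

variable (x y z : σ) (hxy : x ≠ y) (hxz : x ≠ z) (hyz : y ≠ z)

theorem hh_x : hh x y z x = [la, la, lb, la, lb] := if_pos rfl
include hxy in
theorem hh_y : hh x y z y = [la, lb, la] := by
  unfold hh
  rw [if_neg hxy.symm, if_pos rfl]
include hxz hyz in
theorem hh_z : hh x y z z = [la, lb, la, lb] := by
  unfold hh
  rw [if_neg hxz.symm, if_neg hyz.symm, if_pos rfl]
theorem hh_o (s : σ) (h1 : s ≠ x) (h2 : s ≠ y) (h3 : s ≠ z) : hh x y z s = [Sum.inr s] := by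
  unfold hh
  rw [if_neg h1, if_neg h2, if_neg h3]

theorem gg_x : gg x y z x = [la] := if_pos rfl
include hxy in
theorem gg_y : gg x y z y = [lb, la, lb, la, la, lb, la] := by
  unfold gg
  rw [if_neg hxy.symm, if_pos rfl]
include hxz hyz in
theorem gg_z : gg x y z z = [lb, la, lb, la] := by
  unfold gg
  rw [if_neg hxz.symm, if_neg hyz.symm, if_pos rfl]
theorem gg_o (s : σ) (h1 : s ≠ x) (h2 : s ≠ y) (h3 : s ≠ z) : gg x y z s = [Sum.inr s] := by
  unfold gg
  rw [if_neg h1, if_neg h2, if_neg h3]

/-- The first morphism on lists. -/
def HH (w : List σ) : List (Bool ⊕ σ) := w.flatMap (hh x y z)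
/-- The second morphism on lists. -/
def GG (w : List σ) : List (Bool ⊕ σ) := w.flatMap (gg x y z)

theorem HH_nil : HH x y z [] = [] := rfl
theorem GG_nil : GG x y z [] = [] := rfl
theorem HH_cons (s : σ) (w : List σ) : HH x y z (s :: w) = hh x y z s ++ HH x y z w := rfl
theorem GG_cons (s : σ) (w : List σ) : GG x y z (s :: w) = gg x y z s ++ GG x y z w := rfl
theorem HH_append (u w : List σ) : HH x y z (u ++ w) = HH x y z u ++ HH x y z w := by
  unfold HH
  rw [List.flatMap_append]
theorem GG_append (u w : List σ) : GG x y z (u ++ w) = GG x y z u ++ GG x y z w := by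
  unfold GG
  rw [List.flatMap_append]

include hxy hxz hyz in
/-- No image under the first morphism starts with `b`. -/
theorem HH_ne_b (w : List σ) (t : List (Bool ⊕ σ)) : HH x y z w ≠ lb :: t := by
  cases w with
  | nil => simp [HH_nil]
  | cons s w =>
    rw [HH_cons]
    by_cases h1 : s = x
    · subst h1; rw [hh_x]; simp [la, lb]
    · by_cases h2 : s = y
      · subst h2; rw [hh_y x s z hxy]; simp [la, lb]
      · by_cases h3 : s = z
        · subst h3; rw [hh_z x y s hxz hyz]; simp [la, lb]
        · rw [hh_o x y z s h1 h2 h3]; simp [lb]

include hxy hxz hyz in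
theorem HH_inj (u : List σ) : ∀ v : List σ, HH x y z u = HH x y z v → u = v := by
  induction u with
  | nil =>
    intro v h
    cases v with
    | nil => rfl
    | cons s w =>
      exfalso
      rw [HH_nil, HH_cons] at h
      by_cases h1 : s = x
      · subst h1; rw [hh_x] at h; simp at h
      · by_cases h2 : s = y
        · subst h2; rw [hh_y x s z hxy] at h; simp at h
        · by_cases h3 : s = z
          · subst h3; rw [hh_z x y s hxz hyz] at h; simp at h
          · rw [hh_o x y z s h1 h2 h3] at h; simp at h
  | cons r u ih =>
    intro v h
    cases v with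
    | nil =>
      exfalso
      rw [HH_nil, HH_cons] at h
      by_cases h1 : r = x
      · subst h1; rw [hh_x] at h; simp at h
      · by_cases h2 : r = y
        · subst h2; rw [hh_y x r z hxy] at h; simp at h
        · by_cases h3 : r = z
          · subst h3; rw [hh_z x y r hxz hyz] at h; simp at h
          · rw [hh_o x y z r h1 h2 h3] at h; simp at h
    | cons s v =>
      have hkey : r = s := by
        rw [HH_cons, HH_cons] at h
        by_cases r1 : r = x
        · rw [r1, hh_x] at h
          by_cases h1 : s = x
          · rw [r1, h1]
          · exfalso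
            by_cases h2 : s = y
            · rw [h2, hh_y x y z hxy] at h; simp [la, lb] at h
            · by_cases h3 : s = z
              · rw [h3, hh_z x y z hxz hyz] at h; simp [la, lb] at h
              · rw [hh_o x y z s h1 h2 h3] at h; simp [la] at h
        · by_cases r2 : r = y
          · rw [r2, hh_y x y z hxy] at h
            by_cases h1 : s = x
            · exfalso; rw [h1, hh_x] at h; simp [la, lb] at h
            · by_cases h2 : s = y
              · rw [r2, h2]
              · exfalso
                by_cases h3 : s = z
                · rw [h3, hh_z x y z hxz hyz] at h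
                  simp only [List.cons_append, List.nil_append, List.cons.injEq, true_and] at h
                  exact HH_ne_b x y z hxy hxz hyz u _ h
                · rw [hh_o x y z s h1 h2 h3] at h; simp [la] at h
          · by_cases r3 : r = z
            · rw [r3, hh_z x y z hxz hyz] at h
              by_cases h1 : s = x
              · exfalso; rw [h1, hh_x] at h; simp [la, lb] at h
              · by_cases h2 : s = y
                · exfalso
                  rw [h2, hh_y x y z hxy] at h
                  simp only [List.cons_append, List.nil_append, List.cons.injEq, true_and] at h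
                  exact HH_ne_b x y z hxy hxz hyz v _ h.symm
                · by_cases h3 : s = z
                  · rw [r3, h3]
                  · exfalso; rw [hh_o x y z s h1 h2 h3] at h; simp [la] at h
            · rw [hh_o x y z r r1 r2 r3] at h
              by_cases h1 : s = x
              · exfalso; rw [h1, hh_x] at h; simp [la] at h
              · by_cases h2 : s = y
                · exfalso; rw [h2, hh_y x y z hxy] at h; simp [la] at h
                · by_cases h3 : s = z
                  · exfalso; rw [h3, hh_z x y z hxz hyz] at h; simp [la] at h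
                  · rw [hh_o x y z s h1 h2 h3] at h
                    simp only [List.cons_append, List.nil_append, List.cons.injEq] at h
                    exact Sum.inr_injective h.1
      subst hkey
      rw [HH_cons, HH_cons] at h
      rw [ih v (List.append_cancel_left h)]

include hxy hxz hyz in
theorem GG_ne_baa (w : List σ) (t : List (Bool ⊕ σ)) : GG x y z w ≠ lb :: la :: la :: t := by
  cases w with
  | nil => simp [GG_nil]
  | cons s w =>
    rw [GG_cons]
    by_cases h1 : s = x
    · rw [h1, gg_x]; simp [la, lb]
    · by_cases h2 : s = y
      · rw [h2, gg_y x y z hxy]; simp [la, lb]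
      · by_cases h3 : s = z
        · rw [h3, gg_z x y z hxz hyz]; simp [la, lb]
        · rw [gg_o x y z s h1 h2 h3]; simp [lb]

include hxy hxz hyz in
theorem GG_ba (n : ℕ) : ∀ u v : List σ, u.length + v.length ≤ n →
    lb :: la :: GG x y z u ≠ GG x y z v := by
  induction n with
  | zero =>
    intro u v hn h
    have h1 : u = [] := List.length_eq_zero_iff.1 (by omega)
    have h2 : v = [] := List.length_eq_zero_iff.1 (by omega)
    subst h1
    subst h2
    simp [GG_nil] at h
  | succ n ih =>
    intro u v hn h
    cases v with
    | nil => simp [GG_nil] at h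
    | cons s v =>
      rw [List.length_cons] at hn
      rw [GG_cons] at h
      by_cases h1 : s = x
      · rw [h1, gg_x] at h; simp [la, lb] at h
      · by_cases h2 : s = y
        · rw [h2, gg_y x y z hxy] at h
          simp only [List.cons_append, List.nil_append, List.cons.injEq, true_and] at h
          exact GG_ne_baa x y z hxy hxz hyz u _ h
        · by_cases h3 : s = z
          · rw [h3, gg_z x y z hxz hyz] at h
            simp only [List.cons_append, List.nil_append, List.cons.injEq, true_and] at h
            exact ih v u (by omega) h.symm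
          · rw [gg_o x y z s h1 h2 h3] at h; simp [lb] at h

include hxy hxz hyz in
theorem GG_aba (u v : List σ) : la :: lb :: la :: GG x y z u ≠ GG x y z v := by
  intro h
  cases v with
  | nil => simp [GG_nil] at h
  | cons s v =>
    rw [GG_cons] at h
    by_cases h1 : s = x
    · rw [h1, gg_x] at h
      simp only [List.cons_append, List.nil_append, List.cons.injEq, true_and] at h
      exact GG_ba x y z hxy hxz hyz _ u v le_rfl h
    · by_cases h2 : s = y
      · rw [h2, gg_y x y z hxy] at h; simp [la, lb] at h
      · by_cases h3 : s = z
        · rw [h3, gg_z x y z hxz hyz] at h; simp [la, lb] at h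
        · rw [gg_o x y z s h1 h2 h3] at h; simp [la] at h

include hxy hxz hyz in
theorem GG_inj (u : List σ) : ∀ v : List σ, GG x y z u = GG x y z v → u = v := by
  induction u with
  | nil =>
    intro v h
    cases v with
    | nil => rfl
    | cons s w =>
      exfalso
      rw [GG_nil, GG_cons] at h
      by_cases h1 : s = x
      · subst h1; rw [gg_x] at h; simp at h
      · by_cases h2 : s = y
        · subst h2; rw [gg_y x s z hxy] at h; simp at h
        · by_cases h3 : s = z
          · subst h3; rw [gg_z x y s hxz hyz] at h; simp at h
          · rw [gg_o x y z s h1 h2 h3] at h; simp at h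
  | cons r u ih =>
    intro v h
    cases v with
    | nil =>
      exfalso
      rw [GG_nil, GG_cons] at h
      by_cases h1 : r = x
      · subst h1; rw [gg_x] at h; simp at h
      · by_cases h2 : r = y
        · subst h2; rw [gg_y x r z hxy] at h; simp at h
        · by_cases h3 : r = z
          · subst h3; rw [gg_z x y r hxz hyz] at h; simp at h
          · rw [gg_o x y z r h1 h2 h3] at h; simp at h
    | cons s v =>
      have hkey : r = s := by
        rw [GG_cons, GG_cons] at h
        by_cases r1 : r = x
        · rw [r1, gg_x] at h
          by_cases h1 : s = x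
          · rw [r1, h1]
          · exfalso
            by_cases h2 : s = y
            · rw [h2, gg_y x y z hxy] at h; simp [la, lb] at h
            · by_cases h3 : s = z
              · rw [h3, gg_z x y z hxz hyz] at h; simp [la, lb] at h
              · rw [gg_o x y z s h1 h2 h3] at h; simp [la] at h
        · by_cases r2 : r = y
          · rw [r2, gg_y x y z hxy] at h
            by_cases h1 : s = x
            · exfalso; rw [h1, gg_x] at h; simp [la, lb] at h
            · by_cases h2 : s = y
              · rw [r2, h2]
              · exfalso
                by_cases h3 : s = z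
                · rw [h3, gg_z x y z hxz hyz] at h
                  simp only [List.cons_append, List.nil_append, List.cons.injEq, true_and] at h
                  exact GG_aba x y z hxy hxz hyz u v h
                · rw [gg_o x y z s h1 h2 h3] at h; simp [lb] at h
          · by_cases r3 : r = z
            · rw [r3, gg_z x y z hxz hyz] at h
              by_cases h1 : s = x
              · exfalso; rw [h1, gg_x] at h; simp [la, lb] at h
              · by_cases h2 : s = y
                · exfalso
                  rw [h2, gg_y x y z hxy] at h
                  simp only [List.cons_append, List.nil_append, List.cons.injEq, true_and] at h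
                  exact GG_aba x y z hxy hxz hyz v u h.symm
                · by_cases h3 : s = z
                  · rw [r3, h3]
                  · exfalso; rw [gg_o x y z s h1 h2 h3] at h; simp [lb] at h
            · rw [gg_o x y z r r1 r2 r3] at h
              by_cases h1 : s = x
              · exfalso; rw [h1, gg_x] at h; simp [la] at h
              · by_cases h2 : s = y
                · exfalso; rw [h2, gg_y x y z hxy] at h; simp [lb] at h
                · by_cases h3 : s = z
                  · exfalso; rw [h3, gg_z x y z hxz hyz] at h; simp [lb] at h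
                  · rw [gg_o x y z s h1 h2 h3] at h
                    simp only [List.cons_append, List.nil_append, List.cons.injEq] at h
                    exact Sum.inr_injective h.1
      subst hkey
      rw [GG_cons, GG_cons] at h
      rw [ih v (List.append_cancel_left h)]

/-! ### The infinite family -/

/-- `(abab)^i` -/
def AA : ℕ → List (Bool ⊕ σ)
  | 0 => []
  | i + 1 => la :: lb :: la :: lb :: AA i
/-- `(baba)^i` -/
def BB : ℕ → List (Bool ⊕ σ)
  | 0 => []
  | i + 1 => lb :: la :: lb :: la :: BB i

omit [DecidableEq σ] in
theorem AA_length (i : ℕ) : (AA i : List (Bool ⊕ σ)).length = 4 * i := by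
  induction i with
  | zero => rfl
  | succ i ih =>
    show (AA i : List (Bool ⊕ σ)).length + 1 + 1 + 1 + 1 = _
    rw [ih]
    ring

omit [DecidableEq σ] in
theorem AA_a (i : ℕ) (t : List (Bool ⊕ σ)) : AA i ++ la :: t = la :: (BB i ++ t) := by
  induction i with
  | zero => rfl
  | succ i ih =>
    show la :: lb :: la :: lb :: (AA i ++ la :: t) = la :: (lb :: la :: lb :: la :: (BB i ++ t))
    rw [ih]

omit [DecidableEq σ] in
theorem AA_abab (i : ℕ) : AA i ++ [la, lb, la, lb] = (AA (i + 1) : List (Bool ⊕ σ)) := by
  induction i with
  | zero => rfl
  | succ i ih =>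
    show la :: lb :: la :: lb :: (AA i ++ [la, lb, la, lb]) =
      la :: lb :: la :: lb :: (AA (i + 1) : List (Bool ⊕ σ))
    rw [ih]

omit [DecidableEq σ] in
theorem BB_ba (i : ℕ) : BB i ++ [lb, la] = (lb :: la :: BB i : List (Bool ⊕ σ)) := by
  induction i with
  | zero => rfl
  | succ i ih =>
    show lb :: la :: lb :: la :: (BB i ++ [lb, la]) =
      (lb :: la :: lb :: la :: lb :: la :: BB i : List (Bool ⊕ σ))
    rw [ih]

/-- The state `(baba)^j (abab)^i`. -/
def st (j i : ℕ) : List (Bool ⊕ σ) := BB j ++ AA i

/-- Reading `w` turns the overflow `o` into `o'`. -/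
def Go (o : List (Bool ⊕ σ)) (w : List σ) (o' : List (Bool ⊕ σ)) : Prop :=
  o ++ HH x y z w = GG x y z w ++ o'

theorem Go.trans {o o' o'' : List (Bool ⊕ σ)} {w w' : List σ} (h : Go x y z o w o')
    (h' : Go x y z o' w' o'') : Go x y z o (w ++ w') o'' := by
  unfold Go at *
  rw [HH_append, GG_append, ← List.append_assoc, h, List.append_assoc, h', List.append_assoc]

theorem Go.refl (o : List (Bool ⊕ σ)) : Go x y z o [] o := by
  unfold Go
  rw [HH_nil, GG_nil, List.append_nil, List.nil_append]

include hxz hyz in
theorem Go_z (j i : ℕ) : Go x y z (st (j + 1) i) [z] (st j (i + 1)) := by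
  unfold Go
  rw [HH_cons, GG_cons, HH_nil, GG_nil, hh_z x y z hxz hyz, gg_z x y z hxz hyz]
  show lb :: la :: lb :: la :: (BB j ++ AA i) ++ _ = lb :: la :: lb :: la :: (BB j ++ AA (i + 1))
  rw [← AA_abab i]
  simp

include hxz hyz in
theorem Go_zs (k j i : ℕ) : Go x y z (st (j + k) i) (List.replicate k z) (st j (i + k)) := by
  induction k generalizing i with
  | zero => exact Go.refl x y z _
  | succ k ih =>
    have h1 := Go_z x y z hxz hyz (j + k) i
    have h2 := ih (i + 1)
    have h3 := h1.trans x y z h2
    rw [List.replicate_succ]
    have h4 : i + 1 + k = i + (k + 1) := by ring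
    rw [h4] at h3
    exact h3

theorem Go_x (n : ℕ) : Go x y z (st 0 n) [x] (st n 1) := by
  unfold Go
  rw [HH_cons, GG_cons, HH_nil, GG_nil, hh_x, gg_x, List.append_nil, List.append_nil]
  show AA n ++ la :: [la, lb, la, lb] = la :: (BB n ++ [la, lb, la, lb])
  exact AA_a n _

include hxy in
theorem Go_y (j : ℕ) : Go x y z (st 1 j) [y] (st j 0) := by
  unfold Go
  rw [HH_cons, GG_cons, HH_nil, GG_nil, hh_y x y z hxy, gg_y x y z hxy, List.append_nil,
    List.append_nil]
  show lb :: la :: lb :: la :: (AA j ++ la :: [lb, la]) =
    lb :: la :: lb :: la :: la :: lb :: la :: (BB j ++ [])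
  rw [AA_a, BB_ba, List.append_nil]

/-- The prefixes. -/
def pp : ℕ → List σ
  | 0 => []
  | n + 1 => pp n ++ ([x] ++ List.replicate n z)

/-- The returning words. -/
def rr : ℕ → List σ
  | 0 => []
  | n + 1 => List.replicate n z ++ ([y] ++ rr n)

include hxz hyz in
theorem Go_pp (n : ℕ) : Go x y z [] (pp x z n) (st 0 n) := by
  induction n with
  | zero => exact Go.refl x y z _
  | succ n ih =>
    have h1 := Go_x x y z n
    have h2 := Go_zs x y z hxz hyz n 0 1
    rw [zero_add, add_comm 1 n] at h2
    exact ih.trans x y z (h1.trans x y z h2)

include hxy hxz hyz in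
theorem Go_rr (n : ℕ) : Go x y z (st n 0) (rr y z n) [] := by
  induction n with
  | zero => exact Go.refl x y z _
  | succ n ih =>
    have h2 := Go_zs x y z hxz hyz n 1 0
    have h3 := Go_y x y z hxy n
    rw [zero_add, add_comm 1 n] at h2
    exact h2.trans x y z (h3.trans x y z ih)

include hxy hxz hyz in
theorem Go_back (m : ℕ) : ∃ q, Go x y z (st 0 (m + 1)) q [] := by
  have h1 := Go_x x y z (m + 1)
  have h2 := Go_zs x y z hxz hyz m 1 1
  have h3 := Go_y x y z hxy (m + 1)
  have h4 := Go_rr x y z hxy hxz hyz (m + 1)
  rw [add_comm 1 m] at h2
  exact ⟨_, h1.trans x y z (h2.trans x y z (h3.trans x y z h4))⟩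

/-- The equality language. -/
def LL : Language σ := {w | HH x y z w = GG x y z w}

theorem mem_LL (w : List σ) : w ∈ LL x y z ↔ HH x y z w = GG x y z w := Iff.rfl

include hxy hxz hyz in
theorem not_regular : ¬ (LL x y z).IsRegular := by
  intro hreg
  rw [Language.isRegular_iff_finite_range_leftQuotient] at hreg
  have hinj : Function.Injective (fun m : ℕ => (LL x y z).leftQuotient (pp x z (m + 1))) := by
    intro m n hmn
    obtain ⟨q, hq⟩ := Go_back x y z hxy hxz hyz m
    have hp := Go_pp x y z hxz hyz (m + 1)
    have hpn := Go_pp x y z hxz hyz (n + 1)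
    have hpq := hp.trans x y z hq
    have h1 : q ∈ (LL x y z).leftQuotient (pp x z (m + 1)) := by
      rw [Language.mem_leftQuotient, mem_LL]
      unfold Go at hpq
      rw [List.nil_append, List.append_nil] at hpq
      exact hpq
    have h2 : q ∈ (LL x y z).leftQuotient (pp x z (n + 1)) := by
      have h0 : (LL x y z).leftQuotient (pp x z (m + 1)) =
          (LL x y z).leftQuotient (pp x z (n + 1)) := hmn
      rw [← h0]
      exact h1
    rw [Language.mem_leftQuotient, mem_LL] at h2
    rw [HH_append, GG_append] at h2
    unfold Go at hpn hq
    rw [List.nil_append] at hpn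
    rw [List.append_nil] at hq
    rw [hpn, List.append_assoc] at h2
    have h4 := List.append_cancel_left h2
    have h5 := congrArg List.length (h4.trans hq.symm)
    unfold st at h5
    simp only [List.length_append, AA_length] at h5
    have h6 : (BB 0 : List (Bool ⊕ σ)).length = 0 := rfl
    omega
  exact (Set.infinite_range_of_injective hinj) (hreg.subset (by
    rintro _ ⟨m, rfl⟩
    exact ⟨_, rfl⟩))

end Words

end Pool.Agent.H5.M195d7c
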