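import Mathlib

set_option autoImplicit false

namespace Pool.Agent.H5.M28bdbe

/-- the square with vertices (3,0), (13,2), (11,12), (1,10) -/
def K : Set (ℝ × ℝ) := {p | 15 ≤ 5 * p.1 + p.2 ∧ 5 * p.1 + p.2 ≤ 67 ∧ -3 ≤ -p.1 + 5 * p.2 ∧
  -p.1 + 5 * p.2 ≤ 49}

theorem K_convex : Convex ℝ K := by
  rintro ⟨a, b⟩ ⟨h1, h2, h3, h4⟩ ⟨c, d⟩ ⟨k1, k2, k3, k4⟩ s t hs ht hst
  simp only at h1 h2 h3 h4 k1 k2 k3 k4
  have e : t = 1 - s := by linarith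
  subst e
  refine ⟨?_, ?_, ?_, ?_⟩ <;>
    simp only [Prod.smul_mk, Prod.mk_add_mk, smul_eq_mul] <;> nlinarith

theorem K_closed : IsClosed K := by
  have h1 : Continuous fun p : ℝ × ℝ => 5 * p.1 + p.2 := by fun_prop
  have h2 : Continuous fun p : ℝ × ℝ => -p.1 + 5 * p.2 := by fun_prop
  have e : K = {p : ℝ × ℝ | 15 ≤ 5 * p.1 + p.2} ∩ ({p : ℝ × ℝ | 5 * p.1 + p.2 ≤ 67} ∩
    ({p : ℝ × ℝ | -3 ≤ -p.1 + 5 * p.2} ∩ {p : ℝ × ℝ | -p.1 + 5 * p.2 ≤ 49})) := rfl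
  rw [e]
  exact (isClosed_le continuous_const h1).inter ((isClosed_le h1 continuous_const).inter
    ((isClosed_le continuous_const h2).inter (isClosed_le h2 continuous_const)))

theorem K_compact : IsCompact K := by
  apply IsCompact.of_isClosed_subset (isCompact_Icc (a := ((-100, -100) : ℝ × ℝ)) (b := (100, 100)))
    K_closed
  rintro ⟨a, b⟩ ⟨h1, h2, h3, h4⟩
  simp only at h1 h2 h3 h4
  rw [Set.mem_Icc, Prod.mk_le_mk, Prod.mk_le_mk]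
  refine ⟨⟨?_, ?_⟩, ?_, ?_⟩ <;> linarith

theorem K_interior : (interior K).Nonempty := by
  refine ⟨(7, 6), ?_⟩
  rw [mem_interior]
  refine ⟨{p : ℝ × ℝ | 15 < 5 * p.1 + p.2} ∩ ({p : ℝ × ℝ | 5 * p.1 + p.2 < 67} ∩
    ({p : ℝ × ℝ | -3 < -p.1 + 5 * p.2} ∩ {p : ℝ × ℝ | -p.1 + 5 * p.2 < 49})), ?_, ?_, ?_⟩
  · rintro p ⟨h1, h2, h3, h4⟩
    exact ⟨le_of_lt h1, le_of_lt h2, le_of_lt h3, le_of_lt h4⟩
  · have h1 : Continuous fun p : ℝ × ℝ => 5 * p.1 + p.2 := by fun_prop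
    have h2 : Continuous fun p : ℝ × ℝ => -p.1 + 5 * p.2 := by fun_prop
    exact (isOpen_lt continuous_const h1).inter ((isOpen_lt h1 continuous_const).inter
      ((isOpen_lt continuous_const h2).inter (isOpen_lt h2 continuous_const)))
  · refine ⟨?_, ?_, ?_, ?_⟩ <;> simp only [Set.mem_setOf_eq] <;> norm_num

theorem main :
    ¬ (∀ K : Set (ℝ × ℝ), Convex ℝ K → IsCompact K → (interior K).Nonempty →
      ∃ f₁ f₂ f₃ f₄ : ℝ × ℝ → ℝ,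
        Measurable f₁ ∧ Measurable f₂ ∧ Measurable f₃ ∧ Measurable f₄ ∧
        (∃ g₁ : ℝ → ℝ, ∀ x : ℝ × ℝ, f₁ x = g₁ x.1) ∧
        (∃ g₂ : ℝ → ℝ, ∀ x : ℝ × ℝ, f₂ x = g₂ x.2) ∧
        (∃ g₃ : ℝ → ℝ, ∀ x : ℝ × ℝ, f₃ x = g₃ (2 * x.1 + x.2)) ∧
        (∃ g₄ : ℝ → ℝ, ∀ x : ℝ × ℝ, f₄ x = g₄ (-x.1 + 2 * x.2)) ∧
        K = {x : ℝ × ℝ | 0 ≤ f₁ x + f₂ x + f₃ x + f₄ x}) := by
  intro h
  obtain ⟨f₁, f₂, f₃, f₄, -, -, -, -, ⟨g₁, h₁⟩, ⟨g₂, h₂⟩, ⟨g₃, h₃⟩, ⟨g₄, h₄⟩, hK⟩ :=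
    h K K_convex K_compact K_interior
  have pos : ∀ x y : ℝ, (x, y) ∈ K →
      0 ≤ g₁ x + g₂ y + g₃ (2 * x + y) + g₄ (-x + 2 * y) := by
    intro x y hxy
    rw [hK] at hxy
    have := hxy
    simp only [Set.mem_setOf_eq, h₁, h₂, h₃, h₄] at this
    exact this
  have neg : ∀ x y : ℝ, (x, y) ∉ K →
      g₁ x + g₂ y + g₃ (2 * x + y) + g₄ (-x + 2 * y) < 0 := by
    intro x y hxy
    by_contra hcon
    push Not at hcon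
    apply hxy
    rw [hK]
    simp only [Set.mem_setOf_eq, h₁, h₂, h₃, h₄]
    exact hcon
  have p1 := pos 1 10 (by refine ⟨?_, ?_, ?_, ?_⟩ <;> norm_num)
  have p2 := pos 2 5 (by refine ⟨?_, ?_, ?_, ?_⟩ <;> norm_num)
  have p3 := pos 3 0 (by refine ⟨?_, ?_, ?_, ?_⟩ <;> norm_num)
  have p4 := pos 6 11 (by refine ⟨?_, ?_, ?_, ?_⟩ <;> norm_num)
  have p5 := pos 8 1 (by refine ⟨?_, ?_, ?_, ?_⟩ <;> norm_num)
  have p6 := pos 11 12 (by refine ⟨?_, ?_, ?_, ?_⟩ <;> norm_num)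
  have p7 := pos 12 7 (by refine ⟨?_, ?_, ?_, ?_⟩ <;> norm_num)
  have p8 := pos 13 2 (by refine ⟨?_, ?_, ?_, ?_⟩ <;> norm_num)
  have n1 := neg 1 7 (by rintro ⟨a, b, c, d⟩; simp only at a b c d; linarith)
  have n2 := neg 2 2 (by rintro ⟨a, b, c, d⟩; simp only at a b c d; linarith)
  have n3 := neg 3 11 (by rintro ⟨a, b, c, d⟩; simp only at a b c d; linarith)
  have n4 := neg 6 0 (by rintro ⟨a, b, c, d⟩; simp only at a b c d; linarith)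
  have n5 := neg 8 12 (by rintro ⟨a, b, c, d⟩; simp only at a b c d; linarith)
  have n6 := neg 11 1 (by rintro ⟨a, b, c, d⟩; simp only at a b c d; linarith)
  have n7 := neg 12 10 (by rintro ⟨a, b, c, d⟩; simp only at a b c d; linarith)
  have n8 := neg 13 5 (by rintro ⟨a, b, c, d⟩; simp only at a b c d; linarith)
  norm_num at p1 p2 p3 p4 p5 p6 p7 p8 n1 n2 n3 n4 n5 n6 n7 n8
  linarith

end Pool.Agent.H5.M28bdbe
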