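import Mathlib

set_option autoImplicit false

namespace Pool.Agent.H5.M81db1e

universe u v w

/-- A family `r` of elements of the `k`-algebra `R` is linearly dependent in some
finite-dimensional representation `(F, A)` of `R`. -/
def DependentInSomeRep (k : Type u) [Field k] (R : Type u) [Ring R] [Algebra k R] {ι : Type}
    (r : ι → R) : Prop :=
  ∃ (F : Type u) (_ : Field F) (_ : Algebra k F) (A : Type u) (_ : Ring A) (_ : Algebra F A)
    (φ : R →+* A), FiniteDimensional F A ∧ Function.Injective φ ∧
      (∀ (c : k) (x : R), φ (c • x) = algebraMap k F c • φ x) ∧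
      ¬ LinearIndependent F (fun i => φ (r i))

end Pool.Agent.H5.M81db1e
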