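import Mathlib
import Pool.Agent.H5.M81db1eDefs

set_option autoImplicit false

namespace Pool.Agent.H5.M81db1e

universe u v w

/-! ### Nilpotent algebras `K ⊕ V ⊕ W` from a bilinear map -/

section N3

variable {K : Type u} [Field K] {m n : ℕ}

/-- The underlying type. -/
@[ext] structure N3 (B : (Fin m → K) →ₗ[K] (Fin m → K) →ₗ[K] (Fin n → K)) : Type u where
  a : K
  v : Fin m → K
  w : Fin n → K

variable (B : (Fin m → K) →ₗ[K] (Fin m → K) →ₗ[K] (Fin n → K))

instance : Zero (N3 B) := ⟨⟨0, 0, 0⟩⟩
instance : One (N3 B) := ⟨⟨1, 0, 0⟩⟩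
instance : Add (N3 B) := ⟨fun x y => ⟨x.a + y.a, x.v + y.v, x.w + y.w⟩⟩
instance : Neg (N3 B) := ⟨fun x => ⟨-x.a, -x.v, -x.w⟩⟩
instance : SMul K (N3 B) := ⟨fun c x => ⟨c * x.a, c • x.v, c • x.w⟩⟩
instance : Mul (N3 B) :=
  ⟨fun x y => ⟨x.a * y.a, x.a • y.v + y.a • x.v, x.a • y.w + y.a • x.w + B x.v y.v⟩⟩

theorem mul_fst (x y : N3 B) : (x * y).a = x.a * y.a := rfl
theorem mul_snd (x y : N3 B) : (x * y).v = x.a • y.v + y.a • x.v := rfl
theorem mul_trd (x y : N3 B) : (x * y).w = x.a • y.w + y.a • x.w + B x.v y.v := rfl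
theorem add_fst (x y : N3 B) : (x + y).a = x.a + y.a := rfl
theorem add_snd (x y : N3 B) : (x + y).v = x.v + y.v := rfl
theorem add_trd (x y : N3 B) : (x + y).w = x.w + y.w := rfl
theorem neg_fst (x : N3 B) : (-x).a = -x.a := rfl
theorem neg_snd (x : N3 B) : (-x).v = -x.v := rfl
theorem neg_trd (x : N3 B) : (-x).w = -x.w := rfl
theorem smul_fst (c : K) (x : N3 B) : (c • x).a = c * x.a := rfl
theorem smul_snd (c : K) (x : N3 B) : (c • x).v = c • x.v := rfl
theorem smul_trd (c : K) (x : N3 B) : (c • x).w = c • x.w := rfl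
theorem one_fst : (1 : N3 B).a = 1 := rfl
theorem one_snd : (1 : N3 B).v = 0 := rfl
theorem one_trd : (1 : N3 B).w = 0 := rfl
theorem zero_fst : (0 : N3 B).a = 0 := rfl
theorem zero_snd : (0 : N3 B).v = 0 := rfl
theorem zero_trd : (0 : N3 B).w = 0 := rfl

instance : AddCommGroup (N3 B) where
  add_assoc x y z := by
    apply N3.ext <;> simp only [add_fst, add_snd, add_trd, add_assoc]
  zero_add x := by
    apply N3.ext <;> simp only [add_fst, add_snd, add_trd, zero_fst, zero_snd, zero_trd, zero_add]
  add_zero x := by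
    apply N3.ext <;> simp only [add_fst, add_snd, add_trd, zero_fst, zero_snd, zero_trd, add_zero]
  neg_add_cancel x := by
    apply N3.ext <;> simp only [add_fst, add_snd, add_trd, zero_fst, zero_snd, zero_trd, neg_fst,
      neg_snd, neg_trd, neg_add_cancel]
  add_comm x y := by
    apply N3.ext <;> simp only [add_fst, add_snd, add_trd, add_comm]
  nsmul := nsmulRec
  zsmul := zsmulRec

instance : Module K (N3 B) where
  one_smul x := by
    apply N3.ext <;> simp only [smul_fst, smul_snd, smul_trd, one_smul, one_mul]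
  mul_smul c d x := by
    apply N3.ext <;> simp only [smul_fst, smul_snd, smul_trd, mul_smul, mul_assoc]
  smul_zero c := by
    apply N3.ext <;> simp only [smul_fst, smul_snd, smul_trd, smul_zero, zero_fst, zero_snd,
      zero_trd, mul_zero]
  smul_add c x y := by
    apply N3.ext <;> simp only [smul_fst, smul_snd, smul_trd, smul_add, add_fst, add_snd,
      add_trd, mul_add]
  add_smul c d x := by
    apply N3.ext <;> simp only [smul_fst, smul_snd, smul_trd, add_smul, add_fst, add_snd,
      add_trd, add_mul]
  zero_smul x := by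
    apply N3.ext <;> simp only [smul_fst, smul_snd, smul_trd, zero_smul, zero_fst, zero_snd,
      zero_trd, zero_mul]

/-- linear coordinates -/
def coords : N3 B ≃ₗ[K] K × (Fin m → K) × (Fin n → K) where
  toFun x := (x.a, x.v, x.w)
  invFun y := ⟨y.1, y.2.1, y.2.2⟩
  map_add' _ _ := rfl
  map_smul' _ _ := rfl
  left_inv _ := rfl
  right_inv _ := rfl

instance : FiniteDimensional K (N3 B) := Module.Finite.equiv (coords B).symm

instance : Ring (N3 B) :=
  { (inferInstance : AddCommGroup (N3 B)) with
    mul := (· * ·)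
    one := 1
    left_distrib := by
      intro x y z
      apply N3.ext
      · simp only [mul_fst, add_fst]; ring
      · simp only [mul_snd, add_snd, add_fst, smul_add, add_smul]; abel
      · simp only [mul_trd, add_trd, add_fst, add_snd, smul_add, add_smul, map_add]; abel
    right_distrib := by
      intro x y z
      apply N3.ext
      · simp only [mul_fst, add_fst]; ring
      · simp only [mul_snd, add_snd, add_fst, smul_add, add_smul]; abel
      · simp only [mul_trd, add_trd, add_fst, add_snd, smul_add, add_smul, map_add,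
          LinearMap.add_apply]; abel
    zero_mul := by
      intro x
      apply N3.ext
      · simp only [mul_fst, zero_fst]; ring
      · simp [mul_snd, zero_fst, zero_snd]
      · simp [mul_trd, zero_fst, zero_snd, zero_trd]
    mul_zero := by
      intro x
      apply N3.ext
      · simp only [mul_fst, zero_fst]; ring
      · simp [mul_snd, zero_fst, zero_snd]
      · simp [mul_trd, zero_fst, zero_snd, zero_trd]
    mul_assoc := by
      intro x y z
      apply N3.ext
      · simp only [mul_fst]; ring
      · simp only [mul_snd, mul_fst, smul_add, smul_smul]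
        rw [mul_comm z.a x.a, mul_comm z.a y.a]; abel
      · simp only [mul_trd, mul_snd, mul_fst, smul_add, smul_smul, map_add, LinearMap.add_apply,
          map_smul, LinearMap.smul_apply]
        rw [mul_comm z.a x.a, mul_comm z.a y.a]; abel
    one_mul := by
      intro x
      apply N3.ext
      · simp [mul_fst, one_fst]
      · simp [mul_snd, one_fst, one_snd]
      · simp [mul_trd, one_fst, one_snd, one_trd]
    mul_one := by
      intro x
      apply N3.ext
      · simp [mul_fst, one_fst]
      · simp [mul_snd, one_fst, one_snd]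
      · simp [mul_trd, one_fst, one_snd, one_trd] }

instance : Algebra K (N3 B) :=
  Algebra.ofModule
    (by
      intro c x y
      apply N3.ext
      · simp only [mul_fst, smul_fst]; ring
      · simp only [mul_snd, smul_snd, smul_fst, smul_add, smul_smul]
        rw [mul_comm c y.a]
      · simp only [mul_trd, smul_trd, smul_snd, smul_fst, smul_add, smul_smul, map_smul,
          LinearMap.smul_apply]
        rw [mul_comm c y.a])
    (by
      intro c x y
      apply N3.ext
      · simp only [mul_fst, smul_fst]; ring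
      · simp only [mul_snd, smul_snd, smul_fst, smul_add, smul_smul]
        rw [mul_comm c x.a]
      · simp only [mul_trd, smul_trd, smul_snd, smul_fst, smul_add, smul_smul, map_smul]
        rw [mul_comm c x.a])

end N3

section defs

variable (k : Type u) [Field k]

/-- bilinear map of `R` -/
def BR : (Fin 4 → k) →ₗ[k] (Fin 4 → k) →ₗ[k] (Fin 6 → k) :=
  LinearMap.mk₂ k
    (fun x y => ![x 0 * y 2, x 0 * y 3 + x 1 * y 2, x 1 * y 3, x 2 * y 0, x 2 * y 1 - x 3 * y 0,
      x 3 * y 1])
    (by intro a b c; ext i; fin_cases i <;> simp <;> ring)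
    (by intro a b c; ext i; fin_cases i <;> simp <;> ring)
    (by intro a b c; ext i; fin_cases i <;> simp <;> ring)
    (by intro a b c; ext i; fin_cases i <;> simp <;> ring)

theorem BR_apply (x y : Fin 4 → k) : BR k x y = ![x 0 * y 2, x 0 * y 3 + x 1 * y 2, x 1 * y 3,
    x 2 * y 0, x 2 * y 1 - x 3 * y 0, x 3 * y 1] := rfl

/-- bilinear map of the first representation -/
def B1 (t : k) : (Fin 3 → k) →ₗ[k] (Fin 3 → k) →ₗ[k] (Fin 2 → k) :=
  LinearMap.mk₂ k
    (fun x y => ![x 0 * (t * y 1 + y 2), (-t * x 1 + x 2) * y 0])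
    (by intro a b c; ext i; fin_cases i <;> simp <;> ring)
    (by intro a b c; ext i; fin_cases i <;> simp <;> ring)
    (by intro a b c; ext i; fin_cases i <;> simp <;> ring)
    (by intro a b c; ext i; fin_cases i <;> simp <;> ring)

theorem B1_apply (t : k) (x y : Fin 3 → k) :
    B1 k t x y = ![x 0 * (t * y 1 + y 2), (-t * x 1 + x 2) * y 0] := rfl

/-- bilinear map of the second representation -/
def B2 (t : k) : (Fin 3 → k) →ₗ[k] (Fin 3 → k) →ₗ[k] (Fin 2 → k) :=
  LinearMap.mk₂ k
    (fun x y => ![(t * x 0 + x 1) * y 2, x 2 * (-t * y 0 + y 1)])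
    (by intro a b c; ext i; fin_cases i <;> simp <;> ring)
    (by intro a b c; ext i; fin_cases i <;> simp <;> ring)
    (by intro a b c; ext i; fin_cases i <;> simp <;> ring)
    (by intro a b c; ext i; fin_cases i <;> simp <;> ring)

theorem B2_apply (t : k) (x y : Fin 3 → k) :
    B2 k t x y = ![(t * x 0 + x 1) * y 2, x 2 * (-t * y 0 + y 1)] := rfl

/-- the two families -/
def U : Fin 2 → Fin 2 → N3 (BR k)
  | 0 => ![⟨0, Pi.single 0 1, 0⟩, ⟨0, Pi.single 1 1, 0⟩]
  | 1 => ![⟨0, Pi.single 2 1, 0⟩, ⟨0, Pi.single 3 1, 0⟩]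

end defs

theorem indep3 {k : Type u} [Field k] (a b c : k)
    (h : algebraMap k (RatFunc k) a * RatFunc.X ^ 2 + algebraMap k (RatFunc k) b * RatFunc.X
      + algebraMap k (RatFunc k) c = 0) : a = 0 ∧ b = 0 ∧ c = 0 := by
  have h1 : (Polynomial.C a * Polynomial.X ^ 2 + Polynomial.C b * Polynomial.X + Polynomial.C c
      : Polynomial k) = 0 := by
    apply RatFunc.algebraMap_injective k
    rw [map_zero, ← h]
    simp [RatFunc.algebraMap_eq_C]
  refine ⟨?_, ?_, ?_⟩
  · simpa [Polynomial.coeff_X, Polynomial.coeff_C] using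
      congrArg (fun p : Polynomial k => p.coeff 2) h1
  · simpa [Polynomial.coeff_X, Polynomial.coeff_C] using
      congrArg (fun p : Polynomial k => p.coeff 1) h1
  · simpa [Polynomial.coeff_X, Polynomial.coeff_C] using
      congrArg (fun p : Polynomial k => p.coeff 0) h1

section homs

variable {k : Type u} [Field k]

/-- the two coordinate maps on the top component -/
noncomputable def gmap (e : k) (w : Fin 6 → k) : Fin 2 → RatFunc k :=
  ![algebraMap k (RatFunc k) (w 0) * RatFunc.X ^ 2 + algebraMap k (RatFunc k) (w 1) * RatFunc.X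
      + algebraMap k (RatFunc k) (w 2),
    algebraMap k (RatFunc k) (-w 3) * RatFunc.X ^ 2 + algebraMap k (RatFunc k) (e * w 4) * RatFunc.X
      + algebraMap k (RatFunc k) (w 5)]

theorem gmap_inj {e : k} (he : e ≠ 0) {w : Fin 6 → k} (h : gmap e w = 0) : w = 0 := by
  obtain ⟨h1, h2, h3⟩ := indep3 _ _ _ (congrFun h 0)
  obtain ⟨h4, h5, h6⟩ := indep3 _ _ _ (congrFun h 1)
  ext i
  fin_cases i
  · exact h1
  · exact h2
  · exact h3
  · exact neg_eq_zero.1 h4
  · exact (mul_eq_zero.1 h5).resolve_left he
  · exact h6

/-- first representation -/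
noncomputable def phi1 : N3 (BR k) →+* N3 (B1 (RatFunc k) RatFunc.X) where
  toFun x := ⟨algebraMap k (RatFunc k) x.a,
    ![algebraMap k (RatFunc k) (x.v 0) * RatFunc.X + algebraMap k (RatFunc k) (x.v 1),
      algebraMap k (RatFunc k) (x.v 2), algebraMap k (RatFunc k) (x.v 3)],
    gmap (-1) x.w⟩
  map_one' := by
    apply N3.ext
    · simp [one_fst]
    · ext i; fin_cases i <;> simp [one_snd]
    · ext i; fin_cases i <;> simp [one_trd, gmap]
  map_zero' := by
    apply N3.ext
    · simp [zero_fst]
    · ext i; fin_cases i <;> simp [zero_snd]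
    · ext i; fin_cases i <;> simp [zero_trd, gmap]
  map_add' := by
    intro x y
    apply N3.ext
    · simp [add_fst]
    · ext i; fin_cases i <;> simp [add_snd] <;> ring
    · ext i; fin_cases i <;> simp [add_trd, gmap] <;> ring
  map_mul' := by
    intro x y
    apply N3.ext
    · simp [mul_fst]
    · ext i; fin_cases i <;> simp [mul_snd] <;> ring
    · ext i; fin_cases i <;> simp [mul_trd, gmap, BR_apply, B1_apply] <;> ring

/-- second representation -/
noncomputable def phi2 : N3 (BR k) →+* N3 (B2 (RatFunc k) RatFunc.X) where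
  toFun x := ⟨algebraMap k (RatFunc k) x.a,
    ![algebraMap k (RatFunc k) (x.v 0), algebraMap k (RatFunc k) (x.v 1),
      algebraMap k (RatFunc k) (x.v 2) * RatFunc.X + algebraMap k (RatFunc k) (x.v 3)],
    gmap 1 x.w⟩
  map_one' := by
    apply N3.ext
    · simp [one_fst]
    · ext i; fin_cases i <;> simp [one_snd]
    · ext i; fin_cases i <;> simp [one_trd, gmap]
  map_zero' := by
    apply N3.ext
    · simp [zero_fst]
    · ext i; fin_cases i <;> simp [zero_snd]
    · ext i; fin_cases i <;> simp [zero_trd, gmap]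
  map_add' := by
    intro x y
    apply N3.ext
    · simp [add_fst]
    · ext i; fin_cases i <;> simp [add_snd] <;> ring
    · ext i; fin_cases i <;> simp [add_trd, gmap] <;> ring
  map_mul' := by
    intro x y
    apply N3.ext
    · simp [mul_fst]
    · ext i; fin_cases i <;> simp [mul_snd] <;> ring
    · ext i; fin_cases i <;> simp [mul_trd, gmap, BR_apply, B2_apply] <;> ring

theorem indep2 {b c : k} (h : algebraMap k (RatFunc k) b * RatFunc.X
      + algebraMap k (RatFunc k) c = 0) : b = 0 ∧ c = 0 := by
  have := indep3 0 b c (by rw [map_zero, zero_mul, zero_add]; exact h)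
  exact this.2

theorem phi1_inj : Function.Injective (phi1 (k := k)) := by
  rw [injective_iff_map_eq_zero]
  intro x hx
  have h1 : algebraMap k (RatFunc k) x.a = 0 := congrArg (fun y => y.a) hx
  have h2 := congrArg (fun y : N3 (B1 (RatFunc k) RatFunc.X) => y.v) hx
  have h3 : gmap (-1) x.w = 0 := congrArg (fun y => y.w) hx
  have h20 := indep2 (congrFun h2 0)
  have h21 : algebraMap k (RatFunc k) (x.v 2) = 0 := congrFun h2 1
  have h22 : algebraMap k (RatFunc k) (x.v 3) = 0 := congrFun h2 2
  have hi := (algebraMap k (RatFunc k)).injective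
  apply N3.ext
  · exact (map_eq_zero_iff _ hi).1 h1
  · ext i
    fin_cases i
    · exact h20.1
    · exact h20.2
    · exact (map_eq_zero_iff _ hi).1 h21
    · exact (map_eq_zero_iff _ hi).1 h22
  · exact gmap_inj (by norm_num) h3

theorem phi2_inj : Function.Injective (phi2 (k := k)) := by
  rw [injective_iff_map_eq_zero]
  intro x hx
  have h1 : algebraMap k (RatFunc k) x.a = 0 := congrArg (fun y => y.a) hx
  have h2 := congrArg (fun y : N3 (B2 (RatFunc k) RatFunc.X) => y.v) hx
  have h3 : gmap 1 x.w = 0 := congrArg (fun y => y.w) hx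
  have h20 := indep2 (congrFun h2 2)
  have h21 : algebraMap k (RatFunc k) (x.v 0) = 0 := congrFun h2 0
  have h22 : algebraMap k (RatFunc k) (x.v 1) = 0 := congrFun h2 1
  have hi := (algebraMap k (RatFunc k)).injective
  apply N3.ext
  · exact (map_eq_zero_iff _ hi).1 h1
  · ext i
    fin_cases i
    · exact (map_eq_zero_iff _ hi).1 h21
    · exact (map_eq_zero_iff _ hi).1 h22
    · exact h20.1
    · exact h20.2
  · exact gmap_inj (by norm_num) h3

theorem dep1 : DependentInSomeRep k (N3 (BR k)) (U k 0) := by
  refine ⟨RatFunc k, inferInstance, inferInstance, N3 (B1 (RatFunc k) RatFunc.X), inferInstance,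
    inferInstance, phi1, inferInstance, phi1_inj, ?_, ?_⟩
  · intro c x
    apply N3.ext
    · simp [phi1, smul_fst]
    · ext i; fin_cases i <;> simp [phi1, smul_snd] <;> ring
    · ext i; fin_cases i <;> simp [phi1, smul_trd, gmap] <;> ring
  · intro h
    have h1 := (LinearIndependent.pair_iff.1 (show LinearIndependent (RatFunc k)
      ![phi1 (U k 0 0), phi1 (U k 0 1)] by
        have e : (fun i => phi1 (U k 0 i)) = ![phi1 (U k 0 0), phi1 (U k 0 1)] := by
          ext i : 1
          fin_cases i <;> rfl
        rw [e] at h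
        exact h)) 1 (-RatFunc.X) (by
      apply N3.ext
      · rw [add_fst, smul_fst, smul_fst]; simp [phi1, U, zero_fst]
      · rw [add_snd, smul_snd, smul_snd]
        ext i; fin_cases i <;> simp [phi1, U, zero_snd]
      · rw [add_trd, smul_trd, smul_trd]
        ext i; fin_cases i <;> simp [phi1, U, zero_trd, gmap])
    exact one_ne_zero h1.1

theorem dep2 : DependentInSomeRep k (N3 (BR k)) (U k 1) := by
  refine ⟨RatFunc k, inferInstance, inferInstance, N3 (B2 (RatFunc k) RatFunc.X), inferInstance,
    inferInstance, phi2, inferInstance, phi2_inj, ?_, ?_⟩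
  · intro c x
    apply N3.ext
    · simp [phi2, smul_fst]
    · ext i; fin_cases i <;> simp [phi2, smul_snd] <;> ring
    · ext i; fin_cases i <;> simp [phi2, smul_trd, gmap] <;> ring
  · intro h
    have h1 := (LinearIndependent.pair_iff.1 (show LinearIndependent (RatFunc k)
      ![phi2 (U k 1 0), phi2 (U k 1 1)] by
        have e : (fun i => phi2 (U k 1 i)) = ![phi2 (U k 1 0), phi2 (U k 1 1)] := by
          ext i : 1
          fin_cases i <;> rfl
        rw [e] at h
        exact h)) 1 (-RatFunc.X) (by
      apply N3.ext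
      · rw [add_fst, smul_fst, smul_fst]; simp [phi2, U, zero_fst]
      · rw [add_snd, smul_snd, smul_snd]
        ext i; fin_cases i <;> simp [phi2, U, zero_snd]
      · rw [add_trd, smul_trd, smul_trd]
        ext i; fin_cases i <;> simp [phi2, U, zero_trd, gmap])
    exact one_ne_zero h1.1

end homs

/-- In any (even non-unital) algebra, a dependent pair of nonzero vectors is proportional. -/
theorem prop_of_dep {F : Type v} [Field F] {A : Type w} [AddCommGroup A] [Module F A] {a b : A}
    (ha : a ≠ 0) (hb : b ≠ 0) (h : ¬ LinearIndependent F ![a, b]) : ∃ c : F, c ≠ 0 ∧ a = c • b := by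
  rw [LinearIndependent.pair_iff] at h
  push Not at h
  obtain ⟨s, t, hst, hne⟩ := h
  have hs : s ≠ 0 := by
    rintro rfl
    rw [zero_smul, zero_add] at hst
    rcases smul_eq_zero.1 hst with h | h
    · exact hne rfl h
    · exact hb h
  have ht : t ≠ 0 := by
    rintro rfl
    rw [zero_smul, add_zero] at hst
    rcases smul_eq_zero.1 hst with h | h
    · exact hs h
    · exact ha h
  refine ⟨-(s⁻¹ * t), neg_ne_zero.2 (mul_ne_zero (inv_ne_zero hs) ht), ?_⟩
  have h1 : a = s⁻¹ • (s • a) := by rw [smul_smul, inv_mul_cancel₀ hs, one_smul]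
  rw [h1, eq_neg_of_add_eq_zero_left hst, smul_neg, smul_smul, neg_smul]

/-- **Main result.**  For every field `k` of characteristic zero there are a `k`-algebra `R` and
two families `r 0, r 1` of two elements of `R` such that each `r j` is linearly dependent in some
finite-dimensional representation of `R`, but whenever `R` embeds into an algebra `A` over a field
extension `F` of `k` (no unit, no finite-dimensionality required), one of the families is linearly
independent in `A`. -/
theorem main (k : Type u) [Field k] [CharZero k] :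
    ∃ (R : Type u) (_ : Ring R) (_ : Algebra k R) (r : Fin 2 → Fin 2 → R),
      (∀ j, DependentInSomeRep k R (r j)) ∧
      ∀ (F : Type v) [Field F] [Algebra k F] (A : Type w) [NonUnitalRing A] [Module F A]
        [IsScalarTower F A A] [SMulCommClass F A A] (φ : R →ₙ+* A),
        Function.Injective φ → (∀ (c : k) (x : R), φ (c • x) = algebraMap k F c • φ x) →
        ∃ j, LinearIndependent F (fun i => φ (r j i)) := by
  refine ⟨N3 (BR k), inferInstance, inferInstance, U k, ?_, ?_⟩
  · intro j
    fin_cases j
    · exact dep1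
    · exact dep2
  · intro F _ _ A _ _ _ _ φ hφ _
    by_contra hcon
    push Not at hcon
    have hne : ∀ x : N3 (BR k), x ≠ 0 → φ x ≠ 0 := fun x hx h => hx (hφ (by rw [h, map_zero]))
    have hU : ∀ j i, U k j i ≠ 0 := by
      intro j i h
      have h1 := congrArg (fun y : N3 (BR k) => y.v) h
      fin_cases j <;> fin_cases i
      · simpa [U, zero_snd] using congrFun h1 0
      · simpa [U, zero_snd] using congrFun h1 1
      · simpa [U, zero_snd] using congrFun h1 2
      · simpa [U, zero_snd] using congrFun h1 3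
    have e : ∀ j, (fun i => φ (U k j i)) = ![φ (U k j 0), φ (U k j 1)] := by
      intro j
      ext i : 1
      fin_cases i <;> rfl
    obtain ⟨c, hc, hc'⟩ := prop_of_dep (hne _ (hU 0 0)) (hne _ (hU 0 1)) (e 0 ▸ hcon 0)
    obtain ⟨d, hd, hd'⟩ := prop_of_dep (hne _ (hU 1 0)) (hne _ (hU 1 1)) (e 1 ▸ hcon 1)
    -- relations
    have r1 : U k 0 0 * U k 1 1 = U k 0 1 * U k 1 0 := by
      apply N3.ext
      · simp [mul_fst, U]
      · simp [mul_snd, U]
      · ext i; fin_cases i <;> simp [mul_trd, U, BR_apply]
    have r2 : U k 1 1 * U k 0 0 = - (U k 1 0 * U k 0 1) := by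
      rw [eq_neg_iff_add_eq_zero]
      apply N3.ext
      · simp [mul_fst, add_fst, U, zero_fst]
      · simp [mul_snd, add_snd, U, zero_snd]
      · ext i; fin_cases i <;> simp [mul_trd, add_trd, U, BR_apply, zero_trd]
    have n1 : U k 0 1 * U k 1 1 ≠ 0 := by
      intro h
      have := congrFun (congrArg (fun y : N3 (BR k) => y.w) h) 2
      simp [mul_trd, U, BR_apply, zero_trd] at this
    have n2 : U k 1 1 * U k 0 1 ≠ 0 := by
      intro h
      have := congrFun (congrArg (fun y : N3 (BR k) => y.w) h) 5
      simp [mul_trd, U, BR_apply, zero_trd] at this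
    have e1 : (c - d) • (φ (U k 0 1 * U k 1 1)) = 0 := by
      have := congrArg φ r1
      rw [map_mul, map_mul, hc', hd', smul_mul_assoc, mul_smul_comm] at this
      rw [map_mul, sub_smul, this, sub_self]
    have e2 : (c + d) • (φ (U k 1 1 * U k 0 1)) = 0 := by
      have := congrArg φ r2
      rw [map_neg, map_mul, map_mul, hc', hd', smul_mul_assoc, mul_smul_comm] at this
      rw [map_mul, add_smul, this, neg_add_cancel]
    have f1 : c - d = 0 := (smul_eq_zero.1 e1).resolve_right (hne _ n1)
    have f2 : c + d = 0 := (smul_eq_zero.1 e2).resolve_right (hne _ n2)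
    have h2 : (2 : F) ≠ 0 := by
      have : (algebraMap k F) (2 : k) ≠ 0 :=
        (map_ne_zero_iff _ (algebraMap k F).injective).2 two_ne_zero
      rwa [map_ofNat] at this
    apply hc
    have : (2 : F) * c = 0 := by linear_combination f1 + f2
    exact (mul_eq_zero.1 this).resolve_left h2

end Pool.Agent.H5.M81db1e
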