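import Mathlib

set_option autoImplicit false

namespace Pool.Agent.H5.M83c24b

/-- A subgroup of `GL_n(K)` is (the group of `K`-points of) a linear algebraic group when it is the
common zero set, inside `GL_n(K)`, of a set of polynomials in the matrix entries. -/
def IsAlgebraic {K : Type} [Field K] {n : ℕ} (G : Subgroup (GL (Fin n) K)) : Prop :=
  ∃ S : Set (MvPolynomial (Fin n × Fin n) K), ∀ g : GL (Fin n) K,
    g ∈ G ↔ ∀ p ∈ S, MvPolynomial.eval (fun ij : Fin n × Fin n => g.1 ij.1 ij.2) p = 0

/-- The coordinates used for regular functions: all matrix entries and the inverse of the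
determinant. -/
def coords {K : Type} [Field K] {n : ℕ} (g : GL (Fin n) K) : Option (Fin n × Fin n) → K
  | none => (g.1.det)⁻¹
  | some ij => g.1 ij.1 ij.2

/-- A regular function on `G`: a polynomial in the matrix entries and in `1 / det`. -/
def IsRegular {K : Type} [Field K] {n : ℕ} (G : Subgroup (GL (Fin n) K)) (f : G → K) : Prop :=
  ∃ p : MvPolynomial (Option (Fin n × Fin n)) K, ∀ g : G, f g = MvPolynomial.eval (coords g.1) p

/-- A group homomorphism `G → H` is a rational morphism when all its matrix entries are regular. -/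
def IsMorphism {K : Type} [Field K] {n m : ℕ} (G : Subgroup (GL (Fin n) K))
    (H : Subgroup (GL (Fin m) K)) (α : G →* H) : Prop :=
  ∀ i j, IsRegular G (fun g => (α g).1.1 i j)

/-- `G^σ`: the image of `G` when the field automorphism `σ` is applied to all matrix entries. -/
def twist {K : Type} [Field K] {n : ℕ} (σ : K ≃+* K) (G : Subgroup (GL (Fin n) K)) :
    Subgroup (GL (Fin n) K) :=
  G.map (Matrix.GeneralLinearGroup.map (σ : K →+* K))

/-- `σ_* : G(K) → G^σ(K)`, applying `σ` to the coordinates. -/
def twistMap {K : Type} [Field K] {n : ℕ} (σ : K ≃+* K) (G : Subgroup (GL (Fin n) K)) :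
    G →* twist σ G :=
  (Matrix.GeneralLinearGroup.map (σ : K →+* K)).subgroupMap G

/-- An isomorphism of abstract groups is semialgebraic when it is `α ∘ σ_*` for a field
automorphism `σ` and a bijective rational morphism `α : G^σ → H`. -/
def IsSemialgebraic {K : Type} [Field K] {n m : ℕ} (G : Subgroup (GL (Fin n) K))
    (H : Subgroup (GL (Fin m) K)) (φ : G ≃* H) : Prop :=
  ∃ (σ : K ≃+* K) (α : twist σ G →* H), IsMorphism (twist σ G) H α ∧ Function.Bijective α ∧
    ∀ g : G, φ g = α (twistMap σ G g)

/-- Not a direct product of two nontrivial abstract groups. -/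
def IsIndecomposable (Γ : Type) [Group Γ] : Prop :=
  ∀ (A B : Type) [Group A] [Group B], Nonempty (Γ ≃* A × B) → Subsingleton A ∨ Subsingleton B

end Pool.Agent.H5.M83c24b
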