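import Pool.Agent.H5.M83c24bDefs

set_option autoImplicit false

open Matrix

namespace Pool.Agent.H5.M83c24b

/-- generalized dihedral group -/
@[ext] structure Dih (V : Type) where
  x : V
  s : ℤˣ

namespace Dih
variable {V W : Type} [AddCommGroup V] [AddCommGroup W]

instance : Mul (Dih V) := ⟨fun a b => ⟨a.x + (a.s : ℤ) • b.x, a.s * b.s⟩⟩
instance : One (Dih V) := ⟨⟨0, 1⟩⟩
instance : Inv (Dih V) := ⟨fun a => ⟨-((a.s : ℤ) • a.x), a.s⟩⟩

theorem mul_x (a b : Dih V) : (a * b).x = a.x + (a.s : ℤ) • b.x := rfl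
theorem mul_s (a b : Dih V) : (a * b).s = a.s * b.s := rfl
theorem one_x : (1 : Dih V).x = 0 := rfl
theorem one_s : (1 : Dih V).s = 1 := rfl
theorem inv_x (a : Dih V) : (a⁻¹).x = -((a.s : ℤ) • a.x) := rfl
theorem inv_s (a : Dih V) : (a⁻¹).s = a.s := rfl

instance : Group (Dih V) :=
  Group.ofLeftAxioms
    (by
      intro a b c
      ext1
      · simp only [mul_x, mul_s, Units.val_mul, smul_add, mul_smul, add_assoc]
      · simp only [mul_s, mul_assoc])
    (by
      intro a
      ext1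
      · simp only [mul_x, one_x, one_s, Units.val_one, one_smul, zero_add]
      · simp only [mul_s, one_s, one_mul])
    (by
      intro a
      ext1
      · simp only [mul_x, inv_x, inv_s, one_x, neg_add_cancel]
      · simp only [mul_s, inv_s, one_s, Int.units_mul_self])

def congr (e : V ≃+ W) : Dih V ≃* Dih W where
  toFun a := ⟨e a.x, a.s⟩
  invFun a := ⟨e.symm a.x, a.s⟩
  left_inv a := by ext1 <;> simp
  right_inv a := by ext1 <;> simp
  map_mul' a b := by
    ext1
    · simp only [mul_x, map_add, map_zsmul]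
    · simp only [mul_s]

/-- an element outside the translations has centralizer of order two -/
theorem comm_refl (h2 : ∀ v : V, v + v = 0 → v = 0) (a b : Dih V) (ha : a.s = -1)
    (hab : a * b = b * a) : b = 1 ∨ b = a := by
  have h := congrArg Dih.x hab
  rw [mul_x, mul_x, ha] at h
  rcases Int.units_eq_one_or b.s with hb | hb
  · left
    rw [hb] at h
    simp only [Units.val_neg, Units.val_one, neg_smul, one_smul] at h
    have h3 : b.x = 0 := by
      apply h2
      have h4 : a.x + -b.x = b.x + a.x := h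
      have h5 : b.x + b.x = (b.x + a.x) - a.x + b.x := by abel
      rw [h5, ← h4]; abel
    ext1
    · exact h3
    · exact hb
  · right
    rw [hb] at h
    simp only [Units.val_neg, Units.val_one, neg_smul, one_smul] at h
    have h3 : a.x - b.x = 0 := by
      apply h2
      have h4 : a.x + -b.x = b.x + -a.x := h
      have h5 : a.x - b.x + (a.x - b.x) = (a.x + -b.x) + (a.x - b.x) := by abel
      rw [h5, h4]; abel
    ext1
    · exact (sub_eq_zero.1 h3).symm
    · rw [ha, hb]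

theorem center_bot (h2 : ∀ v : V, v + v = 0 → v = 0) [Nontrivial V] :
    Subgroup.center (Dih V) = ⊥ := by
  rw [eq_bot_iff]
  intro z hz
  rw [Subgroup.mem_center_iff] at hz
  obtain ⟨v, hv⟩ := exists_ne (0 : V)
  rcases comm_refl h2 ⟨0, -1⟩ z rfl (hz _) with h | h
  · exact h
  · exfalso
    rcases comm_refl h2 ⟨v, -1⟩ z rfl (hz _) with h' | h'
    · rw [h] at h'
      have h9 : (-1 : ℤˣ) = 1 := congrArg Dih.s h'
      exact absurd h9 (by decide)
    · rw [h] at h'
      exact hv (congrArg Dih.x h').symm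

theorem indec (h2 : ∀ v : V, v + v = 0 → v = 0) : IsIndecomposable (Dih V) := by
  intro A B _ _ ⟨f⟩
  have key : ∀ (A B : Type) [Group A] [Group B] (f : Dih V ≃* A × B) (a : A),
      (f.symm (a, 1)).s = -1 → Subsingleton B := by
    intro A B _ _ f a ha
    have hb : ∀ b : B, b = 1 := by
      intro b
      have hc : f.symm (a, 1) * f.symm (1, b) = f.symm (1, b) * f.symm (a, 1) := by
        rw [← map_mul, ← map_mul]; simp
      rcases comm_refl h2 _ _ ha hc with h | h
      · have h3 : ((1 : A), b) = 1 := by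
          have h4 := congrArg f h
          rw [MulEquiv.apply_symm_apply, map_one] at h4
          exact h4
        exact congrArg Prod.snd h3
      · have h3 := congrArg f h
        rw [MulEquiv.apply_symm_apply, MulEquiv.apply_symm_apply] at h3
        exact congrArg Prod.snd h3
    exact ⟨fun b b' => by rw [hb b, hb b']⟩
  let g : Dih V := ⟨0, -1⟩
  rcases hab : f g with ⟨a, b⟩
  have h1 : g = f.symm (a, 1) * f.symm (1, b) := by
    rw [← map_mul]
    simp only [Prod.mk_mul_mk, mul_one, one_mul]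
    rw [← hab, MulEquiv.symm_apply_apply]
  have h3 : (f.symm (a, 1)).s * (f.symm (1, b)).s = -1 := by
    rw [← mul_s, ← h1]
  rcases Int.units_eq_one_or (f.symm (a, 1)).s with h | h
  · left
    rw [h, one_mul] at h3
    exact key B A (f.trans MulEquiv.prodComm) b (by simpa using h3)
  · right
    exact key A B f a h

end Dih

theorem indec_congr {Γ Δ : Type} [Group Γ] [Group Δ] (e : Γ ≃* Δ) (h : IsIndecomposable Γ) :
    IsIndecomposable Δ := by
  intro A B _ _ ⟨f⟩
  exact h A B ⟨e.trans f⟩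

theorem center_congr {Γ Δ : Type} [Group Γ] [Group Δ] (e : Γ ≃* Δ)
    (h : Subgroup.center Γ = ⊥) : Subgroup.center Δ = ⊥ := by
  rw [eq_bot_iff]
  intro z hz
  rw [Subgroup.mem_center_iff] at hz
  have h1 : e.symm z ∈ Subgroup.center Γ := by
    rw [Subgroup.mem_center_iff]
    intro g
    apply e.injective
    rw [map_mul, map_mul, MulEquiv.apply_symm_apply]
    exact hz (e g)
  rw [h, Subgroup.mem_bot] at h1
  have h2 := congrArg e h1
  rw [MulEquiv.apply_symm_apply, map_one] at h2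
  rw [Subgroup.mem_bot]; exact h2

/-- matrices -/
def m1 (t s : ℂ) : Matrix (Fin 2) (Fin 2) ℂ := !![s, t; 0, 1]
def m2 (a b s : ℂ) : Matrix (Fin 3) (Fin 3) ℂ := !![s, 0, a; 0, s, b; 0, 0, 1]

theorem m1_mul (t s t' s' : ℂ) : m1 t s * m1 t' s' = m1 (t + s * t') (s * s') := by
  unfold m1
  ext i j
  fin_cases i <;> fin_cases j <;> simp [Matrix.mul_apply, Fin.sum_univ_succ]
  ring

theorem m2_mul (a b s a' b' s' : ℂ) :
    m2 a b s * m2 a' b' s' = m2 (a + s * a') (b + s * b') (s * s') := by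
  unfold m2
  ext i j
  fin_cases i <;> fin_cases j <;> simp [Matrix.mul_apply, Fin.sum_univ_succ] <;> ring

theorem m1_one : m1 0 1 = 1 := by
  unfold m1
  ext i j
  fin_cases i <;> fin_cases j <;> simp

theorem m2_one : m2 0 0 1 = 1 := by
  unfold m2
  ext i j
  fin_cases i <;> fin_cases j <;> simp

def sg (s : ℤˣ) : ℂ := ((s : ℤ) : ℂ)

theorem sg_mul (s t : ℤˣ) : sg (s * t) = sg s * sg t := by simp [sg]
theorem sg_one : sg 1 = 1 := by simp [sg]
theorem sg_sq (s : ℤˣ) : sg s * sg s = 1 := by rw [← sg_mul, Int.units_mul_self, sg_one]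
theorem sg_smul (s : ℤˣ) (z : ℂ) : (s : ℤ) • z = sg s * z := by simp [sg]

def ρ1 : Dih ℂ →* GL (Fin 2) ℂ where
  toFun a := ⟨m1 a.x (sg a.s), m1 (-(sg a.s * a.x)) (sg a.s),
    by rw [m1_mul, sg_sq, mul_neg, ← mul_assoc, sg_sq, one_mul, add_neg_cancel, m1_one],
    by rw [m1_mul, sg_sq, neg_add_cancel, m1_one]⟩
  map_one' := by
    apply Units.ext
    show m1 0 (sg 1) = 1
    rw [sg_one, m1_one]
  map_mul' a b := by
    apply Units.ext
    show m1 (a.x + (a.s : ℤ) • b.x) (sg (a.s * b.s)) = m1 a.x (sg a.s) * m1 b.x (sg b.s)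
    rw [m1_mul, sg_mul, sg_smul]

def ρ2 : Dih (ℂ × ℂ) →* GL (Fin 3) ℂ where
  toFun a := ⟨m2 a.x.1 a.x.2 (sg a.s), m2 (-(sg a.s * a.x.1)) (-(sg a.s * a.x.2)) (sg a.s),
    by rw [m2_mul, sg_sq, mul_neg, mul_neg, ← mul_assoc, ← mul_assoc, sg_sq, one_mul, one_mul,
          add_neg_cancel, add_neg_cancel, m2_one],
    by rw [m2_mul, sg_sq, neg_add_cancel, neg_add_cancel, m2_one]⟩
  map_one' := by
    apply Units.ext
    show m2 0 0 (sg 1) = 1
    rw [sg_one, m2_one]
  map_mul' a b := by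
    apply Units.ext
    show m2 (a.x + (a.s : ℤ) • b.x).1 (a.x + (a.s : ℤ) • b.x).2 (sg (a.s * b.s)) =
      m2 a.x.1 a.x.2 (sg a.s) * m2 b.x.1 b.x.2 (sg b.s)
    rw [m2_mul, sg_mul, Prod.fst_add, Prod.snd_add, Prod.smul_fst, Prod.smul_snd, sg_smul, sg_smul]

theorem sg_inj (s t : ℤˣ) (h : sg s = sg t) : s = t := by
  apply Units.ext
  simpa [sg] using h

theorem ρ1_inj : Function.Injective ρ1 := by
  intro a b h
  have h1 : m1 a.x (sg a.s) = m1 b.x (sg b.s) := congrArg Units.val h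
  ext1
  · have := congrFun (congrFun h1 0) 1
    simpa [m1] using this
  · have := congrFun (congrFun h1 0) 0
    exact sg_inj _ _ (by simpa [m1] using this)

theorem ρ2_inj : Function.Injective ρ2 := by
  intro a b h
  have h1 : m2 a.x.1 a.x.2 (sg a.s) = m2 b.x.1 b.x.2 (sg b.s) := congrArg Units.val h
  ext1
  · ext1
    · have := congrFun (congrFun h1 0) 2
      simpa [m2] using this
    · have := congrFun (congrFun h1 1) 2
      simpa [m2] using this
  · have := congrFun (congrFun h1 0) 0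
    exact sg_inj _ _ (by simpa [m2] using this)

def G : Subgroup (GL (Fin 2) ℂ) := ρ1.range
def H : Subgroup (GL (Fin 3) ℂ) := ρ2.range

noncomputable def eG : Dih ℂ ≃* G := MonoidHom.ofInjective ρ1_inj
noncomputable def eH : Dih (ℂ × ℂ) ≃* H := MonoidHom.ofInjective ρ2_inj

theorem sq_cases (z : ℂ) (h : z * z = 1) : ∃ s : ℤˣ, z = sg s := by
  rcases mul_self_eq_one_iff.1 h with h | h
  · exact ⟨1, by rw [h]; simp [sg]⟩
  · exact ⟨-1, by rw [h]; simp [sg]⟩

theorem G_alg : IsAlgebraic G := by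
  refine ⟨{MvPolynomial.X (1, 0), MvPolynomial.X (1, 1) - 1,
    MvPolynomial.X (0, 0) * MvPolynomial.X (0, 0) - 1}, ?_⟩
  intro g
  constructor
  · rintro ⟨a, rfl⟩ p hp
    rcases hp with rfl | rfl | rfl
    · simp [ρ1, m1]
    · simp [ρ1, m1]
    · simp [ρ1, m1, sg_sq]
  · intro h
    have h1 := h _ (Or.inl rfl)
    have h2 := h _ (Or.inr (Or.inl rfl))
    have h3 := h _ (Or.inr (Or.inr rfl))
    simp only [map_sub, map_mul, map_one, MvPolynomial.eval_X] at h1 h2 h3
    obtain ⟨s, hs⟩ := sq_cases _ (sub_eq_zero.1 h3)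
    refine ⟨⟨g.1 0 1, s⟩, ?_⟩
    apply Units.ext
    show m1 (g.1 0 1) (sg s) = g.1
    rw [← hs]
    ext i j
    fin_cases i <;> fin_cases j <;> simp [m1, h1, sub_eq_zero.1 h2]

theorem H_alg : IsAlgebraic H := by
  refine ⟨{MvPolynomial.X (2, 0), MvPolynomial.X (2, 1), MvPolynomial.X (1, 0), MvPolynomial.X (0, 1),
    MvPolynomial.X (2, 2) - 1, MvPolynomial.X (0, 0) - MvPolynomial.X (1, 1),
    MvPolynomial.X (0, 0) * MvPolynomial.X (0, 0) - 1}, ?_⟩
  intro g
  constructor
  · rintro ⟨a, rfl⟩ p hp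
    rcases hp with rfl | rfl | rfl | rfl | rfl | rfl | rfl <;> simp [ρ2, m2, sg_sq]
  · intro h
    have h1 := h _ (Or.inl rfl)
    have h2 := h _ (Or.inr (Or.inl rfl))
    have h3 := h _ (Or.inr (Or.inr (Or.inl rfl)))
    have h4 := h _ (Or.inr (Or.inr (Or.inr (Or.inl rfl))))
    have h5 := h _ (Or.inr (Or.inr (Or.inr (Or.inr (Or.inl rfl)))))
    have h6 := h _ (Or.inr (Or.inr (Or.inr (Or.inr (Or.inr (Or.inl rfl))))))
    have h7 := h _ (Or.inr (Or.inr (Or.inr (Or.inr (Or.inr (Or.inr rfl))))))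
    simp only [map_sub, map_mul, map_one, MvPolynomial.eval_X] at h1 h2 h3 h4 h5 h6 h7
    obtain ⟨s, hs⟩ := sq_cases _ (sub_eq_zero.1 h7)
    refine ⟨⟨(g.1 0 2, g.1 1 2), s⟩, ?_⟩
    apply Units.ext
    show m2 (g.1 0 2) (g.1 1 2) (sg s) = g.1
    rw [← hs]
    ext i j
    fin_cases i <;> fin_cases j <;>
      simp [m2, h1, h2, h3, h4, sub_eq_zero.1 h5, ← sub_eq_zero.1 h6]

theorem no_two (v : ℂ) (h : v + v = 0) : v = 0 := by
  have : 2 * v = 0 := by rw [two_mul]; exact h
  simpa using this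

theorem no_two' (v : ℂ × ℂ) (h : v + v = 0) : v = 0 := by
  ext1
  · exact no_two _ (congrArg Prod.fst h)
  · exact no_two _ (congrArg Prod.snd h)

theorem exists_add_equiv : Nonempty (ℂ ≃+ ℂ × ℂ) := by
  have h : Module.rank ℚ ℂ = Module.rank ℚ (ℂ × ℂ) := by
    rw [rank_prod', Complex.rank_rat_complex]
    simp
  obtain ⟨e⟩ := nonempty_linearEquiv_of_rank_eq h
  exact ⟨e.toAddEquiv⟩

/-- an additive polynomial function over the complex numbers is linear -/
theorem additive_linear (p : Polynomial ℂ) (h : ∀ s t : ℂ, p.eval (s + t) = p.eval s + p.eval t) (t : ℂ) :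
    p.eval t = t * p.eval 1 := by
  have h0 : p.eval 0 = 0 := by
    have := h 0 0
    rw [add_zero] at this
    exact left_eq_add.1 this
  have hn : ∀ n : ℕ, p.eval (n : ℂ) = (n : ℂ) * p.eval 1 := by
    intro n
    induction n with
    | zero => simpa using h0
    | succ n ih => rw [Nat.cast_succ, h, ih]; ring
  have he : p = Polynomial.X * Polynomial.C (p.eval 1) := by
    apply Polynomial.eq_of_infinite_eval_eq
    apply Set.infinite_of_injective_forall_mem (f := fun n : ℕ => (n : ℂ)) Nat.cast_injective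
    intro n
    show p.eval (n : ℂ) = (Polynomial.X * Polynomial.C (p.eval 1)).eval (n : ℂ)
    rw [hn, Polynomial.eval_mul, Polynomial.eval_X, Polynomial.eval_C]
  calc p.eval t = (Polynomial.X * Polynomial.C (p.eval 1)).eval t := by rw [← he]
    _ = _ := by rw [Polynomial.eval_mul, Polynomial.eval_X, Polynomial.eval_C]

theorem mem_twist (σ : ℂ ≃+* ℂ) (a : Dih ℂ) : ρ1 a ∈ twist σ G := by
  refine ⟨ρ1 ⟨σ.symm a.x, a.s⟩, ⟨_, rfl⟩, ?_⟩
  apply Units.ext
  ext i j
  show σ (m1 (σ.symm a.x) (sg a.s) i j) = m1 a.x (sg a.s) i j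
  fin_cases i <;> fin_cases j <;> simp [m1, sg]

theorem twist_mem (σ : ℂ ≃+* ℂ) (g : GL (Fin 2) ℂ) (hg : g ∈ twist σ G) : ∃ a : Dih ℂ, ρ1 a = g := by
  obtain ⟨g', ⟨a, rfl⟩, rfl⟩ := hg
  refine ⟨⟨σ a.x, a.s⟩, ?_⟩
  apply Units.ext
  ext i j
  show m1 (σ a.x) (sg a.s) i j = σ (m1 a.x (sg a.s) i j)
  fin_cases i <;> fin_cases j <;> simp [m1, sg]

theorem no_semialg (σ : ℂ ≃+* ℂ) (α : twist σ G →* H) (hα : IsMorphism (twist σ G) H α)
    (hs : Function.Surjective α) : False := by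
  let u : ℂ → twist σ G := fun t => ⟨ρ1 ⟨t, 1⟩, mem_twist σ _⟩
  have hu : ∀ s t, u (s + t) = u s * u t := by
    intro s t
    apply Subtype.ext
    show ρ1 ⟨s + t, 1⟩ = ρ1 ⟨s, 1⟩ * ρ1 ⟨t, 1⟩
    rw [← map_mul]
    congr 1
    ext1
    · simp [Dih.mul_x]
    · simp [Dih.mul_s]
  let β : ℂ → Dih (ℂ × ℂ) := fun t => eH.symm (α (u t))
  have hβ : ∀ s t, β (s + t) = β s * β t := by
    intro s t
    show eH.symm (α (u (s + t))) = _
    rw [hu, map_mul, map_mul]
  have hβs : ∀ t, (β t).s = 1 := by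
    intro t
    have : t = t / 2 + t / 2 := by ring
    rw [this, hβ, Dih.mul_s, Int.units_mul_self]
  have hβx : ∀ s t, (β (s + t)).x = (β s).x + (β t).x := by
    intro s t
    rw [hβ, Dih.mul_x, hβs]; simp
  have hent : ∀ t, (α (u t)).1.1 = m2 (β t).x.1 (β t).x.2 (sg (β t).s) := by
    intro t
    have h1 : eH (β t) = α (u t) := MulEquiv.apply_symm_apply _ _
    rw [← h1]; rfl
  -- polynomials
  have hpoly : ∀ i j, ∃ p : Polynomial ℂ, ∀ t, (α (u t)).1.1 i j = p.eval t := by
    intro i j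
    obtain ⟨q, hq⟩ := hα i j
    let c : Option (Fin 2 × Fin 2) → Polynomial ℂ := fun o => match o with
      | none => 1
      | some (i, j) => (!![1, Polynomial.X; 0, 1] : Matrix (Fin 2) (Fin 2) (Polynomial ℂ)) i j
    refine ⟨MvPolynomial.eval₂ Polynomial.C c q, fun t => ?_⟩
    refine (hq (u t)).trans ?_
    have hc : coords (u t).1 = fun o => (c o).eval t := by
      funext o
      rcases o with _ | ⟨i, j⟩
      · show ((m1 t (sg 1)).det)⁻¹ = (1 : Polynomial ℂ).eval t
        simp [m1, sg, Matrix.det_fin_two]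
      · show m1 t (sg 1) i j = ((!![1, Polynomial.X; 0, 1] : Matrix (Fin 2) (Fin 2) (Polynomial ℂ)) i j).eval t
        fin_cases i <;> fin_cases j <;> simp [m1, sg]
    rw [hc]
    have h9 := MvPolynomial.hom_eval₂ q (Polynomial.C : ℂ →+* Polynomial ℂ) (Polynomial.evalRingHom t) c
    have h10 : (Polynomial.evalRingHom t).comp (Polynomial.C : ℂ →+* Polynomial ℂ) = RingHom.id ℂ := by
      ext z; simp
    rw [h10] at h9
    exact h9.symm
  have hlin : ∀ t, (β t).x.1 = t * (β 1).x.1 ∧ (β t).x.2 = t * (β 1).x.2 := by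
    obtain ⟨p1, hp1⟩ := hpoly 0 2
    obtain ⟨p2, hp2⟩ := hpoly 1 2
    have e1 : ∀ t, (β t).x.1 = p1.eval t := by
      intro t; rw [← hp1, hent]; simp [m2]
    have e2 : ∀ t, (β t).x.2 = p2.eval t := by
      intro t; rw [← hp2, hent]; simp [m2]
    intro t
    constructor
    · rw [e1, e1]
      apply additive_linear
      intro s t
      rw [← e1, ← e1, ← e1, hβx]; rfl
    · rw [e2, e2]
      apply additive_linear
      intro s t
      rw [← e2, ← e2, ← e2, hβx]; rfl
  have hsur : ∀ v : ℂ × ℂ, v ≠ 0 → ∃ t, (β t).x = v := by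
    intro v hv
    obtain ⟨g, hg⟩ := hs (eH ⟨v, 1⟩)
    obtain ⟨a, ha⟩ := twist_mem σ g.1 g.2
    rcases Int.units_eq_one_or a.s with h | h
    · refine ⟨a.x, ?_⟩
      have : u a.x = g := by
        apply Subtype.ext
        rw [← ha]
        show ρ1 ⟨a.x, 1⟩ = ρ1 a
        rw [← h]
      show (eH.symm (α (u a.x))).x = v
      rw [this, hg, MulEquiv.symm_apply_apply]
    · exfalso
      have h1 : a * a = 1 := by
        ext1
        · rw [Dih.mul_x, h]; simp [Dih.one_x]
        · rw [Dih.mul_s, Int.units_mul_self]; rfl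
      have h2 : g * g = 1 := by
        apply Subtype.ext
        show g.1 * g.1 = 1
        rw [← ha, ← map_mul, h1, map_one]
      have h3 : (⟨v, 1⟩ : Dih (ℂ × ℂ)) * ⟨v, 1⟩ = 1 := by
        apply eH.injective
        rw [map_mul, ← hg, ← map_mul, h2, map_one, map_one]
      have h4 := congrArg Dih.x h3
      rw [Dih.mul_x] at h4
      apply hv
      apply no_two'
      simpa [Dih.one_x] using h4
  obtain ⟨t1, h1⟩ := hsur (1, 0) (by simp)
  obtain ⟨t2, h2⟩ := hsur (0, 1) (by simp)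
  have a1 := (hlin t1).1
  have a2 := (hlin t1).2
  have b1 := (hlin t2).1
  have b2 := (hlin t2).2
  rw [h1] at a1 a2
  rw [h2] at b1 b2
  simp only at a1 a2 b1 b2
  rcases mul_eq_zero.1 a2.symm with h | h
  · rw [h, zero_mul] at a1; exact one_ne_zero a1
  · rw [h, mul_zero] at b2; exact one_ne_zero b2

theorem main : ∃ (G : Subgroup (GL (Fin 2) ℂ)) (H : Subgroup (GL (Fin 3) ℂ)),
    IsAlgebraic G ∧ IsAlgebraic H ∧ IsIndecomposable G ∧ IsIndecomposable H ∧
    Subgroup.center G = ⊥ ∧ Subgroup.center H = ⊥ ∧ Nonempty (G ≃* H) ∧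
    ∀ φ : G ≃* H, ¬ IsSemialgebraic G H φ := by
  refine ⟨G, H, G_alg, H_alg, indec_congr eG (Dih.indec no_two), indec_congr eH (Dih.indec no_two'),
    center_congr eG (Dih.center_bot no_two), center_congr eH (Dih.center_bot no_two'), ?_, ?_⟩
  · obtain ⟨e⟩ := exists_add_equiv
    exact ⟨eG.symm.trans ((Dih.congr e).trans eH)⟩
  · rintro φ ⟨σ, α, h1, h2, h3⟩
    exact no_semialg σ α h1 h2.2

end Pool.Agent.H5.M83c24b
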