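import Mathlib

set_option autoImplicit false

namespace Pool.Agent.H5.M9aaefc

section lin
variable {V : Type*} [AddCommGroup V] [Module ℂ V] [FiniteDimensional ℂ V]

theorem exists_tau (h : Module.End ℂ V) (χ : ℂ → ℂ) :
    ∃ τ : V →ₗ[ℂ] V, ∀ μ, ∀ a ∈ h.maxGenEigenspace μ, τ a = χ μ • a := by
  have hi : DirectSum.IsInternal (fun μ => h.maxGenEigenspace μ) :=
    DirectSum.isInternal_submodule_of_iSupIndep_of_iSup_eq_top
      (Module.End.independent_maxGenEigenspace h) (Module.End.iSup_maxGenEigenspace_eq_top h)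
  let e := LinearEquiv.ofBijective (DirectSum.coeLinearMap fun μ => h.maxGenEigenspace μ) hi
  refine ⟨(DirectSum.toModule ℂ ℂ V (fun μ => χ μ • (h.maxGenEigenspace μ).subtype)) ∘ₗ
    e.symm.toLinearMap, ?_⟩
  intro μ a ha
  have h1 : e.symm a = DirectSum.lof ℂ ℂ (fun μ => h.maxGenEigenspace μ) μ ⟨a, ha⟩ := by
    rw [LinearEquiv.symm_apply_eq]
    show a = (DirectSum.coeLinearMap fun μ => h.maxGenEigenspace μ)
      (DirectSum.lof ℂ ℂ (fun μ => h.maxGenEigenspace μ) μ ⟨a, ha⟩)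
    rw [DirectSum.coeLinearMap_lof]
  show (DirectSum.toModule ℂ ℂ V (fun μ => χ μ • (h.maxGenEigenspace μ).subtype)) (e.symm a) = _
  rw [h1, DirectSum.toModule_lof]
  rfl

theorem ind (h : Module.End ℂ V) (Q : V → Prop) (h0 : Q 0) (hadd : ∀ a b, Q a → Q b → Q (a + b))
    (hE : ∀ μ, ∀ a ∈ h.maxGenEigenspace μ, Q a) : ∀ a, Q a := by
  intro a
  have ha : a ∈ ⨆ μ, h.maxGenEigenspace μ := by
    rw [Module.End.iSup_maxGenEigenspace_eq_top]; trivial
  exact Submodule.iSup_induction _ (motive := Q) ha hE h0 hadd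

end lin

section alg
variable {A : Type*} [CommRing A] [Algebra ℂ A]

theorem comm_pow {V : Type*} [AddCommGroup V] [Module ℂ V] (h : Module.End ℂ V) (ν : ℂ) (M : ℕ)
    (b : V) : ((h - ν • 1) ^ M) (h b) = h (((h - ν • 1) ^ M) b) := by
  have hc : Commute h (h - ν • 1) := by
    apply Commute.sub_right (Commute.refl h)
    exact (Commute.one_right h).smul_right ν
  have h2 := (hc.pow_right M).eq
  have h3 := congrArg (fun g : Module.End ℂ V => g b) h2
  exact h3.symm

theorem mul_core (h : A →ₐ[ℂ] A) (μ ν : ℂ) : ∀ s N M : ℕ, N + M = s → ∀ a b : A,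
    (((h.toLinearMap : Module.End ℂ A) - μ • 1) ^ N) a = 0 →
    (((h.toLinearMap : Module.End ℂ A) - ν • 1) ^ M) b = 0 →
    (((h.toLinearMap : Module.End ℂ A) - (μ * ν) • 1) ^ s) (a * b) = 0 := by
  intro s
  induction s with
  | zero =>
    intro N M hs a b ha hb
    have : N = 0 := by omega
    subst this
    have h1 : a = 0 := by simpa using ha
    rw [h1, zero_mul, map_zero]
  | succ s ih =>
    intro N M hs a b ha hb
    rcases N with _ | N
    · have h1 : a = 0 := by simpa using ha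
      rw [h1, zero_mul, map_zero]
    rcases M with _ | M
    · have h1 : b = 0 := by simpa using hb
      rw [h1, mul_zero, map_zero]
    rw [pow_succ, Module.End.mul_apply]
    have e : ((h.toLinearMap : Module.End ℂ A) - (μ * ν) • 1) (a * b) =
        ((h.toLinearMap : Module.End ℂ A) - μ • 1) a * h b +
          μ • (a * ((h.toLinearMap : Module.End ℂ A) - ν • 1) b) := by
      simp only [LinearMap.sub_apply, LinearMap.smul_apply, Module.End.one_apply,
        AlgHom.toLinearMap_apply, map_mul, sub_mul, mul_sub, smul_sub, smul_mul_assoc,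
        mul_smul_comm, mul_smul]
      abel
    rw [e, map_add, map_smul]
    have h1 := ih N (M + 1) (by omega) (((h.toLinearMap : Module.End ℂ A) - μ • 1) a) (h b)
      (by rw [pow_succ, Module.End.mul_apply] at ha; exact ha)
      (by
        have := comm_pow (h.toLinearMap : Module.End ℂ A) ν (M + 1) b
        rw [hb, map_zero] at this
        exact this)
    have h2 := ih (N + 1) M (by omega) a (((h.toLinearMap : Module.End ℂ A) - ν • 1) b) ha
      (by rw [pow_succ, Module.End.mul_apply] at hb; exact hb)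
    rw [h1, h2, smul_zero, add_zero]

theorem gmul_mem (h : A →ₐ[ℂ] A) (μ ν : ℂ) (a b : A)
    (ha : a ∈ Module.End.maxGenEigenspace (h.toLinearMap : Module.End ℂ A) μ)
    (hb : b ∈ Module.End.maxGenEigenspace (h.toLinearMap : Module.End ℂ A) ν) :
    a * b ∈ Module.End.maxGenEigenspace (h.toLinearMap : Module.End ℂ A) (μ * ν) := by
  rw [Module.End.mem_maxGenEigenspace] at *
  obtain ⟨N, hN⟩ := ha
  obtain ⟨M, hM⟩ := hb
  exact ⟨N + M, mul_core h μ ν _ N M rfl a b hN hM⟩

theorem gone_mem (h : A →ₐ[ℂ] A) :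
    (1 : A) ∈ Module.End.maxGenEigenspace (h.toLinearMap : Module.End ℂ A) 1 := by
  rw [Module.End.mem_maxGenEigenspace]
  refine ⟨1, ?_⟩
  simp

variable [FiniteDimensional ℂ A]

theorem tau_mul (h : A →ₐ[ℂ] A) (χ : ℂ → ℂ) (hχ : ∀ x y, χ (x * y) = χ x * χ y)
    (τ : A →ₗ[ℂ] A)
    (hτ : ∀ μ, ∀ a ∈ Module.End.maxGenEigenspace (h.toLinearMap : Module.End ℂ A) μ, τ a = χ μ • a)
    (a b : A) : τ (a * b) = τ a * τ b := by
  revert a
  apply ind (h.toLinearMap : Module.End ℂ A)
  · rw [zero_mul, map_zero, zero_mul]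
  · intro x y hx hy
    rw [add_mul, map_add, map_add, add_mul, hx, hy]
  · intro μ a ha
    revert b
    apply ind (h.toLinearMap : Module.End ℂ A)
    · rw [mul_zero, map_zero, mul_zero]
    · intro x y hx hy
      rw [mul_add, map_add, map_add, mul_add, hx, hy]
    · intro ν b hb
      rw [hτ _ _ (gmul_mem h μ ν a b ha hb), hτ _ _ ha, hτ _ _ hb, hχ, smul_mul_smul_comm]

theorem tau_one (h : A →ₐ[ℂ] A) (χ : ℂ → ℂ) (hχ : χ 1 = 1)
    (τ : A →ₗ[ℂ] A)
    (hτ : ∀ μ, ∀ a ∈ Module.End.maxGenEigenspace (h.toLinearMap : Module.End ℂ A) μ, τ a = χ μ • a) :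
    τ 1 = 1 := by
  rw [hτ _ _ (gone_mem h), hχ, one_smul]

end alg

section rev
variable {V : Type*} [AddCommGroup V] [Module ℂ V] [FiniteDimensional ℂ V]

theorem gsum_mem (h f g : Module.End ℂ V) (h1 : ∀ a, h (f a) = g (h a)) (h2 : ∀ a, h (g a) = f (h a))
    (μ : ℂ) : ∀ (N : ℕ) (a : V), ((h - μ • (1 : Module.End ℂ V)) ^ N) (f a + g a) =
      f (((h - μ • (1 : Module.End ℂ V)) ^ N) a) + g (((h - μ • (1 : Module.End ℂ V)) ^ N) a) := by
  intro N
  induction N with
  | zero => intro a; simp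
  | succ N ih =>
    intro a
    rw [pow_succ, Module.End.mul_apply, Module.End.mul_apply, ← ih]
    congr 1
    simp only [LinearMap.sub_apply, LinearMap.smul_apply, Module.End.one_apply, map_add, map_sub,
      map_smul, h1, h2, smul_add]
    abel

theorem gdiff_mem (h f g : Module.End ℂ V) (h1 : ∀ a, h (f a) = g (h a)) (h2 : ∀ a, h (g a) = f (h a))
    (μ : ℂ) : ∀ (N : ℕ) (a : V), ((h - (-μ) • (1 : Module.End ℂ V)) ^ N) (f a - g a) =
      (-1 : ℂ) ^ N • (f (((h - μ • (1 : Module.End ℂ V)) ^ N) a) -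
        g (((h - μ • (1 : Module.End ℂ V)) ^ N) a)) := by
  intro N
  induction N with
  | zero => intro a; simp
  | succ N ih =>
    intro a
    rw [pow_succ, Module.End.mul_apply, pow_succ (h - μ • 1), Module.End.mul_apply]
    have e : (h - (-μ) • 1) (f a - g a) = -(f ((h - μ • 1) a) - g ((h - μ • 1) a)) := by
      simp only [LinearMap.sub_apply, LinearMap.smul_apply, Module.End.one_apply, map_sub,
        map_smul, h1, h2, neg_smul, smul_sub, LinearMap.neg_apply]
      abel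
    rw [e, map_neg, ih, pow_succ, mul_smul, neg_one_smul, smul_neg]

theorem tau_rev (h f g : Module.End ℂ V) (h1 : ∀ a, h (f a) = g (h a))
    (h2 : ∀ a, h (g a) = f (h a)) (hfg : ∀ a, f (g a) = a) (χ : ℂ → ℂ) (hχ : ∀ x, χ (-x) = - χ x)
    (τ : V →ₗ[ℂ] V) (hτ : ∀ μ, ∀ a ∈ h.maxGenEigenspace μ, τ a = χ μ • a) (a : V) :
    f (τ (f a)) = τ a := by
  revert a
  apply ind h
  · simp
  · intro a b ha hb
    rw [map_add, map_add, map_add, ha, hb, map_add]
  · intro μ a ha
    have ha' := ha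
    rw [Module.End.mem_maxGenEigenspace] at ha'
    obtain ⟨N, hN⟩ := ha'
    have e1 : f a + g a ∈ h.maxGenEigenspace μ := by
      rw [Module.End.mem_maxGenEigenspace]
      exact ⟨N, by rw [gsum_mem h f g h1 h2, hN]; simp⟩
    have e2 : f a - g a ∈ h.maxGenEigenspace (-μ) := by
      rw [Module.End.mem_maxGenEigenspace]
      exact ⟨N, by rw [gdiff_mem h f g h1 h2, hN]; simp⟩
    have t1 := hτ _ _ e1
    have t2 := hτ _ _ e2
    rw [hχ] at t2
    have e3 : (2 : ℂ) • f a = (f a + g a) + (f a - g a) := by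
      rw [two_smul]; abel
    have e4 : (2 : ℂ) • τ (f a) = (2 : ℂ) • (χ μ • g a) := by
      rw [← map_smul, e3, map_add, t1, t2, neg_smul, ← sub_eq_add_neg, ← smul_sub, smul_comm]
      congr 1
      rw [two_smul]; abel
    have e5 : τ (f a) = χ μ • g a := smul_right_injective V (two_ne_zero' ℂ) e4
    rw [e5, map_smul, hfg, hτ _ _ ha]

/-- pointwise finite order -/
theorem tau_fin (h : Module.End ℂ V) (hinj : Function.Injective h) (χ : ℂ → ℂ)
    (hχ : ∀ z, z ≠ 0 → ∃ N : ℕ, 1 ≤ N ∧ χ z ^ N = 1)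
    (τ : V →ₗ[ℂ] V) (hτ : ∀ μ, ∀ a ∈ h.maxGenEigenspace μ, τ a = χ μ • a) (a : V) :
    ∃ N : ℕ, 1 ≤ N ∧ (τ ^ N : Module.End ℂ V) a = a := by
  have hpow : ∀ μ, ∀ a ∈ h.maxGenEigenspace μ, ∀ N : ℕ, (τ ^ N : Module.End ℂ V) a = χ μ ^ N • a := by
    intro μ a ha N
    induction N with
    | zero => simp
    | succ N ih => rw [pow_succ, Module.End.mul_apply, hτ _ _ ha, map_smul, ih, smul_smul, pow_succ, mul_comm]
  have hit : ∀ (a : V) (N M : ℕ), (τ ^ N : Module.End ℂ V) a = a → (τ ^ (N * M) : Module.End ℂ V) a = a := by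
    intro a N M h
    rw [pow_mul]
    induction M with
    | zero => simp
    | succ M ih => rw [pow_succ, Module.End.mul_apply, h, ih]
  revert a
  apply ind h
  · exact ⟨1, le_refl _, by simp⟩
  · rintro a b ⟨N, hN, ha⟩ ⟨M, hM, hb⟩
    refine ⟨N * M, Nat.mul_pos hN hM, ?_⟩
    rw [map_add, hit a N M ha, mul_comm N M, hit b M N hb]
  · intro μ a ha
    by_cases hμ : μ = 0
    · refine ⟨1, le_refl _, ?_⟩
      rw [Module.End.mem_maxGenEigenspace, hμ] at ha
      obtain ⟨N, hN⟩ := ha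
      rw [zero_smul, sub_zero] at hN
      have hz : a = 0 := by
        have hi : Function.Injective (h ^ N : Module.End ℂ V) := by
          rw [Module.End.coe_pow]
          exact hinj.iterate N
        exact hi (by rw [hN, map_zero])
      rw [hz, map_zero]
    · obtain ⟨N, hN, h1⟩ := hχ μ hμ
      exact ⟨N, hN, by rw [hpow μ a ha, h1, one_smul]⟩

/-- semisimple and unipotent implies identity -/
theorem tau_unip (h : Module.End ℂ V) (χ : ℂ → ℂ)
    (τ : V →ₗ[ℂ] V) (hτ : ∀ μ, ∀ a ∈ h.maxGenEigenspace μ, τ a = χ μ • a) (N k : ℕ)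
    (hu : ∀ a, (((τ ^ N : Module.End ℂ V) - 1) ^ k) a = 0) (a : V) : (τ ^ N : Module.End ℂ V) a = a := by
  have hpow : ∀ μ, ∀ a ∈ h.maxGenEigenspace μ, ∀ N : ℕ, (τ ^ N : Module.End ℂ V) a = χ μ ^ N • a := by
    intro μ a ha N
    induction N with
    | zero => simp
    | succ N ih => rw [pow_succ, Module.End.mul_apply, hτ _ _ ha, map_smul, ih, smul_smul, pow_succ, mul_comm]
  revert a
  apply ind h
  · simp
  · intro a b ha hb
    rw [map_add, ha, hb]
  · intro μ a ha
    by_cases h0 : a = 0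
    · rw [h0, map_zero]
    have h1 : ∀ k : ℕ, (((τ ^ N : Module.End ℂ V) - 1) ^ k) a = (χ μ ^ N - 1) ^ k • a := by
      intro k
      induction k with
      | zero => simp
      | succ k ih =>
        rw [pow_succ, Module.End.mul_apply, LinearMap.sub_apply, Module.End.one_apply, hpow μ a ha,
          ← one_smul ℂ a, smul_smul, mul_one, ← sub_smul, map_smul, one_smul, ih, smul_smul, pow_succ,
          mul_comm]
    have h2 := hu a
    rw [h1] at h2
    have h3 : (χ μ ^ N - 1) ^ k = 0 := by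
      rcases smul_eq_zero.1 h2 with h | h
      · exact h
      · exact absurd h h0
    have hk : k ≠ 0 := by
      rintro rfl; rw [pow_zero] at h3; exact one_ne_zero h3
    have h4 : χ μ ^ N = 1 := sub_eq_zero.1 ((pow_eq_zero_iff hk).1 h3)
    rw [hpow μ a ha, h4, one_smul]

/-- compatibility with equivariant maps -/
theorem tau_compat {V' : Type*} [AddCommGroup V'] [Module ℂ V'] [FiniteDimensional ℂ V']
    (h : Module.End ℂ V) (h' : Module.End ℂ V') (π : V →ₗ[ℂ] V') (hπ : ∀ a, π (h a) = h' (π a))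
    (χ : ℂ → ℂ) (τ : V →ₗ[ℂ] V) (hτ : ∀ μ, ∀ a ∈ h.maxGenEigenspace μ, τ a = χ μ • a)
    (τ' : V' →ₗ[ℂ] V') (hτ' : ∀ μ, ∀ a ∈ h'.maxGenEigenspace μ, τ' a = χ μ • a) (a : V) :
    π (τ a) = τ' (π a) := by
  have hp : ∀ (μ : ℂ) (N : ℕ) (a : V), π (((h - μ • (1 : Module.End ℂ V)) ^ N) a) =
      ((h' - μ • (1 : Module.End ℂ V')) ^ N) (π a) := by
    intro μ N
    induction N with
    | zero => intro a; simp
    | succ N ih =>
      intro a
      rw [pow_succ, Module.End.mul_apply, pow_succ, Module.End.mul_apply, ih]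
      congr 1
      simp [hπ]
  revert a
  apply ind h
  · simp
  · intro a b ha hb
    rw [map_add, map_add, map_add, map_add, ha, hb]
  · intro μ a ha
    have h1 : π a ∈ h'.maxGenEigenspace μ := by
      rw [Module.End.mem_maxGenEigenspace] at *
      obtain ⟨N, hN⟩ := ha
      exact ⟨N, by rw [← hp, hN, map_zero]⟩
    rw [hτ _ _ ha, hτ' _ _ h1, map_smul]

end rev

end Pool.Agent.H5.M9aaefc
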