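import Mathlib

set_option autoImplicit false

namespace Pool.Agent.H5.M9aaefc

theorem exists_r : ∃ r : ℝ →ₗ[ℚ] ℚ, r 1 = 1 := by
  obtain ⟨g, hg⟩ := LinearMap.exists_leftInverse_of_injective (LinearMap.toSpanSingleton ℚ ℝ 1)
    (LinearMap.ker_toSpanSingleton ℚ (one_ne_zero))
  refine ⟨g, ?_⟩
  have := congrArg (fun f : ℚ →ₗ[ℚ] ℚ => f 1) hg
  simpa using this

theorem exists_char : ∃ χ : ℂ → ℂ, (∀ x y, χ (x * y) = χ x * χ y) ∧ χ 1 = 1 ∧
    (∀ x, χ (-x) = - χ x) ∧ (∀ z, z ≠ 0 → ∃ N : ℕ, 1 ≤ N ∧ χ z ^ N = 1) := by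
  obtain ⟨r, hr⟩ := exists_r
  have hrk : ∀ k : ℤ, r (k : ℝ) = k := by
    intro k
    have : (k : ℝ) = k • (1 : ℝ) := by simp
    rw [this, map_zsmul, hr]; simp
  let e : ℝ → ℂ := fun t => Complex.exp (2 * Real.pi * Complex.I * (r t : ℂ))
  have he_add : ∀ s t, e (s + t) = e s * e t := by
    intro s t
    show Complex.exp _ = Complex.exp _ * Complex.exp _
    rw [← Complex.exp_add, map_add]
    congr 1
    push_cast; ring
  have he_int : ∀ k : ℤ, e k = 1 := by
    intro k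
    show Complex.exp (2 * Real.pi * Complex.I * ((r (k : ℝ) : ℚ) : ℂ)) = 1
    rw [hrk]
    rw [Complex.exp_eq_one_iff]
    exact ⟨k, by push_cast; ring⟩
  let χ : ℂ → ℂ := fun z => if z = 0 then 0 else e (Complex.arg z / (2 * Real.pi))
  have hmul : ∀ x y, χ (x * y) = χ x * χ y := by
    intro x y
    by_cases hx : x = 0
    · simp [χ, hx]
    by_cases hy : y = 0
    · simp [χ, hy]
    have hxy : x * y ≠ 0 := mul_ne_zero hx hy
    simp only [χ, if_neg hx, if_neg hy, if_neg hxy]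
    have h1 := Complex.arg_mul_coe_angle hx hy
    rw [← Real.Angle.coe_add, Real.Angle.angle_eq_iff_two_pi_dvd_sub] at h1
    obtain ⟨k, hk⟩ := h1
    have h2 : Complex.arg (x * y) / (2 * Real.pi) =
        Complex.arg x / (2 * Real.pi) + Complex.arg y / (2 * Real.pi) + (k : ℝ) := by
      have hp : (2 * Real.pi) ≠ 0 := by positivity
      field_simp
      linarith
    rw [h2, he_add, he_add, he_int, mul_one]
  have h1 : χ 1 = 1 := by
    simp only [χ, if_neg (one_ne_zero (α := ℂ)), Complex.arg_one, zero_div]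
    have := he_int 0
    simpa using this
  have hm1 : χ (-1) = -1 := by
    simp only [χ, if_neg (neg_ne_zero.2 (one_ne_zero (α := ℂ))), Complex.arg_neg_one]
    have h2 : Real.pi / (2 * Real.pi) = ((1 / 2 : ℚ)) • (1 : ℝ) := by
      have := Real.pi_ne_zero
      rw [Rat.smul_def]; push_cast; field_simp
    show Complex.exp (2 * Real.pi * Complex.I * ((r (Real.pi / (2 * Real.pi)) : ℚ) : ℂ)) = -1
    rw [h2, map_smul, hr]
    have h3 : (2 * Real.pi * Complex.I * (((1 / 2 : ℚ) • (1 : ℚ) : ℚ) : ℂ)) = Real.pi * Complex.I := by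
      push_cast; simp; ring
    rw [h3, Complex.exp_pi_mul_I]
  refine ⟨χ, hmul, h1, ?_, ?_⟩
  · intro x
    rw [← neg_one_mul, hmul, hm1, neg_one_mul]
  · intro z hz
    simp only [χ, if_neg hz]
    set q := r (Complex.arg z / (2 * Real.pi)) with hq
    refine ⟨q.den, q.den_pos, ?_⟩
    show (Complex.exp (2 * Real.pi * Complex.I * ((r (Complex.arg z / (2 * Real.pi)) : ℚ) : ℂ))) ^ q.den = 1
    rw [← hq, ← Complex.exp_nat_mul, Complex.exp_eq_one_iff]
    refine ⟨q.num, ?_⟩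
    have h5 : (q.den : ℂ) * (q : ℂ) = (q.num : ℂ) := by
      have := Rat.den_mul_eq_num q
      exact_mod_cast this
    calc (q.den : ℂ) * (2 * Real.pi * Complex.I * (q : ℂ)) = ((q.den : ℂ) * (q : ℂ)) * (2 * Real.pi * Complex.I) := by ring
      _ = _ := by rw [h5]

end Pool.Agent.H5.M9aaefc
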