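import Pool.Agent.H5.M9aaefcA
import Pool.Agent.H5.M9aaefcC

set_option autoImplicit false

namespace Pool.Agent.H5.M9aaefc

open MvPowerSeries

variable {n : ℕ}

abbrev R (n : ℕ) := MvPowerSeries (Fin n) ℂ

def Zc (M : Fin n → R n) : Prop := ∀ i, constantCoeff (M i) = 0

noncomputable def sb (M : Fin n → R n) (hM : Zc M) : R n →ₐ[ℂ] R n :=
  substAlgHom (hasSubst_of_constantCoeff_zero hM)

theorem sb_apply (M : Fin n → R n) (hM : Zc M) (p : R n) : sb M hM p = subst M p := by
  rw [sb, coe_substAlgHom]

theorem sb_X (M : Fin n → R n) (hM : Zc M) (i : Fin n) : sb M hM (X i) = M i := by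
  rw [sb_apply, subst_X (hasSubst_of_constantCoeff_zero hM)]

theorem sb_sb (A B : Fin n → R n) (hA : Zc A) (hB : Zc B) (p : R n) :
    subst A (subst B p) = subst (fun i => subst A (B i)) p :=
  subst_comp_subst_apply (hasSubst_of_constantCoeff_zero hB) (hasSubst_of_constantCoeff_zero hA) p

theorem Zc_comp (A B : Fin n → R n) (hA : Zc A) (hB : Zc B) : Zc (fun i => subst A (B i)) := by
  intro i
  exact constantCoeff_subst_eq_zero (hasSubst_of_constantCoeff_zero hA) hA (hB i)

noncomputable def I (n k : ℕ) : Ideal (R n) where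
  carrier := {p | (k : ℕ∞) ≤ p.order}
  add_mem' := by
    intro a b ha hb
    exact le_trans (le_min ha hb) min_order_le_add
  zero_mem' := by simp
  smul_mem' := by
    intro c x hx
    exact le_trans (le_trans hx (le_add_of_nonneg_left (zero_le))) le_order_mul

theorem mem_I (k : ℕ) (p : R n) : p ∈ I n k ↔ ∀ d : Fin n →₀ ℕ, d.degree < k → coeff d p = 0 := by
  constructor
  · intro h d hd
    apply coeff_of_lt_order
    exact lt_of_lt_of_le (by exact_mod_cast hd) h
  · intro h
    exact nat_le_order h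

theorem I_mul (j k : ℕ) (p q : R n) (hp : p ∈ I n j) (hq : q ∈ I n k) : p * q ∈ I n (j + k) := by
  show ((j + k : ℕ) : ℕ∞) ≤ (p * q).order
  push_cast
  exact le_trans (add_le_add hp hq) le_order_mul

theorem I_mono (j k : ℕ) (h : j ≤ k) : I n k ≤ I n j := by
  intro p hp
  have h1 : ((j : ℕ) : ℕ∞) ≤ (k : ℕ∞) := by exact_mod_cast h
  exact le_trans h1 hp

theorem Zc_I (M : Fin n → R n) (hM : Zc M) (i : Fin n) : M i ∈ I n 1 := by
  rw [mem_I]
  intro d hd
  have : d = 0 := by
    have h0 : d.degree = 0 := by omega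
    exact (Finsupp.degree_eq_zero_iff d).1 h0
  rw [this]; exact hM i

theorem sb_I (M : Fin n → R n) (hM : Zc M) (k : ℕ) (p : R n) (hp : p ∈ I n k) :
    sb M hM p ∈ I n k := by
  rw [sb_apply]
  show (k : ℕ∞) ≤ (subst M p).order
  have h1 := le_order_subst (hasSubst_of_constantCoeff_zero hM) p
  have h2 : (1 : ℕ∞) ≤ ⨅ i, (M i).order := by
    apply le_iInf
    intro i
    have := Zc_I M hM i
    exact_mod_cast this
  calc (k : ℕ∞) ≤ p.order := hp
    _ = 1 * p.order := by rw [one_mul]
    _ ≤ (⨅ i, (M i).order) * p.order := mul_le_mul_left h2 _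
    _ ≤ _ := h1

theorem eq_of_I (p q : R n) (h : ∀ k, p - q ∈ I n k) : p = q := by
  ext d
  have h1 := (mem_I _ _).1 (h (d.degree + 1)) d (by omega)
  rw [map_sub, sub_eq_zero] at h1
  exact h1

abbrev Q (n k : ℕ) := R n ⧸ I n k

theorem finite_deg (k : ℕ) : Finite {d : Fin n →₀ ℕ // d.degree < k} :=
  Set.Finite.to_subtype (Set.Finite.subset (Finsupp.finite_of_degree_le k)
    (fun d (hd : d.degree < k) => (le_of_lt hd : d.degree ≤ k)))

instance finQ (k : ℕ) : FiniteDimensional ℂ (Q n k) := by
  have := finite_deg (n := n) k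
  let f : R n →ₗ[ℂ] ({d : Fin n →₀ ℕ // d.degree < k} → ℂ) :=
    LinearMap.pi (fun d => coeff (R := ℂ) d.1)
  have hf : ∀ p, f p = 0 ↔ p ∈ I n k := by
    intro p
    rw [mem_I]
    constructor
    · intro h d hd
      exact congrFun h ⟨d, hd⟩
    · intro h
      funext d
      exact h d.1 d.2
  let g : Q n k →ₗ[ℂ] ({d : Fin n →₀ ℕ // d.degree < k} → ℂ) :=
    Submodule.liftQ ((I n k).restrictScalars ℂ) f (by
      intro p hp
      exact (hf p).2 hp)
  apply Module.Finite.of_injective g
  rw [injective_iff_map_eq_zero]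
  intro a ha
  obtain ⟨p, rfl⟩ := Ideal.Quotient.mk_surjective a
  rw [Ideal.Quotient.eq_zero_iff_mem]
  exact (hf p).1 ha

/-- induced map on truncations -/
noncomputable def hk (M : Fin n → R n) (hM : Zc M) (k : ℕ) : Q n k →ₐ[ℂ] Q n k :=
  Ideal.quotientMapₐ (I n k) (sb M hM) (fun p hp => sb_I M hM k p hp)

theorem hk_mk (M : Fin n → R n) (hM : Zc M) (k : ℕ) (p : R n) :
    hk M hM k (Ideal.Quotient.mk _ p) = Ideal.Quotient.mk _ (subst M p) := by
  rw [← sb_apply M hM]; rfl

theorem approx (k : ℕ) (p : R n) : p - (truncTotal k p : MvPolynomial (Fin n) ℂ) ∈ I n k := by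
  rw [mem_I]
  intro d hd
  rw [map_sub, MvPolynomial.coeff_coe, coeff_truncTotal _ hd, sub_self]

theorem D_monomial (M : Fin n → R n) (hM : Zc M) (h2 : ∀ i, M i - X i ∈ I n 2) (d : Fin n →₀ ℕ) :
    sb M hM (monomial d 1) - monomial d 1 ∈ I n (d.degree + 1) ∧
      (monomial d (1 : ℂ) : R n) ∈ I n d.degree := by
  have hmon : ∀ d : Fin n →₀ ℕ, (monomial d (1 : ℂ) : R n) ∈ I n d.degree := by
    intro d
    rw [mem_I]
    intro e he
    rw [coeff_monomial, if_neg]
    rintro rfl
    omega
  refine ⟨?_, hmon d⟩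
  induction d using Finsupp.induction_linear with
  | zero =>
    have : (monomial (0 : Fin n →₀ ℕ) (1 : ℂ) : R n) = 1 := rfl
    rw [this, map_one, sub_self]
    exact Ideal.zero_mem _
  | add f g hf hg =>
    have e : (monomial (f + g) (1 : ℂ) : R n) = monomial f 1 * monomial g 1 := by
      rw [monomial_mul_monomial, one_mul]
    rw [e, map_mul]
    have e2 : sb M hM (monomial f 1) * sb M hM (monomial g 1) - monomial f 1 * monomial g 1 =
        (sb M hM (monomial f 1) - monomial f 1) * sb M hM (monomial g 1) +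
          monomial f 1 * (sb M hM (monomial g 1) - monomial g 1) := by ring
    rw [e2, map_add]
    apply Ideal.add_mem
    · have := I_mul _ _ _ _ hf (sb_I M hM _ _ (hmon g))
      rwa [show f.degree + 1 + g.degree = f.degree + g.degree + 1 by omega] at this
    · have := I_mul _ _ _ _ (hmon f) hg
      rwa [show f.degree + (g.degree + 1) = f.degree + g.degree + 1 by omega] at this
  | single i b =>
    induction b with
    | zero =>
      have : (monomial (Finsupp.single i 0 : Fin n →₀ ℕ) (1 : ℂ) : R n) = 1 := by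
        rw [Finsupp.single_zero]; rfl
      rw [this, map_one, sub_self]
      exact Ideal.zero_mem _
    | succ b ih =>
      have e : (monomial (Finsupp.single i (b + 1)) (1 : ℂ) : R n) =
          monomial (Finsupp.single i b) 1 * X i := by
        rw [X, monomial_mul_monomial, one_mul, Finsupp.single_add]
      rw [e, map_mul, sb_X]
      have e2 : sb M hM (monomial (Finsupp.single i b) 1) * M i - monomial (Finsupp.single i b) 1 * X i =
          (sb M hM (monomial (Finsupp.single i b) 1) - monomial (Finsupp.single i b) 1) * M i +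
            monomial (Finsupp.single i b) 1 * (M i - X i) := by ring
      have hs : ∀ b, (Finsupp.single i b : Fin n →₀ ℕ).degree = b := by
        intro b; simp
      rw [e2]
      have hm := hmon (Finsupp.single i b)
      rw [hs] at ih hm ⊢
      apply Ideal.add_mem
      · exact I_mul _ _ _ _ ih (Zc_I M hM i)
      · exact I_mul b 2 _ _ hm (h2 i)

theorem D_gen (M : Fin n → R n) (hM : Zc M) (h2 : ∀ i, M i - X i ∈ I n 2) (j : ℕ) (p : R n)
    (hp : p ∈ I n j) : sb M hM p - p ∈ I n (j + 1) := by
  set q := truncTotal (j + 1) p with hq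
  have h1 := approx (j + 1) p
  rw [← hq] at h1
  have h3 : sb M hM q - q ∈ I n (j + 1) := by
    have hsum : (q : R n) = ∑ d ∈ q.support, (q.coeff d) • (monomial d (1 : ℂ) : R n) := by
      conv_lhs => rw [q.as_sum]
      rw [← MvPolynomial.coeToMvPowerSeries.ringHom_apply, map_sum]
      apply Finset.sum_congr rfl
      intro d _
      rw [MvPolynomial.coeToMvPowerSeries.ringHom_apply, MvPolynomial.coe_monomial, ← map_smul,
        smul_eq_mul, mul_one]
    rw [hsum, map_sum, ← Finset.sum_sub_distrib]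
    apply Ideal.sum_mem
    intro d hd
    rw [map_smul, ← smul_sub]
    have hdj : j ≤ d.degree := by
      by_contra hlt
      push Not at hlt
      rw [MvPolynomial.mem_support_iff] at hd
      apply hd
      rw [hq, coeff_truncTotal _ (by omega)]
      exact (mem_I _ _).1 hp d hlt
    have h4 := I_mono (n := n) (j + 1) (d.degree + 1) (by omega) (D_monomial M hM h2 d).1
    rw [← smul_one_mul]
    exact Ideal.mul_mem_left _ _ h4
  have e : sb M hM p - p = sb M hM (p - q) - (p - q) + (sb M hM q - q) := by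
    rw [map_sub]; ring
  rw [e]
  exact Ideal.add_mem _ (Ideal.sub_mem _ (sb_I M hM _ _ h1) h1) h3

end Pool.Agent.H5.M9aaefc
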