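import Pool.Agent.H5.M9aaefcB

set_option autoImplicit false

namespace Pool.Agent.H5.M9aaefc

open MvPowerSeries

variable {n : ℕ}

noncomputable abbrev mk (n k : ℕ) : R n →+* Q n k := Ideal.Quotient.mk (I n k)

noncomputable def π (j k : ℕ) (h : j ≤ k) : Q n k →+* Q n j := Ideal.Quotient.factor (I_mono j k h)

theorem π_mk (j k : ℕ) (h : j ≤ k) (p : R n) : π j k h (mk n k p) = mk n j p := rfl

theorem main (F G1 H G2 : Fin n → R n) (hF : Zc F) (hG1 : Zc G1) (hH : Zc H) (hG2 : Zc G2)
    (f1 : ∀ i, subst G1 (F i) = X i) (f2 : ∀ i, subst F (G1 i) = X i)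
    (g1 : ∀ i, subst G2 (H i) = X i) (g2 : ∀ i, subst H (G2 i) = X i)
    (hr : ∀ i, subst (fun j => subst F (H j)) (F i) = H i) :
    ∃ K : Fin n → R n, Zc K ∧
      (∃ k : ℕ, 1 ≤ k ∧
          (fun M : Fin n → R n => fun i => subst M (K i))^[k] (fun i => X i) = (fun i => X i)) ∧
        (∀ i, subst (fun j => subst F (K j)) (F i) = K i) := by
  classical
  obtain ⟨χ, χmul, χone, χneg, χtor⟩ := exists_char
  -- operator relations on R
  have hXs : ∀ p : R n, subst (fun i => (X i : R n)) p = p := by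
    intro p
    have := subst_self (σ := Fin n) (R := ℂ)
    exact congrFun this p
  have FG : ∀ p : R n, subst F (subst G1 p : R n) = p := by
    intro p
    rw [sb_sb F G1 hF hG1]
    have : (fun i => subst F (G1 i)) = fun i => (X i : R n) := funext f2
    rw [this, hXs]
  have GF : ∀ p : R n, subst G1 (subst F p : R n) = p := by
    intro p
    rw [sb_sb G1 F hG1 hF]
    have : (fun i => subst G1 (F i)) = fun i => (X i : R n) := funext f1
    rw [this, hXs]
  have HG : ∀ p : R n, subst G2 (subst H p : R n) = p := by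
    intro p
    rw [sb_sb G2 H hG2 hH]
    have : (fun i => subst G2 (H i)) = fun i => (X i : R n) := funext g1
    rw [this, hXs]
  have FHF : ∀ p : R n, subst F (subst H (subst F p : R n) : R n) = subst H p := by
    intro p
    rw [sb_sb F H hF hH, sb_sb _ F (Zc_comp F H hF hH) hF]
    have : (fun i => subst (fun i => subst F (H i)) (F i)) = H := funext hr
    rw [this]
  have HF : ∀ p : R n, subst H (subst F p : R n) = subst G1 (subst H p : R n) := by
    intro p
    rw [← FHF p, GF]
  have HG' : ∀ p : R n, subst H (subst G1 p : R n) = subst F (subst H p : R n) := by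
    intro p
    rw [← FHF (subst G1 p), FG]
  -- operators on Q
  let h : ∀ k, Q n k →ₐ[ℂ] Q n k := hk H hH
  let f : ∀ k, Q n k →ₐ[ℂ] Q n k := hk F hF
  let g : ∀ k, Q n k →ₐ[ℂ] Q n k := hk G1 hG1
  have hmk : ∀ k p, h k (mk n k p) = mk n k (subst H p) := fun k p => hk_mk H hH k p
  have fmk : ∀ k p, f k (mk n k p) = mk n k (subst F p) := fun k p => hk_mk F hF k p
  have gmk : ∀ k p, g k (mk n k p) = mk n k (subst G1 p) := fun k p => hk_mk G1 hG1 k p
  choose τ hτ using fun k => exists_tau ((h k).toLinearMap : Module.End ℂ (Q n k)) χ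
  have τmul : ∀ k a b, τ k (a * b) = τ k a * τ k b := fun k => tau_mul (h k) χ χmul (τ k) (hτ k)
  have τone : ∀ k, τ k 1 = 1 := fun k => tau_one (h k) χ χone (τ k) (hτ k)
  have τcompat : ∀ j k (hjk : j ≤ k) a, π j k hjk (τ k a) = τ j (π j k hjk a) := by
    intro j k hjk a
    let πl : Q n k →ₗ[ℂ] Q n j := (Ideal.Quotient.factorₐ ℂ (I_mono (n := n) j k hjk)).toLinearMap
    exact tau_compat (V := Q n k) (V' := Q n j) ((h k).toLinearMap) ((h j).toLinearMap) πl (by
      intro a
      obtain ⟨p, rfl⟩ := Ideal.Quotient.mk_surjective a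
      show π j k hjk (h k (mk n k p)) = h j (π j k hjk (mk n k p))
      rw [hmk, π_mk, π_mk, hmk]) χ (τ k) (hτ k) (τ j) (hτ j) a
  have τrev : ∀ k a, f k (τ k (f k a)) = τ k a := by
    intro k
    apply tau_rev (V := Q n k) ((h k).toLinearMap) ((f k).toLinearMap) ((g k).toLinearMap) _ _ _ χ χneg
      (τ k) (hτ k)
    · intro a
      obtain ⟨p, rfl⟩ := Ideal.Quotient.mk_surjective a
      show h k (f k (mk n k p)) = g k (h k (mk n k p))
      rw [fmk, hmk, hmk, gmk, HF]
    · intro a
      obtain ⟨p, rfl⟩ := Ideal.Quotient.mk_surjective a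
      show h k (g k (mk n k p)) = f k (h k (mk n k p))
      rw [gmk, hmk, hmk, fmk, HG']
    · intro a
      obtain ⟨p, rfl⟩ := Ideal.Quotient.mk_surjective a
      show f k (g k (mk n k p)) = mk n k p
      rw [gmk, fmk, FG]
  -- lifts
  have hlift : ∀ k i, ∃ t : R n, mk n k t = τ k (mk n k (X i)) :=
    fun k i => Ideal.Quotient.mk_surjective _
  choose t ht using hlift
  have tcompat : ∀ j k, j ≤ k → ∀ i, t k i - t j i ∈ I n j := by
    intro j k hjk i
    rw [← Ideal.Quotient.eq]
    show mk n j (t k i) = mk n j (t j i)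
    rw [← π_mk j k hjk, ht, ht, τcompat, π_mk]
  let K : Fin n → R n := fun i => fun d => coeff d (t (d.degree + 1) i)
  have Kmk : ∀ k i, mk n k (K i) = τ k (mk n k (X i)) := by
    intro k i
    rw [← ht]
    apply Ideal.Quotient.eq.2
    rw [mem_I]
    intro d hd
    have h1 := (mem_I _ _).1 (tcompat (d.degree + 1) k hd i) d (by omega)
    rw [map_sub] at h1 ⊢
    show coeff d (t (d.degree + 1) i) - coeff d (t k i) = 0
    rw [← neg_sub, h1, neg_zero]
  have KZ : Zc K := by
    intro i
    have h1 : mk n 1 (K i) = 0 := by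
      rw [Kmk]
      have : mk n 1 (X i) = 0 := by
        apply Ideal.Quotient.eq_zero_iff_mem.2
        exact Zc_I (fun i => X i) (fun i => by simp) i
      rw [this, map_zero]
    have h2 := (mem_I _ _).1 (Ideal.Quotient.eq_zero_iff_mem.1 h1) 0 (by simp)
    exact h2
  -- tau as algebra hom
  let τa : ∀ k, Q n k →ₐ[ℂ] Q n k := fun k => AlgHom.ofLinearMap (τ k) (τone k) (τmul k)
  have Kall : ∀ k (p : R n), mk n k (subst K p) = τ k (mk n k p) := by
    intro k p
    let φ1 : R n →ₐ[ℂ] Q n k := (Ideal.Quotient.mkₐ ℂ (I n k)).comp (sb K KZ)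
    let φ2 : R n →ₐ[ℂ] Q n k := (τa k).comp (Ideal.Quotient.mkₐ ℂ (I n k))
    have e1 : ∀ q ∈ I n k, φ1 q = 0 := by
      intro q hq
      exact Ideal.Quotient.eq_zero_iff_mem.2 (sb_I K KZ k q hq)
    have e2 : ∀ q ∈ I n k, φ2 q = 0 := by
      intro q hq
      show τ k (mk n k q) = 0
      have : mk n k q = 0 := Ideal.Quotient.eq_zero_iff_mem.2 hq
      rw [this, map_zero]
    have e3 : φ1.comp (MvPolynomial.coeToMvPowerSeries.algHom (R := ℂ) (σ := Fin n) ℂ) =
        φ2.comp (MvPolynomial.coeToMvPowerSeries.algHom (R := ℂ) (σ := Fin n) ℂ) := by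
      apply MvPolynomial.algHom_ext
      intro i
      show φ1 (MvPolynomial.coeToMvPowerSeries.algHom (R := ℂ) (σ := Fin n) ℂ (MvPolynomial.X i)) =
        φ2 (MvPolynomial.coeToMvPowerSeries.algHom (R := ℂ) (σ := Fin n) ℂ (MvPolynomial.X i))
      have hx : MvPolynomial.coeToMvPowerSeries.algHom (R := ℂ) (σ := Fin n) ℂ (MvPolynomial.X i) =
          (X i : R n) := by
        rw [MvPolynomial.coeToMvPowerSeries.algHom_apply]; simp
      rw [hx]
      show mk n k (sb K KZ (X i)) = τ k (mk n k (X i))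
      rw [sb_X, Kmk]
    have e4 : φ1 p = φ2 p := by
      have hp : p = (p - (truncTotal k p : MvPolynomial (Fin n) ℂ)) + (truncTotal k p : MvPolynomial (Fin n) ℂ) := by ring
      rw [hp, map_add, map_add, e1 _ (approx k p), e2 _ (approx k p)]
      have h9 := congrArg (fun φ => φ (truncTotal k p)) e3
      have hq : MvPolynomial.coeToMvPowerSeries.algHom (R := ℂ) (σ := Fin n) ℂ (truncTotal k p) =
          ((truncTotal k p : MvPolynomial (Fin n) ℂ) : R n) := by
        rw [MvPolynomial.coeToMvPowerSeries.algHom_apply]; simp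
      have h10 : φ1 (MvPolynomial.coeToMvPowerSeries.algHom (R := ℂ) (σ := Fin n) ℂ (truncTotal k p)) =
        φ2 (MvPolynomial.coeToMvPowerSeries.algHom (R := ℂ) (σ := Fin n) ℂ (truncTotal k p)) := h9
      rw [hq] at h10
      rw [h10]
    have e5 : mk n k (sb K KZ p) = τ k (mk n k p) := e4
    rwa [sb_apply] at e5
  -- iterates
  have hit : ∀ m : ℕ, Zc ((fun M : Fin n → R n => fun i => subst M (K i))^[m] (fun i => X i)) ∧
      ∀ k (p : R n), mk n k (subst ((fun M : Fin n → R n => fun i => subst M (K i))^[m] (fun i => X i)) p) =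
        (τ k ^ m : Module.End ℂ (Q n k)) (mk n k p) := by
    intro m
    induction m with
    | zero =>
      refine ⟨fun i => by simp, fun k p => ?_⟩
      show mk n k (subst (fun i => X i) p) = mk n k p
      rw [hXs]
    | succ m ih =>
      obtain ⟨z, ih⟩ := ih
      rw [Function.iterate_succ', Function.comp_apply]
      set M := (fun M : Fin n → R n => fun i => subst M (K i))^[m] (fun i => X i) with hM
      refine ⟨Zc_comp M K z KZ, fun k p => ?_⟩
      show mk n k (subst (fun i => subst M (K i)) p) = _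
      rw [← sb_sb M K z KZ, ih, Kall, pow_succ, Module.End.mul_apply]
  -- order
  have hinj : ∀ k, Function.Injective ((h k).toLinearMap : Module.End ℂ (Q n k)) := by
    intro k a b hab
    obtain ⟨p, rfl⟩ := Ideal.Quotient.mk_surjective a
    obtain ⟨q, rfl⟩ := Ideal.Quotient.mk_surjective b
    have h1 : h k (mk n k p) = h k (mk n k q) := hab
    rw [hmk, hmk] at h1
    have h2 := congrArg (hk G2 hG2 k) h1
    rw [hk_mk, hk_mk, HG, HG] at h2
    exact h2
  have hord : ∃ N : ℕ, 1 ≤ N ∧ ∀ i, (τ 2 ^ N : Module.End ℂ (Q n 2)) (mk n 2 (X i)) = mk n 2 (X i) := by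
    choose N hN1 hN2 using fun i => tau_fin ((h 2).toLinearMap : Module.End ℂ (Q n 2)) (hinj 2) χ χtor
      (τ 2) (hτ 2) (mk n 2 (X i))
    refine ⟨∏ i, N i, ?_, ?_⟩
    · have hpos : 0 < ∏ i, N i := Finset.prod_pos (fun i _ => lt_of_lt_of_le Nat.zero_lt_one (hN1 i))
      exact hpos
    · intro i
      have hprod : ∏ i, N i = N i * ∏ j ∈ Finset.univ.erase i, N j :=
        (Finset.mul_prod_erase Finset.univ N (Finset.mem_univ i)).symm
      rw [hprod, pow_mul]
      generalize ∏ j ∈ Finset.univ.erase i, N j = m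
      induction m with
      | zero => simp
      | succ m ih => rw [pow_succ, Module.End.mul_apply, hN2, ih]
  obtain ⟨N, hN1, hN2⟩ := hord
  obtain ⟨zN, hitN⟩ := hit N
  set M := (fun M : Fin n → R n => fun i => subst M (K i))^[N] (fun i => X i) with hM
  have hM2 : ∀ i, M i - X i ∈ I n 2 := by
    intro i
    rw [← Ideal.Quotient.eq]
    show mk n 2 (M i) = mk n 2 (X i)
    have h1 := hitN 2 (X i)
    rw [subst_X (hasSubst_of_constantCoeff_zero zN), hN2] at h1
    exact h1
  have hDu : ∀ k a, (((τ k ^ N : Module.End ℂ (Q n k)) - 1) ^ k) a = 0 := by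
    intro k a
    have key : ∀ j, ∀ p : R n, ∃ q ∈ I n j, (((τ k ^ N : Module.End ℂ (Q n k)) - 1) ^ j) (mk n k p) = mk n k q := by
      intro j
      induction j with
      | zero =>
        intro p
        exact ⟨p, by rw [mem_I]; intro d hd; omega, by simp⟩
      | succ j ih =>
        intro p
        obtain ⟨q, hq, e⟩ := ih p
        refine ⟨sb M zN q - q, D_gen M zN hM2 j q hq, ?_⟩
        rw [pow_succ', Module.End.mul_apply, e, LinearMap.sub_apply, Module.End.one_apply, ← hitN,
          map_sub, sb_apply]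
    obtain ⟨p, rfl⟩ := Ideal.Quotient.mk_surjective a
    obtain ⟨q, hq, e⟩ := key k p
    exact e.trans (Ideal.Quotient.eq_zero_iff_mem.2 hq)
  have hid : ∀ k a, (τ k ^ N : Module.End ℂ (Q n k)) a = a := fun k =>
    tau_unip ((h k).toLinearMap : Module.End ℂ (Q n k)) χ (τ k) (hτ k) N k (hDu k)
  refine ⟨K, KZ, ⟨N, hN1, ?_⟩, ?_⟩
  · funext i
    apply eq_of_I
    intro k
    rw [← Ideal.Quotient.eq]
    show mk n k (M i) = mk n k (X i)
    have h1 := hitN k (X i)
    rw [subst_X (hasSubst_of_constantCoeff_zero zN), hid] at h1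
    exact h1
  · intro i
    apply eq_of_I
    intro k
    rw [← Ideal.Quotient.eq]
    show mk n k (subst (fun j => subst F (K j)) (F i)) = mk n k (K i)
    rw [← sb_sb F K hF KZ, ← fmk, Kall, Kmk]
    have h1 := τrev k (mk n k (X i))
    rw [fmk, subst_X (hasSubst_of_constantCoeff_zero hF)] at h1
    exact h1

end Pool.Agent.H5.M9aaefc
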