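import Mathlib

set_option autoImplicit false

namespace Pool.Agent.H5.Mb9b46b

universe u

/-- The lattice-ordered commutative ring `A` is an f-ring: a subdirect product of totally ordered
rings `T i`, the maps `φ i` being the (surjective) coordinate projections, which are homomorphisms
of lattice-ordered rings and jointly separate the points of `A`. -/
def IsFRing (A : Type u) [CommRing A] [Lattice A] : Prop :=
  ∃ (ι : Type u) (T : ι → Type u) (_ : ∀ i, CommRing (T i)) (_ : ∀ i, LinearOrder (T i))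
    (_ : ∀ i, IsOrderedRing (T i)) (φ : ∀ i, A →+* T i),
    (∀ i, Function.Surjective (φ i)) ∧
    (∀ i a b, φ i (a ⊔ b) = φ i a ⊔ φ i b) ∧
    (∀ i a b, φ i (a ⊓ b) = φ i a ⊓ φ i b) ∧
    ∀ a b, (∀ i, φ i a = φ i b) → a = b

/-- The class `𝒞`: f-rings without nonzero nilpotents and with bounded inversion. -/
def InC (A : Type u) [CommRing A] [Lattice A] : Prop :=
  IsFRing A ∧ (∀ x : A, IsNilpotent x → x = 0) ∧ ∀ x : A, 1 < x → IsUnit x

/-- Condition (a), the local-global property. -/
def LG (A : Type u) [CommRing A] : Prop :=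
  ∀ n : ℕ, 1 ≤ n → ∀ f : MvPolynomial (Fin n) A,
    (∀ (M : Ideal A) (hM : M.IsMaximal),
      ∃ x : Fin n → @Localization.AtPrime A _ M hM.isPrime, IsUnit (MvPolynomial.aeval x f)) →
    ∃ y : Fin n → A, IsUnit (MvPolynomial.eval y f)

/-- Condition (b). -/
def CondB (A : Type u) [CommRing A] [Lattice A] : Prop :=
  ∀ a b : A, 0 ≤ a → 0 ≤ b → Ideal.span {a} ⊔ Ideal.span {b} = ⊤ → ∃ u : A, IsUnit (a - b * u ^ 2)

end Pool.Agent.H5.Mb9b46b
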