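import Pool.Agent.H5.Mb9b46bDefs

set_option autoImplicit false

namespace Pool.Agent.H5.Mb9b46b

universe u

section order

variable {A : Type u} [CommRing A] [Lattice A]

theorem frame (h : IsFRing A) : (∀ x : A, 0 ≤ x * x) ∧ (∀ x y : A, 0 ≤ x → 0 ≤ y → 0 ≤ x * y) ∧
    (∀ x y z : A, x ≤ y → x + z ≤ y + z) ∧ (∀ w : A, (w ⊔ 0) * (-w ⊔ 0) = 0) ∧
    (∀ w : A, (w ⊔ 0) - (-w ⊔ 0) = w) ∧ (∀ w : A, (w ⊔ -w) * (w ⊔ -w) = w * w) ∧
    (∀ w : A, 0 ≤ w ⊔ -w) := by
  obtain ⟨ι, T, _, _, _, φ, _, hsup, _, hext⟩ := h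
  have hle : ∀ a b : A, a ≤ b ↔ ∀ i, φ i a ≤ φ i b := by
    intro a b
    rw [← sup_eq_right]
    constructor
    · intro h i
      rw [← sup_eq_right, ← hsup, h]
    · intro h
      apply hext
      intro i
      rw [hsup, sup_eq_right]
      exact h i
  refine ⟨fun x => ?_, fun x y hx hy => ?_, fun x y z hxy => ?_, fun w => ?_, fun w => ?_,
    fun w => ?_, fun w => ?_⟩
  · rw [hle]
    intro i
    rw [map_zero, map_mul]
    exact mul_self_nonneg _
  · rw [hle] at *
    intro i
    have h1 := hx i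
    have h2 := hy i
    rw [map_zero] at *
    rw [map_mul]
    exact mul_nonneg h1 h2
  · rw [hle] at *
    intro i
    rw [map_add, map_add]
    exact add_le_add_left (hxy i) _
  · apply hext
    intro i
    rw [map_mul, hsup, hsup, map_neg, map_zero]
    rcases le_total 0 (φ i w) with h | h
    · rw [sup_eq_right.2 (neg_nonpos.2 h), mul_zero]
    · rw [sup_eq_right.2 h, zero_mul]
  · apply hext
    intro i
    rw [map_sub, hsup, hsup, map_neg, map_zero]
    rcases le_total 0 (φ i w) with h | h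
    · rw [sup_eq_right.2 (neg_nonpos.2 h), sup_eq_left.2 h, sub_zero]
    · rw [sup_eq_right.2 h, sup_eq_left.2 (neg_nonneg.2 h), zero_sub, neg_neg]
  · apply hext
    intro i
    rw [map_mul, hsup, map_neg, map_mul]
    rcases le_total 0 (φ i w) with h | h
    · rw [sup_eq_left.2 ((neg_nonpos.2 h).trans h)]
    · rw [sup_eq_right.2 (h.trans (neg_nonneg.2 h)), neg_mul_neg]
  · rw [hle]
    intro i
    rw [map_zero, hsup, map_neg]
    rcases le_total 0 (φ i w) with h | h
    · exact h.trans le_sup_left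
    · exact (neg_nonneg.2 h).trans le_sup_right

variable (hA : InC A)
include hA

theorem sub_nonneg' {x y : A} : 0 ≤ y - x ↔ x ≤ y := by
  have h := (frame hA.1).2.2.1
  constructor
  · intro h1
    have := h _ _ x h1
    simpa using this
  · intro h1
    have := h _ _ (-x) h1
    simpa [sub_eq_add_neg] using this

/-- maximal ideals are convex -/
theorem convex {M : Ideal A} (hM : M.IsMaximal) {x y : A} (hy : 0 ≤ y) (hyx : y ≤ x)
    (hx : x ∈ M) : y ∈ M := by
  obtain ⟨hsq, hmul, hadd, -⟩ := frame hA.1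
  have hadd2 : ∀ a b c d : A, a ≤ b → c ≤ d → a + c ≤ b + d := by
    intro a b c d h1 h2
    have h3 := hadd _ _ c h1
    have h4 := hadd _ _ b h2
    rw [add_comm c b, add_comm d b] at h4
    exact h3.trans h4
  by_contra hn
  obtain ⟨s, m, hm, hs⟩ := hM.exists_inv hn
  have ht : 2 * (m * m) + 2 * ((x * s) * (x * s)) ∈ M := by
    apply M.add_mem
    · exact M.mul_mem_left _ (M.mul_mem_left _ hm)
    · exact M.mul_mem_left _ (M.mul_mem_left _ (M.mul_mem_right _ hx))
  have hx0 : 0 ≤ x := hy.trans hyx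
  have h1 : 0 ≤ (x - y) * (x + y) * (s * s) := by
    apply hmul _ _ (hmul _ _ ((sub_nonneg' hA).2 hyx) _) (hsq s)
    have := hadd2 _ _ _ _ hx0 hy
    simpa using this
  have h2 : (1 : A) ≤ 2 * (m * m) + 2 * ((x * s) * (x * s)) := by
    rw [← sub_nonneg' hA]
    have e : 2 * (m * m) + 2 * ((x * s) * (x * s)) - 1 =
        (2 * m - 1) * (2 * m - 1) + ((x - y) * (x + y) * (s * s) + (x - y) * (x + y) * (s * s)) := by
      have hsy : s * y = 1 - m := by rw [← hs]; ring
      have : (s * y) * (s * y) = (1 - m) * (1 - m) := by rw [hsy]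
      linear_combination 2 * this
    rw [e]
    have h3 := hadd2 _ _ _ _ h1 h1
    have h4 := hadd2 _ _ _ _ (hsq (2 * m - 1)) h3
    simpa using h4
  have hu : IsUnit (2 * (m * m) + 2 * ((x * s) * (x * s))) := by
    rcases h2.eq_or_lt with h | h
    · rw [← h]; exact isUnit_one
    · exact hA.2.2 _ h
  exact hM.ne_top (M.eq_top_of_isUnit_mem ht hu)

/-- condition (b) separates maximal ideals by idempotents -/
theorem separate (hB : CondB A) {M N : Ideal A} (hM : M.IsMaximal) (hN : N.IsMaximal)
    (hne : M ≠ N) : ∃ e : A, e * e = e ∧ e ∈ M ∧ 1 - e ∈ N := by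
  obtain ⟨hsq, hmul, hadd, hpq, hpmq, habs, habs0⟩ := frame hA.1
  have hadd2 : ∀ a b c d : A, a ≤ b → c ≤ d → a + c ≤ b + d := by
    intro a b c d h1 h2
    have h3 := hadd _ _ c h1
    have h4 := hadd _ _ b h2
    rw [add_comm c b, add_comm d b] at h4
    exact h3.trans h4
  have htop : M ⊔ N = ⊤ := hM.coprime_of_ne hN hne
  have h1 : (1 : A) ∈ M ⊔ N := htop ▸ Submodule.mem_top
  obtain ⟨a', ha', b', hb', hab⟩ := Submodule.mem_sup.1 h1
  set a := a' ⊔ -a' with ha
  set b := b' ⊔ -b' with hb
  have haM : a ∈ M := by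
    have : a * a ∈ M := by rw [ha, habs]; exact M.mul_mem_left _ ha'
    exact (hM.isPrime.mem_or_mem this).elim id id
  have hbN : b ∈ N := by
    have : b * b ∈ N := by rw [hb, habs]; exact N.mul_mem_left _ hb'
    exact (hN.isPrime.mem_or_mem this).elim id id
  have hunit : IsUnit (a + b) := by
    have h2 : (1 : A) ≤ a + b := by
      rw [← hab]
      exact hadd2 _ _ _ _ le_sup_left le_sup_left
    rcases h2.eq_or_lt with h | h
    · rw [← h]; exact isUnit_one
    · exact hA.2.2 _ h
  have hcop : Ideal.span {a} ⊔ Ideal.span {b} = ⊤ := by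
    rw [Ideal.eq_top_iff_one]
    obtain ⟨v, hv⟩ := hunit.exists_left_inv
    rw [← hv, mul_add]
    exact Submodule.add_mem_sup (Ideal.mul_mem_left _ _ (Ideal.mem_span_singleton_self a))
      (Ideal.mul_mem_left _ _ (Ideal.mem_span_singleton_self b))
  obtain ⟨u, hu⟩ := hB a b (habs0 a') (habs0 b') hcop
  set w := a - b * u ^ 2 with hw
  have hpq' := hpq w
  have hpmq' := hpmq w
  have hp0 : 0 ≤ w ⊔ 0 := le_sup_right
  have hq0 : 0 ≤ -w ⊔ 0 := le_sup_right
  have hbu : 0 ≤ b * u ^ 2 := by
    rw [pow_two]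
    exact hmul _ _ (habs0 b') (hsq u)
  have hpa : w ⊔ 0 ≤ a := by
    apply sup_le _ (habs0 a')
    rw [← sub_nonneg' hA, hw, sub_sub_cancel]
    exact hbu
  have hqb : -w ⊔ 0 ≤ b * u ^ 2 := by
    apply sup_le _ hbu
    rw [← sub_nonneg' hA, hw]
    have : b * u ^ 2 - -(a - b * u ^ 2) = a := by ring
    rw [this]
    exact habs0 a'
  generalize w ⊔ 0 = p at *
  generalize -w ⊔ 0 = q at *
  have hpM : p ∈ M := convex hA hM hp0 hpa haM
  have hqN : q ∈ N := convex hA hN hq0 hqb (N.mul_mem_right _ hbN)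
  have hpqu : IsUnit (p + q) := by
    have h3 : (p + q) * (p + q) = w * w := by
      rw [← hpmq']
      linear_combination 4 * hpq'
    exact isUnit_of_mul_isUnit_left (h3 ▸ hu.mul hu)
  obtain ⟨v, hv⟩ := hpqu.exists_left_inv
  refine ⟨p * v, ?_, M.mul_mem_right _ hpM, ?_⟩
  · linear_combination (p * v) * hv - v * v * hpq'
  · have : 1 - p * v = q * v := by rw [← hv]; ring
    rw [this]
    exact N.mul_mem_right _ hqN

end order

section patch

variable {A : Type u} [CommRing A]

/-- in the ideal generated by a join-closed set of idempotents -/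
theorem span_idem {S : Set A} (h0 : (0 : A) ∈ S) (hS : ∀ e ∈ S, e * e = e)
    (hj : ∀ e ∈ S, ∀ f ∈ S, e + f - e * f ∈ S) {x : A} (hx : x ∈ Ideal.span S) :
    ∃ g ∈ S, g * x = x := by
  induction hx using Submodule.span_induction with
  | mem x hx => exact ⟨x, hx, hS x hx⟩
  | zero => exact ⟨0, h0, mul_zero _⟩
  | add x y _ _ hx hy =>
    obtain ⟨e, he, hex⟩ := hx
    obtain ⟨f, hf, hfy⟩ := hy
    refine ⟨e + f - e * f, hj e he f hf, ?_⟩
    linear_combination (1 - f) * hex + (1 - e) * hfy
  | smul a x _ hx =>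
    obtain ⟨e, he, hex⟩ := hx
    refine ⟨e, he, ?_⟩
    rw [smul_eq_mul]
    linear_combination a * hex

/-- the patching argument -/
theorem patch (hsep : ∀ M N : Ideal A, M.IsMaximal → N.IsMaximal → M ≠ N →
    ∃ e : A, e * e = e ∧ e ∈ M ∧ 1 - e ∈ N) {n : ℕ} (f : MvPolynomial (Fin n) A)
    (hf : ∀ M : Ideal A, M.IsMaximal → ∃ y : Fin n → A, MvPolynomial.eval y f ∉ M) :
    ∃ y : Fin n → A, IsUnit (MvPolynomial.eval y f) := by
  -- evaluation depends only on the point modulo the annihilator of an idempotent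
  have hev : ∀ (e : A) (y z : Fin n → A), (∀ i, e * y i = e * z i) →
      e * MvPolynomial.eval y f = e * MvPolynomial.eval z f := by
    intro e y z h
    have h1 : ∀ g : MvPolynomial (Fin n) A, e * (MvPolynomial.eval y g) =
        e * (MvPolynomial.eval z g) := by
      intro g
      induction g using MvPolynomial.induction_on with
      | C a => simp
      | add p q hp hq => rw [map_add, map_add, mul_add, mul_add, hp, hq]
      | mul_X p i hp =>
        rw [map_mul, map_mul, MvPolynomial.eval_X, MvPolynomial.eval_X, ← mul_assoc, hp,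
          mul_assoc, mul_comm _ (y i), ← mul_assoc, h i]
        ring
    exact h1 f
  let J : Set A := {e | e * e = e ∧ ∃ (y : Fin n → A) (c : A), c * MvPolynomial.eval y f = e}
  have hJ0 : (0 : A) ∈ J := ⟨by ring, 0, 0, by ring⟩
  have hJj : ∀ e ∈ J, ∀ g ∈ J, e + g - e * g ∈ J := by
    rintro e ⟨he, y, c, hc⟩ g ⟨hg, z, d, hd⟩
    refine ⟨by linear_combination (1 - 2 * g + g * g) * he + (1 - e) * hg,
      fun i => e * y i + (1 - e) * z i, c * e + d * g * (1 - e), ?_⟩
    have h1 : e * MvPolynomial.eval (fun i => e * y i + (1 - e) * z i) f =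
        e * MvPolynomial.eval y f := by
      apply hev
      intro i
      linear_combination (y i - z i) * he
    have h2 : (1 - e) * MvPolynomial.eval (fun i => e * y i + (1 - e) * z i) f =
        (1 - e) * MvPolynomial.eval z f := by
      apply hev
      intro i
      linear_combination (z i - y i) * he
    linear_combination c * h1 + d * g * h2 + e * hc + g * (1 - e) * hd + he + (1 - e) * hg
  have hJtop : Ideal.span J = ⊤ := by
    by_contra hne
    obtain ⟨M, hM, hle⟩ := Ideal.exists_le_maximal _ hne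
    obtain ⟨y, hy⟩ := hf M hM
    set z := MvPolynomial.eval y f with hz
    let I : Set A := {e | e * e = e ∧ e ∈ M}
    have hK : Ideal.span {z} ⊔ Ideal.span I = ⊤ := by
      by_contra hne'
      obtain ⟨N, hN, hle'⟩ := Ideal.exists_le_maximal _ hne'
      have hzN : z ∈ N := hle' (Ideal.mem_sup_left (Ideal.mem_span_singleton_self z))
      have hMN : M ≠ N := by rintro rfl; exact hy hzN
      obtain ⟨e, he, heM, heN⟩ := hsep M N hM hN hMN
      have heN' : e ∈ N := hle' (Ideal.mem_sup_right (Ideal.subset_span ⟨he, heM⟩))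
      apply hN.ne_top
      rw [Ideal.eq_top_iff_one]
      have := N.add_mem heN heN'
      rwa [sub_add_cancel] at this
    have h1 : (1 : A) ∈ Ideal.span {z} ⊔ Ideal.span I := hK ▸ Submodule.mem_top
    obtain ⟨p, hp, q, hq, hpq⟩ := Submodule.mem_sup.1 h1
    obtain ⟨c, rfl⟩ := Ideal.mem_span_singleton'.1 hp
    obtain ⟨g, ⟨hg, hgM⟩, hgq⟩ := span_idem (S := I) ⟨by ring, M.zero_mem⟩ (fun e he => he.1)
      (fun e he f hf => ⟨by linear_combination (1 - 2 * f + f * f) * he.1 + (1 - e) * hf.1,
        M.sub_mem (M.add_mem he.2 hf.2) (M.mul_mem_left _ hf.2)⟩) hq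
    have hmem : 1 - g ∈ J := by
      refine ⟨by linear_combination hg, y, c * (1 - g), ?_⟩
      rw [← hz]
      linear_combination (1 - g) * hpq + hgq
    have hmemM := hle (Ideal.subset_span hmem)
    apply hM.ne_top
    rw [Ideal.eq_top_iff_one]
    have := M.add_mem hmemM hgM
    rwa [sub_add_cancel] at this
  obtain ⟨g, ⟨_, y, c, hc⟩, hg⟩ := span_idem hJ0 (fun e he => he.1) hJj
    (hJtop ▸ Submodule.mem_top : (1 : A) ∈ Ideal.span J)
  rw [mul_one] at hg
  exact ⟨y, IsUnit.of_mul_eq_one_right c (hc.trans hg)⟩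

/-- a local unit value gives a value outside the maximal ideal -/
theorem local_value {M : Ideal A} (hM : M.IsMaximal) {n : ℕ} (f : MvPolynomial (Fin n) A)
    (x : Fin n → @Localization.AtPrime A _ M hM.isPrime)
    (hx : IsUnit (MvPolynomial.aeval x f)) : ∃ y : Fin n → A, MvPolynomial.eval y f ∉ M := by
  have := hM.isPrime
  have hsurj : Function.Surjective (algebraMap A M.ResidueField) := by
    have h1 := (Ideal.bijective_algebraMap_quotient_residueField M).2
    have h2 := h1.comp Ideal.Quotient.mk_surjective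
    exact h2
  choose y hy using fun i => hsurj (IsLocalRing.residue _ (x i))
  refine ⟨y, fun hmem => ?_⟩
  have h1 : IsLocalRing.residue (Localization.AtPrime M) (MvPolynomial.aeval x f) =
      algebraMap A M.ResidueField (MvPolynomial.eval y f) := by
    rw [MvPolynomial.aeval_def, MvPolynomial.hom_eval₂, ← MvPolynomial.eval₂_id,
      MvPolynomial.hom_eval₂]
    congr 1
    funext i
    exact (hy i).symm
  have h2 : algebraMap A M.ResidueField (MvPolynomial.eval y f) = 0 := by
    rw [Ideal.algebraMap_residueField_eq_zero]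
    exact hmem
  rw [h2] at h1
  exact (hx.map (IsLocalRing.residue (Localization.AtPrime M))).ne_zero h1

end patch

theorem b_imp_a {A : Type u} [CommRing A] [Lattice A] (hA : InC A) (hB : CondB A) : LG A := by
  intro n _ f hf
  apply patch (fun M N hM hN hMN => separate hA hB hM hN hMN) f
  intro M hM
  obtain ⟨x, hx⟩ := hf M hM
  exact local_value hM f x hx

theorem a_imp_b {A : Type u} [CommRing A] [Lattice A] (hL : LG A) : CondB A := by
  intro a b _ _ hab
  obtain ⟨y, hy⟩ := hL 1 le_rfl (MvPolynomial.C a - MvPolynomial.C b * MvPolynomial.X 0 ^ 2) (by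
    intro M hM
    have := hM.isPrime
    by_cases ha : a ∈ M
    · have hb : b ∉ M := by
        intro hb
        apply hM.ne_top
        rw [eq_top_iff, ← hab]
        exact sup_le ((Ideal.span_singleton_le_iff_mem _).2 ha)
          ((Ideal.span_singleton_le_iff_mem _).2 hb)
      refine ⟨fun _ => 1, ?_⟩
      have : a - b ∉ M := fun h => hb (by simpa using M.sub_mem ha h)
      have h1 := IsLocalization.map_units (Localization.AtPrime M) (⟨a - b, this⟩ : M.primeCompl)
      simpa using h1
    · refine ⟨fun _ => 0, ?_⟩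
      have h1 := IsLocalization.map_units (Localization.AtPrime M) (⟨a, ha⟩ : M.primeCompl)
      simpa using h1)
  exact ⟨y 0, by simpa using hy⟩

end Pool.Agent.H5.Mb9b46b
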