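import Mathlib

set_option autoImplicit false

namespace Pool.Agent.H5.Mbfcf3a

universe u

/-- The action of a permutation `σ` on the real permutation module `ℝΩ`, realised as the space of
functions `Ω → ℝ`: it sends the basis vector `Pi.single x 1` to `Pi.single (σ x) 1`. -/
def act {Ω : Type u} (σ : Equiv.Perm Ω) : (Ω → ℝ) →ₗ[ℝ] (Ω → ℝ) := LinearMap.funLeft ℝ ℝ σ.symm

/-- The `ℝ`-closure of `G`: the permutations that map every `ℝG`-submodule of `ℝΩ` onto
itself. -/
def RClosure {Ω : Type u} (G : Subgroup (Equiv.Perm Ω)) : Set (Equiv.Perm Ω) :=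
  {σ | ∀ W : Submodule ℝ (Ω → ℝ), (∀ g ∈ G, ∀ w ∈ W, act g w ∈ W) → W.map (act σ) = W}

/-- The orbit of the set `s` under `G`. -/
def orb {Ω : Type u} (G : Subgroup (Equiv.Perm Ω)) (s : Finset Ω) : Set (Finset Ω) :=
  {t | ∃ g ∈ G, t = s.map g.toEmbedding}

/-- The strong 2-closure of `G`: the permutations that map every `G`-orbit on the set of 2-element
subsets of `Ω` onto itself. -/
def Strong2Closure {Ω : Type u} (G : Subgroup (Equiv.Perm Ω)) : Set (Equiv.Perm Ω) :=
  {σ | ∀ s : Finset Ω, s.card = 2 → (fun t => t.map σ.toEmbedding) '' orb G s = orb G s}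

end Pool.Agent.H5.Mbfcf3a
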