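import Pool.Agent.H5.Mbfcf3aDefs

set_option autoImplicit false

namespace Pool.Agent.H5.Mbfcf3a

universe u

variable {Ω : Type u}

theorem act_apply (σ : Equiv.Perm Ω) (w : Ω → ℝ) (x : Ω) : act σ w x = w (σ.symm x) := rfl

theorem act_apply' (σ : Equiv.Perm Ω) (w : Ω → ℝ) (x : Ω) : act σ w (σ x) = w x := by
  rw [act_apply, Equiv.symm_apply_apply]

theorem act_inj (σ : Equiv.Perm Ω) : Function.Injective (act σ) := by
  intro v w h
  funext x
  have := congrFun h (σ x)
  rwa [act_apply', act_apply'] at this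

variable [Fintype Ω]

/-- the two linear maps agree -/
theorem comm_of_RClosure {G : Subgroup (Equiv.Perm Ω)} {σ : Equiv.Perm Ω} (hσ : σ ∈ RClosure G)
    (S : Matrix Ω Ω ℝ) (hS : S.transpose = S) (hG : ∀ g ∈ G, ∀ x y, S (g x) (g y) = S x y)
    (x y : Ω) : S (σ x) (σ y) = S x y := by
  classical
  have hH : S.IsHermitian := by
    rw [Matrix.IsHermitian, Matrix.conjTranspose_eq_transpose_of_trivial, hS]
  have hgS : ∀ g ∈ G, ∀ v : Ω → ℝ, S.mulVec (act g v) = act g (S.mulVec v) := by
    intro g hg v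
    funext x
    rw [act_apply]
    obtain ⟨x, rfl⟩ := g.surjective x
    rw [Equiv.symm_apply_apply]
    simp only [Matrix.mulVec, dotProduct]
    rw [← Equiv.sum_comp g]
    apply Finset.sum_congr rfl
    intro z _
    rw [hG g hg, act_apply']
  have heig : ∀ j, S.mulVec (act σ (hH.eigenvectorBasis j)) =
      act σ (S.mulVec (hH.eigenvectorBasis j)) := by
    intro j
    set l := hH.eigenvalues j
    let E : Submodule ℝ (Ω → ℝ) :=
      { carrier := {v | S.mulVec v = l • v}
        zero_mem' := by simp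
        add_mem' := by
          intro a b ha hb
          show S.mulVec (a + b) = l • (a + b)
          rw [Matrix.mulVec_add, smul_add]
          rw [show S.mulVec a = l • a from ha, show S.mulVec b = l • b from hb]
        smul_mem' := by
          intro c a ha
          show S.mulVec (c • a) = l • (c • a)
          rw [Matrix.mulVec_smul, show S.mulVec a = l • a from ha, smul_comm] }
    have hE := hσ E (by
      intro g hg w hw
      show S.mulVec (act g w) = l • act g w
      rw [hgS g hg, show S.mulVec w = l • w from hw, map_smul])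
    have hv : (⇑(hH.eigenvectorBasis j) : Ω → ℝ) ∈ E := hH.mulVec_eigenvectorBasis j
    have h2 : act σ (hH.eigenvectorBasis j) ∈ E := by
      rw [← hE]
      exact Submodule.mem_map_of_mem hv
    rw [hH.mulVec_eigenvectorBasis j, map_smul]
    exact h2
  have hlin : ∀ v : EuclideanSpace ℝ Ω, S.mulVec (act σ v) = act σ (S.mulVec v) := by
    let e : EuclideanSpace ℝ Ω →ₗ[ℝ] (Ω → ℝ) := (WithLp.linearEquiv 2 ℝ (Ω → ℝ)).toLinearMap
    let L1 : EuclideanSpace ℝ Ω →ₗ[ℝ] (Ω → ℝ) := (Matrix.mulVecLin S) ∘ₗ (act σ) ∘ₗ e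
    let L2 : EuclideanSpace ℝ Ω →ₗ[ℝ] (Ω → ℝ) := (act σ) ∘ₗ (Matrix.mulVecLin S) ∘ₗ e
    have hL : L1 = L2 := by
      apply hH.eigenvectorBasis.toBasis.ext
      intro j
      rw [OrthonormalBasis.coe_toBasis]
      exact heig j
    intro v
    exact congrArg (fun L : EuclideanSpace ℝ Ω →ₗ[ℝ] (Ω → ℝ) => L v) hL
  have hlin' : ∀ v : Ω → ℝ, S.mulVec (act σ v) = act σ (S.mulVec v) := by
    intro v
    exact hlin (WithLp.toLp 2 v)
  have h3 := congrFun (hlin' (Pi.single y 1)) (σ x)
  rw [act_apply'] at h3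
  have h4 : act σ (Pi.single y 1) = Pi.single (σ y) 1 := by
    funext z
    rw [act_apply]
    by_cases hz : z = σ y
    · rw [hz, Equiv.symm_apply_apply, Pi.single_eq_same, Pi.single_eq_same]
    · rw [Pi.single_eq_of_ne hz, Pi.single_eq_of_ne]
      intro h
      exact hz (by rw [← h, Equiv.apply_symm_apply])
  rw [h4, Matrix.mulVec_single_one, Matrix.mulVec_single_one] at h3
  exact h3

omit [Fintype Ω] in
theorem map_pair [DecidableEq Ω] (g : Equiv.Perm Ω) (x y : Ω) :
    ({x, y} : Finset Ω).map g.toEmbedding = {g x, g y} := by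
  rw [Finset.map_insert, Finset.map_singleton]
  rfl

theorem R_sub_S (G : Subgroup (Equiv.Perm Ω)) : RClosure G ⊆ Strong2Closure G := by
  classical
  intro σ hσ s hs
  -- the matrix of the orbit
  let S : Matrix Ω Ω ℝ := fun u v => if u ≠ v ∧ ({u, v} : Finset Ω) ∈ orb G s then 1 else 0
  have hsym : S.transpose = S := by
    ext u v
    show S v u = S u v
    refine if_congr ?_ rfl rfl
    rw [Finset.pair_comm, ne_comm]
  have hinv : ∀ g ∈ G, ∀ x y, S (g x) (g y) = S x y := by
    intro g hg x y
    simp only [S]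
    congr 1
    rw [g.injective.ne_iff, ← map_pair, eq_iff_iff]
    constructor
    · rintro ⟨h1, h, hh, h2⟩
      refine ⟨h1, g⁻¹ * h, mul_mem (inv_mem hg) hh, ?_⟩
      have : ({x, y} : Finset Ω) = (({x, y} : Finset Ω).map g.toEmbedding).map
          (g⁻¹ : Equiv.Perm Ω).toEmbedding := by
        rw [map_pair, map_pair]
        simp
      rw [this, h2, Finset.map_map]
      rfl
    · rintro ⟨h1, h, hh, h2⟩
      refine ⟨h1, g * h, mul_mem hg hh, ?_⟩
      rw [h2, Finset.map_map]
      rfl
  have hcomm := comm_of_RClosure hσ S hsym hinv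
  -- `σ` maps the orbit into itself
  have hcard : ∀ t ∈ orb G s, t.card = 2 := by
    rintro t ⟨g, _, rfl⟩
    rw [Finset.card_map, hs]
  have key : ∀ t : Finset Ω, t.card = 2 →
      (t.map σ.toEmbedding ∈ orb G s ↔ t ∈ orb G s) := by
    intro t ht
    obtain ⟨x, y, hxy, rfl⟩ := Finset.card_eq_two.1 ht
    have h1 := hcomm x y
    simp only [S] at h1
    rw [map_pair]
    by_cases hP : ({x, y} : Finset Ω) ∈ orb G s
    · rw [if_pos (⟨hxy, hP⟩ : x ≠ y ∧ ({x, y} : Finset Ω) ∈ orb G s)] at h1
      by_cases hQ : ({σ x, σ y} : Finset Ω) ∈ orb G s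
      · exact iff_of_true hQ hP
      · rw [if_neg (fun h => hQ h.2)] at h1
        norm_num at h1
    · rw [if_neg (fun h : x ≠ y ∧ ({x, y} : Finset Ω) ∈ orb G s => hP h.2)] at h1
      by_cases hQ : ({σ x, σ y} : Finset Ω) ∈ orb G s
      · rw [if_pos ⟨σ.injective.ne hxy, hQ⟩] at h1
        norm_num at h1
      · exact iff_of_false hQ hP
  ext t
  constructor
  · rintro ⟨t, ht, rfl⟩
    exact (key t (hcard t ht)).2 ht
  · intro ht
    refine ⟨t.map (σ⁻¹ : Equiv.Perm Ω).toEmbedding, ?_, ?_⟩
    · rw [← key _ (by rw [Finset.card_map, hcard t ht]), Finset.map_map]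
      convert ht
      ext z
      simp
    · show (t.map (σ⁻¹ : Equiv.Perm Ω).toEmbedding).map σ.toEmbedding = t
      rw [Finset.map_map]
      ext z
      simp

/-- point orbits are preserved, apart from the exceptional case -/
theorem point_orbit {G : Subgroup (Equiv.Perm Ω)} {σ : Equiv.Perm Ω} (hσ : σ ∈ Strong2Closure G)
    (hex : ¬ (Fintype.card Ω = 2 ∧ G = ⊥)) (x : Ω) : ∃ g ∈ G, g x = σ x := by
  classical
  have hpair : ∀ u v, u ≠ v → ∃ g ∈ G, ({σ u, σ v} : Finset Ω) = {g u, g v} := by
    intro u v huv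
    have h1 := hσ {u, v} (Finset.card_pair huv)
    have h2 : ({u, v} : Finset Ω).map σ.toEmbedding ∈ orb G {u, v} := by
      rw [← h1]
      exact ⟨{u, v}, ⟨1, one_mem _, by rw [map_pair]; rfl⟩, rfl⟩
    obtain ⟨g, hg, h3⟩ := h2
    rw [map_pair, map_pair] at h3
    exact ⟨g, hg, h3⟩
  by_contra hcon
  have hcon' : ∀ g ∈ G, g x ≠ σ x := fun g hg h => hcon ⟨g, hg, h⟩
  have hσx : σ x ≠ x := fun h => hcon' 1 (one_mem _) h.symm
  -- every point different from `x` is mapped into the orbit of `x`
  have hmem : ∀ z, x ≠ z → ∃ g ∈ G, σ x = g z ∧ σ z = g x := by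
    intro z hz
    obtain ⟨g, hg, h⟩ := hpair x z hz
    have h1 : σ x ∈ ({g x, g z} : Finset Ω) := h ▸ Finset.mem_insert_self _ _
    have h2 : σ x = g z := by
      rw [Finset.mem_insert, Finset.mem_singleton] at h1
      rcases h1 with h1 | h1
      · exact absurd h1.symm (hcon' g hg)
      · exact h1
    have h3 : σ z ∈ ({g x, g z} : Finset Ω) := h ▸ (by simp)
    rw [Finset.mem_insert, Finset.mem_singleton] at h3
    rcases h3 with h3 | h3
    · exact ⟨g, hg, h2, h3⟩
    · exact absurd (σ.injective (h2.trans h3.symm)) hz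
  have hfix : ∀ g ∈ G, g x = x := by
    intro h hh
    by_contra hne
    obtain ⟨g, hg, h1, h2⟩ := hmem (h x) (Ne.symm hne)
    exact hcon' (g * h) (mul_mem hg hh) h1.symm
  have huniq : ∀ z, x ≠ z → σ z = x := by
    intro z hz
    obtain ⟨g, hg, _, h2⟩ := hmem z hz
    rw [h2, hfix g hg]
  apply hex
  have huniv : (Finset.univ : Finset Ω) = {x, σ x} := by
    ext z
    simp only [Finset.mem_univ, Finset.mem_insert, Finset.mem_singleton, true_iff]
    by_cases hz : z = x
    · exact Or.inl hz
    · right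
      apply σ.injective
      rw [huniq z (Ne.symm hz), huniq (σ x) (Ne.symm hσx)]
  constructor
  · rw [← Finset.card_univ, huniv, Finset.card_pair (Ne.symm hσx)]
  · rw [eq_bot_iff]
    intro g hg
    rw [Subgroup.mem_bot]
    ext z
    have hz : z ∈ ({x, σ x} : Finset Ω) := huniv ▸ Finset.mem_univ z
    rw [Finset.mem_insert, Finset.mem_singleton] at hz
    rcases hz with rfl | rfl
    · exact hfix g hg
    · have h1 : g (σ x) ∈ ({x, σ x} : Finset Ω) := huniv ▸ Finset.mem_univ _
      rw [Finset.mem_insert, Finset.mem_singleton] at h1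
      rcases h1 with h1 | h1
      · exfalso
        have : g (σ x) = g x := by rw [h1, hfix g hg]
        exact hσx (g.injective this)
      · exact h1

theorem S_sub_R (G : Subgroup (Equiv.Perm Ω)) (hex : ¬ (Fintype.card Ω = 2 ∧ G = ⊥)) :
    Strong2Closure G ⊆ RClosure G := by
  classical
  intro σ hσ W hW
  let e : EuclideanSpace ℝ Ω ≃ₗ[ℝ] (Ω → ℝ) := WithLp.linearEquiv 2 ℝ (Ω → ℝ)
  let p : Submodule ℝ (EuclideanSpace ℝ Ω) := W.comap e.toLinearMap
  let L : Equiv.Perm Ω → (EuclideanSpace ℝ Ω ≃ₗᵢ[ℝ] EuclideanSpace ℝ Ω) :=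
    fun g => LinearIsometryEquiv.piLpCongrLeft 2 ℝ ℝ g
  have hL : ∀ g v, e (L g v) = act g (e v) := fun g v => rfl
  have hp : ∀ g ∈ G, p.map (L g).toLinearEquiv.toLinearMap = p := by
    intro g hg
    ext v
    constructor
    · rintro ⟨w, hw, rfl⟩
      show e (L g w) ∈ W
      rw [hL]
      exact hW g hg _ hw
    · intro hv
      refine ⟨(L g).symm v, ?_, by simp⟩
      show e ((L g).symm v) ∈ W
      have h1 : act g (e ((L g).symm v)) = e v := by
        rw [← hL, LinearIsometryEquiv.apply_symm_apply]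
      have h2 : act g⁻¹ (act g (e ((L g).symm v))) = e ((L g).symm v) := by
        funext x
        rw [act_apply, act_apply]
        exact congrArg (e ((L g).symm v)) (Equiv.symm_apply_apply g x)
      rw [← h2, h1]
      exact hW _ (inv_mem hg) _ hv
  have hP : ∀ g ∈ G, ∀ v, p.starProjection (L g v) = L g (p.starProjection v) := by
    intro g hg v
    have := Submodule.starProjection_map_apply (L g) p (L g v)
    rw [(L g).symm_apply_apply] at this
    rw [← this]
    congr 2
    exact (hp g hg).symm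
  let c : Ω → Ω → ℝ := fun u v => (p.starProjection (EuclideanSpace.single v 1)) u
  have hc : ∀ u v, c u v = inner ℝ (EuclideanSpace.single u (1 : ℝ))
      (p.starProjection (EuclideanSpace.single v 1)) := by
    intro u v
    rw [EuclideanSpace.inner_single_left]
    simp [c]
  have hsymm : ∀ u v, c u v = c v u := by
    intro u v
    rw [hc, hc, real_inner_comm]
    exact p.starProjection_isSymmetric _ _
  have hLs : ∀ g v, L g (EuclideanSpace.single v 1) = EuclideanSpace.single (g v) 1 := by
    intro g v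
    exact EuclideanSpace.piLpCongrLeft_single g v 1
  have hLa : ∀ g v x, (L g v) (g x) = v x := by
    intro g v x
    show v (g.symm (g x)) = v x
    rw [Equiv.symm_apply_apply]
  have hcG : ∀ g ∈ G, ∀ u v, c (g u) (g v) = c u v := by
    intro g hg u v
    show (p.starProjection (EuclideanSpace.single (g v) 1)) (g u) = _
    rw [← hLs, hP g hg, hLa]
  have hcσ : ∀ u v, c (σ u) (σ v) = c u v := by
    intro u v
    by_cases huv : u = v
    · subst huv
      obtain ⟨g, hg, h⟩ := point_orbit hσ hex u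
      rw [← h, hcG g hg]
    · have h1 := hσ {u, v} (Finset.card_pair huv)
      have h2 : ({u, v} : Finset Ω).map σ.toEmbedding ∈ orb G {u, v} := by
        rw [← h1]
        exact ⟨{u, v}, ⟨1, one_mem _, by rw [map_pair]; rfl⟩, rfl⟩
      obtain ⟨g, hg, h3⟩ := h2
      rw [map_pair, map_pair] at h3
      have h4 : σ u ∈ ({g u, g v} : Finset Ω) := h3 ▸ Finset.mem_insert_self _ _
      have h5 : σ v ∈ ({g u, g v} : Finset Ω) := h3 ▸ (by simp)
      have h6 : σ u ≠ σ v := σ.injective.ne huv
      rw [Finset.mem_insert, Finset.mem_singleton] at h4 h5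
      rcases h4 with h4 | h4 <;> rcases h5 with h5 | h5
      · exact absurd (h4.trans h5.symm) h6
      · rw [h4, h5, hcG g hg]
      · rw [h4, h5, hcG g hg, hsymm]
      · exact absurd (h4.trans h5.symm) h6
  have hPσ : ∀ v, p.starProjection (L σ v) = L σ (p.starProjection v) := by
    have : (p.starProjection : EuclideanSpace ℝ Ω →ₗ[ℝ] EuclideanSpace ℝ Ω) ∘ₗ
        (L σ).toLinearEquiv.toLinearMap = (L σ).toLinearEquiv.toLinearMap ∘ₗ
          (p.starProjection : EuclideanSpace ℝ Ω →ₗ[ℝ] EuclideanSpace ℝ Ω) := by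
      apply (EuclideanSpace.basisFun Ω ℝ).toBasis.ext
      intro v
      rw [OrthonormalBasis.coe_toBasis, EuclideanSpace.basisFun_apply]
      show p.starProjection (L σ (EuclideanSpace.single v 1)) =
        L σ (p.starProjection (EuclideanSpace.single v 1))
      rw [hLs]
      ext x
      obtain ⟨x, rfl⟩ := σ.surjective x
      rw [hLa]
      exact hcσ x v
    intro v
    exact congrArg (fun f : EuclideanSpace ℝ Ω →ₗ[ℝ] EuclideanSpace ℝ Ω => f v) this
  have hle : W.map (act σ) ≤ W := by
    rintro _ ⟨w, hw, rfl⟩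
    have h1 : e.symm w ∈ p := by
      show e (e.symm w) ∈ W
      rwa [LinearEquiv.apply_symm_apply]
    have h2 := Submodule.starProjection_eq_self_iff.2 h1
    have h3 : L σ (e.symm w) ∈ p := by
      rw [← Submodule.starProjection_eq_self_iff, hPσ, h2]
    have h4 : e (L σ (e.symm w)) ∈ W := h3
    rwa [hL, LinearEquiv.apply_symm_apply] at h4
  apply Submodule.eq_of_le_of_finrank_eq hle
  exact (LinearEquiv.finrank_eq (Submodule.equivMapOfInjective (act σ) (act_inj σ) W)).symm

/-- the exceptional case -/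
theorem exceptional (h : Fintype.card Ω = 2) :
    RClosure (⊥ : Subgroup (Equiv.Perm Ω)) ≠ Strong2Closure ⊥ := by
  classical
  rw [← Finset.card_univ] at h
  obtain ⟨x, y, hxy, hu⟩ := Finset.card_eq_two.1 h
  intro heq
  have h1 : Equiv.swap x y ∈ Strong2Closure (⊥ : Subgroup (Equiv.Perm Ω)) := by
    intro s hs
    have hs' : s = {x, y} := by
      apply Finset.eq_of_subset_of_card_le
      · rw [← hu]; exact Finset.subset_univ s
      · rw [hs, Finset.card_pair hxy]
    have ho : orb (⊥ : Subgroup (Equiv.Perm Ω)) s = {s} := by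
      ext t
      constructor
      · rintro ⟨g, hg, rfl⟩
        rw [Subgroup.mem_bot] at hg
        subst hg
        exact Finset.map_refl
      · rintro rfl
        exact ⟨1, one_mem _, Finset.map_refl.symm⟩
    rw [ho, Set.image_singleton, Set.singleton_eq_singleton_iff, hs', map_pair,
      Equiv.swap_apply_left, Equiv.swap_apply_right, Finset.pair_comm]
  rw [← heq] at h1
  have h2 := h1 (Submodule.span ℝ {Pi.single x 1}) (by
    intro g hg w hw
    rw [Subgroup.mem_bot] at hg
    subst hg
    exact hw)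
  have h3 : act (Equiv.swap x y) (Pi.single x 1) ∈ Submodule.span ℝ {(Pi.single x 1 : Ω → ℝ)} := by
    have h4 : act (Equiv.swap x y) (Pi.single x 1) ∈
        (Submodule.span ℝ {(Pi.single x 1 : Ω → ℝ)}).map (act (Equiv.swap x y)) :=
      Submodule.mem_map_of_mem (Submodule.mem_span_singleton_self _)
    rwa [h2] at h4
  obtain ⟨c, hc⟩ := Submodule.mem_span_singleton.1 h3
  have h4 := congrFun hc y
  have h5 : act (Equiv.swap x y) (Pi.single x (1 : ℝ)) y = 1 := by
    have := act_apply' (Equiv.swap x y) (Pi.single x (1 : ℝ)) x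
    rw [Equiv.swap_apply_left, Pi.single_eq_same] at this
    exact this
  rw [h5, Pi.smul_apply, Pi.single_eq_of_ne (Ne.symm hxy), smul_zero] at h4
  norm_num at h4

end Pool.Agent.H5.Mbfcf3a
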