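import Pool.Agent.H5.Mc0d803Defs

set_option autoImplicit false

namespace Pool.Agent.H5.Mc0d803

theorem toFree_append {Δ : Type} (u v : List Δ) : toFree (u ++ v) = toFree u * toFree v := by
  simp [toFree]

theorem toFree_nil {Δ : Type} : toFree ([] : List Δ) = 1 := rfl

theorem toFree_cons {Δ : Type} (c : Δ) (u : List Δ) :
    toFree (c :: u) = FreeGroup.of c * toFree u := by
  simp [toFree]

/-- relators of a language -/
def Rel {Δ : Type} (L : Set (List Δ)) : Set (FreeGroup Δ) := {x | ∃ w ∈ L, x = toFree w}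

/-! ### Context-free grammars: big step semantics -/

section cf

variable {T : Type} (g : ContextFreeGrammar T)

inductive Gen : List (Symbol T g.NT) → List T → Prop
  | nil : Gen [] []
  | ter (c : T) (γ : List (Symbol T g.NT)) (w : List T) (h : Gen γ w) :
      Gen (Symbol.terminal c :: γ) (c :: w)
  | non (r : ContextFreeRule T g.NT) (hr : r ∈ g.rules) (γ : List (Symbol T g.NT))
      (u w : List T) (hu : Gen r.output u) (hw : Gen γ w) :
      Gen (Symbol.nonterminal r.input :: γ) (u ++ w)

variable {g}

theorem gen_append {γ δ : List (Symbol T g.NT)} {u v : List T} (h : Gen g γ u) (h' : Gen g δ v) :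
    Gen g (γ ++ δ) (u ++ v) := by
  induction h with
  | nil => exact h'
  | ter c γ w _ ih => exact Gen.ter c _ _ ih
  | non r hr γ u w hu _ _ ih =>
    rw [List.append_assoc]
    exact Gen.non r hr _ _ _ hu ih

theorem gen_split (γ : List (Symbol T g.NT)) : ∀ {δ : List (Symbol T g.NT)} {w : List T},
    Gen g (γ ++ δ) w → ∃ u v, w = u ++ v ∧ Gen g γ u ∧ Gen g δ v := by
  induction γ with
  | nil => intro δ w h; exact ⟨[], w, rfl, Gen.nil, h⟩
  | cons s γ ih =>
    intro δ w h
    rw [List.cons_append] at h
    generalize hx : s :: (γ ++ δ) = x at h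
    cases h with
    | nil => cases hx
    | ter c γ' w' h =>
      injection hx with h1 h2
      subst h1
      subst h2
      obtain ⟨u, v, rfl, hu, hv⟩ := ih h
      exact ⟨c :: u, v, rfl, Gen.ter c _ _ hu, hv⟩
    | non r hr γ' u' w' hu' hw' =>
      injection hx with h1 h2
      subst h1
      subst h2
      obtain ⟨u, v, rfl, hu, hv⟩ := ih hw'
      exact ⟨u' ++ u, v, (List.append_assoc _ _ _).symm, Gen.non r hr _ _ _ hu' hu, hv⟩

theorem gen_terminal (w : List T) : Gen g (w.map Symbol.terminal) w := by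
  induction w with
  | nil => exact Gen.nil
  | cons c w ih => exact Gen.ter c _ _ ih

theorem gen_of_derives {γ : List (Symbol T g.NT)} {w : List T}
    (h : g.Derives γ (w.map Symbol.terminal)) : Gen g γ w := by
  induction h using Relation.ReflTransGen.head_induction_on with
  | refl => exact gen_terminal w
  | head hstep _ ih =>
    obtain ⟨r, hr, hrw⟩ := hstep
    obtain ⟨p, q, rfl, rfl⟩ := hrw.exists_parts
    obtain ⟨u, v, rfl, hu, hv⟩ := gen_split (p ++ r.output) ih
    obtain ⟨u1, u2, rfl, hu1, hu2⟩ := gen_split p hu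
    apply gen_append _ hv
    apply gen_append hu1
    have := Gen.non r hr [] u2 [] hu2 Gen.nil
    rwa [List.append_nil] at this

theorem derives_of_gen {γ : List (Symbol T g.NT)} {w : List T} (h : Gen g γ w) :
    g.Derives γ (w.map Symbol.terminal) := by
  induction h with
  | nil => exact Relation.ReflTransGen.refl
  | ter c γ w _ ih =>
    exact ih.append_left [Symbol.terminal c]
  | non r hr γ u w _ _ ih1 ih2 =>
    have h0 : g.Derives [Symbol.nonterminal r.input] (u.map Symbol.terminal) :=
      (ContextFreeGrammar.Produces.single ⟨r, hr, ContextFreeRule.Rewrites.input_output⟩).trans ih1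
    have h1 := h0.append_right γ
    have h2 := ih2.append_left (u.map Symbol.terminal)
    rw [List.map_append]
    exact h1.trans h2

theorem mem_language_iff_gen (w : List T) :
    w ∈ g.language ↔ Gen g [Symbol.nonterminal g.initial] w :=
  ⟨gen_of_derives, derives_of_gen⟩

/-- the finite subset of relators -/
theorem exists_finite (L : Language T) (hL : L.IsContextFree) :
    ∃ F : Set (List T), F.Finite ∧ F ⊆ L ∧
      Subgroup.normalClosure (Rel L) ≤ Subgroup.normalClosure (Rel F) := by
  classical
  obtain ⟨g, rfl⟩ := hL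
  -- a word for every productive nonterminal
  let Prod : List (Symbol T g.NT) → Prop := fun γ => ∃ w, Gen g γ w
  let wA : g.NT → List T := fun A =>
    if h : Prod [Symbol.nonterminal A] then h.choose else []
  have hwA : ∀ A, Prod [Symbol.nonterminal A] → Gen g [Symbol.nonterminal A] (wA A) := by
    intro A h
    simp only [wA]
    rw [dif_pos h]
    exact h.choose_spec
  let Ctx : g.NT → List T × List T → Prop := fun A c =>
    ∀ w, Gen g [Symbol.nonterminal A] w → c.1 ++ w ++ c.2 ∈ g.language
  let Useful : g.NT → Prop := fun A => ∃ c, Ctx A c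
  let cA : g.NT → List T × List T := fun A => if h : Useful A then h.choose else ([], [])
  have hcA : ∀ A, Useful A → Ctx A (cA A) := by
    intro A h
    simp only [cA]
    rw [dif_pos h]
    exact h.choose_spec
  let sub : Symbol T g.NT → List T := fun s => match s with
    | Symbol.terminal c => [c]
    | Symbol.nonterminal A => wA A
  let subst : List (Symbol T g.NT) → List T := fun γ => γ.flatMap sub
  have hsubst : ∀ γ w, Gen g γ w → Gen g γ (subst γ) := by
    intro γ w h
    induction h with
    | nil => exact Gen.nil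
    | ter c γ w _ ih => exact Gen.ter c _ _ ih
    | non r hr γ u w hu _ _ ih =>
      have h1 : Gen g [Symbol.nonterminal r.input] (wA r.input) := by
        apply hwA
        have := Gen.non r hr [] u [] hu Gen.nil
        exact ⟨_, this⟩
      exact gen_append h1 ih
  let F : Set (List T) := {x | (x = wA g.initial ∧ Prod [Symbol.nonterminal g.initial]) ∨
    ∃ r ∈ g.rules, Useful r.input ∧ Prod r.output ∧
      (x = (cA r.input).1 ++ subst r.output ++ (cA r.input).2 ∨
       x = (cA r.input).1 ++ wA r.input ++ (cA r.input).2)}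
  have hFfin : F.Finite := by
    apply Set.Finite.subset (s := {wA g.initial} ∪
      ((g.rules.image (fun r => (cA r.input).1 ++ subst r.output ++ (cA r.input).2) : Finset (List T)) : Set (List T)) ∪
      ((g.rules.image (fun r => (cA r.input).1 ++ wA r.input ++ (cA r.input).2) : Finset (List T)) : Set (List T)))
    · exact ((Set.finite_singleton _).union (Finset.finite_toSet _)).union (Finset.finite_toSet _)
    · rintro x (⟨rfl, _⟩ | ⟨r, hr, _, _, rfl | rfl⟩)
      · simp
      · left; right
        simp only [Finset.coe_image]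
        exact ⟨r, hr, rfl⟩
      · right
        simp only [Finset.coe_image]
        exact ⟨r, hr, rfl⟩
  have hprod : ∀ r ∈ g.rules, Prod r.output → Prod [Symbol.nonterminal r.input] := by
    rintro r hr ⟨u, hu⟩
    have := Gen.non r hr [] u [] hu Gen.nil
    exact ⟨_, this⟩
  have hFsub : F ⊆ g.language := by
    rintro x (⟨rfl, h⟩ | ⟨r, hr, hu, ⟨u, hp⟩, rfl | rfl⟩)
    · exact (mem_language_iff_gen _).2 (hwA _ h)
    · apply hcA _ hu
      have := Gen.non r hr [] (subst r.output) [] (hsubst _ _ hp) Gen.nil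
      rwa [List.append_nil] at this
    · exact hcA _ hu _ (hwA _ (hprod r hr ⟨u, hp⟩))
  refine ⟨F, hFfin, hFsub, ?_⟩
  set M := Subgroup.normalClosure (Rel F) with hM
  let π : FreeGroup T →* FreeGroup T ⧸ M := QuotientGroup.mk' M
  have hπ1 : ∀ x ∈ F, π (toFree x) = 1 := by
    intro x hx
    rw [QuotientGroup.mk'_apply, QuotientGroup.eq_one_iff]
    exact Subgroup.subset_normalClosure ⟨x, hx, rfl⟩
  -- useful output
  have huse : ∀ r ∈ g.rules, Useful r.input → Prod r.output →
      ∀ A, Symbol.nonterminal A ∈ r.output → Useful A := by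
    rintro r hr ⟨c, hc⟩ ⟨u, hu⟩ A hA
    obtain ⟨p, q, hpq⟩ := List.append_of_mem hA
    rw [hpq, show p ++ Symbol.nonterminal A :: q = p ++ ([Symbol.nonterminal A] ++ q) from rfl] at hu
    obtain ⟨w1, w', rfl, h1, h2⟩ := gen_split p hu
    obtain ⟨w2, w3, rfl, h2, h3⟩ := gen_split [Symbol.nonterminal A] h2
    refine ⟨(c.1 ++ w1, w3 ++ c.2), fun w hw => ?_⟩
    have h4 : Gen g r.output (w1 ++ (w ++ w3)) := by
      rw [hpq]
      exact gen_append h1 (gen_append hw h3)
    have h5 := Gen.non r hr [] _ [] h4 Gen.nil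
    rw [List.append_nil] at h5
    have h6 := hc _ h5
    simpa [List.append_assoc] using h6
  have hev : ∀ γ : List (Symbol T g.NT), ∀ w, Gen g γ w →
      (∀ A, Symbol.nonterminal A ∈ γ → Useful A) → π (toFree w) = π (toFree (subst γ)) := by
    intro γ w h
    induction h with
    | nil => intro _; rfl
    | ter c γ w _ ih =>
      intro hU
      have h1 := ih (fun A hA => hU A (List.mem_cons_of_mem _ hA))
      show π (toFree (c :: w)) = π (toFree (c :: subst γ))
      rw [toFree_cons, toFree_cons, map_mul, map_mul, h1]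
    | non r hr γ u w hu hw ih1 ih2 =>
      intro hU
      have h1 := ih2 (fun A hA => hU A (List.mem_cons_of_mem _ hA))
      have hUr : Useful r.input := hU _ List.mem_cons_self
      have h2 := ih1 (huse r hr hUr ⟨u, hu⟩)
      have h3 := hπ1 _ (Or.inr ⟨r, hr, hUr, ⟨u, hu⟩, Or.inl rfl⟩)
      have h4 := hπ1 _ (Or.inr ⟨r, hr, hUr, ⟨u, hu⟩, Or.inr rfl⟩)
      show π (toFree (u ++ w)) = π (toFree (wA r.input ++ subst γ))
      rw [toFree_append, toFree_append, map_mul, map_mul, h1, h2]
      congr 1
      rw [toFree_append, toFree_append, map_mul, map_mul] at h3 h4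
      have h5 := h3.trans h4.symm
      exact mul_left_cancel (mul_right_cancel h5)
  apply Subgroup.normalClosure_le_normal
  rintro x ⟨w, hw, rfl⟩
  have hw' := (mem_language_iff_gen w).1 hw
  have hUi : Useful g.initial := ⟨([], []), fun w hw => by
    show [] ++ w ++ [] ∈ g.language
    rw [List.nil_append, List.append_nil]
    exact (mem_language_iff_gen w).2 hw⟩
  have h1 := hev _ w hw' (fun A hA => by
    rw [List.mem_singleton, Symbol.nonterminal.injEq] at hA
    rw [hA]
    exact hUi)
  have h2 : subst [Symbol.nonterminal g.initial] = wA g.initial := by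
    simp [subst, sub]
  rw [h2, hπ1 _ (Or.inl ⟨rfl, ⟨w, hw'⟩⟩), QuotientGroup.mk'_apply, QuotientGroup.eq_one_iff] at h1
  exact h1

end cf

/-- finitely many relators suffice, for any increasing union of normal subgroups -/
theorem neumann {X Y : Type} [Finite X] {G : Type} [Group G] (φ : FreeGroup X →* G)
    (hφ : Function.Surjective φ) (ψ : FreeGroup Y →* G) (hψ : Function.Surjective ψ)
    (F : Set (FreeGroup Y)) (hF : F.Finite) (hker : ψ.ker = Subgroup.normalClosure F)
    (K : ℕ → Subgroup (FreeGroup X)) (hK : Monotone K) (hn : ∀ n, (K n).Normal)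
    (hunion : ∀ x ∈ φ.ker, ∃ n, x ∈ K n) : ∃ n, φ.ker ≤ K n := by
  choose p hp using fun y : Y => hφ (ψ (FreeGroup.of y))
  choose q hq using fun x : X => hψ (φ (FreeGroup.of x))
  let P : FreeGroup Y →* FreeGroup X := FreeGroup.lift p
  let Q : FreeGroup X →* FreeGroup Y := FreeGroup.lift q
  have hP : ∀ y, φ (P y) = ψ y := by
    intro y
    have : φ.comp P = ψ := by
      ext y
      simp [P, hp]
    exact congrArg (fun f : FreeGroup Y →* G => f y) this
  have hQ : ∀ x, ψ (Q x) = φ x := by
    intro x
    have : ψ.comp Q = φ := by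
      ext x
      simp [Q, hq]
    exact congrArg (fun f : FreeGroup X →* G => f x) this
  have h1 : ∀ x : X, ∃ n, P (Q (FreeGroup.of x)) * (FreeGroup.of x)⁻¹ ∈ K n := by
    intro x
    apply hunion
    rw [MonoidHom.mem_ker, map_mul, hP, hQ, map_inv, mul_inv_cancel]
  have h2 : ∀ f ∈ F, ∃ n, P f ∈ K n := by
    intro f hf
    apply hunion
    rw [MonoidHom.mem_ker, hP, ← MonoidHom.mem_ker, hker]
    exact Subgroup.subset_normalClosure hf
  choose n1 hn1 using h1
  choose! n2 hn2 using h2
  obtain ⟨N1, hN1⟩ : ∃ N, ∀ x, n1 x ≤ N := by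
    obtain ⟨N, hN⟩ := (Set.finite_range n1).bddAbove
    exact ⟨N, fun x => hN ⟨x, rfl⟩⟩
  obtain ⟨N2, hN2⟩ : ∃ N, ∀ f ∈ F, n2 f ≤ N := by
    obtain ⟨N, hN⟩ := (hF.image n2).bddAbove
    exact ⟨N, fun f hf => hN ⟨f, hf, rfl⟩⟩
  set N := max N1 N2
  have := hn N
  refine ⟨N, fun k hk => ?_⟩
  let π : FreeGroup X →* FreeGroup X ⧸ K N := QuotientGroup.mk' (K N)
  have h3 : ∀ x, π (P (Q x)) = π x := by
    intro x
    have : (π.comp P).comp Q = π := by
      ext x
      show π (P (Q (FreeGroup.of x))) = π (FreeGroup.of x)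
      rw [← div_eq_one, ← map_div, div_eq_mul_inv, QuotientGroup.mk'_apply,
        QuotientGroup.eq_one_iff]
      exact hK ((hN1 x).trans (le_max_left _ _)) (hn1 x)
    exact congrArg (fun f : FreeGroup X →* FreeGroup X ⧸ K N => f x) this
  have h4 : Q k ∈ Subgroup.normalClosure F := by
    rw [← hker, MonoidHom.mem_ker, hQ, ← MonoidHom.mem_ker]
    exact hk
  have h5 : Subgroup.normalClosure F ≤ (K N).comap P := by
    apply Subgroup.normalClosure_le_normal
    intro f hf
    exact hK ((hN2 f hf).trans (le_max_right _ _)) (hn2 f hf)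
  have h6 : P (Q k) ∈ K N := h5 h4
  have h7 := h3 k
  rw [show π (P (Q k)) = 1 by rw [QuotientGroup.mk'_apply, QuotientGroup.eq_one_iff]; exact h6] at h7
  rw [← QuotientGroup.eq_one_iff]
  exact h7.symm

/-- in a context-free group finitely many relators suffice -/
theorem cf_stage {X : Type} [Finite X] (r : ℕ → FreeGroup X)
    (hcf : IsContextFreeGroup (PresentedGroup (Set.range r))) :
    ∃ n, ∀ m, r m ∈ Subgroup.normalClosure (r '' {i | i ≤ n}) := by
  obtain ⟨Δ, _, L, hL, ⟨e⟩⟩ := hcf
  obtain ⟨F, hF, hFL, hle⟩ := exists_finite L hL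
  have heq : Subgroup.normalClosure (Rel (Δ := Δ) L) = Subgroup.normalClosure (Rel F) := by
    apply le_antisymm hle
    apply Subgroup.normalClosure_mono
    rintro x ⟨w, hw, rfl⟩
    exact ⟨w, hFL hw, rfl⟩
  let φ : FreeGroup X →* PresentedGroup (Set.range r) := PresentedGroup.mk _
  let ψ : FreeGroup Δ →* PresentedGroup (Set.range r) :=
    e.symm.toMonoidHom.comp (PresentedGroup.mk (Rel (Δ := Δ) L))
  have hφk : φ.ker = Subgroup.normalClosure (Set.range r) := QuotientGroup.ker_mk' _
  have hψk : ψ.ker = Subgroup.normalClosure (Rel F) := by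
    rw [← heq]
    ext x
    rw [MonoidHom.mem_ker]
    have h1 : ∀ y : Pres L, e.symm y = 1 ↔ y = 1 := fun y =>
      ⟨fun h => e.symm.injective (h.trans (map_one e.symm).symm), fun h => by rw [h, map_one]⟩
    exact (h1 _).trans (QuotientGroup.eq_one_iff x)
  have hRF : (Rel F).Finite := by
    have : Rel F = toFree '' F := by
      ext x
      constructor
      · rintro ⟨w, hw, rfl⟩; exact ⟨w, hw, rfl⟩
      · rintro ⟨w, hw, rfl⟩; exact ⟨w, hw, rfl⟩
    rw [this]
    exact hF.image _
  let K : ℕ → Subgroup (FreeGroup X) := fun n => Subgroup.normalClosure (r '' {i | i ≤ n})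
  have hK : Monotone K := by
    intro m n hmn
    apply Subgroup.normalClosure_mono
    apply Set.image_mono
    intro i hi
    exact le_trans hi hmn
  have hKn : ∀ n, (K n).Normal := fun n => Subgroup.normalClosure_normal
  -- the union is a normal subgroup
  let U : Subgroup (FreeGroup X) :=
    { carrier := {x | ∃ n, x ∈ K n}
      one_mem' := ⟨0, one_mem _⟩
      mul_mem' := by
        rintro x y ⟨m, hm⟩ ⟨n, hn⟩
        exact ⟨max m n, mul_mem (hK (le_max_left _ _) hm) (hK (le_max_right _ _) hn)⟩
      inv_mem' := by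
        rintro x ⟨n, hn⟩
        exact ⟨n, inv_mem hn⟩ }
  have hU : U.Normal := ⟨fun x ⟨n, hn⟩ y => ⟨n, (hKn n).conj_mem x hn y⟩⟩
  have hunion : ∀ x ∈ φ.ker, ∃ n, x ∈ K n := by
    intro x hx
    rw [hφk] at hx
    have h1 : Subgroup.normalClosure (Set.range r) ≤ U := by
      apply Subgroup.normalClosure_le_normal
      rintro _ ⟨n, rfl⟩
      exact ⟨n, Subgroup.subset_normalClosure ⟨n, le_refl n, rfl⟩⟩
    exact h1 hx
  obtain ⟨n, hn⟩ := neumann φ (PresentedGroup.mk_surjective _) ψ
    (e.symm.surjective.comp (PresentedGroup.mk_surjective _)) (Rel F) hRF hψk K hK hKn hunion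
  refine ⟨n, fun m => hn ?_⟩
  rw [hφk]
  exact Subgroup.subset_normalClosure ⟨m, rfl⟩

end Pool.Agent.H5.Mc0d803
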