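import Mathlib

set_option autoImplicit false

namespace Pool.Agent.H5.Mc0d803

/-- An indexed grammar (Aho) with terminals `T`: nonterminals `N`, index symbols `I`, a start
symbol, and finitely many productions, of the three kinds
`A → α` (`expand`), `A → B f` (`push`) and `A f → α` (`pop`), with `α` a string of terminals and
nonterminals. -/
structure IndexedGrammar (T : Type) where
  N : Type
  I : Type
  start : N
  expand : Finset (N × List (T ⊕ N))
  push : Finset (N × N × I)
  pop : Finset (N × I × List (T ⊕ N))

namespace IndexedGrammar

variable {T : Type} (g : IndexedGrammar T)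

/-- A symbol of a sentential form: a terminal, or a nonterminal carrying a stack of indices (top of
the stack first). -/
abbrev Sym : Type := T ⊕ (g.N × List g.I)

/-- Copy the stack `σ` to every nonterminal of `α`. -/
def attach (σ : List g.I) (α : List (T ⊕ g.N)) : List g.Sym :=
  α.map (Sum.map id (fun A => (A, σ)))

/-- One derivation step. -/
inductive Step : List g.Sym → List g.Sym → Prop
  | expand (p q : List g.Sym) (A : g.N) (α : List (T ⊕ g.N)) (σ : List g.I)
      (h : (A, α) ∈ g.expand) : Step (p ++ [Sum.inr (A, σ)] ++ q) (p ++ g.attach σ α ++ q)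
  | push (p q : List g.Sym) (A B : g.N) (f : g.I) (σ : List g.I)
      (h : (A, B, f) ∈ g.push) :
      Step (p ++ [Sum.inr (A, σ)] ++ q) (p ++ [Sum.inr (B, f :: σ)] ++ q)
  | pop (p q : List g.Sym) (A : g.N) (f : g.I) (α : List (T ⊕ g.N)) (σ : List g.I)
      (h : (A, f, α) ∈ g.pop) :
      Step (p ++ [Sum.inr (A, f :: σ)] ++ q) (p ++ g.attach σ α ++ q)

/-- The language generated by `g`: the terminal words derivable from the start symbol with empty
stack. -/
def language : Language T :=
  {w | Relation.ReflTransGen g.Step [Sum.inr (g.start, [])] (w.map Sum.inl)}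

end IndexedGrammar

/-- Indexed languages. -/
def IsIndexed {T : Type} (L : Language T) : Prop := ∃ g : IndexedGrammar T, g.language = L

/-- The element of the free group spelled by a word. -/
def toFree {Δ : Type} (w : List Δ) : FreeGroup Δ := (w.map FreeGroup.of).prod

/-- The group `⟨Δ; w = 1 (w ∈ L)⟩`. -/
abbrev Pres {Δ : Type} (L : Language Δ) : Type :=
  PresentedGroup {x : FreeGroup Δ | ∃ w ∈ L, x = toFree w}

/-- `G` is defined by an indexed language of relators over a finite alphabet, i.e. `G` is a nested
stack group. -/
def IsNestedStackGroup (G : Type) [Group G] : Prop :=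
  ∃ (Δ : Type) (_ : Finite Δ) (L : Language Δ), IsIndexed L ∧ Nonempty (G ≃* Pres L)

/-- `G` is defined by a context-free language of relators over a finite alphabet. -/
def IsContextFreeGroup (G : Type) [Group G] : Prop :=
  ∃ (Δ : Type) (_ : Finite Δ) (L : Language Δ), L.IsContextFree ∧ Nonempty (G ≃* Pres L)

end Pool.Agent.H5.Mc0d803
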