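import Pool.Agent.H5.Mc0d803CF

set_option autoImplicit false

namespace Pool.Agent.H5.Mc0d803

inductive Ltr | a | b | s | t
deriving DecidableEq

inductive Nt | S | P | C | X | Y
deriving DecidableEq

open Ltr Nt

instance : Finite Ltr :=
  @Finite.of_fintype _ ⟨{a, b, s, t}, by intro x; cases x <;> simp⟩

def half (n : ℕ) : List Ltr := List.replicate n t ++ [a] ++ List.replicate n s ++ [b]

def word (n : ℕ) : List Ltr := half n ++ half n

def gr : IndexedGrammar Ltr where
  N := Nt
  I := Bool
  start := S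
  expand := {(P, [Sum.inr C, Sum.inr C]), (C, [Sum.inr X, Sum.inl a, Sum.inr Y, Sum.inl b])}
  push := {(S, P, false), (P, P, true)}
  pop := {(X, true, [Sum.inl t, Sum.inr X]), (X, false, []), (Y, true, [Sum.inl s, Sum.inr Y]),
    (Y, false, [])}

theorem mem_expand (A : Nt) (α : List (Ltr ⊕ Nt)) : (A, α) ∈ gr.expand ↔
    (A = P ∧ α = [Sum.inr C, Sum.inr C]) ∨
      (A = C ∧ α = [Sum.inr X, Sum.inl a, Sum.inr Y, Sum.inl b]) := by
  show (A, α) ∈ ({(P, [Sum.inr C, Sum.inr C]), (C, [Sum.inr X, Sum.inl a, Sum.inr Y, Sum.inl b])} :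
    Finset (Nt × List (Ltr ⊕ Nt))) ↔ _
  simp

theorem mem_push (A B : Nt) (f : Bool) : (A, B, f) ∈ gr.push ↔
    (A = S ∧ B = P ∧ f = false) ∨ (A = P ∧ B = P ∧ f = true) := by
  show (A, B, f) ∈ ({(S, P, false), (P, P, true)} : Finset (Nt × Nt × Bool)) ↔ _
  simp

theorem mem_pop (A : Nt) (f : Bool) (α : List (Ltr ⊕ Nt)) : (A, f, α) ∈ gr.pop ↔
    (A = X ∧ f = true ∧ α = [Sum.inl t, Sum.inr X]) ∨ (A = X ∧ f = false ∧ α = []) ∨
    (A = Y ∧ f = true ∧ α = [Sum.inl s, Sum.inr Y]) ∨ (A = Y ∧ f = false ∧ α = []) := by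
  show (A, f, α) ∈ ({(X, true, [Sum.inl t, Sum.inr X]), (X, false, []),
    (Y, true, [Sum.inl s, Sum.inr Y]), (Y, false, [])} :
    Finset (Nt × Bool × List (Ltr ⊕ Nt))) ↔ _
  simp

/-! ### soundness -/

def cnt : List Bool → ℕ
  | [] => 0
  | true :: σ => cnt σ + 1
  | false :: _ => 0

def valN (A : Nt) (σ : List Bool) : Language Ltr :=
  match A with
  | S => {w | ∃ n, w = word n}
  | P => {w | ∃ n, w = word n}
  | C => {w | w = half (cnt σ)}
  | X => {w | w = List.replicate (cnt σ) t}
  | Y => {w | w = List.replicate (cnt σ) s}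

def val (x : gr.Sym) : Language Ltr :=
  match x with
  | Sum.inl c => {w | w = [c]}
  | Sum.inr (A, σ) => valN A σ

def Sem (γ : List gr.Sym) : Language Ltr := (γ.map val).prod

theorem Sem_append (γ δ : List gr.Sym) : Sem (γ ++ δ) = Sem γ * Sem δ := by
  simp [Sem]

theorem Sem_single (x : gr.Sym) : Sem [x] = val x := by simp [Sem]

theorem Sem_cons (x : gr.Sym) (γ : List gr.Sym) : Sem (x :: γ) = val x * Sem γ := by simp [Sem]

theorem Sem_nil : Sem [] = 1 := rfl

theorem step_sem {γ γ' : List gr.Sym} (h : gr.Step γ γ') : Sem γ' ≤ Sem γ := by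
  have key : ∀ (p q x y : List gr.Sym), Sem y ≤ Sem x → Sem (p ++ y ++ q) ≤ Sem (p ++ x ++ q) := by
    intro p q x y hxy
    rw [Sem_append, Sem_append, Sem_append, Sem_append]
    exact mul_le_mul' (mul_le_mul' le_rfl hxy) le_rfl
  cases h with
  | expand p q A α σ h =>
    apply key
    rw [Sem_single]
    replace h := (mem_expand A α).1 h
    rcases h with ⟨rfl, rfl⟩ | ⟨rfl, rfl⟩
    · intro w hw
      change w ∈ Sem ([Sum.inr (C, σ), Sum.inr (C, σ)] : List gr.Sym) at hw
      rw [Sem_cons, Sem_single, Language.mem_mul] at hw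
      obtain ⟨u, hu, v, hv, rfl⟩ := hw
      have hu' : u = half (cnt σ) := hu
      have hv' : v = half (cnt σ) := hv
      rw [hu', hv']
      exact ⟨cnt σ, rfl⟩
    · intro w hw
      change w ∈ Sem ([Sum.inr (X, σ), Sum.inl a, Sum.inr (Y, σ), Sum.inl b] : List gr.Sym) at hw
      rw [Sem_cons, Sem_cons, Sem_cons, Sem_single] at hw
      simp only [Language.mem_mul] at hw
      obtain ⟨u, hu, v, ⟨u2, hu2, v2, ⟨u3, hu3, v3, hv3, rfl⟩, rfl⟩, rfl⟩ := hw
      have hu' : u = List.replicate (cnt σ) t := hu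
      have hu2' : u2 = [a] := hu2
      have hu3' : u3 = List.replicate (cnt σ) s := hu3
      have hv3' : v3 = [b] := hv3
      rw [hu', hu2', hu3', hv3']
      show _ = half (cnt σ)
      simp [half]
  | push p q A B f σ h =>
    apply key
    rw [Sem_single, Sem_single]
    replace h := (mem_push A B f).1 h
    rcases h with ⟨rfl, rfl, rfl⟩ | ⟨rfl, rfl, rfl⟩
    · exact le_rfl
    · exact le_rfl
  | pop p q A f α σ h =>
    apply key
    rw [Sem_single]
    replace h := (mem_pop A f α).1 h
    rcases h with ⟨rfl, rfl, rfl⟩ | ⟨rfl, rfl, rfl⟩ | ⟨rfl, rfl, rfl⟩ | ⟨rfl, rfl, rfl⟩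
    · intro w hw
      change w ∈ Sem ([Sum.inl t, Sum.inr (X, σ)] : List gr.Sym) at hw
      rw [Sem_cons, Sem_single, Language.mem_mul] at hw
      obtain ⟨u, hu, v, hv, rfl⟩ := hw
      have hu' : u = [t] := hu
      have hv' : v = List.replicate (cnt σ) t := hv
      rw [hu', hv']
      rfl
    · intro w hw
      have hw' : w = [] := hw
      rw [hw']
      rfl
    · intro w hw
      change w ∈ Sem ([Sum.inl s, Sum.inr (Y, σ)] : List gr.Sym) at hw
      rw [Sem_cons, Sem_single, Language.mem_mul] at hw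
      obtain ⟨u, hu, v, hv, rfl⟩ := hw
      have hu' : u = [s] := hu
      have hv' : v = List.replicate (cnt σ) s := hv
      rw [hu', hv']
      rfl
    · intro w hw
      have hw' : w = [] := hw
      rw [hw']
      rfl

theorem mem_Sem_terminal (w : List Ltr) : w ∈ Sem (w.map Sum.inl) := by
  induction w with
  | nil => rfl
  | cons c w ih =>
    rw [List.map_cons, Sem_cons, Language.mem_mul]
    exact ⟨[c], rfl, w, ih, rfl⟩

theorem sound (w : List Ltr) (h : w ∈ gr.language) : ∃ n, w = word n := by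
  have h1 : ∀ γ γ' : List gr.Sym, Relation.ReflTransGen gr.Step γ γ' → Sem γ' ≤ Sem γ := by
    intro γ γ' h
    induction h with
    | refl => exact le_rfl
    | tail _ h ih => exact (step_sem h).trans ih
  have h2 := h1 _ _ h (mem_Sem_terminal w)
  rw [Sem_single] at h2
  exact h2

/-! ### completeness -/

abbrev Der (γ δ : List gr.Sym) : Prop := Relation.ReflTransGen gr.Step γ δ

theorem step_ctx {x y : List gr.Sym} (p q : List gr.Sym) (h : gr.Step x y) :
    gr.Step (p ++ x ++ q) (p ++ y ++ q) := by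
  cases h with
  | expand p' q' A α σ h =>
    have := IndexedGrammar.Step.expand (g := gr) (p ++ p') (q' ++ q) A α σ h
    simpa [List.append_assoc] using this
  | push p' q' A B f σ h =>
    have := IndexedGrammar.Step.push (g := gr) (p ++ p') (q' ++ q) A B f σ h
    simpa [List.append_assoc] using this
  | pop p' q' A f α σ h =>
    have := IndexedGrammar.Step.pop (g := gr) (p ++ p') (q' ++ q) A f α σ h
    simpa [List.append_assoc] using this

theorem der_ctx {x y : List gr.Sym} (p q : List gr.Sym) (h : Der x y) :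
    Der (p ++ x ++ q) (p ++ y ++ q) := by
  induction h with
  | refl => exact Relation.ReflTransGen.refl
  | tail _ h ih => exact ih.tail (step_ctx p q h)

theorem der_append {x x' y y' : List gr.Sym} (h : Der x x') (h' : Der y y') :
    Der (x ++ y) (x' ++ y') := by
  have h1 := der_ctx [] y h
  have h2 := der_ctx x' [] h'
  rw [List.nil_append, List.nil_append] at h1
  rw [List.append_nil, List.append_nil] at h2
  exact h1.trans h2

def stk (n : ℕ) : List Bool := List.replicate n true ++ [false]

theorem der_expand (A : Nt) (α : List (Ltr ⊕ Nt)) (σ : List Bool) (h : (A, α) ∈ gr.expand) :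
    Der [Sum.inr (A, σ)] (gr.attach σ α) := by
  have := IndexedGrammar.Step.expand (g := gr) [] [] A α σ h
  rw [List.nil_append, List.append_nil, List.nil_append, List.append_nil] at this
  exact Relation.ReflTransGen.single this

theorem der_push (A B : Nt) (f : Bool) (σ : List Bool) (h : (A, B, f) ∈ gr.push) :
    Der [Sum.inr (A, σ)] [Sum.inr (B, f :: σ)] := by
  have := IndexedGrammar.Step.push (g := gr) [] [] A B f σ h
  rw [List.nil_append, List.append_nil, List.nil_append, List.append_nil] at this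
  exact Relation.ReflTransGen.single this

theorem der_pop (A : Nt) (f : Bool) (α : List (Ltr ⊕ Nt)) (σ : List Bool)
    (h : (A, f, α) ∈ gr.pop) : Der [Sum.inr (A, f :: σ)] (gr.attach σ α) := by
  have := IndexedGrammar.Step.pop (g := gr) [] [] A f α σ h
  rw [List.nil_append, List.append_nil, List.nil_append, List.append_nil] at this
  exact Relation.ReflTransGen.single this

theorem der_X (n : ℕ) : Der [Sum.inr (X, stk n)] ((List.replicate n t).map Sum.inl) := by
  induction n with
  | zero => exact der_pop X false [] [] (by rw [mem_pop]; simp)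
  | succ n ih =>
    have h1 := der_pop X true [Sum.inl t, Sum.inr X] (stk n) (by rw [mem_pop]; simp)
    refine Relation.ReflTransGen.trans h1 ?_
    exact der_append (x := [Sum.inl t]) Relation.ReflTransGen.refl ih

theorem der_Y (n : ℕ) : Der [Sum.inr (Y, stk n)] ((List.replicate n s).map Sum.inl) := by
  induction n with
  | zero => exact der_pop Y false [] [] (by rw [mem_pop]; simp)
  | succ n ih =>
    have h1 := der_pop Y true [Sum.inl s, Sum.inr Y] (stk n) (by rw [mem_pop]; simp)
    refine Relation.ReflTransGen.trans h1 ?_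
    exact der_append (x := [Sum.inl s]) Relation.ReflTransGen.refl ih

theorem der_C (n : ℕ) : Der [Sum.inr (C, stk n)] ((half n).map Sum.inl) := by
  have h1 := der_expand C [Sum.inr X, Sum.inl a, Sum.inr Y, Sum.inl b] (stk n) (by rw [mem_expand]; simp)
  refine Relation.ReflTransGen.trans h1 ?_
  have h2 : Der [Sum.inl a] (([a] : List Ltr).map Sum.inl) := Relation.ReflTransGen.refl
  have h3 : Der [Sum.inl b] (([b] : List Ltr).map Sum.inl) := Relation.ReflTransGen.refl
  have h4 := der_append (der_append (der_append (der_X n) h2) (der_Y n)) h3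
  rw [← List.map_append, ← List.map_append, ← List.map_append] at h4
  exact h4

theorem der_P (n : ℕ) : Der [Sum.inr (P, stk 0)] [Sum.inr (P, stk n)] := by
  induction n with
  | zero => exact Relation.ReflTransGen.refl
  | succ n ih => exact ih.trans (der_push P P true (stk n) (by rw [mem_push]; simp))

theorem complete (n : ℕ) : word n ∈ gr.language := by
  show Der [Sum.inr (S, [])] ((word n).map Sum.inl)
  refine (der_push S P false [] (by rw [mem_push]; simp)).trans ?_
  refine (der_P n).trans ?_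
  refine (der_expand P [Sum.inr C, Sum.inr C] (stk n) (by rw [mem_expand]; simp)).trans ?_
  have h := der_append (der_C n) (der_C n)
  rw [← List.map_append] at h
  exact h

/-! ### the group -/

/-- the relators -/
def r (n : ℕ) : FreeGroup Ltr := toFree (word n)

abbrev Gp : Type := PresentedGroup (Set.range r)

theorem nested : IsNestedStackGroup Gp := by
  refine ⟨Ltr, inferInstance, gr.language, ⟨gr, rfl⟩, ?_⟩
  have h : {x : FreeGroup Ltr | ∃ w ∈ gr.language, x = toFree w} = Set.range r := by
    ext x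
    constructor
    · rintro ⟨w, hw, rfl⟩
      obtain ⟨n, rfl⟩ := sound w hw
      exact ⟨n, rfl⟩
    · rintro ⟨n, rfl⟩
      exact ⟨word n, complete n, rfl⟩
  show Nonempty (Gp ≃* PresentedGroup {x : FreeGroup Ltr | ∃ w ∈ gr.language, x = toFree w})
  rw [h]
  exact ⟨MulEquiv.refl _⟩

def tr : Equiv.Perm ℤ := Equiv.addRight 1

theorem tr_pow (k : ℕ) (x : ℤ) : (tr ^ k) x = x + k := by
  induction k generalizing x with
  | zero => simp
  | succ k ih =>
    rw [pow_succ', Equiv.Perm.mul_apply, ih]
    show x + k + 1 = _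
    push_cast
    ring

/-- the test homomorphism -/
def Phi (n : ℕ) : FreeGroup Ltr →* Equiv.Perm ℤ := FreeGroup.lift (fun x => match x with
  | a => Equiv.swap 0 1
  | b => Equiv.swap ((n : ℤ) + 2) (n + 3)
  | t => tr
  | s => tr⁻¹)

theorem toFree_replicate (k : ℕ) (c : Ltr) : toFree (List.replicate k c) = (FreeGroup.of c) ^ k := by
  simp [toFree]

theorem Phi_r (n k : ℕ) : Phi n (r k) =
    (Equiv.swap (k : ℤ) (k + 1) * Equiv.swap ((n : ℤ) + 2) (n + 3)) *
    (Equiv.swap (k : ℤ) (k + 1) * Equiv.swap ((n : ℤ) + 2) (n + 3)) := by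
  have h1 : Phi n (toFree (half k)) = Equiv.swap (k : ℤ) (k + 1) * Equiv.swap ((n : ℤ) + 2) (n + 3) := by
    unfold half
    rw [toFree_append, toFree_append, toFree_append, toFree_replicate, toFree_replicate]
    simp only [map_mul, map_pow, toFree, List.map_cons, List.map_nil, List.prod_cons, List.prod_nil,
      mul_one]
    have h2 : Phi n (FreeGroup.of t) = tr := by simp [Phi]
    have h3 : Phi n (FreeGroup.of s) = tr⁻¹ := by simp [Phi]
    have h4 : Phi n (FreeGroup.of a) = Equiv.swap 0 1 := by simp [Phi]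
    have h5 : Phi n (FreeGroup.of b) = Equiv.swap ((n : ℤ) + 2) (n + 3) := by simp [Phi]
    rw [h2, h3, h4, h5]
    congr 1
    have h6 := Equiv.swap_apply_apply (tr ^ k) (0 : ℤ) 1
    rw [tr_pow, tr_pow, zero_add, add_comm 1 (k : ℤ)] at h6
    rw [h6, inv_pow]
  unfold r word
  rw [toFree_append, map_mul, h1]

theorem Phi_r_le (n k : ℕ) (h : k ≤ n) : Phi n (r k) = 1 := by
  rw [Phi_r]
  set A := Equiv.swap (k : ℤ) (k + 1)
  set B := Equiv.swap ((n : ℤ) + 2) (n + 3)
  have hA : A * A = 1 := Equiv.swap_mul_self _ _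
  have hB : B * B = 1 := Equiv.swap_mul_self _ _
  have hc : A = B * A * B⁻¹ := by
    have h6 := Equiv.swap_apply_apply B (k : ℤ) (k + 1)
    have e1 : B (k : ℤ) = k := Equiv.swap_apply_of_ne_of_ne (by omega) (by omega)
    have e2 : B ((k : ℤ) + 1) = k + 1 := Equiv.swap_apply_of_ne_of_ne (by omega) (by omega)
    rw [e1, e2] at h6
    exact h6
  have hc' : A * B = B * A := by
    calc A * B = (B * A * B⁻¹) * B := by rw [← hc]
      _ = B * A := by group
  calc A * B * (A * B) = A * (B * A) * B := by group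
    _ = (A * A) * (B * B) := by rw [← hc']; group
    _ = 1 := by rw [hA, hB, one_mul]

theorem Phi_r_ne (n : ℕ) : Phi n (r (n + 1)) ≠ 1 := by
  intro h
  rw [Phi_r] at h
  have h1 := congrArg (fun f : Equiv.Perm ℤ => f ((n : ℤ) + 1)) h
  simp only [Equiv.Perm.mul_apply, Equiv.Perm.one_apply] at h1
  push_cast at h1
  rw [Equiv.swap_apply_of_ne_of_ne (a := (n : ℤ) + 2) (b := n + 3) (x := (n : ℤ) + 1) (by omega)
    (by omega), Equiv.swap_apply_left, show (n : ℤ) + 1 + 1 = n + 2 by ring,
    Equiv.swap_apply_left, Equiv.swap_apply_of_ne_of_ne (by omega) (by omega)] at h1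
  omega

theorem not_cf : ¬ IsContextFreeGroup Gp := by
  intro h
  obtain ⟨n, hn⟩ := cf_stage r h
  have h1 : Subgroup.normalClosure (r '' {i | i ≤ n}) ≤ (Phi n).ker := by
    apply Subgroup.normalClosure_le_normal
    rintro _ ⟨k, hk, rfl⟩
    exact Phi_r_le n k hk
  exact Phi_r_ne n (h1 (hn (n + 1)))

end Pool.Agent.H5.Mc0d803
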