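import Mathlib

set_option autoImplicit false

namespace Pool.Agent.H5.Mc4a975

universe u

variable {R : Type u} [NonUnitalNonAssocRing R]

/-- Right alternative rings: `(xy)y = x(yy)`. -/
def RightAlternative (R : Type u) [NonUnitalNonAssocRing R] : Prop :=
  ∀ x y : R, (x * y) * y = x * (y * y)

/-- `J` is a two-sided ideal of the ring `I` (where `I` is an additive subgroup of `R` closed under
multiplication; `I = ⊤` gives the ideals of `R`). -/
def IsIdealOf (J I : AddSubgroup R) : Prop :=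
  J ≤ I ∧ ∀ a ∈ I, ∀ x ∈ J, a * x ∈ J ∧ x * a ∈ J

/-- `I` is a minimal ideal of `R`. -/
def IsMinimalIdeal (I : AddSubgroup R) : Prop :=
  IsIdealOf I ⊤ ∧ I ≠ ⊥ ∧ ∀ J : AddSubgroup R, IsIdealOf J ⊤ → J ≤ I → J = ⊥ ∨ J = I

/-- The additive subgroup spanned by the products `ab`, `a ∈ A`, `b ∈ B`. -/
def prod (A B : AddSubgroup R) : AddSubgroup R :=
  AddSubgroup.closure {z | ∃ a ∈ A, ∃ b ∈ B, z = a * b}

/-- `I` is simple as a ring. -/
def SimpleAsRing (I : AddSubgroup R) : Prop :=
  prod I I ≠ ⊥ ∧ ∀ J : AddSubgroup R, IsIdealOf J I → J = ⊥ ∨ J = I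

/-- The derived series of `I`. -/
def derived (I : AddSubgroup R) : ℕ → AddSubgroup R
  | 0 => I
  | k + 1 => prod (derived I k) (derived I k)

/-- The right powers of `I`; `rightPower I n` is `I^⟨n+1⟩`. -/
def rightPower (I : AddSubgroup R) : ℕ → AddSubgroup R
  | 0 => I
  | n + 1 => prod (rightPower I n) I

/-- `I` is solvable. -/
def Solvable (I : AddSubgroup R) : Prop := ∃ k, derived I k = ⊥

/-- `I` is right nilpotent. -/
def RightNilpotent (I : AddSubgroup R) : Prop := ∃ n, rightPower I n = ⊥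

end Pool.Agent.H5.Mc4a975
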