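import Mathlib

set_option autoImplicit false

/-!
Varieties of nonassociative algebras given by multilinear identities, relatively free algebras and
retracts.  Algebras over `k` are Mathlib's non-unital non-associative rings with a compatible
`k`-module structure; their homomorphisms are the `k`-linear multiplicative maps `A →ₙₐ[k] C`.
-/

namespace Pool.Agent.H5.Mce47b3

universe u

/-- The number of occurrences of the variable `i` in a nonassociative monomial. -/
def occ (i : ℕ) : FreeMagma ℕ → ℕ
  | .of j => if i = j then 1 else 0
  | .mul a b => occ i a + occ i b

section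

variable {k : Type u} [CommRing k]

/-- An element of the free nonassociative algebra in the variables `0, 1, 2, ...` is multilinear
if for some `n` every monomial that occurs in it contains each of the variables `0, ..., n - 1`
exactly once and no other variable. -/
def IsMultilinear (f : FreeNonUnitalNonAssocAlgebra k ℕ) : Prop :=
  ∃ n : ℕ, ∀ m ∈ f.coeff.support, ∀ i : ℕ, occ i m = if i < n then 1 else 0

/-- The algebra `A` belongs to the variety defined by the set `E` of identities: every element of
`E` vanishes under every substitution of elements of `A` for the variables. -/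
def InVariety (E : Set (FreeNonUnitalNonAssocAlgebra k ℕ)) (A : Type u)
    [NonUnitalNonAssocRing A] [Module k A] [IsScalarTower k A A] [SMulCommClass k A A] : Prop :=
  ∀ f ∈ E, ∀ v : ℕ → A, FreeNonUnitalNonAssocAlgebra.lift k v f = 0

/-- `A` together with `i : X → A` is the free object on `X` of the variety defined by `E`. -/
def IsFreeOn (E : Set (FreeNonUnitalNonAssocAlgebra k ℕ)) (A : Type u)
    [NonUnitalNonAssocRing A] [Module k A] [IsScalarTower k A A] [SMulCommClass k A A]
    {X : Type u} (i : X → A) : Prop :=
  InVariety E A ∧
    ∀ (C : Type u) [NonUnitalNonAssocRing C] [Module k C] [IsScalarTower k C C]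
      [SMulCommClass k C C], InVariety E C →
        ∀ v : X → C, ∃! φ : A →ₙₐ[k] C, ∀ x, φ (i x) = v x

/-- `A` is a free algebra of the variety defined by `E`, on some set. -/
def IsVFree (E : Set (FreeNonUnitalNonAssocAlgebra k ℕ)) (A : Type u)
    [NonUnitalNonAssocRing A] [Module k A] [IsScalarTower k A A] [SMulCommClass k A A] : Prop :=
  ∃ (X : Type u) (i : X → A), IsFreeOn E A i

/-- The subalgebra `B` is a retract of `A`: some endomorphism of `A` has image inside `B` and
fixes every element of `B`. -/
def IsRetract {A : Type u}
    [NonUnitalNonAssocRing A] [Module k A] [IsScalarTower k A A] [SMulCommClass k A A]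
    (B : NonUnitalSubalgebra k A) : Prop :=
  ∃ π : A →ₙₐ[k] A, (∀ a, π a ∈ B) ∧ ∀ b ∈ B, π b = b

end

end Pool.Agent.H5.Mce47b3
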