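import Mathlib
import Pool.Agent.H5.Mce47b3Defs

set_option autoImplicit false

/-!
Construction of relatively free algebras as quotients of the absolutely free ones.
-/

namespace Pool.Agent.H5.Mce47b3

universe u

open FreeNonUnitalNonAssocAlgebra

variable {k : Type u} [CommRing k]

/-- the relation whose generated equivalence is the verbal congruence -/
inductive Rel (E : Set (FreeNonUnitalNonAssocAlgebra k ℕ)) (X : Type u) :
    FreeNonUnitalNonAssocAlgebra k X → FreeNonUnitalNonAssocAlgebra k X → Prop
  | ident (f : FreeNonUnitalNonAssocAlgebra k ℕ) (hf : f ∈ E)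
      (v : ℕ → FreeNonUnitalNonAssocAlgebra k X) : Rel E X (lift k v f) 0
  | smul (t : k) {a b : FreeNonUnitalNonAssocAlgebra k X} : Rel E X a b → Rel E X (t • a) (t • b)
  | add_right {a b : FreeNonUnitalNonAssocAlgebra k X} (c : FreeNonUnitalNonAssocAlgebra k X) :
      Rel E X a b → Rel E X (a + c) (b + c)
  | mul_left (a : FreeNonUnitalNonAssocAlgebra k X) {b c : FreeNonUnitalNonAssocAlgebra k X} :
      Rel E X b c → Rel E X (a * b) (a * c)
  | mul_right {a b : FreeNonUnitalNonAssocAlgebra k X} (c : FreeNonUnitalNonAssocAlgebra k X) :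
      Rel E X a b → Rel E X (a * c) (b * c)

variable {E : Set (FreeNonUnitalNonAssocAlgebra k ℕ)} {X : Type u}

theorem Rel.addLeft (a : FreeNonUnitalNonAssocAlgebra k X)
    {b c : FreeNonUnitalNonAssocAlgebra k X} (h : Rel E X b c) : Rel E X (a + b) (a + c) := by
  rw [add_comm _ b, add_comm _ c]; exact h.add_right _

theorem Rel.neg {a b : FreeNonUnitalNonAssocAlgebra k X} (h : Rel E X a b) :
    Rel E X (-a) (-b) := by
  simpa only [neg_one_smul] using h.smul (-1)

theorem Rel.subLeft (a : FreeNonUnitalNonAssocAlgebra k X)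
    {b c : FreeNonUnitalNonAssocAlgebra k X} (h : Rel E X b c) : Rel E X (a - b) (a - c) := by
  simpa only [sub_eq_add_neg] using h.neg.addLeft a

theorem Rel.subRight {a b : FreeNonUnitalNonAssocAlgebra k X}
    (c : FreeNonUnitalNonAssocAlgebra k X) (h : Rel E X a b) : Rel E X (a - c) (b - c) := by
  simpa only [sub_eq_add_neg] using h.add_right (-c)

variable (E X)

/-- the relatively free algebra -/
def FV : Type u := Quot (Rel E X)

namespace FV

variable {E X}

def mk (a : FreeNonUnitalNonAssocAlgebra k X) : FV E X := Quot.mk _ a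

theorem mk_surjective : Function.Surjective (mk : FreeNonUnitalNonAssocAlgebra k X → FV E X) :=
  Quot.mk_surjective

noncomputable instance : SMul k (FV E X) where smul t := Quot.map (t • ·) (fun _ _ h => h.smul t)
noncomputable instance : SMul ℕ (FV E X) where
  smul n := Quot.map (n • ·) (fun a b h => by
    simpa only [Nat.cast_smul_eq_nsmul] using h.smul (n : k))
noncomputable instance : SMul ℤ (FV E X) where
  smul n := Quot.map (n • ·) (fun a b h => by
    simpa only [Int.cast_smul_eq_zsmul] using h.smul (n : k))
noncomputable instance : Zero (FV E X) where zero := mk 0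
noncomputable instance : Add (FV E X) where
  add := Quot.map₂ (· + ·) (fun _ _ _ => Rel.addLeft _) fun _ _ _ => Rel.add_right _
noncomputable instance : Neg (FV E X) where neg := Quot.map Neg.neg fun _ _ => Rel.neg
noncomputable instance : Sub (FV E X) where
  sub := Quot.map₂ Sub.sub (fun _ _ _ => Rel.subLeft _) fun _ _ _ => Rel.subRight _
noncomputable instance : Mul (FV E X) where
  mul := Quot.map₂ (· * ·) (fun _ _ _ => Rel.mul_left _) fun _ _ _ => Rel.mul_right _

noncomputable instance : NonUnitalNonAssocRing (FV E X) :=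
  Function.Surjective.nonUnitalNonAssocRing mk mk_surjective rfl (fun _ _ => rfl)
    (fun _ _ => rfl) (fun _ => rfl) (fun _ _ => rfl) (fun _ _ => rfl) (fun _ _ => rfl)

noncomputable instance : Module k (FV E X) :=
  Function.Surjective.module k ⟨⟨mk, rfl⟩, fun _ _ => rfl⟩ mk_surjective (fun _ _ => rfl)

instance : IsScalarTower k (FV E X) (FV E X) where
  smul_assoc t a b := by
    obtain ⟨a, rfl⟩ := mk_surjective a
    obtain ⟨b, rfl⟩ := mk_surjective b
    change mk ((t • a) * b) = mk (t • (a * b))
    rw [smul_mul_assoc]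

instance : SMulCommClass k (FV E X) (FV E X) where
  smul_comm t a b := by
    obtain ⟨a, rfl⟩ := mk_surjective a
    obtain ⟨b, rfl⟩ := mk_surjective b
    change mk (t • (a * b)) = mk (a * (t • b))
    rw [mul_smul_comm]

/-- the quotient map -/
noncomputable def mkHom : FreeNonUnitalNonAssocAlgebra k X →ₙₐ[k] FV E X where
  toFun := mk
  map_smul' _ _ := rfl
  map_zero' := rfl
  map_add' _ _ := rfl
  map_mul' _ _ := rfl

/-- the generators -/
noncomputable def gen (x : X) : FV E X := mk (of k x)

theorem inVariety : InVariety E (FV E X) := by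
  intro f hf v
  choose w hw using fun n => mk_surjective (E := E) (X := X) (v n)
  have h1 : lift k v = (mkHom (E := E)).comp (lift k w) := by
    apply hom_ext
    intro n
    rw [lift_of_apply, NonUnitalAlgHom.comp_apply, lift_of_apply]
    exact (hw n).symm
  rw [h1, NonUnitalAlgHom.comp_apply]
  exact Quot.sound (Rel.ident f hf w)

variable {C : Type u} [NonUnitalNonAssocRing C] [Module k C] [IsScalarTower k C C]
  [SMulCommClass k C C]

theorem lift_rel (hC : InVariety E C) (v : X → C) (a b : FreeNonUnitalNonAssocAlgebra k X)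
    (h : Rel E X a b) : lift k v a = lift k v b := by
  induction h with
  | ident f hf w =>
    have h1 : (lift k v).comp (lift k w) = lift k (fun n => lift k v (w n)) := by
      apply hom_ext
      intro n
      rw [lift_of_apply, NonUnitalAlgHom.comp_apply, lift_of_apply]
    have h2 := hC f hf (fun n => lift k v (w n))
    rw [← h1, NonUnitalAlgHom.comp_apply] at h2
    rw [h2, map_zero]
  | smul t _ ih => rw [map_smul, map_smul, ih]
  | add_right c _ ih => rw [map_add, map_add, ih]
  | mul_left c _ ih => rw [map_mul, map_mul, ih]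
  | mul_right c _ ih => rw [map_mul, map_mul, ih]

/-- the homomorphism given by the universal property -/
noncomputable def desc (hC : InVariety E C) (v : X → C) : FV E X →ₙₐ[k] C where
  toFun a := Quot.liftOn a (lift k v) (lift_rel hC v)
  map_smul' := by rintro t ⟨a⟩; exact map_smul (lift k v) t a
  map_zero' := map_zero (lift k v)
  map_add' := by rintro ⟨a⟩ ⟨b⟩; exact map_add (lift k v) a b
  map_mul' := by rintro ⟨a⟩ ⟨b⟩; exact map_mul (lift k v) a b

theorem desc_gen (hC : InVariety E C) (v : X → C) (x : X) : desc hC v (gen x) = v x :=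
  lift_of_apply (R := k) v x

theorem hom_ext' {φ ψ : FV E X →ₙₐ[k] C} (h : ∀ x, φ (gen x) = ψ (gen x)) : φ = ψ := by
  have h1 : φ.comp (mkHom (E := E)) = ψ.comp (mkHom (E := E)) := by
    apply hom_ext
    intro x
    exact h x
  apply NonUnitalAlgHom.ext
  intro a
  obtain ⟨a, rfl⟩ := mk_surjective a
  exact congrArg (fun f : FreeNonUnitalNonAssocAlgebra k X →ₙₐ[k] C => f a) h1

theorem isFreeOn : IsFreeOn E (FV E X) (gen (E := E) (X := X)) := by
  refine ⟨inVariety, ?_⟩
  intro C _ _ _ _ hC v
  refine ⟨desc hC v, desc_gen hC v, ?_⟩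
  intro φ hφ
  apply hom_ext'
  intro x
  rw [hφ, desc_gen]

end FV

end Pool.Agent.H5.Mce47b3
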