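import Mathlib
import Pool.Agent.H5.Mce47b3Free

set_option autoImplicit false

namespace Pool.Agent.H5.Mce47b3

universe u

open FreeNonUnitalNonAssocAlgebra Polynomial

section ids

variable (k : Type u) [CommRing k]

/-- `(x0 x1)(x2 x3)` -/
noncomputable def f1 : FreeNonUnitalNonAssocAlgebra k ℕ :=
  (of k 0 * of k 1) * (of k 2 * of k 3)
/-- `x0 ((x1 x2) x3)` -/
noncomputable def f2 : FreeNonUnitalNonAssocAlgebra k ℕ :=
  of k 0 * ((of k 1 * of k 2) * of k 3)
/-- `(x0 (x1 x2)) x3` -/
noncomputable def f3 : FreeNonUnitalNonAssocAlgebra k ℕ :=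
  (of k 0 * (of k 1 * of k 2)) * of k 3

/-- the three identities -/
noncomputable def Ids : Set (FreeNonUnitalNonAssocAlgebra k ℕ) := {f1 k, f2 k, f3 k}

variable {k}

theorem single_ml (w : FreeMagma ℕ) (n : ℕ) (h : ∀ i, occ i w = if i < n then 1 else 0) :
    IsMultilinear (MonoidAlgebra.single w (1 : k)) := by
  refine ⟨n, ?_⟩
  intro m hm i
  rw [MonoidAlgebra.coeff_single] at hm
  have := Finsupp.support_single_subset hm
  rw [Finset.mem_singleton] at this
  rw [this]; exact h i

theorem occ_four (w : FreeMagma ℕ) (h4 : ∀ i, 4 ≤ i → occ i w = 0) (h0 : occ 0 w = 1)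
    (h1 : occ 1 w = 1) (h2 : occ 2 w = 1) (h3 : occ 3 w = 1) (i : ℕ) :
    occ i w = if i < 4 then 1 else 0 := by
  by_cases hi : i < 4
  · rw [if_pos hi]
    interval_cases i <;> assumption
  · rw [if_neg hi]; exact h4 i (by omega)

theorem ids_ml : ∀ f ∈ Ids k, IsMultilinear f := by
  have e1 : f1 k = MonoidAlgebra.single
      ((FreeMagma.of 0 * FreeMagma.of 1) * (FreeMagma.of 2 * FreeMagma.of 3)) 1 := by
    simp [f1, of, MonoidAlgebra.ofMagma_apply, MonoidAlgebra.single_mul_single]
  have e2 : f2 k = MonoidAlgebra.single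
      (FreeMagma.of 0 * ((FreeMagma.of 1 * FreeMagma.of 2) * FreeMagma.of 3)) 1 := by
    simp [f2, of, MonoidAlgebra.ofMagma_apply, MonoidAlgebra.single_mul_single]
  have e3 : f3 k = MonoidAlgebra.single
      ((FreeMagma.of 0 * (FreeMagma.of 1 * FreeMagma.of 2)) * FreeMagma.of 3) 1 := by
    simp [f3, of, MonoidAlgebra.ofMagma_apply, MonoidAlgebra.single_mul_single]
  rintro f (rfl | rfl | rfl)
  · rw [e1]
    apply single_ml _ 4
    intro i
    apply occ_four
    · intro i hi
      change ((if i = 0 then 1 else 0) + (if i = 1 then 1 else 0)) +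
        ((if i = 2 then 1 else 0) + (if i = 3 then 1 else 0)) = 0
      rw [if_neg, if_neg, if_neg, if_neg] <;> omega
    all_goals rfl
  · rw [e2]
    apply single_ml _ 4
    intro i
    apply occ_four
    · intro i hi
      change (if i = 0 then 1 else 0) + (((if i = 1 then 1 else 0) +
        (if i = 2 then 1 else 0)) + (if i = 3 then 1 else 0)) = 0
      rw [if_neg, if_neg, if_neg, if_neg] <;> omega
    all_goals rfl
  · rw [e3]
    apply single_ml _ 4
    intro i
    apply occ_four
    · intro i hi
      change ((if i = 0 then 1 else 0) + ((if i = 1 then 1 else 0) +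
        (if i = 2 then 1 else 0))) + (if i = 3 then 1 else 0) = 0
      rw [if_neg, if_neg, if_neg, if_neg] <;> omega
    all_goals rfl

variable {A : Type u} [NonUnitalNonAssocRing A] [Module k A] [IsScalarTower k A A]
  [SMulCommClass k A A]

theorem inVar_iff : InVariety (Ids k) A ↔
    (∀ a b c d : A, (a * b) * (c * d) = 0) ∧ (∀ a b c d : A, a * ((b * c) * d) = 0) ∧
      (∀ a b c d : A, (a * (b * c)) * d = 0) := by
  have ev : ∀ (v : ℕ → A), lift k v (f1 k) = (v 0 * v 1) * (v 2 * v 3) ∧
      lift k v (f2 k) = v 0 * ((v 1 * v 2) * v 3) ∧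
      lift k v (f3 k) = (v 0 * (v 1 * v 2)) * v 3 := by
    intro v
    simp only [f1, f2, f3, map_mul, lift_of_apply, and_self]
  constructor
  · intro h
    have hh : ∀ a b c d : A, ∃ v : ℕ → A, v 0 = a ∧ v 1 = b ∧ v 2 = c ∧ v 3 = d := by
      intro a b c d
      exact ⟨fun n => if n = 0 then a else if n = 1 then b else if n = 2 then c else d,
        by simp, by simp, by simp, by simp⟩
    refine ⟨?_, ?_, ?_⟩ <;> intro a b c d <;> obtain ⟨v, rfl, rfl, rfl, rfl⟩ := hh a b c d
    · rw [← (ev v).1]; exact h _ (by simp [Ids]) v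
    · rw [← (ev v).2.1]; exact h _ (by simp [Ids]) v
    · rw [← (ev v).2.2]; exact h _ (by simp [Ids]) v
  · rintro ⟨h1, h2, h3⟩ f (rfl | rfl | rfl) v
    · rw [(ev v).1, h1]
    · rw [(ev v).2.1, h2]
    · rw [(ev v).2.2, h3]

end ids

/-! ### the algebra with zero multiplication -/

/-- the ground ring with zero multiplication -/
def ZA (k : Type u) [CommRing k] : Type u := k

section za

variable {k : Type u} [CommRing k]

instance : AddCommGroup (ZA k) := inferInstanceAs (AddCommGroup k)
instance : Module k (ZA k) := inferInstanceAs (Module k k)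
instance : Mul (ZA k) := ⟨fun _ _ => 0⟩

theorem za_mul (a b : ZA k) : a * b = 0 := rfl

/-- the underlying element of the ground ring -/
def toK (a : ZA k) : k := a
/-- the element with given underlying element of the ground ring -/
def ofK (a : k) : ZA k := a

theorem toK_inj {a b : ZA k} (h : toK a = toK b) : a = b := h
theorem toK_ofK (a : k) : toK (ofK a) = a := rfl
theorem toK_add (a b : ZA k) : toK (a + b) = toK a + toK b := rfl
theorem toK_zero : toK (0 : ZA k) = 0 := rfl
theorem toK_smul (r : k) (a : ZA k) : toK (r • a) = r * toK a := rfl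

instance : NonUnitalNonAssocRing (ZA k) where
  left_distrib _ _ _ := by simp only [za_mul, add_zero]
  right_distrib _ _ _ := by simp only [za_mul, add_zero]
  zero_mul _ := rfl
  mul_zero _ := rfl

instance : IsScalarTower k (ZA k) (ZA k) where
  smul_assoc t a b := by simp only [smul_eq_mul, za_mul, smul_zero]

instance : SMulCommClass k (ZA k) (ZA k) where
  smul_comm t a b := by simp only [smul_eq_mul, za_mul, smul_zero]

theorem za_var : InVariety (Ids k) (ZA k) := by
  rw [inVar_iff]
  exact ⟨fun _ _ _ _ => rfl, fun _ _ _ _ => rfl, fun _ _ _ _ => rfl⟩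

end za

/-! ### the target algebra -/

/-- triples consisting of a scalar, and of an element of the coordinate ring of two crossing
lines, the latter written as constant term and the two remaining parts -/
@[ext] structure B0 (k : Type u) [CommRing k] : Type u where
  al : k
  c : k
  f : k[X]
  g : k[X]

section b0

variable {k : Type u} [CommRing k]

namespace B0

noncomputable instance : Zero (B0 k) := ⟨⟨0, 0, 0, 0⟩⟩
noncomputable instance : Add (B0 k) := ⟨fun a b => ⟨a.al + b.al, a.c + b.c, a.f + b.f, a.g + b.g⟩⟩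
noncomputable instance : Neg (B0 k) := ⟨fun a => ⟨-a.al, -a.c, -a.f, -a.g⟩⟩
noncomputable instance : SMul k (B0 k) := ⟨fun r a => ⟨r * a.al, r * a.c, C r * a.f, C r * a.g⟩⟩
noncomputable instance : Mul (B0 k) := ⟨fun a b => ⟨0, a.al * b.al,
  C (a.al * b.al) + C (a.al * b.c) + X * (C a.al * b.f), C (b.al * a.c) + X * (C b.al * a.g)⟩⟩

theorem add_al (a b : B0 k) : (a + b).al = a.al + b.al := rfl
theorem add_c (a b : B0 k) : (a + b).c = a.c + b.c := rfl
theorem add_f (a b : B0 k) : (a + b).f = a.f + b.f := rfl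
theorem add_g (a b : B0 k) : (a + b).g = a.g + b.g := rfl
theorem zero_al : (0 : B0 k).al = 0 := rfl
theorem zero_c : (0 : B0 k).c = 0 := rfl
theorem zero_f : (0 : B0 k).f = 0 := rfl
theorem zero_g : (0 : B0 k).g = 0 := rfl
theorem neg_al (a : B0 k) : (-a).al = -a.al := rfl
theorem neg_c (a : B0 k) : (-a).c = -a.c := rfl
theorem neg_f (a : B0 k) : (-a).f = -a.f := rfl
theorem neg_g (a : B0 k) : (-a).g = -a.g := rfl
theorem smul_al (r : k) (a : B0 k) : (r • a).al = r * a.al := rfl
theorem smul_c (r : k) (a : B0 k) : (r • a).c = r * a.c := rfl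
theorem smul_f (r : k) (a : B0 k) : (r • a).f = C r * a.f := rfl
theorem smul_g (r : k) (a : B0 k) : (r • a).g = C r * a.g := rfl
theorem mul_al (a b : B0 k) : (a * b).al = 0 := rfl
theorem mul_c (a b : B0 k) : (a * b).c = a.al * b.al := rfl
theorem mul_f (a b : B0 k) : (a * b).f =
    C (a.al * b.al) + C (a.al * b.c) + X * (C a.al * b.f) := rfl
theorem mul_g (a b : B0 k) : (a * b).g = C (b.al * a.c) + X * (C b.al * a.g) := rfl

noncomputable instance : AddCommGroup (B0 k) where
  add_assoc a b c := by
    ext1 <;> simp only [add_al, add_c, add_f, add_g] <;> ring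
  zero_add a := by
    ext1 <;> simp only [add_al, add_c, add_f, add_g, zero_al, zero_c, zero_f, zero_g] <;> ring
  add_zero a := by
    ext1 <;> simp only [add_al, add_c, add_f, add_g, zero_al, zero_c, zero_f, zero_g] <;> ring
  nsmul := nsmulRec
  zsmul := zsmulRec
  neg_add_cancel a := by
    ext1 <;> simp only [add_al, add_c, add_f, add_g, zero_al, zero_c, zero_f, zero_g,
      neg_al, neg_c, neg_f, neg_g] <;> ring
  add_comm a b := by
    ext1 <;> simp only [add_al, add_c, add_f, add_g] <;> ring

noncomputable instance : Module k (B0 k) where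
  one_smul a := by
    ext1 <;> simp only [smul_al, smul_c, smul_f, smul_g, map_one] <;> ring
  mul_smul r s a := by
    ext1 <;> simp only [smul_al, smul_c, smul_f, smul_g, map_mul] <;> ring
  smul_zero r := by
    ext1 <;> simp only [smul_al, smul_c, smul_f, smul_g, zero_al, zero_c, zero_f, zero_g] <;> ring
  smul_add r a b := by
    ext1 <;> simp only [smul_al, smul_c, smul_f, smul_g, add_al, add_c, add_f, add_g] <;> ring
  add_smul r s a := by
    ext1 <;> simp only [smul_al, smul_c, smul_f, smul_g, add_al, add_c, add_f, add_g,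
      map_add] <;> ring
  zero_smul a := by
    ext1 <;> simp only [smul_al, smul_c, smul_f, smul_g, zero_al, zero_c, zero_f, zero_g,
      map_zero] <;> ring

noncomputable instance : NonUnitalNonAssocRing (B0 k) where
  left_distrib a b c := by
    ext1 <;> simp only [mul_al, mul_c, mul_f, mul_g, add_al, add_c, add_f, add_g, map_add,
      map_mul] <;> ring
  right_distrib a b c := by
    ext1 <;> simp only [mul_al, mul_c, mul_f, mul_g, add_al, add_c, add_f, add_g, map_add,
      map_mul] <;> ring
  zero_mul a := by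
    ext1 <;> simp only [mul_al, mul_c, mul_f, mul_g, zero_al, zero_c, zero_f, zero_g, map_zero,
      map_mul] <;> ring
  mul_zero a := by
    ext1 <;> simp only [mul_al, mul_c, mul_f, mul_g, zero_al, zero_c, zero_f, zero_g, map_zero,
      map_mul] <;> ring

instance : IsScalarTower k (B0 k) (B0 k) where
  smul_assoc t a b := by
    simp only [smul_eq_mul]
    ext1 <;> simp only [mul_al, mul_c, mul_f, mul_g, smul_al, smul_c, smul_f, smul_g,
      map_mul] <;> ring

instance : SMulCommClass k (B0 k) (B0 k) where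
  smul_comm t a b := by
    simp only [smul_eq_mul]
    ext1 <;> simp only [mul_al, mul_c, mul_f, mul_g, smul_al, smul_c, smul_f, smul_g,
      map_mul] <;> ring

theorem inVar : InVariety (Ids k) (B0 k) := by
  rw [inVar_iff]
  refine ⟨?_, ?_, ?_⟩ <;> intro a b c d <;> ext1 <;>
    simp only [mul_al, mul_c, mul_f, mul_g, zero_al, zero_c, zero_f, zero_g, map_zero,
      map_mul] <;> ring

/-- the first coordinate -/
def eps : B0 k →ₙₐ[k] ZA k where
  toFun a := a.al
  map_smul' _ _ := rfl
  map_zero' := rfl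
  map_add' _ _ := rfl
  map_mul' _ _ := rfl

end B0

end b0

/-! ### the retraction -/

section retr

variable (k : Type u) [CommRing k]

/-- the relatively free algebra on two generators -/
abbrev A2 : Type u := FV (Ids k) (ULift.{u} Bool)

noncomputable def gy : A2 k := FV.gen ⟨true⟩
noncomputable def gz : A2 k := FV.gen ⟨false⟩

variable {k}

theorem A2_ids : (∀ a b c d : A2 k, (a * b) * (c * d) = 0) ∧
    (∀ a b c d : A2 k, a * ((b * c) * d) = 0) ∧ (∀ a b c d : A2 k, (a * (b * c)) * d = 0) :=
  inVar_iff.mp FV.inVariety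

/-- homomorphisms agree when they agree on the two generators -/
theorem A2_ext {C : Type u} [NonUnitalNonAssocRing C] [Module k C] [IsScalarTower k C C]
    [SMulCommClass k C C] {φ ψ : A2 k →ₙₐ[k] C} (hy : φ (gy k) = ψ (gy k))
    (hz : φ (gz k) = ψ (gz k)) : φ = ψ := by
  apply FV.hom_ext'
  rintro ⟨b⟩
  cases b
  · exact hz
  · exact hy

/-- the homomorphism with given values on the generators -/
noncomputable def A2.hom {C : Type u} [NonUnitalNonAssocRing C] [Module k C] [IsScalarTower k C C]
    [SMulCommClass k C C] (hC : InVariety (Ids k) C) (a b : C) : A2 k →ₙₐ[k] C :=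
  FV.desc hC (fun t => if t.down then a else b)

theorem A2.hom_y {C : Type u} [NonUnitalNonAssocRing C] [Module k C] [IsScalarTower k C C]
    [SMulCommClass k C C] (hC : InVariety (Ids k) C) (a b : C) : A2.hom hC a b (gy k) = a := by
  unfold A2.hom gy
  rw [FV.desc_gen]
  simp

theorem A2.hom_z {C : Type u} [NonUnitalNonAssocRing C] [Module k C] [IsScalarTower k C C]
    [SMulCommClass k C C] (hC : InVariety (Ids k) C) (a b : C) : A2.hom hC a b (gz k) = b := by
  unfold A2.hom gz
  rw [FV.desc_gen]
  simp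

variable (k)

noncomputable def mt : A2 k := -(gy k * (gy k * gy k)) + gy k * gz k + gy k * (gy k * gz k)
noncomputable def mu : A2 k := gy k * gy k - gy k * (gy k * gy k) + gy k * (gy k * gz k) +
  (gy k * gz k) * gy k

/-- the idempotent endomorphism -/
noncomputable def pr : A2 k →ₙₐ[k] A2 k := A2.hom FV.inVariety (gy k + mt k) (mu k)

variable {k}

theorem pr_y : pr k (gy k) = gy k + mt k := A2.hom_y _ _ _
theorem pr_z : pr k (gz k) = mu k := A2.hom_z _ _ _

theorem pr_mt : pr k (mt k) = 0 := by
  obtain ⟨i1, i2, i3⟩ := A2_ids (k := k)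
  rw [mt]
  simp only [map_add, map_neg, map_mul, pr_y, pr_z]
  simp only [mt, mu, mul_add, add_mul, mul_sub, sub_mul, mul_neg, neg_mul, mul_zero, zero_mul,
    i1, i2, i3]
  abel

theorem pr_mu : pr k (mu k) = mu k := by
  obtain ⟨i1, i2, i3⟩ := A2_ids (k := k)
  rw [mu]
  simp only [map_add, map_sub, map_mul, pr_y, pr_z]
  simp only [mt, mu, mul_add, add_mul, mul_sub, sub_mul, mul_neg, neg_mul, mul_zero, zero_mul,
    i1, i2, i3]
  abel

theorem pr_pr (a : A2 k) : pr k (pr k a) = pr k a := by
  have : (pr k).comp (pr k) = pr k := by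
    apply A2_ext
    · rw [NonUnitalAlgHom.comp_apply, pr_y, map_add, pr_y, pr_mt, add_zero]
    · rw [NonUnitalAlgHom.comp_apply, pr_z, pr_mu]
  exact congrArg (fun f : A2 k →ₙₐ[k] A2 k => f a) this

variable (k)

/-- the retract -/
noncomputable def BB : NonUnitalSubalgebra k (A2 k) := NonUnitalAlgHom.range (pr k)

variable {k}

theorem pr_mem (a : A2 k) : pr k a ∈ BB k := ⟨a, rfl⟩

theorem pr_of_mem {b : A2 k} (hb : b ∈ BB k) : pr k b = b := by
  obtain ⟨a, rfl⟩ := hb
  exact pr_pr a

theorem isRetract : IsRetract (BB k) := ⟨pr k, pr_mem, fun _ hb => pr_of_mem hb⟩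

/-- the map to the concrete algebra -/
noncomputable def psi : A2 k →ₙₐ[k] B0 k := A2.hom B0.inVar ⟨1, 0, 0, 0⟩ ⟨0, 1, 0, 0⟩

theorem psi_y : psi (gy k) = ⟨1, 0, 0, 0⟩ := A2.hom_y _ _ _
theorem psi_z : psi (gz k) = ⟨0, 1, 0, 0⟩ := A2.hom_z _ _ _

theorem psi_mt : psi (mt k) = 0 := by
  rw [mt]
  simp only [map_add, map_neg, map_mul, psi_y, psi_z]
  ext1 <;> simp only [B0.add_al, B0.add_c, B0.add_f, B0.add_g, B0.neg_al, B0.neg_c, B0.neg_f,
    B0.neg_g, B0.mul_al, B0.mul_c, B0.mul_f, B0.mul_g, B0.zero_al, B0.zero_c, B0.zero_f,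
    B0.zero_g, map_one, map_zero, map_mul] <;> ring

theorem psi_mu : psi (mu k) = ⟨0, 1, 0, 0⟩ := by
  rw [mu, sub_eq_add_neg]
  simp only [map_add, map_neg, map_mul, psi_y, psi_z]
  ext1 <;> simp only [B0.add_al, B0.add_c, B0.add_f, B0.add_g, B0.neg_al, B0.neg_c, B0.neg_f,
    B0.neg_g, B0.mul_al, B0.mul_c, B0.mul_f, B0.mul_g, B0.zero_al, B0.zero_c, B0.zero_f,
    B0.zero_g, map_one, map_zero, map_mul] <;> ring

theorem psi_pr (a : A2 k) : psi (pr k a) = psi a := by
  have : psi.comp (pr k) = psi (k := k) := by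
    apply A2_ext
    · rw [NonUnitalAlgHom.comp_apply, pr_y, map_add, psi_mt, add_zero]
    · rw [NonUnitalAlgHom.comp_apply, pr_z, psi_mu, psi_z]
  exact congrArg (fun f : A2 k →ₙₐ[k] B0 k => f a) this

end retr

/-! ### the retract is not free -/

section notfree

variable {k : Type u} [CommRing k]

/-- subalgebras stay in the variety -/
theorem inVar_sub {A : Type u} [NonUnitalNonAssocRing A] [Module k A] [IsScalarTower k A A]
    [SMulCommClass k A A] (hA : InVariety (Ids k) A) (D : NonUnitalSubalgebra k A) :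
    InVariety (Ids k) D := by
  rw [inVar_iff] at hA ⊢
  obtain ⟨h1, h2, h3⟩ := hA
  exact ⟨fun a b c d => Subtype.ext (h1 a b c d), fun a b c d => Subtype.ext (h2 a b c d),
    fun a b c d => Subtype.ext (h3 a b c d)⟩

/-- an algebra that is free on one generator is generated by it -/
theorem generated {A : Type u} [NonUnitalNonAssocRing A] [Module k A] [IsScalarTower k A A]
    [SMulCommClass k A A] {X : Type u} {i : X → A} (h : IsFreeOn (Ids k) A i)
    (D : NonUnitalSubalgebra k A) (hD : ∀ x, i x ∈ D) (a : A) : a ∈ D := by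
  obtain ⟨φ, hφ, -⟩ := h.2 D (inVar_sub h.1 D) (fun x => ⟨i x, hD x⟩)
  obtain ⟨χ, hχ, huniq⟩ := h.2 A h.1 i
  have e1 : (NonUnitalSubalgebraClass.subtype D).comp φ = χ := by
    apply huniq
    intro x
    rw [NonUnitalAlgHom.comp_apply, hφ]
    rfl
  have e2 : NonUnitalAlgHom.id k A = χ := by
    apply huniq
    intro x
    rfl
  have e3 : a = (φ a : A) := by
    have := congrArg (fun f : A →ₙₐ[k] A => f a) (e2.trans e1.symm)
    exact this
  rw [e3]
  exact (φ a).2

/-- the set of elements generated by an element with given square -/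
noncomputable def DD (w : B0 k) : NonUnitalSubalgebra k (B0 k) where
  carrier := {b | ∃ (α s0 : k) (s1 s2 : k[X]),
    b = ⟨α * w.al, α * w.c + s0 * (w * w).c,
      C α * w.f + C s0 * (w * w).f + C (w * w).c * s1 + X * s1 * (w * w).f,
      C α * w.g + C s0 * (w * w).g + C (w * w).c * s2 + X * s2 * (w * w).g⟩}
  add_mem' := by
    rintro _ _ ⟨α, s0, s1, s2, rfl⟩ ⟨α', s0', s1', s2', rfl⟩
    refine ⟨α + α', s0 + s0', s1 + s1', s2 + s2', ?_⟩
    ext1 <;> simp only [B0.add_al, B0.add_c, B0.add_f, B0.add_g, map_add] <;> ring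
  zero_mem' := by
    refine ⟨0, 0, 0, 0, ?_⟩
    ext1 <;> simp only [B0.zero_al, B0.zero_c, B0.zero_f, B0.zero_g, map_zero] <;> ring
  smul_mem' := by
    rintro r _ ⟨α, s0, s1, s2, rfl⟩
    refine ⟨r * α, r * s0, C r * s1, C r * s2, ?_⟩
    ext1 <;> simp only [B0.smul_al, B0.smul_c, B0.smul_f, B0.smul_g, map_mul] <;> ring
  mul_mem' := by
    rintro _ _ ⟨α, s0, s1, s2, rfl⟩ ⟨α', s0', s1', s2', rfl⟩
    refine ⟨0, α * α', C (α * w.al) * (C s0' + X * s1'), C (α' * w.al) * (C s0 + X * s2), ?_⟩
    ext1 <;> simp only [B0.mul_al, B0.mul_c, B0.mul_f, B0.mul_g, map_mul, map_add, map_zero] <;>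
      ring

theorem self_mem_DD (w : B0 k) : w ∈ DD w := by
  refine ⟨1, 0, 0, 0, ?_⟩
  ext1 <;> simp only [map_one, map_zero] <;> ring

variable [IsDomain k]

theorem not_mem_DD {w : B0 k} (hw : w.al ≠ 0) : (⟨0, 1, 0, 0⟩ : B0 k) ∉ DD w := by
  rintro ⟨α, s0, s1, s2, h⟩
  have h1 := congrArg B0.al h
  have h2 := congrArg B0.c h
  have h3 := congrArg B0.f h
  have h4 := congrArg B0.g h
  dsimp only at h1 h2 h3 h4
  have hα : α = 0 := (mul_eq_zero.mp h1.symm).resolve_right hw
  rw [hα] at h2 h3 h4
  rw [zero_mul, zero_add] at h2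
  rw [map_zero, zero_mul, zero_add] at h3 h4
  have hs0 : s0 ≠ 0 := by rintro rfl; simp at h2
  have key : ∀ q s : k[X], 0 = C s0 * q + C (w * w).c * s + X * s * q → q = 0 := by
    intro q s hq
    by_contra hne
    have hc : (w * w).c ≠ 0 := by
      rw [B0.mul_c]; exact mul_ne_zero hw hw
    have hs : s ≠ 0 := by
      rintro rfl
      rw [mul_zero, mul_zero, zero_mul, add_zero, add_zero] at hq
      exact (mul_ne_zero (C_ne_zero.mpr hs0) hne) hq.symm
    have e1 : s * (C (w * w).c + X * q) = - (C s0 * q) := by linear_combination - hq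
    have d1 : (C (w * w).c + X * q).natDegree = q.natDegree + 1 := by
      rw [natDegree_C_add, natDegree_X_mul hne]
    have hne2 : C (w * w).c + X * q ≠ 0 := by
      intro h0; rw [h0] at d1; simp at d1
    have d2 := congrArg natDegree e1
    rw [natDegree_mul hs hne2, d1, natDegree_neg, natDegree_C_mul hs0] at d2
    omega
  have q1 := key _ _ h3
  have q2 := key _ _ h4
  rw [B0.mul_f] at q1
  rw [B0.mul_g] at q2
  have c1 := congrArg (fun p => coeff p 0) q1
  have c2 := congrArg (fun p => coeff p 0) q2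
  simp only [coeff_add, coeff_C_zero, coeff_zero, mul_coeff_zero, coeff_X_zero, zero_mul,
    add_zero] at c1 c2
  rw [c2, add_zero] at c1
  exact (mul_ne_zero hw hw) c1

/-- the first coordinate of the image of an element of the relatively free algebra -/
noncomputable def chi : A2 k →ₙₐ[k] ZA k := B0.eps.comp psi

omit [IsDomain k] in
theorem chi_y : toK (chi (gy k)) = 1 := by
  change (psi (gy k)).al = 1
  rw [psi_y]

omit [IsDomain k] in
theorem chi_z : toK (chi (gz k)) = 0 := by
  change (psi (gz k)).al = 0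
  rw [psi_z]

theorem not_free : ¬ IsVFree (Ids k) (BB k) := by
  rintro ⟨X, i, hfree⟩
  -- the corestriction of the retraction
  let prr : A2 k →ₙₐ[k] BB k := NonUnitalAlgHom.codRestrict (pr k) (BB k) pr_mem
  have prr_of : ∀ b : BB k, prr b.1 = b := fun b => Subtype.ext (pr_of_mem b.2)
  -- homomorphisms to the algebra with zero multiplication
  have H : ∀ (φ : BB k →ₙₐ[k] ZA k) (b : BB k),
      toK (φ b) = toK (chi b.1) * toK (φ (prr (gy k))) := by
    intro φ
    let χ' : A2 k →ₙₐ[k] ZA k :=
      { toFun := fun a => ofK (toK (chi a) * toK (φ (prr (gy k))))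
        map_smul' := by
          intro r a
          apply toK_inj
          rw [map_smul, toK_ofK, toK_smul, MonoidHom.id_apply, toK_smul, toK_ofK]
          ring
        map_zero' := by
          apply toK_inj
          rw [map_zero, toK_ofK, toK_zero, zero_mul]
        map_add' := by
          intro a b
          apply toK_inj
          rw [map_add, toK_ofK, toK_add, toK_add, toK_ofK, toK_ofK]
          ring
        map_mul' := by
          intro a b
          apply toK_inj
          rw [map_mul, za_mul, za_mul, toK_ofK, toK_zero, zero_mul] }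
    have he : φ.comp prr = χ' := by
      apply A2_ext
      · apply toK_inj
        change toK (φ (prr (gy k))) = toK (chi (gy k)) * toK (φ (prr (gy k)))
        rw [chi_y, one_mul]
      · apply toK_inj
        change toK (φ (prr (gz k))) = toK (chi (gz k)) * toK (φ (prr (gy k)))
        rw [chi_z, zero_mul]
        have e1 : prr (gz k) = prr (mu k) := by
          apply Subtype.ext
          change pr k (gz k) = pr k (mu k)
          rw [pr_z, pr_mu]
        rw [e1, mu, sub_eq_add_neg]
        simp only [map_add, map_neg, map_mul, za_mul]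
        simp only [neg_zero, add_zero]
        rfl
    intro b
    have h2 : φ (prr b.1) = χ' b.1 := congrArg (fun f : A2 k →ₙₐ[k] ZA k => f b.1) he
    rw [prr_of] at h2
    rw [h2]
    rfl
  have hext : ∀ v : X → k, ∃ t : k, ∀ x, v x = toK (chi (i x).1) * t := by
    intro v
    obtain ⟨φ, hφ, -⟩ := hfree.2 (ZA k) za_var (fun x => ofK (v x))
    exact ⟨toK (φ (prr (gy k))), fun x => by rw [← H φ (i x), hφ x, toK_ofK]⟩
  -- there is a generator
  have hne : Nonempty X := by
    by_contra hemp
    rw [not_nonempty_iff] at hemp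
    obtain ⟨φ, -, huniq⟩ := hfree.2 (ZA k) za_var (fun x => (hemp.false x).elim)
    have e1 : (0 : BB k →ₙₐ[k] ZA k) = φ := huniq 0 (fun x => (hemp.false x).elim)
    have e2 : (chi.comp (NonUnitalSubalgebraClass.subtype (BB k)) : BB k →ₙₐ[k] ZA k) = φ :=
      huniq _ (fun x => (hemp.false x).elim)
    have e3 := congrArg (fun f : BB k →ₙₐ[k] ZA k => f (prr (gy k))) (e2.trans e1.symm)
    have e4 : toK (chi (pr k (gy k))) = 0 := e3
    have e5 : toK (chi (pr k (gy k))) = 1 := by
      change (psi (pr k (gy k))).al = 1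
      rw [psi_pr, psi_y]
    rw [e5] at e4
    exact one_ne_zero e4
  obtain ⟨x0⟩ := hne
  -- there is only one generator
  have huniq : ∀ x, x = x0 := by
    classical
    intro x
    by_contra hx
    obtain ⟨t, ht⟩ := hext (fun y => if y = x then 1 else 0)
    obtain ⟨t', ht'⟩ := hext (fun y => if y = x0 then 1 else 0)
    have a1 := ht x
    have a2 := ht x0
    have a3 := ht' x0
    rw [if_pos rfl] at a1 a3
    rw [if_neg (Ne.symm hx)] at a2
    have ht0 : t ≠ 0 := by rintro rfl; rw [mul_zero] at a1; exact one_ne_zero a1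
    have hc : toK (chi (i x0).1) = 0 := (mul_eq_zero.mp a2.symm).resolve_right ht0
    rw [hc, zero_mul] at a3
    exact one_ne_zero a3
  obtain ⟨t, ht⟩ := hext (fun _ => 1)
  have hc : (psi (i x0).1).al ≠ 0 := by
    intro h0
    have := ht x0
    have h1 : toK (chi (i x0).1) = 0 := h0
    rw [h1, zero_mul] at this
    exact one_ne_zero this
  apply not_mem_DD hc
  have hgen := generated hfree ((DD (psi (i x0).1)).comap
    (psi.comp (NonUnitalSubalgebraClass.subtype (BB k)))) (by
      intro x
      rw [huniq x]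
      exact self_mem_DD _) (prr (gz k))
  have h5 : psi (pr k (gz k)) ∈ DD (psi (i x0).1) := hgen
  rw [psi_pr, psi_z] at h5
  exact h5

end notfree

end Pool.Agent.H5.Mce47b3
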