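import Mathlib

set_option autoImplicit false

/-!
The trace of an anti-automorphism of finite order of a product of complex matrix algebras is
bounded by the sum of the sizes.
-/

namespace Pool.Agent.H5.Cf

open Matrix

/-- a matrix of finite order has trace at most its size -/
theorem norm_trace_le {d n : ℕ} (hn : n ≠ 0) (Q : Matrix (Fin d) (Fin d) ℂ) (hQ : Q ^ n = 1) :
    ‖Q.trace‖ ≤ d := by
  rw [Matrix.trace_eq_sum_roots_charpoly]
  refine (norm_multiset_sum_le _).trans ?_
  have h1 : ∀ x ∈ Q.charpoly.roots, ‖x‖ = 1 := by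
    intro x hx
    have hroot : Q.charpoly.IsRoot x := (Polynomial.mem_roots (Q.charpoly_monic.ne_zero)).mp hx
    have hspec : x ∈ spectrum ℂ Q := Matrix.mem_spectrum_of_isRoot_charpoly hroot
    have h2 : x ^ n ∈ spectrum ℂ (Q ^ n) := spectrum.pow_mem_pow Q n hspec
    rcases Nat.eq_zero_or_pos d with rfl | hd
    · exfalso
      rw [spectrum.of_subsingleton] at hspec
      exact hspec
    have : Nonempty (Fin d) := ⟨⟨0, hd⟩⟩
    rw [hQ, spectrum.one_eq, Set.mem_singleton_iff] at h2
    exact Complex.norm_eq_one_of_pow_eq_one h2 hn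
  have h3 : (Q.charpoly.roots.map fun x => ‖x‖) = Q.charpoly.roots.map fun _ => (1 : ℝ) :=
    Multiset.map_congr rfl h1
  rw [h3, Multiset.map_const', Multiset.sum_replicate, nsmul_eq_mul, mul_one]
  have h4 := Polynomial.card_roots' Q.charpoly
  rw [Matrix.charpoly_natDegree_eq_dim, Fintype.card_fin] at h4
  exact_mod_cast h4

/-- anti-automorphisms of a matrix algebra -/
theorem anti_form {d : ℕ} (β : Matrix (Fin d) (Fin d) ℂ →ₗ[ℂ] Matrix (Fin d) (Fin d) ℂ)
    (hmul : ∀ X Y, β (X * Y) = β Y * β X) (hone : β 1 = 1) (hbij : Function.Bijective β) :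
    ∃ P P' : Matrix (Fin d) (Fin d) ℂ, P * P' = 1 ∧ P' * P = 1 ∧ ∀ X, β X = P * Xᵀ * P' := by
  let θ0 : Matrix (Fin d) (Fin d) ℂ →ₐ[ℂ] Matrix (Fin d) (Fin d) ℂ :=
    AlgHom.ofLinearMap (β ∘ₗ (Matrix.transposeLinearEquiv (Fin d) (Fin d) ℂ ℂ).toLinearMap)
      (by simpa using hone)
      (by
        intro X Y
        simp [Matrix.transpose_mul, hmul])
  have hθ0 : Function.Bijective θ0 := by
    change Function.Bijective (β ∘ (Matrix.transposeLinearEquiv (Fin d) (Fin d) ℂ ℂ))
    exact hbij.comp (Matrix.transposeLinearEquiv (Fin d) (Fin d) ℂ ℂ).bijective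
  let θ := AlgEquiv.ofBijective θ0 hθ0
  let f : Module.End ℂ (Fin d → ℂ) ≃ₐ[ℂ] Module.End ℂ (Fin d → ℂ) :=
    (Matrix.toLinAlgEquiv'.symm.trans θ).trans Matrix.toLinAlgEquiv'
  obtain ⟨T, hT⟩ := f.eq_linearEquivConjAlgEquiv
  refine ⟨LinearMap.toMatrix' T.toLinearMap, LinearMap.toMatrix' T.symm.toLinearMap, ?_, ?_, ?_⟩
  · rw [← LinearMap.toMatrix'_comp]
    simp
  · rw [← LinearMap.toMatrix'_comp]
    simp
  · intro X
    have h1 : f (Matrix.toLin' Xᵀ) = T.conjAlgEquiv ℂ (Matrix.toLin' Xᵀ) := by rw [hT]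
    have h2 : f (Matrix.toLin' Xᵀ) = Matrix.toLin' (β X) := by
      change Matrix.toLinAlgEquiv' (θ (Matrix.toLinAlgEquiv'.symm (Matrix.toLin' Xᵀ))) = _
      have : Matrix.toLinAlgEquiv'.symm (Matrix.toLin' Xᵀ) = Xᵀ := by
        exact Matrix.toLinAlgEquiv'.symm_apply_apply Xᵀ
      rw [this]
      change Matrix.toLin' (β (Xᵀᵀ)) = _
      rw [Matrix.transpose_transpose]
    rw [h2] at h1
    have h3 := congrArg LinearMap.toMatrix' h1
    rw [LinearMap.toMatrix'_toLin'] at h3
    rw [h3, LinearEquiv.conjAlgEquiv_apply, LinearMap.toMatrix'_comp, LinearMap.toMatrix'_comp,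
      LinearMap.toMatrix'_toLin', Matrix.mul_assoc]

theorem trace_matrix {d : ℕ} (β : Matrix (Fin d) (Fin d) ℂ →ₗ[ℂ] Matrix (Fin d) (Fin d) ℂ) :
    LinearMap.trace ℂ _ β = ∑ i, ∑ j, β (Matrix.single i j 1) i j := by
  rw [LinearMap.trace_eq_matrix_trace ℂ (Matrix.stdBasis ℂ (Fin d) (Fin d)), Matrix.trace,
    Fintype.sum_prod_type]
  refine Finset.sum_congr rfl fun i _ => Finset.sum_congr rfl fun j _ => ?_
  rw [Matrix.diag_apply, LinearMap.toMatrix_apply, Matrix.stdBasis_eq_single]
  rfl

theorem anti_trace {d k : ℕ} (hk : k ≠ 0)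
    (β : Matrix (Fin d) (Fin d) ℂ →ₗ[ℂ] Matrix (Fin d) (Fin d) ℂ)
    (hmul : ∀ X Y, β (X * Y) = β Y * β X) (hone : β 1 = 1) (hpow : ∀ X, β^[k] X = X) :
    ‖LinearMap.trace ℂ _ β‖ ≤ d := by
  rcases Nat.eq_zero_or_pos d with rfl | hd
  · rw [trace_matrix]; simp
  have hbij : Function.Bijective β := by
    obtain ⟨m, rfl⟩ := Nat.exists_eq_succ_of_ne_zero hk
    constructor
    · intro X Y h
      rw [← hpow X, ← hpow Y, Function.iterate_succ_apply, Function.iterate_succ_apply, h]
    · intro X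
      refine ⟨β^[m] X, ?_⟩
      rw [← Function.iterate_succ_apply' β]; exact hpow X
  obtain ⟨P, P', h1, h2, hβ⟩ := anti_form β hmul hone hbij
  have htr : LinearMap.trace ℂ _ β = (P * P'ᵀ).trace := by
    rw [trace_matrix, Matrix.trace]
    refine Finset.sum_congr rfl fun i _ => ?_
    rw [Matrix.diag_apply, Matrix.mul_apply]
    refine Finset.sum_congr rfl fun j _ => ?_
    rw [hβ, Matrix.transpose_single, Matrix.mul_assoc, Matrix.mul_apply]
    rw [Finset.sum_eq_single j]
    · rw [Matrix.mul_apply, Finset.sum_eq_single i]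
      · simp
      · intro b _ hb
        rw [Matrix.single_apply_of_col_ne]
        · simp
        · exact hb.symm
      · intro h; exact absurd (Finset.mem_univ _) h
    · intro b _ hb
      rw [Matrix.mul_apply, Finset.sum_eq_zero, mul_zero]
      intro c _
      rw [Matrix.single_apply_of_row_ne hb.symm]
      simp
    · intro h; exact absurd (Finset.mem_univ _) h
  rw [htr]
  set Q := P * P'ᵀ with hQ
  set Q' := Pᵀ * P' with hQ'
  have hQQ' : Q * Q' = 1 := by
    rw [hQ, hQ']
    calc P * P'ᵀ * (Pᵀ * P') = P * (P'ᵀ * Pᵀ) * P' := by simp only [Matrix.mul_assoc]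
      _ = P * (P * P')ᵀ * P' := by rw [Matrix.transpose_mul]
      _ = 1 := by rw [h1]; simp [h1]
  have hQ'Q : Q' * Q = 1 := mul_eq_one_comm.mp hQQ'
  have hsq : ∀ X, β (β X) = Q * X * Q' := by
    intro X
    rw [hβ (β X), hβ X, hQ, hQ']
    simp only [Matrix.transpose_mul, Matrix.transpose_transpose, Matrix.mul_assoc]
  have hiter : ∀ (m : ℕ) X, β^[2 * m] X = Q ^ m * X * Q' ^ m := by
    intro m
    induction m with
    | zero => intro X; simp
    | succ m ih =>
      intro X
      have : 2 * (m + 1) = (2 * m).succ.succ := by omega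
      rw [this, Function.iterate_succ_apply, Function.iterate_succ_apply, ih, hsq, pow_succ,
        pow_succ' Q']
      simp only [Matrix.mul_assoc]
  have hcomm : ∀ X, Q ^ k * X = X * Q ^ k := by
    intro X
    have e1 := hiter k X
    have e2 : β^[2 * k] X = X := by
      rw [two_mul, Function.iterate_add_apply, hpow, hpow]
    rw [e2] at e1
    have e3 : Q' ^ k * Q ^ k = 1 := by
      have hc : Commute Q' Q := by rw [Commute, SemiconjBy, hQQ', hQ'Q]
      rw [← hc.mul_pow, hQ'Q, one_pow]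
    calc Q ^ k * X = Q ^ k * X * (Q' ^ k * Q ^ k) := by rw [e3, Matrix.mul_one]
      _ = (Q ^ k * X * Q' ^ k) * Q ^ k := by simp only [Matrix.mul_assoc]
      _ = X * Q ^ k := by rw [← e1]
  obtain ⟨lam, hlam⟩ : ∃ lam : ℂ, Q ^ k = Matrix.scalar (Fin d) lam := by
    have := Matrix.mem_range_scalar_of_commute_single (M := Q ^ k) (fun i j _ => (hcomm _).symm)
    obtain ⟨lam, h⟩ := this
    exact ⟨lam, h.symm⟩
  have hdet : Q.det = 1 := by
    rw [hQ, Matrix.det_mul, Matrix.det_transpose, ← Matrix.det_mul, h1, Matrix.det_one]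
  have hlamd : lam ^ d = 1 := by
    have := congrArg Matrix.det hlam
    rw [Matrix.det_pow, hdet, one_pow] at this
    simpa using this.symm
  apply norm_trace_le (n := k * d) (Nat.mul_ne_zero hk hd.ne')
  rw [pow_mul, hlam, ← map_pow, hlamd, map_one]

/-- the product version -/
theorem pi_trace {n : ℕ} {d : Fin n → ℕ} {k : ℕ} (hk : k ≠ 0)
    (T : (∀ i, Matrix (Fin (d i)) (Fin (d i)) ℂ) →ₗ[ℂ] (∀ i, Matrix (Fin (d i)) (Fin (d i)) ℂ))
    (hmul : ∀ X Y, T (X * Y) = T Y * T X) (hone : T 1 = 1) (hpow : ∀ X, T^[k] X = X) :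
    ‖LinearMap.trace ℂ _ T‖ ≤ ∑ i, (d i : ℝ) := by
  classical
  let β : ∀ i, Matrix (Fin (d i)) (Fin (d i)) ℂ →ₗ[ℂ] Matrix (Fin (d i)) (Fin (d i)) ℂ :=
    fun i => (LinearMap.proj i) ∘ₗ T ∘ₗ
      (LinearMap.single ℂ (fun i => Matrix (Fin (d i)) (Fin (d i)) ℂ) i)
  have hβ : ∀ i X, β i X = T (Pi.single i X) i := fun i X => rfl
  have hsurj : Function.Surjective T := by
    obtain ⟨m, rfl⟩ := Nat.exists_eq_succ_of_ne_zero hk
    intro X
    refine ⟨T^[m] X, ?_⟩
    rw [← Function.iterate_succ_apply' T]; exact hpow X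
  have htr : LinearMap.trace ℂ _ T = ∑ i, LinearMap.trace ℂ _ (β i) := by
    rw [LinearMap.trace_eq_matrix_trace ℂ
      (Pi.basis fun i => Matrix.stdBasis ℂ (Fin (d i)) (Fin (d i))), Matrix.trace,
      Fintype.sum_sigma]
    refine Finset.sum_congr rfl fun i _ => ?_
    rw [trace_matrix, Fintype.sum_prod_type]
    refine Finset.sum_congr rfl fun a _ => Finset.sum_congr rfl fun b _ => ?_
    rw [Matrix.diag_apply, LinearMap.toMatrix_apply, Pi.basis_repr, Pi.basis_apply,
      Matrix.stdBasis_eq_single, hβ]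
    rfl
  have hmain : ∀ i, ‖LinearMap.trace ℂ _ (β i)‖ ≤ d i := by
    intro i
    set z : ∀ i, Matrix (Fin (d i)) (Fin (d i)) ℂ := Pi.single i 1 with hz
    have hzc : ∀ X : ∀ i, Matrix (Fin (d i)) (Fin (d i)) ℂ, z * X = X * z := by
      intro X
      funext j
      by_cases hj : j = i
      · subst hj; simp [hz]
      · simp [hz, Pi.single_eq_of_ne hj]
    have hzX : ∀ X : ∀ i, Matrix (Fin (d i)) (Fin (d i)) ℂ, z * X = Pi.single i (X i) := by
      intro X
      funext j
      by_cases hj : j = i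
      · subst hj; simp [hz]
      · simp [hz, Pi.single_eq_of_ne hj]
    have hcen : ∀ Y : Matrix (Fin (d i)) (Fin (d i)) ℂ, T z i * Y = Y * T z i := by
      intro Y
      obtain ⟨X, hX⟩ := hsurj (Pi.single i Y)
      have h1 : T X i = Y := by rw [hX]; simp
      rw [← h1, ← Pi.mul_apply, ← Pi.mul_apply, ← hmul, ← hmul, hzc]
    have hidem : T z i * T z i = T z i := by
      rw [← Pi.mul_apply, ← hmul, hzX, hz]; simp
    obtain ⟨lam, hlam⟩ : ∃ lam : ℂ, T z i = Matrix.scalar (Fin (d i)) lam := by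
      have := Matrix.mem_range_scalar_of_commute_single (M := T z i)
        (fun a b _ => (hcen _).symm)
      obtain ⟨lam, h⟩ := this
      exact ⟨lam, h.symm⟩
    by_cases hd : d i = 0
    · have : IsEmpty (Fin (d i)) := by rw [hd]; infer_instance
      rw [trace_matrix]; simp
    have : Nonempty (Fin (d i)) := ⟨⟨0, Nat.pos_of_ne_zero hd⟩⟩
    have hlam2 : lam * lam = lam := by
      rw [hlam, ← map_mul] at hidem
      exact Matrix.scalar_inj.mp hidem
    have h01 : lam = 0 ∨ lam = 1 := by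
      rcases eq_or_ne lam 0 with h | h
      · exact Or.inl h
      · right; exact mul_left_cancel₀ h (by rw [hlam2, mul_one])
    have hred : ∀ X, T X i * T z i = β i (X i) := by
      intro X
      rw [hβ, ← hzX, ← Pi.mul_apply, ← hmul]
    rcases h01 with h0 | h1
    · have hb0 : β i = 0 := by
        apply LinearMap.ext
        intro Y
        have := hred (Pi.single i Y)
        rw [Pi.single_eq_same] at this
        rw [← this, hlam, h0, map_zero, mul_zero]
        rfl
      rw [hb0, map_zero, norm_zero]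
      positivity
    · have hTz : T z i = 1 := by rw [hlam, h1, map_one]
      have hred' : ∀ X, T X i = β i (X i) := by
        intro X
        rw [← hred X, hTz, mul_one]
      apply anti_trace hk
      · intro X Y
        have e : (Pi.single i (X * Y) : ∀ i, Matrix (Fin (d i)) (Fin (d i)) ℂ) =
            Pi.single i X * Pi.single i Y := by
          funext j
          by_cases hj : j = i
          · subst hj; simp
          · simp [Pi.single_eq_of_ne hj]
        rw [hβ, hβ, hβ, e, hmul, Pi.mul_apply]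
      · rw [hβ]; exact hTz
      · intro X
        have hit : ∀ (m : ℕ) (X), (T^[m] X) i = (β i)^[m] (X i) := by
          intro m
          induction m with
          | zero => intro X; rfl
          | succ m ih =>
            intro X
            rw [Function.iterate_succ_apply, Function.iterate_succ_apply, ih, hred']
        have := hit k (Pi.single i X)
        rw [hpow, Pi.single_eq_same] at this
        exact this.symm
  rw [htr]
  refine (norm_sum_le _ _).trans ?_
  exact Finset.sum_le_sum fun i _ => hmain i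

end Pool.Agent.H5.Cf
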