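import Mathlib
import Pool.Agent.H5.Mcf197eMat

set_option autoImplicit false

namespace Pool.Agent.H5.Cf

open CategoryTheory

variable {G : Type} [Group G]

/-- the anti-automorphism of the group algebra as a map to the opposite algebra -/
noncomputable def tauOp (α : G ≃* G) : MonoidAlgebra ℂ G →ₐ[ℂ] (MonoidAlgebra ℂ G)ᵐᵒᵖ :=
  MonoidAlgebra.lift ℂ _ G
    { toFun := fun g => MulOpposite.op (MonoidAlgebra.of ℂ G (α g)⁻¹)
      map_one' := by simp [MonoidAlgebra.one_def]
      map_mul' := by
        intro x y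
        rw [← MulOpposite.op_mul, ← map_mul, ← mul_inv_rev, ← map_mul] }

noncomputable def tau (α : G ≃* G) : MonoidAlgebra ℂ G →ₗ[ℂ] MonoidAlgebra ℂ G :=
  (MulOpposite.opLinearEquiv ℂ).symm.toLinearMap ∘ₗ (tauOp α).toLinearMap

theorem tau_of (α : G ≃* G) (g : G) :
    tau α (MonoidAlgebra.of ℂ G g) = MonoidAlgebra.of ℂ G (α g)⁻¹ := by
  simp [tau, tauOp]

theorem tau_mul (α : G ≃* G) (x y : MonoidAlgebra ℂ G) : tau α (x * y) = tau α y * tau α x := by
  simp [tau]

theorem tau_one (α : G ≃* G) : tau α 1 = 1 := by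
  simp [tau]

/-- the permutation of the group -/
def perm (α : G ≃* G) : Equiv.Perm G := α.toEquiv.trans (Equiv.inv G)

theorem perm_apply (α : G ≃* G) (g : G) : perm α g = (α g)⁻¹ := rfl

theorem tau_pow [Finite G] (α : G ≃* G) : ∃ k : ℕ, k ≠ 0 ∧ ∀ x, (tau α)^[k] x = x := by
  refine ⟨orderOf (perm α), (orderOf_pos (perm α)).ne', ?_⟩
  have h1 : ∀ (m : ℕ) (g : G), (tau α)^[m] (MonoidAlgebra.of ℂ G g) =
      MonoidAlgebra.of ℂ G ((perm α ^ m) g) := by
    intro m
    induction m with
    | zero => intro g; simp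
    | succ m ih =>
      intro g
      rw [Function.iterate_succ_apply, tau_of, ih, pow_succ, Equiv.Perm.mul_apply, perm_apply]
  intro x
  have h2 : ((tau α) ^ (orderOf (perm α)) : Module.End ℂ (MonoidAlgebra ℂ G)) = 1 := by
    apply MonoidAlgebra.lhom_ext'
    intro g
    apply LinearMap.ext_ring
    have h3 := h1 (orderOf (perm α)) g
    rw [pow_orderOf_eq_one, Equiv.Perm.one_apply] at h3
    rw [LinearMap.comp_apply, LinearMap.comp_apply, Module.End.pow_apply, Module.End.one_apply]
    exact h3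
  have h4 := congrArg (fun f : Module.End ℂ (MonoidAlgebra ℂ G) => f x) h2
  simp only [Module.End.pow_apply, Module.End.one_apply] at h4
  exact h4

theorem trace_tau [Finite G] (α : G ≃* G) :
    LinearMap.trace ℂ _ (tau α) = (Nat.card {g : G // α g = g⁻¹} : ℂ) := by
  classical
  have := Fintype.ofFinite G
  rw [LinearMap.trace_eq_matrix_trace ℂ (MonoidAlgebra.basis G ℂ), Matrix.trace]
  have h1 : ∀ g : G, Matrix.diag (LinearMap.toMatrix (MonoidAlgebra.basis G ℂ)
      (MonoidAlgebra.basis G ℂ) (tau α)) g = if α g = g⁻¹ then 1 else 0 := by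
    intro g
    rw [Matrix.diag_apply, LinearMap.toMatrix_apply]
    have e1 : (MonoidAlgebra.basis G ℂ) g = MonoidAlgebra.of ℂ G g := rfl
    rw [e1, tau_of]
    change (MonoidAlgebra.of ℂ G (α g)⁻¹).coeff g = _
    rw [MonoidAlgebra.of_apply, MonoidAlgebra.coeff_single, Finsupp.single_apply]
    congr 1
    rw [inv_eq_iff_eq_inv]
  rw [Finset.sum_congr rfl fun g _ => h1 g, Finset.sum_boole, Nat.card_eq_fintype_card,
    Fintype.card_subtype]

/-- the irreducible representations -/
theorem main [Finite G] (α : G ≃* G) : ∃ (n : ℕ) (V : Fin n → FDRep ℂ G),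
        (∀ i, Simple (V i)) ∧
        (∀ i j, Nonempty (V i ≅ V j) → i = j) ∧
        Nat.card {g : G // α g = g⁻¹} ≤ ∑ i, Module.finrank ℂ (V i) := by
  classical
  have := Fintype.ofFinite G
  have hne : NeZero (Nat.card G : ℂ) := ⟨by simp⟩
  obtain ⟨n, d, hd, ⟨Φ⟩⟩ :=
    IsSemisimpleRing.exists_algEquiv_pi_matrix_of_isAlgClosed ℂ (MonoidAlgebra ℂ G)
  let ρ : ∀ i : Fin n, Representation ℂ G (Fin (d i) → ℂ) := fun i =>
    ((Matrix.toLinAlgEquiv' : Matrix (Fin (d i)) (Fin (d i)) ℂ ≃ₐ[ℂ] _).toMonoidHom.comp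
      (((Pi.evalAlgHom ℂ _ i).comp Φ.toAlgHom : MonoidAlgebra ℂ G →ₐ[ℂ] _) :
        MonoidAlgebra ℂ G →* _)).comp (MonoidAlgebra.of ℂ G)
  have hρ : ∀ i g, ρ i g = Matrix.toLin' (Φ (MonoidAlgebra.of ℂ G g) i) := fun i g => rfl
  refine ⟨n, fun i => FDRep.of (ρ i), ?_, ?_, ?_⟩
  · intro i
    rw [FDRep.simple_iff_end_is_rank_one]
    have hdi := (hd i).ne
    have hpos : 0 < d i := Nat.pos_of_ne_zero hdi
    have : Nonempty (Fin (d i)) := ⟨⟨0, hpos⟩⟩
    have hnz : (𝟙 (FDRep.of (ρ i))) ≠ 0 := by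
      intro h0
      have h1 : (𝟙 (FDRep.of (ρ i)) : FDRep.of (ρ i) ⟶ FDRep.of (ρ i)).hom.hom.hom = 0 := by
        rw [h0]; rfl
      have h2 := congrArg (fun f : (Fin (d i) → ℂ) →ₗ[ℂ] (Fin (d i) → ℂ) => f (fun _ => 1)) h1
      have h3 := congrFun h2 ⟨0, hpos⟩
      exact one_ne_zero h3
    rw [finrank_eq_one_iff_of_nonzero' _ hnz]
    intro w
    let f : (Fin (d i) → ℂ) →ₗ[ℂ] (Fin (d i) → ℂ) := w.hom.hom.hom
    have hf : ∀ g, f ∘ₗ ρ i g = ρ i g ∘ₗ f := by
      intro g
      have := w.comm g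
      have h2 := congrArg (fun t => t.hom.hom) this
      exact h2
    have hcomm : ∀ X : Matrix (Fin (d i)) (Fin (d i)) ℂ,
        LinearMap.toMatrix' f * X = X * LinearMap.toMatrix' f := by
      intro X
      obtain ⟨a, ha⟩ := Φ.surjective (Pi.single i X)
      have key : ∀ a : MonoidAlgebra ℂ G, LinearMap.toMatrix' f * (Φ a i) =
          Φ a i * LinearMap.toMatrix' f := by
        intro a
        induction a using MonoidAlgebra.induction_on with
        | of g =>
          have h1 := congrArg LinearMap.toMatrix' (hf g)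
          rw [hρ, LinearMap.toMatrix'_comp, LinearMap.toMatrix'_comp,
            LinearMap.toMatrix'_toLin'] at h1
          exact h1
        | add x y hx hy => rw [map_add, Pi.add_apply, mul_add, add_mul, hx, hy]
        | smul r x hx =>
          rw [map_smul, Pi.smul_apply, Matrix.mul_smul, Matrix.smul_mul, hx]
      have := key a
      rw [ha, Pi.single_eq_same] at this
      exact this
    obtain ⟨c, hc⟩ := Matrix.mem_range_scalar_of_commute_single
      (M := LinearMap.toMatrix' f) (fun a b _ => (hcomm _).symm)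
    refine ⟨c, ?_⟩
    have h3 : f = c • LinearMap.id := by
      apply LinearMap.toMatrix'.injective
      rw [← hc, map_smul, LinearMap.toMatrix'_id]
      rw [Matrix.smul_one_eq_diagonal]; rfl
    apply Action.Hom.ext
    apply InducedCategory.hom_ext
    apply ModuleCat.hom_ext
    exact h3.symm
  · intro i j ⟨e⟩
    by_contra hij
    have hdi := (hd i).ne
    have hpos : 0 < d i := Nat.pos_of_ne_zero hdi
    let T : (Fin (d i) → ℂ) ≃ₗ[ℂ] (Fin (d j) → ℂ) := FDRep.isoToLinearEquiv e
    have hT : ∀ g, ρ j g = T.conj (ρ i g) := fun g => FDRep.Iso.conj_ρ e g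
    have key : ∀ a : MonoidAlgebra ℂ G, Matrix.toLin' (Φ a j) = T.conj (Matrix.toLin' (Φ a i)) := by
      intro a
      induction a using MonoidAlgebra.induction_on with
      | of g => exact hT g
      | add x y hx hy => rw [map_add, Pi.add_apply, Pi.add_apply, map_add, map_add, map_add, hx, hy]
      | smul r x hx =>
        rw [map_smul, Pi.smul_apply, Pi.smul_apply, map_smul, map_smul, map_smul, hx]
    have h1 := key (Φ.symm (Pi.single i 1))
    rw [Φ.apply_symm_apply, Pi.single_eq_same, Pi.single_eq_of_ne (Ne.symm hij), map_zero] at h1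
    have h2 : (1 : Matrix (Fin (d i)) (Fin (d i)) ℂ) = 0 := by
      apply Matrix.toLin'.injective
      apply T.conj.injective
      rw [← h1, map_zero, map_zero]
    have h3 := congrFun (congrFun h2 ⟨0, hpos⟩) ⟨0, hpos⟩
    simp at h3
  · have h1 : ∀ i, Module.finrank ℂ (FDRep.of (ρ i)) = d i := by
      intro i
      change Module.finrank ℂ (Fin (d i) → ℂ) = d i
      rw [Module.finrank_fin_fun]
    rw [Finset.sum_congr rfl fun i _ => h1 i]
    obtain ⟨k, hk, hpow⟩ := tau_pow α
    let T := Φ.toLinearEquiv.conj (tau α)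
    have hT : ∀ x, T (Φ x) = Φ (tau α x) := by
      intro x
      simp [T, LinearEquiv.conj_apply]
    have h2 := pi_trace (n := n) (d := d) hk T
      (by
        intro X Y
        obtain ⟨x, rfl⟩ := Φ.surjective X
        obtain ⟨y, rfl⟩ := Φ.surjective Y
        rw [← map_mul, hT, hT, hT, tau_mul, map_mul])
      (by rw [← map_one Φ, hT, tau_one])
      (by
        intro X
        obtain ⟨x, rfl⟩ := Φ.surjective X
        have : ∀ m : ℕ, ∀ x, T^[m] (Φ x) = Φ ((tau α)^[m] x) := by
          intro m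
          induction m with
          | zero => intro x; rfl
          | succ m ih =>
            intro x
            rw [Function.iterate_succ_apply, Function.iterate_succ_apply, hT, ih]
        rw [this, hpow])
    have h3 : LinearMap.trace ℂ _ T = (Nat.card {g : G // α g = g⁻¹} : ℂ) := by
      rw [← trace_tau α]
      exact LinearMap.trace_conj' (tau α) Φ.toLinearEquiv
    rw [h3, Complex.norm_natCast] at h2
    exact_mod_cast h2

end Pool.Agent.H5.Cf
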