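import Mathlib

set_option autoImplicit false

/-!
The Lie algebra with underlying space the polynomials and product
`[p, q] = X ^ 2 * (p * q' - p' * q)`; it is the Lie algebra of the vector fields `X ^ 2 p d/dX`.
-/

namespace Pool.Agent.H5.Md0ec72

open Polynomial

universe u

/-- polynomials, regarded as the vector fields `X ^ 2 p d/dX` -/
def W (k : Type u) [Field k] : Type u := k[X]

variable {k : Type u} [Field k]

noncomputable instance : AddCommGroup (W k) := inferInstanceAs (AddCommGroup k[X])
noncomputable instance : Module k (W k) := inferInstanceAs (Module k k[X])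

/-- the underlying polynomial -/
def W.poly (p : W k) : k[X] := p

/-- the element with given underlying polynomial -/
def W.of (p : k[X]) : W k := p

theorem W.ext {p q : W k} (h : p.poly = q.poly) : p = q := h
theorem add_poly (p q : W k) : (p + q).poly = p.poly + q.poly := rfl
theorem zero_poly : (0 : W k).poly = 0 := rfl
theorem smul_poly (c : k) (p : W k) : (c • p).poly = C c * p.poly := by
  rw [← smul_eq_C_mul]; rfl
theorem of_poly (p : k[X]) : (W.of p).poly = p := rfl

noncomputable instance : Bracket (W k) (W k) where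
  bracket p q := W.of (X ^ 2 * (p.poly * derivative q.poly - derivative p.poly * q.poly))

theorem bracket_poly (p q : W k) : (⁅p, q⁆ : W k).poly =
    X ^ 2 * (p.poly * derivative q.poly - derivative p.poly * q.poly) := rfl

noncomputable instance : LieRing (W k) where
  add_lie p q r := by
    apply W.ext
    simp only [bracket_poly, add_poly, derivative_add]
    ring
  lie_add p q r := by
    apply W.ext
    simp only [bracket_poly, add_poly, derivative_add]
    ring
  lie_self p := by
    apply W.ext
    simp only [bracket_poly, zero_poly]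
    ring
  leibniz_lie p q r := by
    apply W.ext
    simp only [bracket_poly, add_poly, derivative_mul, derivative_sub, derivative_X_pow]
    ring

noncomputable instance : LieAlgebra k (W k) where
  lie_smul t p q := by
    apply W.ext
    simp only [bracket_poly, smul_poly, derivative_mul, derivative_C]
    ring

/-- the degree of a product of elements of different degrees -/
theorem bracket_degree [CharZero k] {p q : W k} (hp : p.poly ≠ 0) (hq : q.poly ≠ 0)
    (h : p.poly.natDegree ≠ q.poly.natDegree) :
    (⁅p, q⁆ : W k).poly ≠ 0 ∧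
      (⁅p, q⁆ : W k).poly.natDegree = p.poly.natDegree + q.poly.natDegree + 1 := by
  set f := p.poly
  set g := q.poly
  have key : (X * (f * derivative g - derivative f * g)).coeff (f.natDegree + g.natDegree) =
      ((g.natDegree : k) - f.natDegree) * (f.leadingCoeff * g.leadingCoeff) := by
    have e : X * (f * derivative g - derivative f * g) = f * (X * derivative g) -
        (X * derivative f) * g := by ring
    have d1 : (X * derivative g).natDegree ≤ g.natDegree := by
      by_cases hg : g.natDegree = 0
      · obtain ⟨c, hc⟩ := natDegree_eq_zero.mp hg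
        rw [← hc]; simp
      · refine natDegree_mul_le.trans ?_
        have := natDegree_derivative_lt hg
        rw [natDegree_X]; omega
    have d2 : (X * derivative f).natDegree ≤ f.natDegree := by
      by_cases hg : f.natDegree = 0
      · obtain ⟨c, hc⟩ := natDegree_eq_zero.mp hg
        rw [← hc]; simp
      · refine natDegree_mul_le.trans ?_
        have := natDegree_derivative_lt hg
        rw [natDegree_X]; omega
    have c1 : ∀ r : k[X], (X * derivative r).coeff r.natDegree = r.natDegree * r.leadingCoeff := by
      intro r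
      rcases Nat.eq_zero_or_pos r.natDegree with h0 | h0
      · rw [h0]; simp
      · obtain ⟨m, hm⟩ := Nat.exists_eq_succ_of_ne_zero h0.ne'
        rw [leadingCoeff, hm, Nat.succ_eq_add_one, coeff_X_mul, coeff_derivative]
        push_cast; ring
    rw [e, coeff_sub, coeff_mul_add_eq_of_natDegree_le le_rfl d1,
      coeff_mul_add_eq_of_natDegree_le d2 le_rfl, c1, c1]
    simp only [leadingCoeff]
    ring
  have hne : (X * (f * derivative g - derivative f * g)).coeff (f.natDegree + g.natDegree) ≠ 0 := by
    rw [key]
    apply mul_ne_zero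
    · rw [sub_ne_zero]
      exact_mod_cast h.symm
    · exact mul_ne_zero (leadingCoeff_ne_zero.mpr hp) (leadingCoeff_ne_zero.mpr hq)
  have hle : (X * (f * derivative g - derivative f * g)).natDegree ≤ f.natDegree + g.natDegree := by
    have d1 : ∀ r : k[X], (X * derivative r).natDegree ≤ r.natDegree := by
      intro r
      by_cases hg : r.natDegree = 0
      · obtain ⟨c, hc⟩ := natDegree_eq_zero.mp hg
        rw [← hc]; simp
      · refine natDegree_mul_le.trans ?_
        have := natDegree_derivative_lt hg
        rw [natDegree_X]; omega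
    have e : X * (f * derivative g - derivative f * g) = f * (X * derivative g) -
        (X * derivative f) * g := by ring
    rw [e]
    refine (natDegree_sub_le _ _).trans (max_le ?_ ?_)
    · exact natDegree_mul_le.trans (Nat.add_le_add_left (d1 g) _)
    · exact natDegree_mul_le.trans (Nat.add_le_add_right (d1 f) _)
  have hdeg : (X * (f * derivative g - derivative f * g)).natDegree = f.natDegree + g.natDegree :=
    le_antisymm hle (le_natDegree_of_ne_zero hne)
  have hne0 : X * (f * derivative g - derivative f * g) ≠ 0 := by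
    intro h0; rw [h0] at hne; simp at hne
  have e2 : (⁅p, q⁆ : W k).poly = X * (X * (f * derivative g - derivative f * g)) := by
    rw [bracket_poly]; ring
  rw [e2]
  refine ⟨mul_ne_zero X_ne_zero hne0, ?_⟩
  rw [natDegree_X_mul hne0, hdeg]

/-- shifted degrees of nonzero elements of a subalgebra -/
def D (M : LieSubalgebra k (W k)) : Set ℕ := {n | ∃ p ∈ M, p.poly ≠ 0 ∧ p.poly.natDegree + 1 = n}

theorem D_pos {M : LieSubalgebra k (W k)} {n : ℕ} (h : n ∈ D M) : 0 < n := by
  obtain ⟨p, _, _, h⟩ := h; omega

theorem D_add [CharZero k] {M : LieSubalgebra k (W k)} {a b : ℕ} (ha : a ∈ D M) (hb : b ∈ D M)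
    (hab : a ≠ b) : a + b ∈ D M := by
  obtain ⟨p, hp, hp0, rfl⟩ := ha
  obtain ⟨q, hq, hq0, rfl⟩ := hb
  have h := bracket_degree hp0 hq0 (by omega)
  exact ⟨⁅p, q⁆, M.lie_mem hp hq, h.1, by rw [h.2]; ring⟩

theorem D_mono {M N : LieSubalgebra k (W k)} (h : M ≤ N) : D M ⊆ D N := by
  rintro n ⟨p, hp, h0, h1⟩
  exact ⟨p, h hp, h0, h1⟩

/-- a subalgebra is determined inside a larger one by its degrees -/
theorem eq_of_D {M N : LieSubalgebra k (W k)} (h : M ≤ N) (hD : D N ⊆ D M) : N ≤ M := by
  have key : ∀ n : ℕ, ∀ p : W k, p ∈ N → p.poly.natDegree < n → p ∈ M := by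
    intro n
    induction n with
    | zero => intro p _ h; omega
    | succ n ih =>
      intro p hp hn
      by_cases hp0 : p.poly = 0
      · have : p = 0 := hp0
        rw [this]; exact M.zero_mem
      obtain ⟨q, hq, hq0, hqd⟩ := hD ⟨p, hp, hp0, rfl⟩
      have hdeg : q.poly.natDegree = p.poly.natDegree := by omega
      set c : k := p.poly.leadingCoeff / q.poly.leadingCoeff with hc
      have hlq : q.poly.leadingCoeff ≠ 0 := leadingCoeff_ne_zero.mpr hq0
      have hlp : p.poly.leadingCoeff ≠ 0 := leadingCoeff_ne_zero.mpr hp0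
      have hc0 : c ≠ 0 := div_ne_zero hlp hlq
      have hr : p - c • q ∈ N := N.sub_mem hp (N.smul_mem c (h hq))
      have hpoly : (p - c • q).poly = p.poly - C c * q.poly := by
        rw [← smul_eq_C_mul]; rfl
      have hsmall : (p - c • q).poly = 0 ∨ (p - c • q).poly.natDegree < p.poly.natDegree := by
        by_cases h0 : (p - c • q).poly = 0
        · exact Or.inl h0
        · right
          rw [hpoly] at h0 ⊢
          have hlt : (p.poly - C c * q.poly).degree < p.poly.degree := by
            apply degree_sub_lt_left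
            · rw [degree_C_mul hc0, degree_eq_natDegree hp0, degree_eq_natDegree hq0, hdeg]
            · exact hp0
            · rw [leadingCoeff_mul, leadingCoeff_C, hc, div_mul_cancel₀ _ hlq]
          exact natDegree_lt_natDegree h0 hlt
      have hmem : p - c • q ∈ M := by
        rcases hsmall with h0 | h0
        · have : p - c • q = 0 := h0
          rw [this]; exact M.zero_mem
        · exact ih _ hr (by omega)
      have : p = (p - c • q) + c • q := by abel
      rw [this]
      exact M.add_mem hmem (M.smul_mem c hq)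
  intro p hp
  exact key _ p hp (Nat.lt_succ_self _)

/-- chains of sets of degrees stabilise -/
theorem chain_D (S : ℕ → Set ℕ) (hmono : Monotone S) (hpos : ∀ n, ∀ a ∈ S n, 0 < a)
    (hadd : ∀ n, ∀ a ∈ S n, ∀ b ∈ S n, a ≠ b → a + b ∈ S n) :
    ∃ N, ∀ m, N ≤ m → S m ⊆ S N := by
  by_cases hemp : ∀ n, S n = ∅
  · exact ⟨0, fun m _ => by rw [hemp m]; exact Set.empty_subset _⟩
  push Not at hemp
  obtain ⟨n0, hn0⟩ := hemp
  obtain ⟨a, ha⟩ : (S n0).Nonempty := by
    rcases Set.eq_empty_or_nonempty (S n0) with h | h
    · exact absurd hn0 (by simp [h])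
    · exact h
  have ha0 := hpos _ _ ha
  -- for every residue a bound
  have hres : ∀ r : ℕ, ∃ N, n0 ≤ N ∧ ∀ m, ∀ x ∈ S m, x % a = r → x ≠ a → x ∈ S N := by
    intro r
    by_cases hex : ∃ x, (∃ m, x ∈ S m) ∧ x % a = r ∧ x ≠ a
    · classical
      set x0 := Nat.find hex with hx0
      obtain ⟨⟨m0, hm0⟩, hr0, hne0⟩ := Nat.find_spec hex
      rw [← hx0] at hm0 hr0 hne0
      refine ⟨max n0 m0, le_max_left _ _, ?_⟩
      intro m x hx hxr hxa
      have hle : x0 ≤ x := Nat.find_min' hex ⟨⟨m, hx⟩, hxr, hxa⟩
      have hstep : ∀ j : ℕ, x0 + j * a ∈ S (max n0 m0) := by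
        intro j
        induction j with
        | zero => simpa using hmono (le_max_right n0 m0) hm0
        | succ j ih =>
          have haS : a ∈ S (max n0 m0) := hmono (le_max_left _ _) ha
          have hne : x0 + j * a ≠ a := by
            rcases Nat.eq_zero_or_pos j with rfl | hj
            · simpa using hne0
            · have := hpos _ _ (hmono (le_max_right n0 m0) hm0)
              have h1 : a ≤ j * a := Nat.le_mul_of_pos_left a hj
              omega
          have := hadd _ _ ih _ haS hne
          have e : x0 + (j + 1) * a = x0 + j * a + a := by ring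
          rw [e]; exact this
      have hmod : x0 % a = x % a := by rw [hr0, hxr]
      have hdvd : a ∣ x - x0 := (Nat.modEq_iff_dvd' hle).mp hmod
      obtain ⟨j, hj⟩ := hdvd
      have : x = x0 + j * a := by
        rw [mul_comm j a, ← hj]; omega
      rw [this]; exact hstep j
    · refine ⟨n0, le_rfl, ?_⟩
      intro m x hx hxr hxa
      exact absurd ⟨x, ⟨m, hx⟩, hxr, hxa⟩ hex
  choose N hN1 hN2 using hres
  refine ⟨(Finset.range a).sup N + n0, ?_⟩
  intro m _ x hx
  by_cases hxa : x = a
  · rw [hxa]; exact hmono (Nat.le_add_left _ _) ha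
  · have h1 := hN2 (x % a) m x hx rfl hxa
    refine hmono ?_ h1
    have : N (x % a) ≤ (Finset.range a).sup N :=
      Finset.le_sup (Finset.mem_range.mpr (Nat.mod_lt _ ha0))
    omega

theorem acc [CharZero k] (c : ℕ → LieSubalgebra k (W k)) (hc : Monotone c) :
    ∃ N, ∀ m, N ≤ m → c m = c N := by
  obtain ⟨N, hN⟩ := chain_D (fun n => D (c n)) (fun a b hab => D_mono (hc hab))
    (fun n a ha => D_pos ha) (fun n a ha b hb hab => D_add ha hb hab)
  refine ⟨N, fun m hm => ?_⟩
  exact le_antisymm (eq_of_D (hc hm) (hN m hm)) (hc hm)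

/-- divisibility of products -/
theorem dvd_bracket {n : ℕ} {p q : k[X]} (hq : X ^ n ∣ q) :
    X ^ (n + 1) ∣ X ^ 2 * (p * derivative q - derivative p * q) := by
  obtain ⟨r, rfl⟩ := hq
  simp only [derivative_mul, derivative_X_pow]
  rcases n with _ | n
  · refine ⟨X * (p * derivative r - derivative p * r), ?_⟩
    simp
    ring
  · rw [Nat.add_sub_cancel]
    refine ⟨(p * (C ((n + 1 : ℕ) : k) * r + X * derivative r)
      - X * derivative p * r), ?_⟩
    ring

/-- the ideal of the polynomials divisible by a power of `X` -/
noncomputable def I (k : Type u) [Field k] (n : ℕ) : LieIdeal k (W k) where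
  carrier := {p | X ^ n ∣ p.poly}
  add_mem' := by
    intro a b ha hb
    rw [Set.mem_setOf_eq, add_poly]
    exact dvd_add ha hb
  zero_mem' := by
    rw [Set.mem_setOf_eq, zero_poly]
    exact dvd_zero _
  smul_mem' := by
    intro c p hp
    rw [Set.mem_setOf_eq, smul_poly]
    exact Dvd.dvd.mul_left hp _
  lie_mem := by
    intro p q hq
    change X ^ n ∣ X ^ 2 * (p.poly * derivative q.poly - derivative p.poly * q.poly)
    exact (pow_dvd_pow X (Nat.le_succ n)).trans (dvd_bracket hq)

theorem mem_I {n : ℕ} {p : W k} : p ∈ I k n ↔ X ^ n ∣ p.poly := Iff.rfl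

theorem lie_I {n : ℕ} {p q : W k} (hq : q ∈ I k n) : ⁅p, q⁆ ∈ I k (n + 1) := by
  rw [mem_I] at hq ⊢
  rw [bracket_poly]
  exact dvd_bracket hq

theorem lcs_le (n : ℕ) : LieModule.lowerCentralSeries k (W k) (W k) n ≤ I k n := by
  induction n with
  | zero =>
    intro p _
    rw [mem_I, pow_zero]
    exact one_dvd _
  | succ n ih =>
    rw [LieModule.lowerCentralSeries_succ, LieSubmodule.lieIdeal_oper_eq_span,
      LieSubmodule.lieSpan_le]
    rintro _ ⟨⟨x, _⟩, ⟨y, hy⟩, rfl⟩
    exact lie_I (ih hy)

theorem resid {p : W k} (hp : p ≠ 0) : ∃ J : LieIdeal k (W k), p ∉ J ∧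
    LieRing.IsNilpotent (W k ⧸ J) := by
  refine ⟨I k (p.poly.natDegree + 1), ?_, ?_⟩
  · rw [mem_I]
    intro h
    have := natDegree_le_of_dvd h hp
    rw [natDegree_X_pow] at this
    omega
  · have h1 : LieModule.IsNilpotent (W k) (W k ⧸ I k (p.poly.natDegree + 1)) := by
      rw [LieModule.isNilpotent_quotient_iff (R := k)]
      exact ⟨_, lcs_le _⟩
    simp only [LieRing.IsNilpotent, LieModule.isNilpotent_iff k] at h1 ⊢
    peel h1 with n hn
    rw [← LieSubmodule.toSubmodule_inj] at hn ⊢
    rw [← coe_lowerCentralSeries_ideal_quot_eq, hn]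
    rfl

theorem not_finite : ¬ FiniteDimensional k (W k) := by
  intro h
  have : FiniteDimensional k k[X] := h
  exact Polynomial.not_finite this

end Pool.Agent.H5.Md0ec72
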