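import Mathlib

set_option autoImplicit false

/-!
The group `Z^2 x| Z`, where the generator of `Z` interchanges the two coordinates, as an
amalgamated free product of two copies of `Z^2`; it has a lattice order and no total order.
-/

namespace Pool.Agent.H5.Md4adc1

/-- the group with underlying set `Z^2 x Z` -/
@[ext] structure Gam : Type where
  a : ℤ
  b : ℤ
  k : ℤ

namespace Gam

instance : One Gam := ⟨⟨0, 0, 0⟩⟩
instance : Mul Gam := ⟨fun x y => ⟨x.a + (if Even x.k then y.a else y.b),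
  x.b + (if Even x.k then y.b else y.a), x.k + y.k⟩⟩
instance : Inv Gam := ⟨fun x => ⟨-(if Even x.k then x.a else x.b),
  -(if Even x.k then x.b else x.a), -x.k⟩⟩

theorem one_a : (1 : Gam).a = 0 := rfl
theorem one_b : (1 : Gam).b = 0 := rfl
theorem one_k : (1 : Gam).k = 0 := rfl
theorem mul_a (x y : Gam) : (x * y).a = x.a + (if Even x.k then y.a else y.b) := rfl
theorem mul_b (x y : Gam) : (x * y).b = x.b + (if Even x.k then y.b else y.a) := rfl
theorem mul_k (x y : Gam) : (x * y).k = x.k + y.k := rfl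
theorem inv_a (x : Gam) : (x⁻¹).a = -(if Even x.k then x.a else x.b) := rfl
theorem inv_b (x : Gam) : (x⁻¹).b = -(if Even x.k then x.b else x.a) := rfl
theorem inv_k (x : Gam) : (x⁻¹).k = -x.k := rfl

instance : Group Gam := Group.ofLeftAxioms
  (by
    intro x y z
    by_cases hx : Even x.k <;> by_cases hy : Even y.k <;> ext <;>
      simp only [mul_a, mul_b, mul_k, Int.even_add, hx, hy, if_true, if_false, iff_true, iff_false,
        true_iff, false_iff, not_true_eq_false, not_false_eq_true] <;> ring)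
  (by
    intro x
    ext <;> simp [mul_a, mul_b, mul_k, one_a, one_b, one_k])
  (by
    intro x
    by_cases hx : Even x.k <;> ext <;>
      simp [mul_a, mul_b, mul_k, inv_a, inv_b, inv_k, one_a, one_b, one_k, hx])

/-- the lexicographic lattice order -/
instance : Lattice Gam where
  le x y := x.k < y.k ∨ (x.k = y.k ∧ x.a ≤ y.a ∧ x.b ≤ y.b)
  le_refl x := Or.inr ⟨rfl, le_rfl, le_rfl⟩
  le_trans x y z h1 h2 := by omega
  le_antisymm x y h1 h2 := by
    rcases h1 with h1 | ⟨h1, h3, h4⟩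
    · rcases h2 with h2 | ⟨h2, _, _⟩ <;> omega
    · rcases h2 with h2 | ⟨_, h5, h6⟩
      · omega
      · ext <;> omega
  sup x y := if x.k < y.k then y else if y.k < x.k then x else ⟨max x.a y.a, max x.b y.b, x.k⟩
  inf x y := if x.k < y.k then x else if y.k < x.k then y else ⟨min x.a y.a, min x.b y.b, x.k⟩
  le_sup_left x y := by
    split_ifs with h1 h2
    · exact Or.inl h1
    · exact Or.inr ⟨rfl, le_rfl, le_rfl⟩
    · exact Or.inr ⟨rfl, le_max_left _ _, le_max_left _ _⟩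
  le_sup_right x y := by
    split_ifs with h1 h2
    · exact Or.inr ⟨rfl, le_rfl, le_rfl⟩
    · exact Or.inl h2
    · exact Or.inr ⟨by dsimp only; omega, le_max_right _ _, le_max_right _ _⟩
  sup_le x y z h1 h2 := by
    split_ifs with h3 h4
    · exact h2
    · exact h1
    · rcases h1 with h1 | ⟨h1, h5, h6⟩
      · exact Or.inl h1
      · rcases h2 with h2 | ⟨h2, h7, h8⟩
        · omega
        · exact Or.inr ⟨h1, max_le h5 h7, max_le h6 h8⟩
  inf_le_left x y := by
    split_ifs with h1 h2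
    · exact Or.inr ⟨rfl, le_rfl, le_rfl⟩
    · exact Or.inl h2
    · exact Or.inr ⟨rfl, min_le_left _ _, min_le_left _ _⟩
  inf_le_right x y := by
    split_ifs with h1 h2
    · exact Or.inl h1
    · exact Or.inr ⟨rfl, le_rfl, le_rfl⟩
    · exact Or.inr ⟨by dsimp only; omega, min_le_right _ _, min_le_right _ _⟩
  le_inf x y z h1 h2 := by
    split_ifs with h3 h4
    · exact h1
    · exact h2
    · rcases h1 with h1 | ⟨h1, h5, h6⟩
      · exact Or.inl h1
      · rcases h2 with h2 | ⟨h2, h7, h8⟩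
        · omega
        · exact Or.inr ⟨h1, le_min h5 h7, le_min h6 h8⟩

theorem le_def (x y : Gam) : x ≤ y ↔ x.k < y.k ∨ (x.k = y.k ∧ x.a ≤ y.a ∧ x.b ≤ y.b) := Iff.rfl

theorem mul_le_left (c : Gam) {x y : Gam} (h : x ≤ y) : c * x ≤ c * y := by
  rw [le_def] at h ⊢
  simp only [mul_a, mul_b, mul_k]
  split_ifs <;> omega

theorem mul_le_right (c : Gam) {x y : Gam} (h : x ≤ y) : x * c ≤ y * c := by
  rw [le_def] at h ⊢
  simp only [mul_a, mul_b, mul_k]
  rcases h with h | ⟨h, h2, h3⟩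
  · left; omega
  · right
    rw [h]
    split_ifs <;> omega

end Gam

/-- the ordered abelian group `Z^2`, written multiplicatively, the first coordinate dominating -/
abbrev Z2 : Type := Multiplicative (ℤ ×ₗ ℤ)

/-- the element with given coordinates -/
def mk (q p : ℤ) : Z2 := Multiplicative.ofAdd (toLex (q, p))

theorem mk_mul (q p q' p' : ℤ) : mk q p * mk q' p' = mk (q + q') (p + p') := rfl
theorem mk_one : (1 : Z2) = mk 0 0 := rfl

/-- the coordinates -/
def c1 (z : Z2) : ℤ := (ofLex (Multiplicative.toAdd z)).1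
def c2 (z : Z2) : ℤ := (ofLex (Multiplicative.toAdd z)).2

theorem c1_mk (q p : ℤ) : c1 (mk q p) = q := rfl
theorem c2_mk (q p : ℤ) : c2 (mk q p) = p := rfl
theorem mk_c (z : Z2) : mk (c1 z) (c2 z) = z := rfl
theorem c1_mul (z w : Z2) : c1 (z * w) = c1 z + c1 w := rfl
theorem c2_mul (z w : Z2) : c2 (z * w) = c2 z + c2 w := rfl

theorem z2_le (z w : Z2) : z ≤ w ↔ c1 z < c1 w ∨ (c1 z = c1 w ∧ c2 z ≤ c2 w) := by
  change Multiplicative.toAdd z ≤ Multiplicative.toAdd w ↔ _
  rw [Prod.Lex.le_iff]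
  rfl

/-- the two embeddings of the amalgamated subgroup -/
def phi0 : Z2 →* Z2 where
  toFun z := mk (2 * c1 z) (c2 z)
  map_one' := rfl
  map_mul' z w := by rw [mk_mul, c1_mul, c2_mul, mul_add]

def phi1 : Z2 →* Z2 where
  toFun z := mk (2 * c1 z) (c2 z - c1 z)
  map_one' := rfl
  map_mul' z w := by
    rw [mk_mul, c1_mul, c2_mul, mul_add]
    congr 1
    ring

def phi : ∀ _ : Fin 2, Z2 →* Z2 := ![phi0, phi1]

theorem phi_zero : phi 0 = phi0 := rfl
theorem phi_one : phi 1 = phi1 := rfl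

theorem phi_inj (i : Fin 2) : Function.Injective (phi i) := by
  fin_cases i
  · intro z w h
    change mk (2 * c1 z) (c2 z) = mk (2 * c1 w) (c2 w) at h
    have h1 := congrArg c1 h
    have h2 := congrArg c2 h
    rw [c1_mk, c1_mk] at h1
    rw [c2_mk, c2_mk] at h2
    rw [← mk_c z, ← mk_c w, h2, show c1 z = c1 w by omega]
  · intro z w h
    change mk (2 * c1 z) (c2 z - c1 z) = mk (2 * c1 w) (c2 w - c1 w) at h
    have h1 := congrArg c1 h
    have h2 := congrArg c2 h
    rw [c1_mk, c1_mk] at h1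
    rw [c2_mk, c2_mk] at h2
    rw [← mk_c z, ← mk_c w, show c1 z = c1 w by omega, show c2 z = c2 w by omega]

theorem phi_le (z w : Z2) : phi 0 z ≤ phi 0 w ↔ phi 1 z ≤ phi 1 w := by
  rw [z2_le, z2_le]
  change 2 * c1 z < 2 * c1 w ∨ (2 * c1 z = 2 * c1 w ∧ c2 z ≤ c2 w) ↔
    2 * c1 z < 2 * c1 w ∨ (2 * c1 z = 2 * c1 w ∧ c2 z - c1 z ≤ c2 w - c1 w)
  omega

/-- the amalgamated free product -/
abbrev P : Type := Monoid.PushoutI phi

def F0 : Z2 →* Gam where
  toFun z := ⟨c2 z, c2 z, c1 z⟩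
  map_one' := rfl
  map_mul' z w := by
    ext <;> simp only [Gam.mul_a, Gam.mul_b, Gam.mul_k, c1_mul, c2_mul, ite_self]

def F1 : Z2 →* Gam where
  toFun z := ⟨c2 z + c1 z / 2, c2 z + (c1 z + 1) / 2, c1 z⟩
  map_one' := rfl
  map_mul' z w := by
    by_cases h : Even (c1 z)
    · have h2 := Int.even_iff.mp h
      ext <;> simp only [Gam.mul_a, Gam.mul_b, Gam.mul_k, c1_mul, c2_mul, if_pos h] <;> omega
    · have h2 := Int.not_even_iff.mp h
      ext <;> simp only [Gam.mul_a, Gam.mul_b, Gam.mul_k, c1_mul, c2_mul, if_neg h] <;> omega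

def Fb : Z2 →* Gam := F0.comp phi0

theorem F1_phi1 : F1.comp phi1 = Fb := by
  ext z
  · change (c2 z - c1 z) + (2 * c1 z) / 2 = c2 z
    omega
  · change (c2 z - c1 z) + (2 * c1 z + 1) / 2 = c2 z
    omega
  · rfl

def Ff : ∀ _ : Fin 2, Z2 →* Gam := ![F0, F1]

/-- the map to the concrete group -/
def F : P →* Gam := Monoid.PushoutI.lift Ff Fb (by
  intro i
  fin_cases i
  · rfl
  · exact F1_phi1)

open Monoid.PushoutI in
theorem F_of0 (z : Z2) : F (of (φ := phi) 0 z) = F0 z := lift_of Ff Fb _ z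
open Monoid.PushoutI in
theorem F_of1 (z : Z2) : F (of (φ := phi) 1 z) = F1 z := lift_of Ff Fb _ z

noncomputable def T : P := Monoid.PushoutI.of (φ := phi) 0 (mk 1 0)
noncomputable def S : P := Monoid.PushoutI.of (φ := phi) 1 (mk 1 0)
noncomputable def C : P := Monoid.PushoutI.base phi (mk 0 1)

theorem C_0 : C = Monoid.PushoutI.of (φ := phi) 0 (mk 0 1) :=
  (Monoid.PushoutI.of_apply_eq_base phi 0 (mk 0 1)).symm
theorem C_1 : C = Monoid.PushoutI.of (φ := phi) 1 (mk 0 1) :=
  (Monoid.PushoutI.of_apply_eq_base phi 1 (mk 0 1)).symm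

theorem CT : C * T = T * C := by
  rw [C_0, T, ← map_mul, ← map_mul, mul_comm]
theorem CS : C * S = S * C := by
  rw [C_1, S, ← map_mul, ← map_mul, mul_comm]

theorem TTC : T * T * C = S * S := by
  have h0 := Monoid.PushoutI.of_apply_eq_base phi 0 (mk 1 0)
  have h1 := Monoid.PushoutI.of_apply_eq_base phi 1 (mk 1 0)
  have e0 : phi 0 (mk 1 0) = mk 1 0 * mk 1 0 := rfl
  have e1 : phi 1 (mk 1 0) * mk 0 1 = mk 1 0 * mk 1 0 := rfl
  have h2 : T * T = Monoid.PushoutI.base phi (mk 1 0) := by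
    rw [← h0, e0, map_mul]; rfl
  have h3 : Monoid.PushoutI.base phi (mk 1 0) * C = S * S := by
    rw [← h1, C_1, ← map_mul, e1, map_mul]; rfl
  rw [h2, h3]

noncomputable def X : P := T⁻¹ * S
noncomputable def Y : P := S * T⁻¹

theorem TTS : T * T * S = S * (T * T) := by
  have h : T * T = S * S * C⁻¹ := by rw [← TTC]; group
  have hc : C⁻¹ * S = S * C⁻¹ := by
    rw [inv_mul_eq_iff_eq_mul, ← mul_assoc, CS]; group
  rw [h]
  calc S * S * C⁻¹ * S = S * S * (C⁻¹ * S) := by group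
    _ = S * S * (S * C⁻¹) := by rw [hc]
    _ = S * (S * S * C⁻¹) := by group

theorem TX : SemiconjBy T X Y := by
  unfold SemiconjBy X Y; group

theorem TY : SemiconjBy T Y X := by
  unfold SemiconjBy X Y
  have h : T * (S * T⁻¹) = T⁻¹ * (T * T * S) * T⁻¹ := by group
  rw [h, TTS]; group

theorem XY : X * Y = C := by
  unfold X Y
  have h : T⁻¹ * S * (S * T⁻¹) = T⁻¹ * (S * S) * T⁻¹ := by group
  rw [h, ← TTC]
  have h2 : T⁻¹ * (T * T * C) * T⁻¹ = (T * C) * T⁻¹ := by group
  rw [h2, ← CT]; group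

theorem YX : Y * X = C := by
  unfold X Y
  have h : S * T⁻¹ * (T⁻¹ * S) = (T * T)⁻¹ * (T * T * S) * (T * T)⁻¹ * S := by group
  rw [h, TTS]
  have h2 : (T * T)⁻¹ * (S * (T * T)) * (T * T)⁻¹ * S = (T * T)⁻¹ * (S * S) := by group
  rw [h2, ← TTC]; group

theorem XYc : Commute X Y := by
  unfold Commute SemiconjBy
  rw [XY, YX]

/-- powers of `T` act on `X` and `Y` through the parity -/
theorem T_pow (k a b : ℤ) : T ^ k * (X ^ a * Y ^ b) =
    X ^ (if Even k then a else b) * Y ^ (if Even k then b else a) * T ^ k := by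
  have e1 : SemiconjBy (T * T) X X := TY.mul_left TX
  have e2 : SemiconjBy (T * T) Y Y := TX.mul_left TY
  by_cases hk : Even k
  · rw [if_pos hk, if_pos hk]
    obtain ⟨j, rfl⟩ := hk
    have hT : T ^ (j + j) = (T * T) ^ j := by
      rw [zpow_add, (Commute.refl T).mul_zpow]
    rw [hT]
    have h1 : Commute ((T * T) ^ j) (X ^ a) := (Commute.zpow_left e1 j).zpow_right a
    have h2 : Commute ((T * T) ^ j) (Y ^ b) := (Commute.zpow_left e2 j).zpow_right b
    exact (h1.mul_right h2).eq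
  · rw [if_neg hk, if_neg hk]
    obtain ⟨j, rfl⟩ := Int.not_even_iff_odd.mp hk
    have hT : T ^ (2 * j + 1) = (T * T) ^ j * T := by
      rw [zpow_add, zpow_one, two_mul, zpow_add, (Commute.refl T).mul_zpow]
    rw [hT]
    have h1 : Commute ((T * T) ^ j) (X ^ b) := (Commute.zpow_left e1 j).zpow_right b
    have h2 : Commute ((T * T) ^ j) (Y ^ a) := (Commute.zpow_left e2 j).zpow_right a
    have h3 : T * (X ^ a * Y ^ b) = Y ^ a * X ^ b * T := by
      have := (TX.zpow_right a).mul_right (TY.zpow_right b)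
      exact this.eq
    have h4 : Y ^ a * X ^ b = X ^ b * Y ^ a := ((XYc.symm.zpow_left a).zpow_right b).eq
    rw [mul_assoc, h3, h4, ← mul_assoc, (h1.mul_right h2).eq, mul_assoc]

/-- the inverse map -/
noncomputable def E : Gam →* P where
  toFun x := X ^ x.a * Y ^ x.b * T ^ x.k
  map_one' := by simp [Gam.one_a, Gam.one_b, Gam.one_k]
  map_mul' x y := by
    have h4 : ∀ m n : ℤ, Y ^ m * X ^ n = X ^ n * Y ^ m :=
      fun m n => ((XYc.symm.zpow_left m).zpow_right n).eq
    have h5 := T_pow x.k y.a y.b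
    calc X ^ (x * y).a * Y ^ (x * y).b * T ^ (x * y).k
        = X ^ x.a * (X ^ (if Even x.k then y.a else y.b) * Y ^ x.b) *
            Y ^ (if Even x.k then y.b else y.a) * (T ^ x.k * T ^ y.k) := by
          rw [Gam.mul_a, Gam.mul_b, Gam.mul_k, zpow_add, zpow_add, zpow_add]
          simp only [mul_assoc]
      _ = X ^ x.a * Y ^ x.b * (X ^ (if Even x.k then y.a else y.b) *
            Y ^ (if Even x.k then y.b else y.a) * T ^ x.k) * T ^ y.k := by
          rw [← h4]
          simp only [mul_assoc]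
      _ = X ^ x.a * Y ^ x.b * T ^ x.k * (X ^ y.a * Y ^ y.b * T ^ y.k) := by
          rw [← h5]
          simp only [mul_assoc]

theorem E_apply (x : Gam) : E x = X ^ x.a * Y ^ x.b * T ^ x.k := rfl

theorem mk_pow (q p : ℤ) : mk q p = mk 1 0 ^ q * mk 0 1 ^ p := by
  have h1 : ∀ n : ℤ, mk 1 0 ^ n = mk n 0 := by
    intro n
    have : ((1 : ℤ), (0 : ℤ)) = ((1 : ℤ), (0 : ℤ)) := rfl
    change Multiplicative.ofAdd (toLex (n • ((1 : ℤ), (0 : ℤ)))) = _
    simp [mk]
  have h2 : ∀ n : ℤ, mk 0 1 ^ n = mk 0 n := by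
    intro n
    change Multiplicative.ofAdd (toLex (n • ((0 : ℤ), (1 : ℤ)))) = _
    simp [mk]
  rw [h1, h2, mk_mul, add_zero, zero_add]

theorem EF (x : P) : E (F x) = x := by
  have h : E.comp F = MonoidHom.id P := by
    apply Monoid.PushoutI.hom_ext_nonempty
    intro i
    apply MonoidHom.ext
    intro z
    rw [← mk_c z, mk_pow]
    fin_cases i
    · simp only [map_mul, map_zpow]
      have e1 : E (F (Monoid.PushoutI.of (φ := phi) 0 (mk 1 0))) =
          Monoid.PushoutI.of (φ := phi) 0 (mk 1 0) := by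
        rw [F_of0, E_apply]
        change X ^ (0 : ℤ) * Y ^ (0 : ℤ) * T ^ (1 : ℤ) = T
        simp
      have e2 : E (F (Monoid.PushoutI.of (φ := phi) 0 (mk 0 1))) =
          Monoid.PushoutI.of (φ := phi) 0 (mk 0 1) := by
        rw [F_of0, E_apply, ← C_0]
        change X ^ (1 : ℤ) * Y ^ (1 : ℤ) * T ^ (0 : ℤ) = C
        rw [zpow_one, zpow_one, zpow_zero, mul_one, XY]
      change E (F (Monoid.PushoutI.of (φ := phi) 0 (mk 1 0))) ^ _ *
        E (F (Monoid.PushoutI.of (φ := phi) 0 (mk 0 1))) ^ _ = _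
      rw [e1, e2]
      rfl
    · simp only [map_mul, map_zpow]
      have e1 : E (F (Monoid.PushoutI.of (φ := phi) 1 (mk 1 0))) =
          Monoid.PushoutI.of (φ := phi) 1 (mk 1 0) := by
        rw [F_of1, E_apply]
        change X ^ (0 : ℤ) * Y ^ (1 : ℤ) * T ^ (1 : ℤ) = S
        rw [zpow_zero, zpow_one, zpow_one, one_mul, Y]
        group
      have e2 : E (F (Monoid.PushoutI.of (φ := phi) 1 (mk 0 1))) =
          Monoid.PushoutI.of (φ := phi) 1 (mk 0 1) := by
        rw [F_of1, E_apply, ← C_1]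
        change X ^ (1 : ℤ) * Y ^ (1 : ℤ) * T ^ (0 : ℤ) = C
        rw [zpow_one, zpow_one, zpow_zero, mul_one, XY]
      change E (F (Monoid.PushoutI.of (φ := phi) 1 (mk 1 0))) ^ _ *
        E (F (Monoid.PushoutI.of (φ := phi) 1 (mk 0 1))) ^ _ = _
      rw [e1, e2]
      rfl
  exact congrArg (fun f : P →* P => f x) h

theorem F_T : F T = ⟨0, 0, 1⟩ := by rw [T, F_of0]; rfl
theorem F_S : F S = ⟨0, 1, 1⟩ := by rw [S, F_of1]; rfl

theorem F_X : F X = ⟨1, 0, 0⟩ := by
  rw [X, map_mul, map_inv, F_T, F_S]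
  rfl

theorem F_Y : F Y = ⟨0, 1, 0⟩ := by
  rw [Y, map_mul, map_inv, F_T, F_S]
  rfl

def ia : Multiplicative ℤ →* Gam where
  toFun n := ⟨Multiplicative.toAdd n, 0, 0⟩
  map_one' := rfl
  map_mul' m n := by ext <;> simp [Gam.mul_a, Gam.mul_b, Gam.mul_k]

def ib : Multiplicative ℤ →* Gam where
  toFun n := ⟨0, Multiplicative.toAdd n, 0⟩
  map_one' := rfl
  map_mul' m n := by ext <;> simp [Gam.mul_a, Gam.mul_b, Gam.mul_k]

def ik : Multiplicative ℤ →* Gam where
  toFun n := ⟨0, 0, Multiplicative.toAdd n⟩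
  map_one' := rfl
  map_mul' m n := by ext <;> simp [Gam.mul_a, Gam.mul_b, Gam.mul_k]

theorem ofAdd_pow (n : ℤ) : (Multiplicative.ofAdd (1 : ℤ)) ^ n = Multiplicative.ofAdd n := by
  rw [← ofAdd_zsmul]; simp

theorem FE (x : Gam) : F (E x) = x := by
  rw [E_apply, map_mul, map_mul, map_zpow, map_zpow, map_zpow, F_X, F_Y, F_T]
  have e1 : (⟨1, 0, 0⟩ : Gam) = ia (Multiplicative.ofAdd 1) := rfl
  have e2 : (⟨0, 1, 0⟩ : Gam) = ib (Multiplicative.ofAdd 1) := rfl
  have e3 : (⟨0, 0, 1⟩ : Gam) = ik (Multiplicative.ofAdd 1) := rfl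
  rw [e1, e2, e3, ← MonoidHom.map_zpow ia, ← MonoidHom.map_zpow ib, ← MonoidHom.map_zpow ik,
    ofAdd_pow, ofAdd_pow, ofAdd_pow]
  ext <;> simp [Gam.mul_a, Gam.mul_b, Gam.mul_k, ia, ib, ik]

/-- the transported lattice order -/
noncomputable def lat : Lattice P where
  le x y := F x ≤ F y
  le_refl x := le_refl (F x)
  le_trans _ _ _ h1 h2 := le_trans h1 h2
  le_antisymm x y h1 h2 := by
    rw [← EF x, ← EF y, le_antisymm h1 h2]
  sup x y := E (F x ⊔ F y)
  inf x y := E (F x ⊓ F y)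
  le_sup_left x y := by rw [FE]; exact le_sup_left
  le_sup_right x y := by rw [FE]; exact le_sup_right
  sup_le x y z h1 h2 := by rw [FE]; exact sup_le h1 h2
  inf_le_left x y := by rw [FE]; exact inf_le_left
  inf_le_right x y := by rw [FE]; exact inf_le_right
  le_inf x y z h1 h2 := by rw [FE]; exact le_inf h1 h2

theorem lat_inv (a b c : P) (h : lat.le a b) : lat.le (c * a) (c * b) ∧ lat.le (a * c) (b * c) := by
  constructor
  · change F (c * a) ≤ F (c * b)
    rw [map_mul, map_mul]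
    exact Gam.mul_le_left _ h
  · change F (a * c) ≤ F (b * c)
    rw [map_mul, map_mul]
    exact Gam.mul_le_right _ h

theorem no_order : ¬ ∃ O : LinearOrder P, ∀ a b c : P,
    O.le a b → O.le (c * a) (c * b) ∧ O.le (a * c) (b * c) := by
  rintro ⟨O, hO⟩
  have hne : X ≠ Y := by
    intro h
    have := congrArg (fun z => (F z).a) h
    simp only [F_X, F_Y] at this
    exact one_ne_zero this
  have tx : T * X * T⁻¹ = Y := by
    have h := TX.eq
    rw [h]; group
  have ty : T * Y * T⁻¹ = X := by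
    have h := TY.eq
    rw [h]; group
  rcases O.le_total X Y with h | h
  · have h1 := (hO _ _ T⁻¹ ((hO _ _ T h).1)).2
    rw [tx, ty] at h1
    exact hne (O.le_antisymm _ _ h h1)
  · have h1 := (hO _ _ T⁻¹ ((hO _ _ T h).1)).2
    rw [tx, ty] at h1
    exact hne (O.le_antisymm _ _ h1 h)

end Pool.Agent.H5.Md4adc1
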