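import Mathlib

set_option autoImplicit false

namespace Pool.Agent.H5.Mdf592a

open Polynomial

/-- The downward shift on polynomials as a linear map. -/
noncomputable def D : ℚ[X] →ₗ[ℚ] ℚ[X] where
  toFun := divX
  map_add' p q := divX_add
  map_smul' c p := by
    ext n
    simp [coeff_divX]

/-- The action of a polynomial in the shift. -/
noncomputable def L (p e : ℚ[X]) : ℚ[X] := (aeval D p) e

/-- Translation of the variable. -/
noncomputable def sg (p : ℚ[X]) : ℚ[X] := p.comp (X + 1)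

theorem L_add (p q e : ℚ[X]) : L (p + q) e = L p e + L q e := by
  simp [L]

theorem L_add' (p e f : ℚ[X]) : L p (e + f) = L p e + L p f := by
  simp [L]

theorem L_mul (p q e : ℚ[X]) : L (p * q) e = L p (L q e) := by
  simp [L]

theorem L_one (e : ℚ[X]) : L 1 e = e := by
  simp [L]

theorem L_zero (e : ℚ[X]) : L 0 e = 0 := by
  simp [L]

theorem L_zero' (p : ℚ[X]) : L p 0 = 0 := by
  simp [L]

theorem L_X (e : ℚ[X]) : L X e = divX e := by
  simp [L, D]

theorem L_C (c : ℚ) (e : ℚ[X]) : L (C c) e = c • e := by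
  simp [L, Module.algebraMap_end_apply]

theorem L_comm (p q e : ℚ[X]) : L p (L q e) = L q (L p e) := by
  rw [← L_mul, ← L_mul, mul_comm]

theorem sg_add (p q : ℚ[X]) : sg (p + q) = sg p + sg q := by
  simp [sg]

theorem sg_mul (p q : ℚ[X]) : sg (p * q) = sg p * sg q := by
  simp [sg]

theorem sg_one : sg 1 = 1 := by
  simp [sg]

theorem sg_zero : sg 0 = 0 := by
  simp [sg]

theorem sg_inv (p : ℚ[X]) : sg (p.comp (X - 1)) = p := by
  rw [sg, comp_assoc]
  simp

/-- The counterexample ring. -/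
@[ext] structure AA where
  s : ℚ[X]
  e : ℚ[X]

noncomputable instance : Zero AA := ⟨⟨0, 0⟩⟩
noncomputable instance : One AA := ⟨⟨1, 0⟩⟩
noncomputable instance : Add AA := ⟨fun a b => ⟨a.s + b.s, a.e + b.e⟩⟩
noncomputable instance : Neg AA := ⟨fun a => ⟨-a.s, -a.e⟩⟩
noncomputable instance : Mul AA := ⟨fun a b => ⟨a.s * b.s, L a.s b.e + L (sg b.s) a.e⟩⟩

theorem zero_s : (0 : AA).s = 0 := rfl
theorem zero_e : (0 : AA).e = 0 := rfl
theorem one_s : (1 : AA).s = 1 := rfl
theorem one_e : (1 : AA).e = 0 := rfl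
theorem add_s (a b : AA) : (a + b).s = a.s + b.s := rfl
theorem add_e (a b : AA) : (a + b).e = a.e + b.e := rfl
theorem neg_s (a : AA) : (-a).s = -a.s := rfl
theorem neg_e (a : AA) : (-a).e = -a.e := rfl
theorem mul_s (a b : AA) : (a * b).s = a.s * b.s := rfl
theorem mul_e (a b : AA) : (a * b).e = L a.s b.e + L (sg b.s) a.e := rfl

noncomputable instance : Ring AA where
  add_assoc a b c := by ext1 <;> simp only [add_s, add_e] <;> ring
  zero_add a := by ext1 <;> simp only [add_s, add_e, zero_s, zero_e] <;> ring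
  add_zero a := by ext1 <;> simp only [add_s, add_e, zero_s, zero_e] <;> ring
  add_comm a b := by ext1 <;> simp only [add_s, add_e] <;> ring
  neg_add_cancel a := by ext1 <;> simp only [add_s, add_e, neg_s, neg_e, zero_s, zero_e] <;> ring
  nsmul := nsmulRec
  zsmul := zsmulRec
  mul_assoc a b c := by
    ext1
    · simp only [mul_s]; ring
    · simp only [mul_s, mul_e, L_add', sg_mul, L_mul]
      rw [L_comm (sg c.s) a.s, L_comm (sg b.s) (sg c.s)]
      ring
  one_mul a := by
    ext1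
    · simp only [mul_s, one_s]; ring
    · simp only [mul_e, one_s, one_e, L_one, L_zero']; ring
  mul_one a := by
    ext1
    · simp only [mul_s, one_s]; ring
    · simp only [mul_e, one_s, one_e, sg_one, L_one, L_zero']; ring
  left_distrib a b c := by
    ext1
    · simp only [mul_s, add_s]; ring
    · simp only [mul_e, add_s, add_e, sg_add, L_add, L_add']; ring
  right_distrib a b c := by
    ext1
    · simp only [mul_s, add_s]; ring
    · simp only [mul_e, add_s, add_e, sg_add, L_add, L_add']; ring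
  zero_mul a := by
    ext1
    · simp only [mul_s, zero_s]; ring
    · simp only [mul_e, zero_s, zero_e, L_zero, L_zero']; ring
  mul_zero a := by
    ext1
    · simp only [mul_s, zero_s]; ring
    · simp only [mul_e, zero_s, zero_e, sg_zero, L_zero, L_zero']; ring

theorem iter_coeff (n m : ℕ) (e : ℚ[X]) : (L (X ^ n) e).coeff m = e.coeff (m + n) := by
  induction n generalizing m with
  | zero => simp [L_one]
  | succ n ih => rw [pow_succ', L_mul, L_X, coeff_divX, ih]; congr 1; ring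

theorem nilp (e : ℚ[X]) : ∃ n, L (X ^ n) e = 0 := by
  refine ⟨e.natDegree + 1, ?_⟩
  ext m
  rw [iter_coeff, coeff_zero]
  exact coeff_eq_zero_of_natDegree_lt (by omega)

theorem surj_pow (k : ℕ) (e : ℚ[X]) : ∃ f, L (X ^ k) f = e := by
  refine ⟨e * X ^ k, ?_⟩
  ext m
  rw [iter_coeff, coeff_mul_X_pow]

theorem surj (s : ℚ[X]) (hs : s ≠ 0) (e : ℚ[X]) : ∃ f, L s f = e := by
  obtain ⟨u, hu, hnd⟩ := exists_eq_pow_rootMultiplicity_mul_and_not_dvd s hs 0
  set k := rootMultiplicity 0 s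
  rw [C_0, sub_zero] at hu hnd
  obtain ⟨g, hg⟩ := surj_pow k e
  obtain ⟨n, hn⟩ := nilp g
  have hcop : IsCoprime u (X ^ n) :=
    (((irreducible_X).coprime_iff_not_dvd).2 hnd).symm.pow_right
  obtain ⟨a, b, hab⟩ := hcop
  refine ⟨L a g, ?_⟩
  have h1 : L u (L a g) = g := by
    have h2 : L (a * u + b * X ^ n) g = g := by rw [hab, L_one]
    rw [L_add, L_mul b, hn, L_zero', add_zero, mul_comm, L_mul] at h2
    exact h2
  rw [hu, L_mul, h1, hg]

theorem chain (n : ℕ) : ∀ e f : ℚ[X], e ≠ 0 → e.natDegree = n → f.natDegree ≤ n →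
    ∃ s, L s e = f := by
  induction n with
  | zero =>
    intro e f he hn hf
    have h1 := eq_C_of_natDegree_eq_zero hn
    have h2 := eq_C_of_natDegree_le_zero hf
    have hc : e.coeff 0 ≠ 0 := by
      intro h
      apply he
      rw [h1, h, C_0]
    refine ⟨C (f.coeff 0 / e.coeff 0), ?_⟩
    rw [L_C, h1, h2, smul_C]
    simp only [coeff_C_zero, smul_eq_mul]
    rw [div_mul_cancel₀ _ hc]
  | succ n ih =>
    intro e f he hn hf
    have hc : e.coeff (n + 1) ≠ 0 := by
      rw [← hn]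
      exact leadingCoeff_ne_zero.2 he
    set c := f.coeff (n + 1) / e.coeff (n + 1) with hcdef
    have hd : (divX e).natDegree = n := by
      rw [natDegree_divX_eq_natDegree_tsub_one, hn]
      rfl
    have hd0 : divX e ≠ 0 := by
      intro h
      have h3 : (divX e).coeff n = 0 := by rw [h, coeff_zero]
      rw [coeff_divX] at h3
      exact hc h3
    obtain ⟨s, hs⟩ := ih (divX e) (f - c • e) hd0 hd (by
      rw [natDegree_le_iff_coeff_eq_zero]
      intro m hm
      rw [coeff_sub, coeff_smul, smul_eq_mul]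
      rcases Nat.lt_or_ge (n + 1) m with h | h
      · rw [coeff_eq_zero_of_natDegree_lt (by omega), coeff_eq_zero_of_natDegree_lt (by omega)]
        ring
      · have : m = n + 1 := by omega
        rw [this, hcdef, div_mul_cancel₀ _ hc, sub_self])
    refine ⟨s * X + C c, ?_⟩
    rw [L_add, L_mul, L_X, hs, L_C]
    ring

theorem mem_mul (J : Submodule AAᵐᵒᵖ AA) {x : AA} (hx : x ∈ J) (a : AA) : x * a ∈ J :=
  J.smul_mem (MulOpposite.op a) hx

theorem dich (J : Submodule AAᵐᵒᵖ AA) : (∀ x ∈ J, x.s = 0) ∨ (∀ e : ℚ[X], (⟨0, e⟩ : AA) ∈ J) := by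
  by_cases h : ∀ x ∈ J, x.s = 0
  · exact Or.inl h
  · right
    push Not at h
    obtain ⟨x, hx, hxs⟩ := h
    intro e
    obtain ⟨f, hf⟩ := surj x.s hxs e
    have h1 := mem_mul J hx ⟨0, f⟩
    have h2 : x * ⟨0, f⟩ = (⟨0, e⟩ : AA) := by
      ext1
      · rw [mul_s, mul_zero]
      · rw [mul_e, hf, sg_zero, L_zero, add_zero]
    rwa [h2] at h1

theorem chainMem (J : Submodule AAᵐᵒᵖ AA) {x y : AA} (hx : x ∈ J) (hxs : x.s = 0) (hys : y.s = 0)
    (hx0 : x.e ≠ 0) (hd : y.e.natDegree ≤ x.e.natDegree) : y ∈ J := by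
  obtain ⟨p, hp⟩ := chain _ x.e y.e hx0 rfl hd
  have h1 := mem_mul J hx ⟨p.comp (X - 1), 0⟩
  have h2 : x * ⟨p.comp (X - 1), 0⟩ = y := by
    ext1
    · rw [mul_s, hxs, hys, zero_mul]
    · rw [mul_e, sg_inv, hp, L_zero', zero_add]
  rwa [h2] at h1

theorem comparable (J K : Submodule AAᵐᵒᵖ AA) (hJ : ∀ x ∈ J, x.s = 0) : J ≤ K ∨ K ≤ J := by
  rcases dich K with hK | hK
  · by_cases h : J ≤ K
    · exact Or.inl h
    · right
      rw [SetLike.not_le_iff_exists] at h
      obtain ⟨x, hxJ, hxK⟩ := h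
      intro y hy
      by_contra hyJ
      have hx0 : x.e ≠ 0 := by
        intro h0
        apply hxK
        have : x = 0 := by
          ext1
          · exact hJ x hxJ
          · exact h0
        rw [this]
        exact K.zero_mem
      have hy0 : y.e ≠ 0 := by
        intro h0
        apply hyJ
        have : y = 0 := by
          ext1
          · exact hK y hy
          · exact h0
        rw [this]
        exact J.zero_mem
      rcases le_total y.e.natDegree x.e.natDegree with hd | hd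
      · exact hyJ (chainMem J hxJ (hJ x hxJ) (hK y hy) hx0 hd)
      · exact hxK (chainMem K hy (hK y hy) (hJ x hxJ) hy0 hd)
  · left
    intro x hx
    have h1 := hK x.e
    have h2 : (⟨0, x.e⟩ : AA) = x := by
      ext1
      · exact (hJ x hx).symm
      · rfl
    rwa [h2] at h1

theorem memOfS (J : Submodule AAᵐᵒᵖ AA) (hJ : ∀ e : ℚ[X], (⟨0, e⟩ : AA) ∈ J) {x y : AA}
    (hx : x ∈ J) (hs : y.s = x.s) : y ∈ J := by
  have h1 := J.add_mem hx (hJ (y.e - x.e))
  have h2 : x + ⟨0, y.e - x.e⟩ = y := by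
    ext1
    · rw [add_s, hs, add_zero]
    · rw [add_e]
      ring
  rwa [h2] at h1

theorem distrib (I J K : Submodule AAᵐᵒᵖ AA) : I ⊓ (J ⊔ K) = I ⊓ J ⊔ I ⊓ K := by
  apply le_antisymm ?_ le_inf_sup
  rcases dich J with hJ | hJ
  · rcases comparable J K hJ with h | h
    · rw [sup_eq_right.2 h]
      exact le_sup_right
    · rw [sup_eq_left.2 h]
      exact le_sup_left
  rcases dich K with hK | hK
  · rcases comparable K J hK with h | h
    · rw [sup_eq_left.2 h]
      exact le_sup_left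
    · rw [sup_eq_right.2 h]
      exact le_sup_right
  intro x hx
  obtain ⟨hxI, hxJK⟩ := hx
  obtain ⟨j, hj, k, hk, rfl⟩ := Submodule.mem_sup.1 hxJK
  by_cases h0 : j.s = 0 ∧ k.s = 0
  · have hjk : j + k ∈ J := memOfS J hJ J.zero_mem (by rw [add_s, h0.1, h0.2, add_zero, zero_s])
    exact Submodule.mem_sup_left ⟨hxI, hjk⟩
  · have hspan := EuclideanDomain.gcd_eq_gcd_ab j.s k.s
    set d := EuclideanDomain.gcd j.s k.s with hd
    obtain ⟨j', hj'⟩ := EuclideanDomain.gcd_dvd_left j.s k.s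
    obtain ⟨k', hk'⟩ := EuclideanDomain.gcd_dvd_right j.s k.s
    rw [← hd] at hj' hk'
    set u := EuclideanDomain.gcdA j.s k.s
    set v := EuclideanDomain.gcdB j.s k.s
    have hd0 : d ≠ 0 := by
      intro h
      apply h0
      rw [hj', hk', h]
      simp
    have huv : j' * u + k' * v = 1 := by
      have h1 : d * (j' * u + k' * v) = d * 1 := by
        rw [mul_one]
        calc d * (j' * u + k' * v) = (d * j') * u + (d * k') * v := by ring
          _ = j.s * u + k.s * v := by rw [← hj', ← hk']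
          _ = d := hspan.symm
      exact mul_left_cancel₀ hd0 h1
    have hxJ : (j + k) * ⟨j' * u, 0⟩ ∈ J := by
      refine memOfS J hJ (mem_mul J hj ⟨(j' + k') * u, 0⟩) ?_
      rw [mul_s, mul_s, add_s]
      show (j.s + k.s) * (j' * u) = j.s * ((j' + k') * u)
      rw [hj', hk']
      ring
    have hxK : (j + k) * ⟨k' * v, 0⟩ ∈ K := by
      refine memOfS K hK (mem_mul K hk ⟨(j' + k') * v, 0⟩) ?_
      rw [mul_s, mul_s, add_s]
      show (j.s + k.s) * (k' * v) = k.s * ((j' + k') * v)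
      rw [hj', hk']
      ring
    have hsum : (j + k) = (j + k) * ⟨j' * u, 0⟩ + (j + k) * ⟨k' * v, 0⟩ := by
      rw [← mul_add]
      have : (⟨j' * u, 0⟩ : AA) + ⟨k' * v, 0⟩ = 1 := by
        ext1
        · exact huv
        · show (0 : ℚ[X]) + 0 = 0
          ring
      rw [this, mul_one]
    rw [hsum]
    exact Submodule.add_mem_sup ⟨mem_mul I hxI _, hxJ⟩ ⟨mem_mul I hxI _, hxK⟩

/-- The maximal right ideal. -/
noncomputable def MM : Submodule AAᵐᵒᵖ AA where
  carrier := {x | x.s.eval 1 = 0}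
  add_mem' := by
    intro a b ha hb
    show (a + b).s.eval 1 = 0
    rw [add_s, eval_add, ha, hb, add_zero]
  zero_mem' := by
    show (0 : AA).s.eval 1 = 0
    rw [zero_s, eval_zero]
  smul_mem' := by
    intro c x hx
    show (x * c.unop).s.eval 1 = 0
    rw [mul_s, eval_mul, hx, zero_mul]

theorem mem_MM (x : AA) : x ∈ MM ↔ x.s.eval 1 = 0 := Iff.rfl

theorem coatom_MM : IsCoatom MM := by
  constructor
  · intro h
    have h1 : (1 : AA) ∈ MM := by rw [h]; trivial
    rw [mem_MM, one_s, eval_one] at h1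
    exact one_ne_zero h1
  · intro N hN
    obtain ⟨x, hxN, hxM⟩ := SetLike.exists_of_lt hN
    rw [mem_MM] at hxM
    set c := x.s.eval 1
    have h1 : (1 : AA) + -(x * ⟨C c⁻¹, 0⟩) ∈ MM := by
      rw [mem_MM, add_s, neg_s, mul_s, one_s, eval_add, eval_neg, eval_mul, eval_C, eval_one]
      show 1 + -(c * c⁻¹) = 0
      rw [mul_inv_cancel₀ hxM]
      ring
    have h2 : (1 : AA) ∈ N := by
      have h3 := N.add_mem (hN.le h1) (mem_mul N hxN ⟨C c⁻¹, 0⟩)
      rwa [neg_add_cancel_right] at h3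
    rw [Submodule.eq_top_iff']
    intro y
    have h4 := mem_mul N h2 y
    rwa [one_mul] at h4

theorem noQ (Q : Type) [Ring Q] (f : AA →+* Q)
    (h1 : ∀ t : AA, t ∉ MM → IsUnit (f t))
    (h3 : ∀ a : AA, f a = 0 ↔ ∃ t : AA, t ∉ MM ∧ a * t = 0) : False := by
  have hT : (⟨X, 0⟩ : AA) ∉ MM := by
    rw [mem_MM]
    show eval 1 X ≠ 0
    rw [eval_X]
    exact one_ne_zero
  have hz : (⟨X, 0⟩ : AA) * ⟨0, 1⟩ = 0 := by
    ext1
    · rw [mul_s, mul_zero, zero_s]
    · rw [mul_e, zero_e, L_X, L_zero']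
      simp
  have hf : f ⟨0, 1⟩ = 0 := by
    have h4 : f ⟨X, 0⟩ * f ⟨0, 1⟩ = 0 := by rw [← map_mul, hz, map_zero]
    exact ((h1 _ hT).mul_right_eq_zero).1 h4
  obtain ⟨t, ht, hat⟩ := (h3 _).1 hf
  rw [mem_MM] at ht
  have h5 : L (sg t.s) 1 = 0 := by
    have h6 : ((⟨0, 1⟩ : AA) * t).e = 0 := by rw [hat]; rfl
    rw [mul_e, L_zero, zero_add] at h6
    exact h6
  apply ht
  -- the constant term of `sg t.s` is `t.s.eval 1`
  have h7 : sg t.s = divX (sg t.s) * X + C ((sg t.s).coeff 0) := (divX_mul_X_add _).symm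
  rw [h7, L_add, L_mul, L_X, divX_one, L_zero', zero_add, L_C] at h5
  have h8 : (sg t.s).coeff 0 = 0 := by
    have := congrArg (fun p => p.coeff 0) h5
    simpa using this
  rw [coeff_zero_eq_eval_zero, sg, eval_comp] at h8
  simpa using h8

end Pool.Agent.H5.Mdf592a
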