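import Mathlib

set_option autoImplicit false

namespace Pool.Agent.H5.Me00c87

open scoped commutatorElement

/-- Groups with nilpotent derived subgroup. -/
def FF (X : Type) [Group X] : Prop := Group.IsNilpotent (commutator X)

theorem map_mem {H K : Type} [Group H] [Group K] (f : H →* K) {x : H} (hx : x ∈ commutator H) :
    f x ∈ commutator K := by
  have h1 : f x ∈ (commutator H).map f := Subgroup.mem_map_of_mem f hx
  rw [commutator_def, Subgroup.map_commutator] at h1
  exact Subgroup.commutator_mono le_top le_top h1

/-- The map on derived subgroups. -/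
def cmap {H K : Type} [Group H] [Group K] (f : H →* K) : commutator H →* commutator K :=
  (f.comp (commutator H).subtype).codRestrict (commutator K) (fun x => map_mem f x.2)

theorem cmap_coe {H K : Type} [Group H] [Group K] (f : H →* K) (x : commutator H) :
    (cmap f x : K) = f x := rfl

theorem cmap_surj {H K : Type} [Group H] [Group K] (f : H →* K) (hf : Function.Surjective f) :
    Function.Surjective (cmap f) := by
  rintro ⟨y, hy⟩
  have h1 : (commutator H).map f = commutator K := by
    rw [commutator_def, Subgroup.map_commutator, Subgroup.map_top_of_surjective f hf]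
    rfl
  rw [← h1] at hy
  obtain ⟨x, hx, rfl⟩ := hy
  exact ⟨⟨x, hx⟩, rfl⟩

theorem nilp_of_inj {H K : Type} [Group H] [Group K] (f : H →* K) (hf : Function.Injective f)
    (hK : Group.IsNilpotent K) : Group.IsNilpotent H := by
  refine Subgroup.isNilpotent_of_ker_le_center f ?_
  rw [(MonoidHom.ker_eq_bot_iff f).2 hf]
  exact bot_le

theorem FF_quot {H K : Type} [Group H] [Group K] (f : H →* K) (hf : Function.Surjective f)
    (h : FF H) : FF K := by
  haveI : Group.IsNilpotent (commutator H) := h
  exact Group.nilpotent_of_surjective (cmap f) (cmap_surj f hf)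

theorem FF_sub {K₁ K₂ : Type} [Group K₁] [Group K₂] (S : Subgroup (K₁ × K₂))
    (h1 : FF K₁) (h2 : FF K₂) : FF S := by
  haveI : Group.IsNilpotent (commutator K₁) := h1
  haveI : Group.IsNilpotent (commutator K₂) := h2
  refine nilp_of_inj ((cmap ((MonoidHom.fst K₁ K₂).comp S.subtype)).prod
    (cmap ((MonoidHom.snd K₁ K₂).comp S.subtype))) ?_ inferInstance
  intro x y hxy
  apply Subtype.ext
  apply Subtype.ext
  have h3 := congrArg (fun t => ((t.1 : commutator K₁) : K₁)) hxy
  have h4 := congrArg (fun t => ((t.2 : commutator K₂) : K₂)) hxy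
  exact Prod.ext h3 h4

theorem FF_sat {H K : Type} [Group H] [Group K] [Finite H] (f : H →* K)
    (hf : Function.Surjective f) (hM : ∀ M : Subgroup H, IsCoatom M → f.ker ≤ M) (hK : FF K) :
    FF H := by
  haveI : Finite K := Finite.of_surjective f hf
  have q := (Group.isNilpotent_of_finite_tfae (G := commutator H)).out 0 3
  refine q.2 ?_
  intro p hp P
  have hgs := cmap_surj f hf
  let S : Sylow p (commutator K) := P.mapSurjective hgs
  have q2 := (Group.isNilpotent_of_finite_tfae (G := commutator K)).out 0 3
  have hSn : (S : Subgroup (commutator K)).Normal := q2.1 hK p hp S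
  haveI hSc : (S : Subgroup (commutator K)).Characteristic := S.characteristic_of_normal hSn
  have hT : ((S : Subgroup (commutator K)).map (commutator K).subtype).Normal := inferInstance
  let N : Subgroup H := commutator H ⊓ ((S : Subgroup (commutator K)).map (commutator K).subtype).comap f
  haveI hN : N.Normal := inferInstance
  let Ph : Subgroup H := (P : Subgroup (commutator H)).map (commutator H).subtype
  have hPC : Ph ≤ commutator H := by
    rintro _ ⟨x, _, rfl⟩
    exact x.2
  have hPN : Ph ≤ N := by
    rintro _ ⟨x, hx, rfl⟩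
    refine ⟨x.2, ?_⟩
    refine ⟨cmap f x, ?_, rfl⟩
    exact ⟨x, hx, rfl⟩
  have hrel : Ph.relIndex (commutator H) = (P : Subgroup (commutator H)).index := by
    unfold Subgroup.relIndex
    congr 1
    exact Subgroup.comap_map_eq_self_of_injective Subtype.val_injective _
  have hnd : ¬ p ∣ (Ph.subgroupOf N).index := by
    intro h
    have h2 : Ph.relIndex N * N.relIndex (commutator H) = Ph.relIndex (commutator H) :=
      Subgroup.relIndex_mul_relIndex _ _ _ hPN inf_le_left
    rw [hrel] at h2
    exact P.not_dvd_index (h2 ▸ (Dvd.dvd.mul_right h _))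
  have hpg : IsPGroup p (Ph.subgroupOf N) := by
    have h1 : IsPGroup p Ph := P.isPGroup'.map _
    exact h1.comap_subtype
  have hfr := Sylow.normalizer_sup_eq_top (hpg.toSylow hnd)
  have hmap : ((hpg.toSylow hnd : Sylow p N) : Subgroup N).map N.subtype = Ph := by
    rw [IsPGroup.toSylow_coe]
    rw [Subgroup.map_subgroupOf_eq_of_le hPN]
  rw [hmap] at hfr
  have hnorm : Subgroup.normalizer (Ph : Set H) = ⊤ := by
    by_contra hne
    obtain ⟨M, hMc, hle⟩ := (IsCoatomic.eq_top_or_exists_le_coatom
      (Subgroup.normalizer (Ph : Set H))).resolve_left hne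
    have hNM : N ≤ M := by
      rintro x ⟨hx1, hx2⟩
      obtain ⟨y, hy, hyx⟩ := hx2
      obtain ⟨z, hz, rfl⟩ := hy
      have h3 : f x = f z := hyx.symm
      have h4 : x * (z : H)⁻¹ ∈ f.ker := by
        rw [MonoidHom.mem_ker, map_mul, map_inv, h3, mul_inv_cancel]
      have h5 : (z : H) ∈ M := hle (Subgroup.le_normalizer ⟨z, hz, rfl⟩)
      have h6 := M.mul_mem (hM M hMc h4) h5
      rwa [inv_mul_cancel_right] at h6
    apply hMc.1
    rw [eq_top_iff, ← hfr]
    exact sup_le hle hNM
  have hPn : Ph.Normal := Subgroup.normalizer_eq_top_iff.1 hnorm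
  exact hPn.of_map_subtype

end Pool.Agent.H5.Me00c87
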