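import Pool.Agent.H5.Me00c87A
import Pool.Agent.H5.Mfe3c78A

set_option autoImplicit false

namespace Pool.Agent.H5.Me00c87

open scoped commutatorElement

/-- The Heisenberg group of order 27. -/
@[ext] structure NN where
  x : ZMod 3
  y : ZMod 3
  z : ZMod 3
deriving DecidableEq

namespace NN

instance : Mul NN := ⟨fun a b => ⟨a.x + b.x, a.y + b.y, a.z + b.z + a.x * b.y - a.y * b.x⟩⟩
instance : One NN := ⟨⟨0, 0, 0⟩⟩
instance : Inv NN := ⟨fun a => ⟨-a.x, -a.y, -a.z⟩⟩

theorem mul_x (a b : NN) : (a * b).x = a.x + b.x := rfl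
theorem mul_y (a b : NN) : (a * b).y = a.y + b.y := rfl
theorem mul_z (a b : NN) : (a * b).z = a.z + b.z + a.x * b.y - a.y * b.x := rfl
theorem one_x : (1 : NN).x = 0 := rfl
theorem one_y : (1 : NN).y = 0 := rfl
theorem one_z : (1 : NN).z = 0 := rfl
theorem inv_x (a : NN) : (a⁻¹).x = -a.x := rfl
theorem inv_y (a : NN) : (a⁻¹).y = -a.y := rfl
theorem inv_z (a : NN) : (a⁻¹).z = -a.z := rfl

instance : Group NN :=
  Group.ofLeftAxioms
    (by
      intro a b c
      ext
      · simp only [mul_x]; ring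
      · simp only [mul_y]; ring
      · simp only [mul_x, mul_y, mul_z]; ring)
    (by
      intro a
      ext
      · simp only [mul_x, one_x]; ring
      · simp only [mul_y, one_y]; ring
      · simp only [mul_z, one_x, one_y, one_z]; ring)
    (by
      intro a
      ext
      · simp only [mul_x, one_x, inv_x]; ring
      · simp only [mul_y, one_y, inv_y]; ring
      · simp only [mul_z, one_z, inv_x, inv_y, inv_z]; ring)

instance : Finite NN := by
  have : Function.Injective (fun a : NN => (a.x, a.y, a.z)) := by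
    intro a b h
    exact NN.ext (congrArg (fun t => t.1) h) (congrArg (fun t => t.2.1) h)
      (congrArg (fun t => t.2.2) h)
  exact Finite.of_injective _ this

theorem conj_eq (m n : NN) :
    m * n * m⁻¹ = ⟨n.x, n.y, n.z + 2 * (m.x * n.y - m.y * n.x)⟩ := by
  ext
  · simp only [mul_x, inv_x]; ring
  · simp only [mul_y, inv_y]; ring
  · simp only [mul_x, mul_y, mul_z, inv_x, inv_y, inv_z]; ring

theorem comm_eq (m n : NN) : ⁅m, n⁆ = ⟨0, 0, 2 * (m.x * n.y - m.y * n.x)⟩ := by
  rw [commutatorElement_def, conj_eq]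
  ext
  · simp only [mul_x, inv_x]; ring
  · simp only [mul_y, inv_y]; ring
  · simp only [mul_z, inv_x, inv_y, inv_z]; ring

theorem cube (n : NN) : n ^ 3 = 1 := by
  have h3 : (3 : ZMod 3) = 0 := by decide
  rw [pow_succ, pow_succ, pow_one]
  ext
  · simp only [mul_x, one_x]; linear_combination n.x * h3
  · simp only [mul_y, one_y]; linear_combination n.y * h3
  · simp only [mul_x, mul_y, mul_z, one_z]; linear_combination n.z * h3

/-- Rotation. -/
def rot : NN ≃* NN where
  toFun n := ⟨-n.y, n.x, n.z⟩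
  invFun n := ⟨n.y, -n.x, n.z⟩
  left_inv n := by ext <;> simp
  right_inv n := by ext <;> simp
  map_mul' m n := by
    ext
    · simp only [mul_x, mul_y]; ring
    · simp only [mul_x, mul_y]
    · simp only [mul_z]; ring

/-- Negation on the first two coordinates. -/
def ng : NN ≃* NN where
  toFun n := ⟨-n.x, -n.y, n.z⟩
  invFun n := ⟨-n.x, -n.y, n.z⟩
  left_inv n := by ext <;> simp
  right_inv n := by ext <;> simp
  map_mul' m n := by
    ext
    · simp only [mul_x]; ring
    · simp only [mul_y]; ring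
    · simp only [mul_z]; ring

theorem rot_apply (n : NN) : rot n = ⟨-n.y, n.x, n.z⟩ := rfl
theorem ng_apply (n : NN) : ng n = ⟨-n.x, -n.y, n.z⟩ := rfl

theorem rot_rot (n : NN) : rot (rot n) = ng n := rfl

theorem ng_ng (n : NN) : ng (ng n) = n := by
  ext <;> simp [ng_apply]

end NN

abbrev PP := NN × NN

def al : MulAut PP where
  toFun p := (p.2, NN.rot p.1)
  invFun p := (NN.rot.symm p.2, p.1)
  left_inv p := by simp
  right_inv p := by simp
  map_mul' p q := by simp

def be : MulAut PP where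
  toFun p := (p.1, NN.ng p.2)
  invFun p := (p.1, NN.ng p.2)
  left_inv p := by simp [NN.ng_ng]
  right_inv p := by simp [NN.ng_ng]
  map_mul' p q := by simp

theorem al_apply (p : PP) : al p = (p.2, NN.rot p.1) := rfl
theorem be_apply (p : PP) : be p = (p.1, NN.ng p.2) := rfl

theorem al2 (p : PP) : (al ^ 2) p = (NN.rot p.1, NN.rot p.2) := rfl

theorem al4 (p : PP) : (al ^ 4) p = (NN.ng p.1, NN.ng p.2) := rfl

theorem al8 : al ^ 8 = 1 := by
  have : al ^ 8 = al ^ 4 * al ^ 4 := by rw [← pow_add]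
  rw [this]
  apply MulEquiv.ext
  intro p
  rw [MulAut.mul_apply, al4, al4]
  simp [NN.ng_ng]

theorem be2 : be ^ 2 = 1 := by
  rw [pow_two]
  apply MulEquiv.ext
  intro p
  rw [MulAut.mul_apply, be_apply, be_apply]
  simp [NN.ng_ng]

theorem be_al : be * al = al ^ 5 * be := by
  have h5 : al ^ 5 = al * al ^ 4 := by rw [← pow_succ']
  rw [h5]
  apply MulEquiv.ext
  intro p
  rw [MulAut.mul_apply, MulAut.mul_apply, MulAut.mul_apply, al_apply, be_apply, be_apply, al4,
    al_apply]
  simp only [NN.ng_ng]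
  refine Prod.ext rfl ?_
  ext <;> simp [NN.ng_apply, NN.rot_apply]

/-- The modular group of order 16. -/
@[ext] structure HH where
  k : ZMod 8
  l : ZMod 2
deriving DecidableEq, Fintype

namespace HH

instance : Mul HH := ⟨fun a b => ⟨a.k + b.k + 4 * (a.l.val : ZMod 8) * b.k, a.l + b.l⟩⟩
instance : One HH := ⟨⟨0, 0⟩⟩
instance : Inv HH := ⟨fun a => ⟨-(a.k + 4 * (a.l.val : ZMod 8) * a.k), a.l⟩⟩

set_option maxRecDepth 100000 in
theorem assoc' : ∀ a b c : HH, a * b * c = a * (b * c) := by
  decide +kernel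

instance : Group HH :=
  Group.ofLeftAxioms assoc' (by decide +kernel) (by decide +kernel)

theorem mul_def (a b : HH) : a * b = ⟨a.k + b.k + 4 * (a.l.val : ZMod 8) * b.k, a.l + b.l⟩ := rfl

end HH

theorem be_pow (l m : ℕ) (hl : l < 2) : be ^ l * al ^ m = al ^ ((1 + 4 * l) * m) * be ^ l := by
  interval_cases l
  · simp
  · have h1 : SemiconjBy be al (al ^ 5) := be_al
    have h2 := h1.pow_right m
    rw [← pow_mul] at h2
    rw [pow_one]
    exact h2

/-- The action. -/
def ph : HH →* MulAut PP where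
  toFun h := al ^ h.k.val * be ^ h.l.val
  map_one' := by
    show al ^ 0 * be ^ 0 = 1
    simp
  map_mul' a b := by
    have h1 : a.l.val < 2 := ZMod.val_lt _
    have h2 : al ^ a.k.val * be ^ a.l.val * (al ^ b.k.val * be ^ b.l.val) =
        al ^ (a.k.val + (1 + 4 * a.l.val) * b.k.val) * be ^ (a.l.val + b.l.val) := by
      rw [pow_add, pow_add, mul_assoc, ← mul_assoc (be ^ a.l.val), be_pow _ _ h1]
      simp only [mul_assoc]
    rw [h2]
    have h3 : al ^ (a * b).k.val = al ^ (a.k.val + (1 + 4 * a.l.val) * b.k.val) := by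
      apply pow_eq_pow_iff_modEq.2
      refine Nat.ModEq.of_dvd (orderOf_dvd_of_pow_eq_one al8) ?_
      have : ∀ a b : HH, (a * b).k.val % 8 = (a.k.val + (1 + 4 * a.l.val) * b.k.val) % 8 := by
        decide +kernel
      exact this a b
    have h4 : be ^ (a * b).l.val = be ^ (a.l.val + b.l.val) := by
      apply pow_eq_pow_iff_modEq.2
      refine Nat.ModEq.of_dvd (orderOf_dvd_of_pow_eq_one be2) ?_
      have : ∀ a b : HH, (a * b).l.val % 2 = (a.l.val + b.l.val) % 2 := by
        decide +kernel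
      exact this a b
    rw [h3, h4]

theorem ph_a (p : PP) : ph ⟨1, 0⟩ p = (p.2, NN.rot p.1) := rfl
theorem ph_b (p : PP) : ph ⟨0, 1⟩ p = (p.1, NN.ng p.2) := rfl
theorem ph_z (p : PP) : ph ⟨4, 0⟩ p = (NN.ng p.1, NN.ng p.2) := rfl

abbrev GG := PP ⋊[ph] HH

end Pool.Agent.H5.Me00c87
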