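import Pool.Agent.H5.Me00c87B

set_option autoImplicit false

namespace Pool.Agent.H5.Me00c87

open scoped commutatorElement

/-- The central part. -/
def inZ (p : PP) : Prop := p.1.x = 0 ∧ p.1.y = 0 ∧ p.2.x = 0 ∧ p.2.y = 0

abbrev V4 := ZMod 3 × ZMod 3 × ZMod 3 × ZMod 3

def rho (p : PP) : V4 := (p.1.x, p.1.y, p.2.x, p.2.y)

theorem rho_mul (p q : PP) : rho (p * q) = rho p + rho q := rfl
theorem rho_inv (p : PP) : rho p⁻¹ = -rho p := rfl
theorem rho_one : rho 1 = 0 := rfl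
theorem rho_conj (m n : PP) : rho (m * n * m⁻¹) = rho n := by
  rw [rho_mul, rho_mul, rho_inv]
  abel

/-- The image of a subgroup in `V4`. -/
def SS (Q : Subgroup PP) : AddSubgroup V4 where
  carrier := {v | ∃ n ∈ Q, rho n = v}
  add_mem' := by
    rintro _ _ ⟨n, hn, rfl⟩ ⟨m, hm, rfl⟩
    exact ⟨n * m, Q.mul_mem hn hm, rho_mul n m⟩
  zero_mem' := ⟨1, Q.one_mem, rho_one⟩
  neg_mem' := by
    rintro _ ⟨n, hn, rfl⟩
    exact ⟨n⁻¹, Q.inv_mem hn, rho_inv n⟩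

theorem SS_top (Q : Subgroup PP) (hK : ∀ h : HH, ∀ n ∈ Q, ∃ m : PP, m * ph h n * m⁻¹ ∈ Q)
    (v : V4) (hv : v ≠ 0) (hvS : v ∈ SS Q) (w : V4) : w ∈ SS Q := by
  have hA : ∀ v1 v2 v3 v4 : ZMod 3, ((v1, v2, v3, v4) : V4) ∈ SS Q →
      ((v3, v4, -v2, v1) : V4) ∈ SS Q := by
    rintro v1 v2 v3 v4 ⟨n, hn, hr⟩
    obtain ⟨m, hm⟩ := hK ⟨1, 0⟩ n hn
    refine ⟨_, hm, ?_⟩
    rw [rho_conj, ph_a]
    have h1 : n.1.x = v1 := congrArg (fun t : V4 => t.1) hr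
    have h2 : n.1.y = v2 := congrArg (fun t : V4 => t.2.1) hr
    have h3 : n.2.x = v3 := congrArg (fun t : V4 => t.2.2.1) hr
    have h4 : n.2.y = v4 := congrArg (fun t : V4 => t.2.2.2) hr
    rw [← h1, ← h2, ← h3, ← h4]
    rfl
  have hB : ∀ v1 v2 v3 v4 : ZMod 3, ((v1, v2, v3, v4) : V4) ∈ SS Q →
      ((v1, v2, -v3, -v4) : V4) ∈ SS Q := by
    rintro v1 v2 v3 v4 ⟨n, hn, hr⟩
    obtain ⟨m, hm⟩ := hK ⟨0, 1⟩ n hn
    refine ⟨_, hm, ?_⟩
    rw [rho_conj, ph_b]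
    have h1 : n.1.x = v1 := congrArg (fun t : V4 => t.1) hr
    have h2 : n.1.y = v2 := congrArg (fun t : V4 => t.2.1) hr
    have h3 : n.2.x = v3 := congrArg (fun t : V4 => t.2.2.1) hr
    have h4 : n.2.y = v4 := congrArg (fun t : V4 => t.2.2.2) hr
    rw [← h1, ← h2, ← h3, ← h4]
    rfl
  have h3 : (3 : ZMod 3) = 0 := by decide
  have hlr : ∀ v1 v2 v3 v4 : ZMod 3, ((v1, v2, v3, v4) : V4) ∈ SS Q →
      ((v1, v2, 0, 0) : V4) ∈ SS Q ∧ ((0, 0, v3, v4) : V4) ∈ SS Q := by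
    intro v1 v2 v3 v4 h
    have h1 := (SS Q).neg_mem ((SS Q).add_mem h (hB _ _ _ _ h))
    have h2 := (SS Q).neg_mem ((SS Q).sub_mem h (hB _ _ _ _ h))
    constructor
    · convert h1 using 1
      refine Prod.ext ?_ (Prod.ext ?_ (Prod.ext ?_ ?_))
      · show v1 = -(v1 + v1)
        linear_combination v1 * h3
      · show v2 = -(v2 + v2)
        linear_combination v2 * h3
      · show 0 = -(v3 + -v3)
        ring
      · show 0 = -(v4 + -v4)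
        ring
    · convert h2 using 1
      refine Prod.ext ?_ (Prod.ext ?_ (Prod.ext ?_ ?_))
      · show 0 = -(v1 - v1)
        ring
      · show 0 = -(v2 - v2)
        ring
      · show v3 = -(v3 - -v3)
        linear_combination v3 * h3
      · show v4 = -(v4 - -v4)
        linear_combination v4 * h3
  have hu : ∃ u1 u2 : ZMod 3, (u1 ≠ 0 ∨ u2 ≠ 0) ∧ ((u1, u2, 0, 0) : V4) ∈ SS Q := by
    obtain ⟨v1, v2, v3, v4⟩ := v
    obtain ⟨h1, h2⟩ := hlr _ _ _ _ hvS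
    by_cases h5 : v1 = 0 ∧ v2 = 0
    · refine ⟨v3, v4, ?_, ?_⟩
      · by_contra hc
        push Not at hc
        apply hv
        rw [h5.1, h5.2, hc.1, hc.2]
        rfl
      · have := hA _ _ _ _ h2
        simpa using this
    · refine ⟨v1, v2, ?_, h1⟩
      by_contra hc
      push Not at hc
      exact h5 hc
  obtain ⟨u1, u2, hu0, huS⟩ := hu
  have huS' : ((-u2, u1, 0, 0) : V4) ∈ SS Q := by
    have h1 := hA _ _ _ _ (hA _ _ _ _ huS)
    simpa using h1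
  have hall : ∀ w1 w2 : ZMod 3, ((w1, w2, 0, 0) : V4) ∈ SS Q := by
    intro w1 w2
    have hdec : ∀ u1 u2 w1 w2 : ZMod 3, (u1 ≠ 0 ∨ u2 ≠ 0) → ∃ c d : Fin 3,
        w1 = (c : ℕ) * u1 + (d : ℕ) * (-u2) ∧ w2 = (c : ℕ) * u2 + (d : ℕ) * u1 := by
      decide +kernel
    obtain ⟨c, d, h1, h2⟩ := hdec u1 u2 w1 w2 hu0
    have h5 := (SS Q).add_mem ((SS Q).nsmul_mem huS (c : ℕ)) ((SS Q).nsmul_mem huS' (d : ℕ))
    convert h5 using 1
    refine Prod.ext ?_ (Prod.ext ?_ (Prod.ext ?_ ?_))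
    · show w1 = (c : ℕ) • u1 + (d : ℕ) • (-u2)
      rw [nsmul_eq_mul, nsmul_eq_mul]
      exact h1
    · show w2 = (c : ℕ) • u2 + (d : ℕ) • u1
      rw [nsmul_eq_mul, nsmul_eq_mul]
      exact h2
    · show (0 : ZMod 3) = (c : ℕ) • 0 + (d : ℕ) • 0
      simp
    · show (0 : ZMod 3) = (c : ℕ) • 0 + (d : ℕ) • 0
      simp
  obtain ⟨w1, w2, w3, w4⟩ := w
  have h6 := hall w1 w2
  have h7 := hA _ _ _ _ (hall w4 (-w3))
  have h8 := (SS Q).add_mem h6 h7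
  convert h8 using 1
  refine Prod.ext ?_ (Prod.ext ?_ (Prod.ext ?_ ?_))
  · show w1 = w1 + 0
    ring
  · show w2 = w2 + 0
    ring
  · show w3 = 0 + - -w3
    ring
  · show w4 = 0 + w4
    ring

theorem comm_rho (p q p' q' : PP) (h1 : rho p = rho p') (h2 : rho q = rho q') :
    ⁅p, q⁆ = ⁅p', q'⁆ := by
  have a1 : p.1.x = p'.1.x := congrArg (fun t : V4 => t.1) h1
  have a2 : p.1.y = p'.1.y := congrArg (fun t : V4 => t.2.1) h1
  have a3 : p.2.x = p'.2.x := congrArg (fun t : V4 => t.2.2.1) h1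
  have a4 : p.2.y = p'.2.y := congrArg (fun t : V4 => t.2.2.2) h1
  have b1 : q.1.x = q'.1.x := congrArg (fun t : V4 => t.1) h2
  have b2 : q.1.y = q'.1.y := congrArg (fun t : V4 => t.2.1) h2
  have b3 : q.2.x = q'.2.x := congrArg (fun t : V4 => t.2.2.1) h2
  have b4 : q.2.y = q'.2.y := congrArg (fun t : V4 => t.2.2.2) h2
  refine Prod.ext ?_ ?_
  · show ⁅p.1, q.1⁆ = ⁅p'.1, q'.1⁆
    rw [NN.comm_eq, NN.comm_eq, a1, a2, b1, b2]
  · show ⁅p.2, q.2⁆ = ⁅p'.2, q'.2⁆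
    rw [NN.comm_eq, NN.comm_eq, a3, a4, b3, b4]

theorem Q_top (Q : Subgroup PP) (hK : ∀ h : HH, ∀ n ∈ Q, ∃ m : PP, m * ph h n * m⁻¹ ∈ Q)
    (n : PP) (hn : n ∈ Q) (hnz : ¬ inZ n) : Q = ⊤ := by
  have hall := SS_top Q hK (rho n) (by
    intro h
    apply hnz
    exact ⟨congrArg (fun t : V4 => t.1) h, congrArg (fun t : V4 => t.2.1) h,
      congrArg (fun t : V4 => t.2.2.1) h, congrArg (fun t : V4 => t.2.2.2) h⟩) ⟨n, hn, rfl⟩
  have hZ : ∀ p : PP, inZ p → p ∈ Q := by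
    intro p hp
    obtain ⟨q1, hq1, h1⟩ := hall (1, 0, 1, 0)
    obtain ⟨q2, hq2, h2⟩ := hall (0, 2 * p.1.z, 0, 2 * p.2.z)
    have h3 : p = ⁅q1, q2⁆ := by
      rw [comm_rho q1 q2 (⟨1, 0, 0⟩, ⟨1, 0, 0⟩) (⟨0, 2 * p.1.z, 0⟩, ⟨0, 2 * p.2.z, 0⟩) h1 h2]
      have h4 : (3 : ZMod 3) = 0 := by decide
      refine Prod.ext ?_ ?_
      · show p.1 = ⁅(⟨1, 0, 0⟩ : NN), (⟨0, 2 * p.1.z, 0⟩ : NN)⁆
        rw [NN.comm_eq]
        refine NN.ext hp.1 hp.2.1 ?_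
        show p.1.z = 2 * (1 * (2 * p.1.z) - 0 * 0)
        linear_combination (-p.1.z) * h4
      · show p.2 = ⁅(⟨1, 0, 0⟩ : NN), (⟨0, 2 * p.2.z, 0⟩ : NN)⁆
        rw [NN.comm_eq]
        refine NN.ext hp.2.2.1 hp.2.2.2 ?_
        show p.2.z = 2 * (1 * (2 * p.2.z) - 0 * 0)
        linear_combination (-p.2.z) * h4
    rw [h3, commutatorElement_def]
    exact Q.mul_mem (Q.mul_mem (Q.mul_mem hq1 hq2) (Q.inv_mem hq1)) (Q.inv_mem hq2)
  rw [eq_top_iff]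
  intro p _
  obtain ⟨q, hq, hr⟩ := hall (rho p)
  have h5 : inZ (p * q⁻¹) := by
    have : rho (p * q⁻¹) = 0 := by
      rw [rho_mul, rho_inv, hr]
      abel
    exact ⟨congrArg (fun t : V4 => t.1) this, congrArg (fun t : V4 => t.2.1) this,
      congrArg (fun t : V4 => t.2.2.1) this, congrArg (fun t : V4 => t.2.2.2) this⟩
  have h6 := Q.mul_mem (hZ _ h5) hq
  rwa [inv_mul_cancel_right] at h6

theorem conj_inl (g : GG) (n : PP) :
    g * SemidirectProduct.inl n * g⁻¹ = SemidirectProduct.inl (g.left * ph g.right n * g.left⁻¹) := by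
  apply SemidirectProduct.ext
  · simp
  · simp

theorem eq_inl (g : GG) (hg : g.right = 1) : g = SemidirectProduct.inl g.left :=
  SemidirectProduct.ext rfl hg

/-- The subgroup `{1, z}` of `HH`. -/
def TT : Subgroup HH where
  carrier := {h | h = 1 ∨ h = ⟨4, 0⟩}
  mul_mem' := by
    rintro _ _ (rfl | rfl) (rfl | rfl)
    · left; decide
    · right; decide
    · right; decide
    · left; decide
  one_mem' := Or.inl rfl
  inv_mem' := by
    rintro _ (rfl | rfl)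
    · left; decide
    · right; decide

theorem comm_HH : commutator HH ≤ TT := by
  rw [commutator_def, Subgroup.commutator_le]
  intro a _ b _
  have : ∀ a b : HH, a * b * a⁻¹ * b⁻¹ = 1 ∨ a * b * a⁻¹ * b⁻¹ = ⟨4, 0⟩ := by
    decide +kernel
  exact this a b

theorem ph_fix (h : HH) (hh : h ∈ commutator HH) (n : PP) (hn : inZ n) : ph h n = n := by
  rcases comm_HH hh with rfl | rfl
  · rw [map_one]
    rfl
  · rw [ph_z]
    refine Prod.ext ?_ ?_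
    · refine NN.ext ?_ ?_ rfl
      · show -n.1.x = n.1.x
        rw [hn.1, neg_zero]
      · show -n.1.y = n.1.y
        rw [hn.2.1, neg_zero]
    · refine NN.ext ?_ ?_ rfl
      · show -n.2.x = n.2.x
        rw [hn.2.2.1, neg_zero]
      · show -n.2.y = n.2.y
        rw [hn.2.2.2, neg_zero]

theorem conj_fix (m n : PP) (hn : inZ n) : m * n * m⁻¹ = n := by
  refine Prod.ext ?_ ?_
  · show m.1 * n.1 * m.1⁻¹ = n.1
    rw [NN.conj_eq, hn.1, hn.2.1]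
    refine NN.ext hn.1.symm hn.2.1.symm ?_
    show n.1.z + 2 * (m.1.x * 0 - m.1.y * 0) = n.1.z
    ring
  · show m.2 * n.2 * m.2⁻¹ = n.2
    rw [NN.conj_eq, hn.2.2.1, hn.2.2.2]
    refine NN.ext hn.2.2.1.symm hn.2.2.2.symm ?_
    show n.2.z + 2 * (m.2.x * 0 - m.2.y * 0) = n.2.z
    ring

theorem HH_nilp : Group.IsNilpotent HH := by
  have h1 : IsPGroup 2 HH := IsPGroup.of_card (n := 4) (by
    rw [Nat.card_eq_fintype_card]
    decide +kernel)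
  haveI : Fact (Nat.Prime 2) := ⟨Nat.prime_two⟩
  exact h1.isNilpotent

theorem HH_min (S : Subgroup HH) (hS : S ≠ ⊤) (x y : HH) (hx : x ∈ S) (hy : y ∈ S) :
    x * y = y * x := by
  by_contra hne
  apply hS
  have hdec : ∀ x y : HH, x * y ≠ y * x → ∀ g : HH, ∃ i : Fin 8, ∃ j : Fin 2,
      g = x ^ (i : ℕ) * y ^ (j : ℕ) ∨ g = y ^ (i : ℕ) * x ^ (j : ℕ) := by
    decide +kernel
  rw [eq_top_iff]
  intro g _
  obtain ⟨i, j, h | h⟩ := hdec x y hne g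
  · rw [h]
    exact S.mul_mem (S.pow_mem hx _) (S.pow_mem hy _)
  · rw [h]
    exact S.mul_mem (S.pow_mem hy _) (S.pow_mem hx _)

end Pool.Agent.H5.Me00c87
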