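import Pool.Agent.H5.Me00c87C

set_option autoImplicit false

namespace Pool.Agent.H5.Me00c87

open scoped commutatorElement
open Pool.Agent.H5.Mfe3c78 (iter iter_map iter_mem_lcs)

instance : Finite GG := by
  have : Function.Injective (fun g : GG => (g.left, g.right)) := by
    intro a b h
    exact SemidirectProduct.ext (congrArg Prod.fst h) (congrArg Prod.snd h)
  exact Finite.of_injective _ this

abbrev pr : GG →* HH := SemidirectProduct.rightHom

theorem pr_surj : Function.Surjective pr := SemidirectProduct.rightHom_surjective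

theorem cubeP (n : PP) : n ^ 3 = 1 := Prod.ext (NN.cube _) (NN.cube _)

theorem FF_proper (K : Subgroup GG) (hK : K ≠ ⊤) : FF K := by
  by_cases hmap : K.map pr = ⊤
  · -- the image is everything
    let Q : Subgroup PP := K.comap SemidirectProduct.inl
    have hQ : ∀ h : HH, ∀ n ∈ Q, ∃ m : PP, m * ph h n * m⁻¹ ∈ Q := by
      intro h n hn
      have h1 : h ∈ K.map pr := by
        rw [hmap]
        exact Subgroup.mem_top _
      obtain ⟨g, hg, rfl⟩ := h1
      refine ⟨g.left, ?_⟩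
      show SemidirectProduct.inl _ ∈ K
      have h2 := conj_inl g n
      rw [show pr g = g.right from rfl, ← h2]
      exact K.mul_mem (K.mul_mem hg hn) (K.inv_mem hg)
    have hQZ : ∀ n ∈ Q, inZ n := by
      intro n hn
      by_contra hnz
      have htop := Q_top Q hQ n hn hnz
      apply hK
      rw [eq_top_iff]
      intro g _
      have h1 : pr g ∈ K.map pr := by
        rw [hmap]
        exact Subgroup.mem_top _
      obtain ⟨k, hk, hkg⟩ := h1
      have h2 : (g * k⁻¹).right = 1 := by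
        show pr (g * k⁻¹) = 1
        rw [map_mul, map_inv, hkg, mul_inv_cancel]
      have h3 := eq_inl _ h2
      have h4 : (g * k⁻¹).left ∈ Q := by
        rw [htop]
        exact Subgroup.mem_top _
      have h5 : g * k⁻¹ ∈ K := by
        rw [h3]
        exact h4
      have h6 := K.mul_mem h5 hk
      rwa [inv_mul_cancel_right] at h6
    haveI := HH_nilp
    refine Subgroup.isNilpotent_of_ker_le_center
      ((pr.comp K.subtype).comp (commutator K).subtype) ?_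
    intro k hk
    rw [Subgroup.mem_center_iff]
    intro k'
    have h1 : ((k : K) : GG).right = 1 := hk
    have h2 := eq_inl _ h1
    set n := ((k : K) : GG).left with hn
    have h3 : n ∈ Q := by
      show SemidirectProduct.inl n ∈ K
      rw [← h2]
      exact (k : K).2
    have h4 : ((k' : K) : GG).right ∈ commutator HH := map_mem (pr.comp K.subtype) k'.2
    apply Subtype.ext
    apply Subtype.ext
    show ((k' : K) : GG) * ((k : K) : GG) = ((k : K) : GG) * ((k' : K) : GG)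
    have h5 := conj_inl ((k' : K) : GG) n
    rw [ph_fix _ h4 n (hQZ n h3), conj_fix _ n (hQZ n h3), ← h2] at h5
    exact mul_inv_eq_iff_eq_mul.1 h5
  · have h1 : commutator K ≤ (pr.comp K.subtype).ker := by
      rw [commutator_def, Subgroup.commutator_le]
      intro a _ b _
      rw [MonoidHom.mem_ker, map_commutatorElement, commutatorElement_eq_one_iff_mul_comm]
      exact HH_min _ hmap _ _ ⟨a, a.2, rfl⟩ ⟨b, b.2, rfl⟩
    have h2 : IsPGroup 3 (commutator K) := by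
      intro k
      refine ⟨1, ?_⟩
      have h3 : ((k : K) : GG).right = 1 := h1 k.2
      apply Subtype.ext
      apply Subtype.ext
      show ((k : K) : GG) ^ 3 ^ 1 = 1
      rw [eq_inl _ h3, pow_one, ← map_pow, cubeP, map_one]
    haveI : Fact (Nat.Prime 3) := ⟨Nat.prime_three⟩
    exact h2.isNilpotent

theorem comm_inl_inr (n : PP) (h : HH) :
    ⁅(SemidirectProduct.inl n : GG), (SemidirectProduct.inr h : GG)⁆ =
      SemidirectProduct.inl (n * (ph h n)⁻¹) := by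
  rw [commutatorElement_def]
  apply SemidirectProduct.ext
  · simp
  · simp

/-- The basic sequence. -/
def ww : ℕ → GG := fun i =>
  if i = 0 then SemidirectProduct.inl (⟨1, 0, 0⟩, 1) else SemidirectProduct.inr ⟨4, 0⟩

theorem step (c : ZMod 3) :
    ⁅(SemidirectProduct.inl ((⟨c, 0, 0⟩, 1) : PP) : GG), (SemidirectProduct.inr ⟨4, 0⟩ : GG)⁆ =
      SemidirectProduct.inl ((⟨-c, 0, 0⟩, 1) : PP) := by
  rw [comm_inl_inr, ph_z]
  congr 1
  have h4 : (3 : ZMod 3) = 0 := by decide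
  refine Prod.ext ?_ ?_
  · refine NN.ext ?_ ?_ ?_
    · show c + - -c = -c
      linear_combination c * h4
    · show (0 : ZMod 3) + - -0 = 0
      ring
    · show (0 : ZMod 3) + -0 + c * - -0 - 0 * - -c = 0
      ring
  · rw [show NN.ng (1 : NN) = 1 from map_one NN.ng]
    simp

theorem iter_ww (k : ℕ) :
    iter ww k = SemidirectProduct.inl ((⟨(-1) ^ k, 0, 0⟩, 1) : PP) := by
  induction k with
  | zero =>
    rw [pow_zero]
    rfl
  | succ k ih =>
    show ⁅iter ww k, ww (k + 1)⁆ = _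
    rw [ih]
    have h1 := step ((-1) ^ k)
    rw [pow_succ, mul_neg_one]
    exact h1

theorem ww_mem (i : ℕ) : ww i ∈ commutator GG := by
  unfold ww
  split_ifs
  · have h1 := step (-1)
    rw [neg_neg] at h1
    rw [← h1]
    exact Subgroup.commutator_mem_commutator (Subgroup.mem_top _) (Subgroup.mem_top _)
  · have h1 : (⟨4, 0⟩ : HH) = ⁅(⟨1, 0⟩ : HH), (⟨0, 1⟩ : HH)⁆ := by
      rw [commutatorElement_def]
      decide +kernel
    rw [h1, map_commutatorElement]
    exact Subgroup.commutator_mem_commutator (Subgroup.mem_top _) (Subgroup.mem_top _)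

theorem resid {H : Type} [Group H] (f : GG →* H) (hH : FF H) : pr.ker ≤ f.ker := by
  let Q : Subgroup PP := f.ker.comap SemidirectProduct.inl
  have hQ : ∀ h : HH, ∀ n ∈ Q, ∃ m : PP, m * ph h n * m⁻¹ ∈ Q := by
    intro h n hn
    refine ⟨1, ?_⟩
    show SemidirectProduct.inl _ ∈ f.ker
    have h2 := conj_inl (SemidirectProduct.inr h) n
    rw [SemidirectProduct.left_inr, SemidirectProduct.right_inr] at h2
    rw [← h2]
    have hn' : (SemidirectProduct.inl n : GG) ∈ f.ker := hn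
    exact (inferInstance : f.ker.Normal).conj_mem _ hn' _
  by_cases hz : ∀ n ∈ Q, inZ n
  · exfalso
    have hnil : Group.IsNilpotent (commutator H) := hH
    rw [Subgroup.nilpotent_iff_lowerCentralSeries] at hnil
    obtain ⟨c, hc⟩ := hnil
    have h1 := iter_mem_lcs (fun i => cmap f ⟨ww i, ww_mem i⟩) c
    rw [hc, Subgroup.mem_bot] at h1
    have h2 := iter_map (commutator H).subtype (fun i => cmap f ⟨ww i, ww_mem i⟩) c
    rw [h1, map_one] at h2
    have h3 := iter_map f ww c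
    have h4 : f (iter ww c) = 1 := h3.trans h2.symm
    rw [iter_ww] at h4
    have h5 := hz _ h4
    have h6 : ((-1 : ZMod 3)) ^ c = 0 := h5.1
    have h7 : IsUnit ((-1 : ZMod 3) ^ c) := (isUnit_one.neg).pow c
    rw [h6] at h7
    exact not_isUnit_zero h7
  · push Not at hz
    obtain ⟨n, hn, hnz⟩ := hz
    have htop := Q_top Q hQ n hn hnz
    intro g hg
    have h1 : g.right = 1 := hg
    rw [eq_inl g h1]
    show g.left ∈ Q
    rw [htop]
    exact Subgroup.mem_top _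

theorem not_FF : ¬ FF GG := by
  intro h
  have h1 := resid (MonoidHom.id GG) h
  have h2 : (SemidirectProduct.inl ((⟨1, 0, 0⟩, 1) : PP) : GG) ∈ (MonoidHom.id GG).ker := by
    apply h1
    exact SemidirectProduct.rightHom_inl _
  have h3 : (SemidirectProduct.inl ((⟨1, 0, 0⟩, 1) : PP) : GG) = 1 := h2
  have h4 := congrArg (fun g : GG => g.left.1.x) h3
  have h5 : (1 : ZMod 3) = 0 := h4
  exact absurd h5 (by decide)

theorem FF_HH : FF HH := by
  haveI := HH_nilp
  exact (inferInstance : Group.IsNilpotent (commutator HH))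

theorem syl : ∃ P : Sylow 3 GG, (P : Subgroup GG) = pr.ker := by
  haveI : Fact (Nat.Prime 3) := ⟨Nat.prime_three⟩
  have h1 : IsPGroup 3 pr.ker := by
    intro k
    refine ⟨1, ?_⟩
    have h3 : (k : GG).right = 1 := k.2
    apply Subtype.ext
    show (k : GG) ^ 3 ^ 1 = 1
    rw [eq_inl _ h3, pow_one, ← map_pow, cubeP, map_one]
  have h2 : ¬ 3 ∣ pr.ker.index := by
    rw [Subgroup.index_ker, MonoidHom.range_eq_top.2 pr_surj, Subgroup.card_top,
      Nat.card_eq_fintype_card]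
    have : Fintype.card HH = 16 := by decide +kernel
    rw [this]
    decide
  exact ⟨h1.toSylow h2, rfl⟩

theorem solv : IsSolvable GG := by
  haveI : Fact (Nat.Prime 3) := ⟨Nat.prime_three⟩
  haveI := HH_nilp
  have h1 : IsPGroup 3 PP := fun g => ⟨1, by rw [pow_one]; exact cubeP g⟩
  haveI := h1.isNilpotent
  exact solvable_of_ker_le_range (SemidirectProduct.inl : PP →* GG) pr (by
    rw [SemidirectProduct.range_inl_eq_ker_rightHom])

theorem three_aux : ¬ ((0 : ZMod 3) + 0 + 1 * 1 - 0 * 0 = 0 + 0 + 0 * 0 - 1 * 1) := by decide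

theorem unitary (n : ℕ) (hn : 0 < n) (φ : GaloisField 3 (2 * n) × GaloisField 3 (2 * n) → GG)
    (hs : ∀ g ∈ pr.ker, ∃ x : GaloisField 3 (2 * n) × GaloisField 3 (2 * n),
      x.2 + x.2 ^ (3 ^ n) + x.1 ^ (3 ^ n + 1) = 0 ∧ φ x = g)
    (hm : ∀ x y : GaloisField 3 (2 * n) × GaloisField 3 (2 * n),
      x.2 + x.2 ^ (3 ^ n) + x.1 ^ (3 ^ n + 1) = 0 →
      y.2 + y.2 ^ (3 ^ n) + y.1 ^ (3 ^ n + 1) = 0 →
      φ (x.1 + y.1, x.2 + y.2 - x.1 * y.1 ^ (3 ^ n)) = φ x * φ y)
    (hr : ∀ x : GaloisField 3 (2 * n) × GaloisField 3 (2 * n),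
      x.2 + x.2 ^ (3 ^ n) + x.1 ^ (3 ^ n + 1) = 0 → φ x ∈ pr.ker) : False := by
  haveI : Fact (Nat.Prime 3) := ⟨Nat.prime_three⟩
  have hq2 : ∀ a : GaloisField 3 (2 * n), (a ^ 3 ^ n) ^ 3 ^ n = a := by
    intro a
    rw [← pow_mul, ← pow_add]
    haveI : Fintype (GaloisField 3 (2 * n)) := Fintype.ofFinite _
    have h1 := FiniteField.pow_card a
    rw [← Nat.card_eq_fintype_card, GaloisField.card 3 (2 * n) (by omega)] at h1
    rwa [← two_mul]
  have h3 : (3 : GaloisField 3 (2 * n)) = 0 := by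
    have := CharP.cast_eq_zero (GaloisField 3 (2 * n)) 3
    exact_mod_cast this
  have hfr : ∀ a b : GaloisField 3 (2 * n), (a - b) ^ 3 ^ n = a ^ 3 ^ n - b ^ 3 ^ n :=
    fun a b => sub_pow_char_pow a b n
  obtain ⟨x, hx, hx1⟩ := hs (SemidirectProduct.inl ((⟨1, 0, 0⟩, 1) : PP))
    (SemidirectProduct.rightHom_inl _)
  obtain ⟨w, hw, hw1⟩ := hs (SemidirectProduct.inl ((⟨0, 1, 0⟩, 1) : PP))
    (SemidirectProduct.rightHom_inl _)
  obtain ⟨y1, hy1, hy11⟩ := hs (SemidirectProduct.inl ((1, ⟨1, 0, 0⟩) : PP))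
    (SemidirectProduct.rightHom_inl _)
  obtain ⟨y2, hy2, hy21⟩ := hs (SemidirectProduct.inl ((1, ⟨0, 1, 0⟩) : PP))
    (SemidirectProduct.rightHom_inl _)
  have hq0 : (3 ^ n : ℕ) ≠ 0 := by positivity
  have hx0 : x.1 ≠ 0 := by
    intro h0
    have e1 := hm x w hx hw
    have e2 := hm w x hw hx
    rw [h0, zero_mul, sub_zero, zero_add] at e1
    rw [h0, zero_pow hq0, mul_zero, sub_zero, add_zero, add_comm w.2] at e2
    rw [e1, hx1, hw1, ← map_mul, ← map_mul] at e2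
    have e3 := SemidirectProduct.inl_injective e2
    have e4 := congrArg (fun p : PP => p.1.z) e3
    have e5 : (0 : ZMod 3) + 0 + 1 * 1 - 0 * 0 = 0 + 0 + 0 * 0 - 1 * 1 := e4
    exact three_aux e5
  set t := y2.1 * y1.1 ^ 3 ^ n with ht
  set a := t / x.1 ^ 3 ^ n with ha
  have hax : a * x.1 ^ 3 ^ n = t := div_mul_cancel₀ _ (pow_ne_zero _ hx0)
  have hax2 : x.1 * a ^ 3 ^ n = t ^ 3 ^ n := by
    rw [← hax, mul_pow, hq2]
    exact mul_comm _ _
  have hy12 : y1.1 * y2.1 ^ 3 ^ n = t ^ 3 ^ n := by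
    rw [ht, mul_pow, hq2]
    exact mul_comm _ _
  have hA : (a, a ^ (3 ^ n + 1)).2 + (a, a ^ (3 ^ n + 1)).2 ^ (3 ^ n) +
      (a, a ^ (3 ^ n + 1)).1 ^ (3 ^ n + 1) = 0 := by
    show a ^ (3 ^ n + 1) + (a ^ (3 ^ n + 1)) ^ 3 ^ n + a ^ (3 ^ n + 1) = 0
    have h5 : (a ^ (3 ^ n + 1)) ^ 3 ^ n = a ^ (3 ^ n + 1) := by
      rw [pow_succ, mul_pow, hq2]
      exact mul_comm _ _
    rw [h5]
    linear_combination a ^ (3 ^ n + 1) * h3
  have hC : ((0 : GaloisField 3 (2 * n)), t - t ^ 3 ^ n).2 +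
      ((0 : GaloisField 3 (2 * n)), t - t ^ 3 ^ n).2 ^ (3 ^ n) +
      ((0 : GaloisField 3 (2 * n)), t - t ^ 3 ^ n).1 ^ (3 ^ n + 1) = 0 := by
    show t - t ^ 3 ^ n + (t - t ^ 3 ^ n) ^ 3 ^ n + 0 ^ (3 ^ n + 1) = 0
    rw [hfr, hq2, zero_pow (Nat.succ_ne_zero _)]
    ring
  have key : ∀ u v : GaloisField 3 (2 * n) × GaloisField 3 (2 * n),
      u.2 + u.2 ^ (3 ^ n) + u.1 ^ (3 ^ n + 1) = 0 →
      v.2 + v.2 ^ (3 ^ n) + v.1 ^ (3 ^ n + 1) = 0 →
      v.1 * u.1 ^ 3 ^ n = t → u.1 * v.1 ^ 3 ^ n = t ^ 3 ^ n →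
      φ u * φ v = φ (0, t - t ^ 3 ^ n) * (φ v * φ u) := by
    intro u v hu hv huv1 huv2
    have hvu : (v.1 + u.1, v.2 + u.2 - v.1 * u.1 ^ 3 ^ n).2 +
        (v.1 + u.1, v.2 + u.2 - v.1 * u.1 ^ 3 ^ n).2 ^ (3 ^ n) +
        (v.1 + u.1, v.2 + u.2 - v.1 * u.1 ^ 3 ^ n).1 ^ (3 ^ n + 1) = 0 := by
      show v.2 + u.2 - v.1 * u.1 ^ 3 ^ n + (v.2 + u.2 - v.1 * u.1 ^ 3 ^ n) ^ 3 ^ n +
        (v.1 + u.1) ^ (3 ^ n + 1) = 0
      have hadd : ∀ a b : GaloisField 3 (2 * n), (a + b) ^ 3 ^ n = a ^ 3 ^ n + b ^ 3 ^ n :=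
        fun a b => add_pow_char_pow a b 3 n
      rw [hfr, hadd, pow_succ (v.1 + u.1), hadd, mul_pow, hq2]
      rw [pow_succ] at hu hv
      linear_combination hu + hv
    rw [← hm v u hv hu, ← hm _ _ hC hvu, ← hm u v hu hv]
    congr 1
    refine Prod.ext ?_ ?_
    · show u.1 + v.1 = 0 + (v.1 + u.1)
      ring
    · show u.2 + v.2 - u.1 * v.1 ^ 3 ^ n = t - t ^ 3 ^ n + (v.2 + u.2 - v.1 * u.1 ^ 3 ^ n) -
        0 * (v.1 + u.1) ^ 3 ^ n
      rw [huv1, huv2]
      ring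
  have k1 := key x (a, a ^ (3 ^ n + 1)) hx hA hax hax2
  have k2 := key y1 y2 hy1 hy2 rfl hy12
  have hCr := hr _ hC
  have hAr := hr _ hA
  have hC' := eq_inl _ hCr
  have hA' := eq_inl _ hAr
  set cc := (φ (0, t - t ^ 3 ^ n)).left
  set aa := (φ (a, a ^ (3 ^ n + 1))).left
  rw [hC', hA', hx1, ← map_mul, ← map_mul, ← map_mul] at k1
  rw [hC', hy11, hy21, ← map_mul, ← map_mul, ← map_mul] at k2
  have k3 := SemidirectProduct.inl_injective k1
  have k4 := SemidirectProduct.inl_injective k2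
  have k5 : (1 : NN) * aa.2 = cc.2 * (aa.2 * 1) := congrArg Prod.snd k3
  have k6 : cc.2 = 1 := by
    rw [one_mul, mul_one] at k5
    exact (mul_eq_right.1 k5.symm)
  have k7 : (⟨1, 0, 0⟩ : NN) * ⟨0, 1, 0⟩ = cc.2 * (⟨0, 1, 0⟩ * ⟨1, 0, 0⟩) := congrArg Prod.snd k4
  rw [k6, one_mul] at k7
  have k8 := congrArg NN.z k7
  have k9 : (0 : ZMod 3) + 0 + 1 * 1 - 0 * 0 = 0 + 0 + 0 * 0 - 1 * 1 := k8
  exact three_aux k9

end Pool.Agent.H5.Me00c87
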