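import Mathlib

set_option autoImplicit false

namespace Pool.Agent.H5.Me05a1e

open Matrix

/-! ### The word -/

/-- The word `x² b x b² x b` with `b = y x y⁻¹`. -/
def w : FreeGroup (Fin 2) :=
  let x := FreeGroup.of 0
  let y := FreeGroup.of 1
  x * x * (y * x * y⁻¹) * x * (y * x * y⁻¹) * (y * x * y⁻¹) * x * (y * x * y⁻¹)

theorem lift_w {G : Type} [Group G] (f : Fin 2 → G) :
    FreeGroup.lift f w = f 0 * f 0 * (f 1 * f 0 * (f 1)⁻¹) * f 0 * (f 1 * f 0 * (f 1)⁻¹) *
      (f 1 * f 0 * (f 1)⁻¹) * f 0 * (f 1 * f 0 * (f 1)⁻¹) := by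
  simp only [w, map_mul, map_inv, FreeGroup.lift_apply_of]

/-- Helper permutation. -/
def px : Equiv.Perm (Fin 6) := ⟨![5,4,2,1,0,3], ![4,3,2,5,1,0], by decide, by decide⟩
/-- Helper permutation. -/
def py : Equiv.Perm (Fin 6) := ⟨![0,1,5,2,4,3], ![0,1,3,5,4,2], by decide, by decide⟩

/-- Helper permutation. -/
def pr : Equiv.Perm (Fin 6) :=
  px * px * (py * px * py⁻¹) * px * (py * px * py⁻¹) * (py * px * py⁻¹) * px * (py * px * py⁻¹)

theorem not_sq_pr (u : Equiv.Perm (Fin 6)) : u * u ≠ pr := by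
  intro h
  have h0 : pr 0 = 1 := by decide
  have h1 : pr 1 = 0 := by decide
  have h2 : ∀ k, pr (pr k) = k → k = 0 ∨ k = 1 := by decide
  have hu : ∀ k, pr k = u (u k) := by
    intro k
    rw [← h]
    rfl
  have h3 : pr (pr (u 0)) = u 0 := by
    rw [hu, hu]
    have : u (u (u (u 0))) = 0 := by rw [← hu, ← hu, h0, h1]
    rw [this]
  rcases h2 _ h3 with h4 | h4
  · have h5 := hu 0
    rw [h4, h4, h0] at h5
    exact absurd h5 (by decide)
  · have h5 := hu 0
    rw [h4, h0] at h5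
    exact absurd (u.injective (h4.trans h5)) (by decide)

theorem not_sq (v : FreeGroup (Fin 2)) : w ≠ v * v := by
  intro h
  have h1 := congrArg (FreeGroup.lift (fun i : Fin 2 => if i = 0 then px else py)) h
  rw [lift_w, map_mul] at h1
  exact not_sq_pr _ h1.symm

theorem not_pow (v : FreeGroup (Fin 2)) (k : ℕ) (hk : 2 ≤ k) : w ≠ v ^ k := by
  intro h
  have h1 := congrArg (FreeGroup.lift
    (fun i : Fin 2 => if i = 0 then Multiplicative.ofAdd (1 : ℤ) else 1)) h
  rw [lift_w, map_pow] at h1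
  have h2 := congrArg Multiplicative.toAdd h1
  simp only [if_true, one_ne_zero, if_false, toAdd_mul, toAdd_pow, toAdd_ofAdd,
    inv_one, mul_one, one_mul] at h2
  have h3 : (k : ℤ) ∣ 8 := by
    rw [nsmul_eq_mul] at h2
    refine Dvd.intro _ (h2.symm.trans ?_)
    norm_num
  have h4 : k ∣ 2 ^ 3 := by exact_mod_cast h3
  obtain ⟨j, hj, rfl⟩ := (Nat.dvd_prime_pow Nat.prime_two).1 h4
  have hj0 : j ≠ 0 := by
    rintro rfl
    norm_num at hk
  obtain ⟨i, rfl⟩ := Nat.exists_eq_succ_of_ne_zero hj0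
  apply not_sq (v ^ 2 ^ i)
  rw [h, ← pow_add]
  congr 1
  rw [pow_succ]
  ring

theorem w_ne_one : w ≠ 1 := by
  intro h
  exact not_sq 1 (by rw [h, one_mul])

/-! ### Matrices -/

section mats

variable {K : Type} [Field K]

theorem CH0 (a : Matrix (Fin 2) (Fin 2) K) :
    a * a = a.trace • a - a.det • 1 := by
  ext i j
  fin_cases i <;> fin_cases j <;>
    simp [Matrix.mul_apply, Fin.sum_univ_two, trace_fin_two, det_fin_two] <;> ring

theorem CH [CharP K 2] (a : Matrix (Fin 2) (Fin 2) K) (ha : a.det = 1) :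
    a * a = a.trace • a + 1 := by
  rw [CH0, ha, one_smul]
  ext i j
  rw [Matrix.sub_apply, Matrix.add_apply, CharTwo.sub_eq_add]

/-- The value of the word on matrices. -/
def wm (a b : Matrix (Fin 2) (Fin 2) K) : Matrix (Fin 2) (Fin 2) K :=
  a * a * b * a * b * b * a * b

theorem wm_of_trace [CharP K 2] (a b : Matrix (Fin 2) (Fin 2) K) (ha : a.det = 1) (hb : b.det = 1)
    (hab : a.trace = b.trace) :
    (wm a b).trace = a.trace ^ 2 * (a * b).trace ^ 3 := by
  have h2 : (2 : K) = 0 := CharTwo.two_eq_zero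
  set t := a.trace with ht
  set r := (a * b).trace with hr
  have A : a * a = t • a + 1 := CH a ha
  have B : b * b = t • b + 1 := by rw [hab]; exact CH b hb
  have C : a * b * (a * b) = r • (a * b) + 1 := CH (a * b) (by rw [det_mul, ha, hb, one_mul])
  have e1 : wm a b = r • (a * a * (b * b) * (a * b)) + a * b * (a * b) := by
    calc wm a b = a * (a * b * (a * b)) * b * (a * b) := by simp only [wm, mul_assoc]
      _ = a * (r • (a * b) + 1) * b * (a * b) := by rw [C]
      _ = r • (a * a * (b * b) * (a * b)) + a * b * (a * b) := by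
        simp only [mul_add, add_mul, mul_smul_comm, smul_mul_assoc, mul_one, mul_assoc]
  have e2 : a * a * (b * b) * (a * b) =
      (t * t) • (a * b * (a * b)) + t • (a * a * b) + t • (b * a * b) + a * b := by
    calc a * a * (b * b) * (a * b) = (t • a + 1) * (t • b + 1) * (a * b) := by rw [A, B]
      _ = _ := by
        simp only [mul_add, add_mul, mul_smul_comm, smul_mul_assoc, mul_one, one_mul, mul_assoc,
          smul_smul, smul_add]
        abel
  have e3 : (a * a * b).trace = t * r + t := by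
    rw [A, add_mul, smul_mul_assoc, one_mul, trace_add, trace_smul, ← hab, smul_eq_mul]
  have e4 : (b * a * b).trace = t * r + t := by
    have : (b * a * b).trace = (a * (b * b)).trace := by
      rw [mul_assoc, trace_mul_comm, mul_assoc]
    rw [this, B, mul_add, mul_smul_comm, mul_one, trace_add, trace_smul, smul_eq_mul]
  have e5 : (a * b * (a * b)).trace = r * r := by
    rw [C, trace_add, trace_smul, smul_eq_mul, ← hr, trace_one, Fintype.card_fin]
    push_cast
    rw [h2, add_zero]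
  rw [e1, e2]
  simp only [trace_add, trace_smul, smul_eq_mul, e3, e4, e5, ← hr]
  linear_combination (r * t * (t * r + t) + r * r) * h2

theorem wm_eq_one [CharP K 2] (a b : Matrix (Fin 2) (Fin 2) K) (ha : a.det = 1) (hb : b.det = 1)
    (hab : a.trace = b.trace) (h0 : (wm a b).trace = 0) : wm a b = 1 := by
  rw [wm_of_trace a b ha hb hab] at h0
  rcases mul_eq_zero.1 h0 with h | h
  · have ht : a.trace = 0 := by simpa using h
    have A : a * a = 1 := by rw [CH a ha, ht, zero_smul, zero_add]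
    have B : b * b = 1 := by rw [CH b hb, ← hab, ht, zero_smul, zero_add]
    have : wm a b = a * a * (b * (a * (b * b) * a) * b) := by
      simp only [wm, mul_assoc]
    rw [this, B, mul_one, A, one_mul, mul_one, B]
  · have hr : (a * b).trace = 0 := by simpa using h
    have C : a * b * (a * b) = 1 := by
      rw [CH (a * b) (by rw [det_mul, ha, hb, one_mul]), hr, zero_smul, zero_add]
    have : wm a b = a * (a * b * (a * b)) * b * (a * b) := by
      simp only [wm, mul_assoc]
    rw [this, C, mul_one, C]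

end mats

/-! ### The group -/

section grp

variable {K : Type} [Field K]

/-- The special linear group inside the general linear group. -/
def H (K : Type) [Field K] : Subgroup (GL (Fin 2) K) :=
  MonoidHom.ker (GeneralLinearGroup.det : GL (Fin 2) K →* Kˣ)

theorem mem_H (g : GL (Fin 2) K) : g ∈ H K ↔ (g : Matrix (Fin 2) (Fin 2) K).det = 1 := by
  rw [H, MonoidHom.mem_ker, Units.ext_iff]
  rfl

theorem closed_H : ∃ S : Set (MvPolynomial (Fin 2 × Fin 2) K), ∀ g : GL (Fin 2) K,
    g ∈ H K ↔ ∀ p ∈ S,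
      MvPolynomial.eval (fun ij : Fin 2 × Fin 2 => (↑g : Matrix (Fin 2) (Fin 2) K) ij.1 ij.2) p
        = 0 := by
  refine ⟨{MvPolynomial.X (0, 0) * MvPolynomial.X (1, 1) -
    MvPolynomial.X (0, 1) * MvPolynomial.X (1, 0) - 1}, ?_⟩
  intro g
  rw [mem_H, det_fin_two]
  simp only [Set.mem_singleton_iff, forall_eq, map_sub, map_mul, MvPolynomial.eval_X, map_one]
  exact sub_eq_zero.symm

/-- The entries of a product of four elementary matrices. -/
def En {R : Type} [CommRing R] (a b c d : R) (ij : Fin 2 × Fin 2) : R :=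
  (!![(1 + a * b) * (1 + c * d) + a * d, (1 + a * b) * c + a;
      b * (1 + c * d) + d, b * c + 1] : Matrix (Fin 2) (Fin 2) R) ij.1 ij.2

theorem En_map {R S : Type} [CommRing R] [CommRing S] (f : R →+* S) (a b c d : R)
    (ij : Fin 2 × Fin 2) : f (En a b c d ij) = En (f a) (f b) (f c) (f d) ij := by
  obtain ⟨i, j⟩ := ij
  fin_cases i <;> fin_cases j <;> simp [En]

theorem En_surj (m : Matrix (Fin 2) (Fin 2) K) (hm : m.det = 1) :
    ∃ a b c d : K, ∀ ij : Fin 2 × Fin 2, m ij.1 ij.2 = En a b c d ij := by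
  rw [det_fin_two] at hm
  -- we need `(m00 - d m01) - a (m10 - d m11) = 1`
  obtain ⟨a, d, had⟩ : ∃ a d : K,
      (m 0 0 - d * m 0 1) - a * (m 1 0 - d * m 1 1) = 1 := by
    by_cases h : m 1 0 = 0
    · have h11 : m 1 1 ≠ 0 := by
        intro h'
        rw [h, h'] at hm
        simp at hm
      refine ⟨(m 0 0 + (m 1 1)⁻¹ * m 0 1) - 1, -(m 1 1)⁻¹, ?_⟩
      rw [h]
      have : (m 1 1)⁻¹ * m 1 1 = 1 := inv_mul_cancel₀ h11
      linear_combination (1 - m 0 0 - (m 1 1)⁻¹ * m 0 1) * this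
    · refine ⟨(m 0 0 - 1) / m 1 0, 0, ?_⟩
      field_simp
      ring
  refine ⟨a, m 1 0 - d * m 1 1, m 0 1 - a * m 1 1, d, ?_⟩
  rintro ⟨i, j⟩
  fin_cases i <;> fin_cases j
  · show m 0 0 = (1 + a * (m 1 0 - d * m 1 1)) * (1 + (m 0 1 - a * m 1 1) * d) + a * d
    linear_combination had + a * d * (hm - m 1 1 * had)
  · show m 0 1 = (1 + a * (m 1 0 - d * m 1 1)) * (m 0 1 - a * m 1 1) + a
    linear_combination a * (hm - m 1 1 * had)
  · show m 1 0 = (m 1 0 - d * m 1 1) * (1 + (m 0 1 - a * m 1 1) * d) + d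
    linear_combination d * (hm - m 1 1 * had)
  · show m 1 1 = (m 1 0 - d * m 1 1) * (m 0 1 - a * m 1 1) + 1
    linear_combination hm - m 1 1 * had

theorem En_det {R : Type} [CommRing R] (a b c d : R) :
    En a b c d (0, 0) * En a b c d (1, 1) - En a b c d (0, 1) * En a b c d (1, 0) = 1 := by
  show ((1 + a * b) * (1 + c * d) + a * d) * (b * c + 1) -
    ((1 + a * b) * c + a) * (b * (1 + c * d) + d) = 1
  ring

/-- Pull back a polynomial function along the parametrization. -/
noncomputable def pb (p : MvPolynomial (Fin 2 × Fin 2) K) : MvPolynomial (Fin 4) K :=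
  MvPolynomial.bind₁ (En (MvPolynomial.X 0) (MvPolynomial.X 1) (MvPolynomial.X 2)
    (MvPolynomial.X 3)) p

theorem eval_pb (p : MvPolynomial (Fin 2 × Fin 2) K) (x : Fin 4 → K) :
    MvPolynomial.eval x (pb p) = MvPolynomial.eval (En (x 0) (x 1) (x 2) (x 3)) p := by
  have h1 := MvPolynomial.eval₂Hom_bind₁ (RingHom.id K) x
    (En (MvPolynomial.X 0) (MvPolynomial.X 1) (MvPolynomial.X 2) (MvPolynomial.X 3)) p
  have h2 : (fun i => MvPolynomial.eval₂Hom (RingHom.id K) x
      (En (MvPolynomial.X 0) (MvPolynomial.X 1) (MvPolynomial.X 2) (MvPolynomial.X 3) i)) =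
      En (x 0) (x 1) (x 2) (x 3) := by
    funext ij
    rw [En_map]
    simp only [MvPolynomial.eval₂Hom_X']
  rw [h2] at h1
  exact h1

theorem vanish_iff [Infinite K] (p : MvPolynomial (Fin 2 × Fin 2) K) :
    (∀ g ∈ H K, MvPolynomial.eval
      (fun ij : Fin 2 × Fin 2 => (↑g : Matrix (Fin 2) (Fin 2) K) ij.1 ij.2) p = 0) ↔ pb p = 0 := by
  constructor
  · intro h
    apply MvPolynomial.funext
    intro x
    rw [eval_pb, map_zero]
    have hdet : (Matrix.of fun i j => En (x 0) (x 1) (x 2) (x 3) (i, j)).det = 1 := by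
      rw [det_fin_two]
      exact En_det _ _ _ _
    have hu : IsUnit (Matrix.of fun i j => En (x 0) (x 1) (x 2) (x 3) (i, j)) := by
      rw [isUnit_iff_isUnit_det, hdet]
      exact isUnit_one
    obtain ⟨g, hg⟩ := hu
    have h1 := h g (by rw [mem_H, hg, hdet])
    rw [hg] at h1
    exact h1
  · intro h g hg
    rw [mem_H] at hg
    obtain ⟨a, b, c, d, habcd⟩ := En_surj _ hg
    have h1 := eval_pb p ![a, b, c, d]
    rw [h, map_zero] at h1
    have h2 : (fun ij : Fin 2 × Fin 2 => (↑g : Matrix (Fin 2) (Fin 2) K) ij.1 ij.2) =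
        En a b c d := funext habcd
    rw [h2]
    exact h1.symm

theorem irred_H [Infinite K] (p q : MvPolynomial (Fin 2 × Fin 2) K)
    (h : ∀ g ∈ H K, MvPolynomial.eval
        (fun ij : Fin 2 × Fin 2 => (↑g : Matrix (Fin 2) (Fin 2) K) ij.1 ij.2) (p * q) = 0) :
    (∀ g ∈ H K, MvPolynomial.eval
        (fun ij : Fin 2 × Fin 2 => (↑g : Matrix (Fin 2) (Fin 2) K) ij.1 ij.2) p = 0) ∨
    (∀ g ∈ H K, MvPolynomial.eval
        (fun ij : Fin 2 × Fin 2 => (↑g : Matrix (Fin 2) (Fin 2) K) ij.1 ij.2) q = 0) := by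
  rw [vanish_iff, vanish_iff]
  rw [vanish_iff] at h
  have h1 : pb (p * q) = pb p * pb q := map_mul _ _ _
  rw [h1] at h
  exact mul_eq_zero.1 h

/-! ### Simplicity -/

theorem sq_eq_one [CharP K 2] (x : K) (h : x ^ 2 = 1) : x = 1 := by
  have h2 : (2 : K) = 0 := CharTwo.two_eq_zero
  have : (x - 1) ^ 2 = 0 := by linear_combination h + (1 - x) * h2
  exact sub_eq_zero.1 (by simpa using this)

theorem simple_SL [CharP K 2] (hK : ∃ a : K, a ≠ 0 ∧ a ≠ 1) :
    IsSimpleGroup (Matrix.SpecialLinearGroup (Fin 2) K) := by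
  obtain ⟨a, ha0, ha1⟩ := hK
  have h1 : IsSimpleGroup (Matrix.ProjectiveSpecialLinearGroup (Fin 2) K) :=
    Matrix.ProjectiveSpecialLinearGroup.rank_two_simple' ⟨a, ha0, fun h => ha1 (sq_eq_one a h)⟩
  have hc : Subgroup.center (Matrix.SpecialLinearGroup (Fin 2) K) = ⊥ := by
    rw [eq_bot_iff]
    intro g hg
    rw [Matrix.SpecialLinearGroup.mem_center_iff] at hg
    obtain ⟨r, hr, hrg⟩ := hg
    have hr1 : r = 1 := sq_eq_one r (by simpa using hr)
    rw [Subgroup.mem_bot]
    apply Subtype.ext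
    rw [← hrg, hr1]
    simp
  have hbij : Function.Bijective (QuotientGroup.mk' (Subgroup.center
      (Matrix.SpecialLinearGroup (Fin 2) K))) := by
    refine ⟨?_, QuotientGroup.mk'_surjective _⟩
    rw [← MonoidHom.ker_eq_bot_iff, QuotientGroup.ker_mk', hc]
  let e := MulEquiv.ofBijective _ hbij
  have : Nontrivial (Matrix.SpecialLinearGroup (Fin 2) K) := e.toEquiv.nontrivial
  exact IsSimpleGroup.isSimpleGroup_of_surjective (G := Matrix.ProjectiveSpecialLinearGroup (Fin 2) K)
    e.symm.toMonoidHom e.symm.surjective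

theorem simple_H [CharP K 2] (hK : ∃ a : K, a ≠ 0 ∧ a ≠ 1) : IsSimpleGroup (H K) := by
  have := simple_SL hK
  let f : Matrix.SpecialLinearGroup (Fin 2) K →* H K :=
    (Matrix.SpecialLinearGroup.toGL (n := Fin 2) (R := K)).codRestrict (H K) (by
      intro g
      rw [mem_H]
      exact g.2)
  have hf : Function.Surjective f := by
    rintro ⟨g, hg⟩
    rw [mem_H] at hg
    refine ⟨⟨g, hg⟩, ?_⟩
    apply Subtype.ext
    apply Units.ext
    rfl
  have hinj : Function.Injective f := by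
    intro a b hab
    apply Subtype.ext
    have := congrArg (fun z : H K => ((z : GL (Fin 2) K) : Matrix (Fin 2) (Fin 2) K)) hab
    exact this
  have : Nontrivial (H K) := hinj.nontrivial
  exact IsSimpleGroup.isSimpleGroup_of_surjective f hf

/-! ### Non-surjectivity -/

theorem det_u : (!![1, 1; 0, 1] : Matrix (Fin 2) (Fin 2) K).det = 1 := by
  rw [det_fin_two]
  simp

theorem not_surj [CharP K 2] : ∃ h : H K, ∀ x : Fin 2 → H K, FreeGroup.lift x w ≠ h := by
  have hu : IsUnit (!![1, 1; 0, 1] : Matrix (Fin 2) (Fin 2) K) := by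
    rw [isUnit_iff_isUnit_det, det_u]
    exact isUnit_one
  obtain ⟨g, hg⟩ := hu
  refine ⟨⟨g, by rw [mem_H, hg, det_u]⟩, ?_⟩
  intro x h
  rw [lift_w] at h
  have h1 := congrArg (fun z : H K => ((z : GL (Fin 2) K) : Matrix (Fin 2) (Fin 2) K)) h
  set a : Matrix (Fin 2) (Fin 2) K := ((x 0 : GL (Fin 2) K) : Matrix (Fin 2) (Fin 2) K) with ha
  set b : Matrix (Fin 2) (Fin 2) K :=
    (((x 1 * x 0 * (x 1)⁻¹ : H K) : GL (Fin 2) K) : Matrix (Fin 2) (Fin 2) K) with hb
  have h2 : wm a b = !![1, 1; 0, 1] := by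
    rw [← hg]
    exact h1
  have hda : a.det = 1 := (mem_H _).1 (x 0).2
  have hdb : b.det = 1 := (mem_H _).1 (x 1 * x 0 * (x 1)⁻¹).2
  have htr : a.trace = b.trace := by
    have h3 : b = ((x 1 : GL (Fin 2) K) : Matrix (Fin 2) (Fin 2) K) * a *
        (((x 1)⁻¹ : H K) : GL (Fin 2) K).val := rfl
    rw [h3, trace_mul_comm, ← mul_assoc]
    have h4 : (((x 1)⁻¹ : H K) : GL (Fin 2) K).val *
        ((x 1 : GL (Fin 2) K) : Matrix (Fin 2) (Fin 2) K) = 1 := by
      have h5 : (((x 1)⁻¹ : H K) : GL (Fin 2) K) * (x 1 : GL (Fin 2) K) = 1 := by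
        rw [← Subgroup.coe_mul, inv_mul_cancel, Subgroup.coe_one]
      have h6 := congrArg Units.val h5
      exact h6
    rw [h4, one_mul]
  have ht : (wm a b).trace = 0 := by
    rw [h2, trace_fin_two]
    have h2' : (2 : K) = 0 := CharTwo.two_eq_zero
    show (1 : K) + 1 = 0
    rw [one_add_one_eq_two, h2']
  have h7 := wm_eq_one a b hda hdb htr ht
  rw [h2] at h7
  have h8 := congrFun (congrFun h7 0) 1
  simp at h8

end grp

end Pool.Agent.H5.Me05a1e
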