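import Mathlib

set_option autoImplicit false

namespace Pool.Agent.H5.Mea093d

/-- Nonempty words over a countably infinite alphabet. -/
abbrev Wrd := FreeSemigroup ℕ

/-- An identical inclusion: a word `u` and a set `V` of words (every set of words over a
countable alphabet is finite or countably infinite). -/
structure Incl where
  u : Wrd
  V : Set Wrd

/-- A semigroup satisfies the identical inclusion if for every assignment of the letters the value
of `u` is the value of some word in `V`. -/
def Satisfies (S : Type) [Semigroup S] (i : Incl) : Prop :=
  ∀ f : ℕ → S, ∃ v ∈ i.V, FreeSemigroup.lift f i.u = FreeSemigroup.lift f v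

/-- Classes of semigroups. -/
def SgClass : Type 1 := ∀ (S : Type) [Semigroup S], Prop

/-- An inclusive variety is the class of all semigroups satisfying a given set of identical
inclusions. -/
def IsInclusiveVariety (C : SgClass) : Prop :=
  ∃ F : Set Incl, ∀ (S : Type) [Semigroup S], C S ↔ ∀ i ∈ F, Satisfies S i

/-- The inclusive variety generated by a semigroup. -/
def generated (S : Type) [Semigroup S] : SgClass :=
  fun T _ => ∀ i : Incl, Satisfies S i → Satisfies T i

/-- The inclusive subvarieties of a class. -/
def inclusiveSubvarieties (C : SgClass) : Set SgClass :=
  {D | IsInclusiveVariety D ∧ ∀ (T : Type) [Semigroup T], D T → C T}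

end Pool.Agent.H5.Mea093d
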