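import Mathlib
import Pool.Agent.H5.Mea093dDefs

set_option autoImplicit false

namespace Pool.Agent.H5.Mea093d

/-- Elements of the graph semigroups. -/
inductive NE (V : Type) (R : V → V → Prop) : Type
  | z : NE V R
  | c : NE V R
  | v (x : V) : NE V R

open NE

section

variable {V : Type} {R : V → V → Prop}

open Classical in
/-- Multiplication in the graph semigroups. -/
noncomputable def NE.mul : NE V R → NE V R → NE V R
  | v x, v y => if R x y then c else z
  | _, _ => z

noncomputable instance : Mul (NE V R) := ⟨NE.mul⟩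

theorem v_mul_v (x y : V) (h : R x y) : (v x : NE V R) * v y = c := if_pos h
theorem v_mul_v' (x y : V) (h : ¬ R x y) : (v x : NE V R) * v y = z := if_neg h
theorem z_mul (a : NE V R) : z * a = z := by cases a <;> rfl
theorem c_mul (a : NE V R) : c * a = z := by cases a <;> rfl
theorem mul_z (a : NE V R) : a * z = z := by cases a <;> rfl
theorem mul_c (a : NE V R) : a * c = z := by cases a <;> rfl

theorem mul_zc (a b : NE V R) : a * b = z ∨ a * b = c := by
  cases a with
  | z => exact Or.inl (z_mul _)
  | c => exact Or.inl (c_mul _)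
  | v x =>
    cases b with
    | z => exact Or.inl (mul_z _)
    | c => exact Or.inl (mul_c _)
    | v y =>
      by_cases h : R x y
      · exact Or.inr (v_mul_v x y h)
      · exact Or.inl (v_mul_v' x y h)

theorem mul_mul_z (a b d : NE V R) : a * b * d = z := by
  rcases mul_zc a b with h | h <;> rw [h]
  · exact z_mul d
  · exact c_mul d

theorem mul_mul_z' (a b d : NE V R) : a * (b * d) = z := by
  rcases mul_zc b d with h | h <;> rw [h]
  · exact mul_z a
  · exact mul_c a

noncomputable instance : Semigroup (NE V R) where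
  mul_assoc a b d := by rw [mul_mul_z, mul_mul_z']

theorem mul_ne_v (a b : NE V R) (x : V) : a * b ≠ v x := by
  rcases mul_zc a b with h | h <;> rw [h] <;> intro h' <;> cases h'

end

/-- Value of a word. -/
theorem lift_of {S : Type} [Semigroup S] (f : ℕ → S) (x : ℕ) :
    FreeSemigroup.lift f (FreeSemigroup.of x) = f x := FreeSemigroup.lift_of f x

/-- Words are letters, products of two letters, or products of three words. -/
theorem word_cases (w : Wrd) : (∃ x, w = FreeSemigroup.of x) ∨
    (∃ x y, w = FreeSemigroup.of x * FreeSemigroup.of y) ∨ (∃ a b d : Wrd, w = a * b * d) := by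
  induction w using FreeSemigroup.recOnMul with
  | ih1 x => exact Or.inl ⟨x, rfl⟩
  | ih2 x y _ ihy =>
    right
    rcases ihy with ⟨t, rfl⟩ | ⟨t, s, rfl⟩ | ⟨a, b, d, rfl⟩
    · exact Or.inl ⟨x, t, rfl⟩
    · exact Or.inr ⟨_, _, _, (mul_assoc _ _ _).symm⟩
    · refine Or.inr ⟨FreeSemigroup.of x * a, b, d, ?_⟩
      simp only [mul_assoc]

/-- Vertices of the small example. -/
inductive P3 : Type
  | g | a | b
deriving DecidableEq

instance : Fintype P3 := ⟨{P3.g, P3.a, P3.b}, by intro x; cases x <;> decide⟩

/-- The relation of the small example. -/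
def R3 : P3 → P3 → Prop
  | P3.g, P3.g => True
  | P3.a, P3.b => True
  | P3.b, P3.a => True
  | _, _ => False

/-- The small example. -/
abbrev S5 := NE P3 R3

/-- The family. -/
abbrev Tn (n : ℕ) := NE (Fin n) (fun x y => x ≠ y)

instance : Finite S5 := by
  let f : Option (Option P3) → S5 := fun o => match o with
    | none => NE.z
    | some none => NE.c
    | some (some x) => NE.v x
  apply Finite.of_surjective f
  intro y
  cases y with
  | z => exact ⟨none, rfl⟩
  | c => exact ⟨some none, rfl⟩
  | v x => exact ⟨some (some x), rfl⟩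

/-- Refinement criterion. -/
theorem sat_of_refine {S T : Type} [Semigroup S] [Semigroup T]
    (h : ∀ (t : ℕ → T) (u : Wrd), ∃ s : ℕ → S, ∀ w : Wrd,
      FreeSemigroup.lift s u = FreeSemigroup.lift s w →
        FreeSemigroup.lift t u = FreeSemigroup.lift t w)
    (i : Incl) (hi : Satisfies S i) : Satisfies T i := by
  intro t
  obtain ⟨s, hs⟩ := h t i.u
  obtain ⟨v, hv, hvs⟩ := hi s
  exact ⟨v, hv, hs v hvs⟩

/-- The assignment collapsing vertices to the looped vertex. -/
def col {n : ℕ} (t : ℕ → Tn n) (y : ℕ) : S5 :=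
  match t y with
  | NE.z => NE.z
  | NE.c => NE.c
  | NE.v _ => NE.v P3.g

theorem col_eq_z {n : ℕ} (t : ℕ → Tn n) (y : ℕ) (h : col t y = NE.z) : t y = NE.z := by
  unfold col at h
  split at h
  · assumption
  · cases h
  · cases h

theorem col_zero {n : ℕ} (t : ℕ → Tn n) (w : Wrd)
    (h : FreeSemigroup.lift (col t) w = NE.z) : FreeSemigroup.lift t w = NE.z := by
  rcases word_cases w with ⟨x, rfl⟩ | ⟨x, y, rfl⟩ | ⟨a, b, d, rfl⟩
  · rw [lift_of] at h ⊢
    exact col_eq_z t x h
  · rw [map_mul, lift_of, lift_of] at h ⊢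
    unfold col at h
    generalize t x = p at h ⊢
    generalize t y = q at h ⊢
    cases p with
    | z => exact z_mul _
    | c => exact c_mul _
    | v p =>
      cases q with
      | z => exact mul_z _
      | c => exact mul_c _
      | v q =>
        exfalso
        have h' : (NE.v P3.g : S5) * NE.v P3.g = NE.z := h
        rw [v_mul_v _ _ (by trivial)] at h'
        cases h'
  · rw [map_mul, map_mul]
    exact mul_mul_z _ _ _

/-- The assignment concentrated on one letter. -/
def one (x : ℕ) (y : ℕ) : S5 := if y = x then NE.v P3.g else NE.z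

theorem one_self (x : ℕ) : one x x = NE.v P3.g := if_pos rfl
theorem one_ne (x y : ℕ) (h : y ≠ x) : one x y = NE.z := if_neg h

/-- The assignment concentrated on two letters. -/
def two (x y : ℕ) (t : ℕ) : S5 := if t = x then NE.v P3.a else if t = y then NE.v P3.b else NE.z

theorem two_cases (x y t : ℕ) : (t = x ∧ two x y t = NE.v P3.a) ∨
    (t = y ∧ two x y t = NE.v P3.b) ∨ two x y t = NE.z := by
  unfold two
  by_cases h1 : t = x
  · exact Or.inl ⟨h1, if_pos h1⟩
  · by_cases h2 : t = y
    · right; left
      exact ⟨h2, by rw [if_neg h1, if_pos h2]⟩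
    · right; right
      rw [if_neg h1, if_neg h2]

theorem Tn_comm {n : ℕ} (p q : Tn n) : p * q = q * p := by
  cases p with
  | z => rw [z_mul, mul_z]
  | c => rw [c_mul, mul_c]
  | v p =>
    cases q with
    | z => rw [z_mul, mul_z]
    | c => rw [c_mul, mul_c]
    | v q =>
      by_cases h : p = q
      · rw [h]
      · rw [v_mul_v p q h, v_mul_v q p (fun h' => h h'.symm)]

theorem refine_Tn (n : ℕ) (t : ℕ → Tn n) (u : Wrd) : ∃ s : ℕ → S5, ∀ w : Wrd,
    FreeSemigroup.lift s u = FreeSemigroup.lift s w →
      FreeSemigroup.lift t u = FreeSemigroup.lift t w := by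
  rcases word_cases u with ⟨x, rfl⟩ | ⟨x, y, rfl⟩ | ⟨a, b, d, rfl⟩
  · refine ⟨one x, ?_⟩
    intro w hw
    rw [lift_of, one_self] at hw
    rcases word_cases w with ⟨x', rfl⟩ | ⟨x', y', rfl⟩ | ⟨a, b, d, rfl⟩
    · rw [lift_of] at hw
      by_cases h : x' = x
      · rw [h]
      · rw [one_ne x x' h] at hw
        cases hw
    · rw [map_mul] at hw
      exact absurd hw.symm (mul_ne_v _ _ _)
    · rw [map_mul] at hw
      exact absurd hw.symm (mul_ne_v _ _ _)
  · by_cases hxy : x = y
    · subst hxy
      refine ⟨one x, ?_⟩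
      intro w hw
      rw [map_mul, lift_of, one_self, v_mul_v _ _ (by trivial)] at hw
      rcases word_cases w with ⟨x', rfl⟩ | ⟨x', y', rfl⟩ | ⟨a, b, d, rfl⟩
      · rw [lift_of] at hw
        by_cases h : x' = x
        · rw [h, one_self] at hw
          cases hw
        · rw [one_ne x x' h] at hw
          cases hw
      · rw [map_mul, lift_of, lift_of] at hw
        by_cases h : x' = x
        · by_cases h' : y' = x
          · rw [h, h']
          · rw [one_ne x y' h', mul_z] at hw
            cases hw
        · rw [one_ne x x' h, z_mul] at hw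
          cases hw
      · rw [map_mul, map_mul, mul_mul_z] at hw
        cases hw
    · refine ⟨two x y, ?_⟩
      intro w hw
      have hx : two x y x = NE.v P3.a := if_pos rfl
      have hy : two x y y = NE.v P3.b := by
        unfold two
        rw [if_neg (fun h => hxy h.symm), if_pos rfl]
      rw [map_mul, lift_of, lift_of, hx, hy, v_mul_v _ _ (by trivial)] at hw
      rcases word_cases w with ⟨x', rfl⟩ | ⟨x', y', rfl⟩ | ⟨a, b, d, rfl⟩
      · rw [lift_of] at hw
        rcases two_cases x y x' with ⟨_, h⟩ | ⟨_, h⟩ | h <;> rw [h] at hw <;> cases hw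
      · rw [map_mul, lift_of, lift_of] at hw
        rcases two_cases x y x' with ⟨h1, h⟩ | ⟨h1, h⟩ | h
        · rw [h] at hw
          rcases two_cases x y y' with ⟨_, h'⟩ | ⟨h2, h'⟩ | h'
          · rw [h', v_mul_v' _ _ (by intro h; exact h)] at hw
            cases hw
          · rw [h1, h2]
          · rw [h', mul_z] at hw
            cases hw
        · rw [h] at hw
          rcases two_cases x y y' with ⟨h2, h'⟩ | ⟨_, h'⟩ | h'
          · rw [h1, h2]
            rw [map_mul, map_mul]
            exact Tn_comm _ _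
          · rw [h', v_mul_v' _ _ (by intro h; exact h)] at hw
            cases hw
          · rw [h', mul_z] at hw
            cases hw
        · rw [h, z_mul] at hw
          cases hw
      · rw [map_mul, map_mul, mul_mul_z] at hw
        cases hw
  · refine ⟨col t, ?_⟩
    intro w hw
    have h1 : FreeSemigroup.lift (col t) (a * b * d) = NE.z := by
      rw [map_mul, map_mul]
      exact mul_mul_z _ _ _
    rw [h1] at hw
    rw [col_zero t w hw.symm, map_mul, map_mul]
    exact mul_mul_z _ _ _

theorem Tn_mem (n : ℕ) : generated S5 (Tn n) :=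
  fun i hi => sat_of_refine (refine_Tn n) i hi

/-- Passing to the semigroup without the adjoined identity. -/
theorem sat_of_withOne {S : Type} [Semigroup S] (i : Incl) (h : Satisfies (WithOne S) i) :
    Satisfies S i := by
  intro f
  obtain ⟨v, hv, h1⟩ := h (fun n => (f n : WithOne S))
  refine ⟨v, hv, ?_⟩
  have key : ∀ w : Wrd, FreeSemigroup.lift (fun n => (f n : WithOne S)) w =
      ((FreeSemigroup.lift f w : S) : WithOne S) := by
    intro w
    induction w using FreeSemigroup.recOnMul with
    | ih1 x => rw [lift_of, lift_of]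
    | ih2 x y hx hy => rw [map_mul, map_mul, hx, hy, WithOne.coe_mul]
  rw [key, key] at h1
  exact WithOne.coe_inj.1 h1

/-- The separating inclusions. -/
def sep (m : ℕ) : Incl where
  u := FreeSemigroup.of 0 * FreeSemigroup.of 0 * FreeSemigroup.of 0
  V := {w | ∃ i j : ℕ, i < m ∧ j < m ∧ i ≠ j ∧ w = FreeSemigroup.of i * FreeSemigroup.of j}

theorem sep_sat (n : ℕ) (hn : 0 < n) : Satisfies (Tn n) (sep (n + 1)) := by
  intro f
  by_cases h : ∃ i : ℕ, i < n + 1 ∧ (f i = NE.z ∨ f i = NE.c)
  · obtain ⟨i, hi, hfi⟩ := h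
    obtain ⟨j, hj, hij⟩ : ∃ j : ℕ, j < n + 1 ∧ i ≠ j := by
      by_cases h0 : i = 0
      · exact ⟨1, by omega, by omega⟩
      · exact ⟨0, by omega, h0⟩
    refine ⟨_, ⟨i, j, hi, hj, hij, rfl⟩, ?_⟩
    show FreeSemigroup.lift f (FreeSemigroup.of 0 * FreeSemigroup.of 0 * FreeSemigroup.of 0) = _
    rw [map_mul, map_mul, mul_mul_z, map_mul, lift_of]
    rcases hfi with h | h <;> rw [h]
    · exact (z_mul _).symm
    · exact (c_mul _).symm
  · push Not at h
    have h1 : ∀ i : Fin (n + 1), ∃ x : Fin n, f i = NE.v x := by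
      intro i
      have h2 := h i i.2
      cases hf : f i with
      | z => exact absurd hf h2.1
      | c => exact absurd hf h2.2
      | v x => exact ⟨x, rfl⟩
    choose g hg using h1
    obtain ⟨i, j, hij, hgij⟩ := Fintype.exists_ne_map_eq_of_card_lt g (by simp)
    refine ⟨_, ⟨i, j, i.2, j.2, fun h => hij (Fin.ext h), rfl⟩, ?_⟩
    show FreeSemigroup.lift f (FreeSemigroup.of 0 * FreeSemigroup.of 0 * FreeSemigroup.of 0) = _
    rw [map_mul, map_mul, mul_mul_z, map_mul, lift_of, lift_of, hg, hg, hgij]
    rw [v_mul_v' _ _ (by intro h; exact h rfl)]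

theorem sep_not_sat (n : ℕ) (hn : 0 < n) : ¬ Satisfies (Tn n) (sep n) := by
  intro h
  obtain ⟨v, ⟨i, j, hi, hj, hij, rfl⟩, h1⟩ :=
    h (fun k => if hk : k < n then NE.v ⟨k, hk⟩ else NE.z)
  have h1' : FreeSemigroup.lift (fun k => if hk : k < n then (NE.v ⟨k, hk⟩ : Tn n) else NE.z)
      (FreeSemigroup.of 0 * FreeSemigroup.of 0 * FreeSemigroup.of 0) = _ := h1
  rw [map_mul, map_mul, mul_mul_z, map_mul, lift_of, lift_of, dif_pos hi, dif_pos hj,
    v_mul_v _ _ (by intro h; exact hij (Fin.mk.inj_iff.1 h))] at h1'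
  cases h1'

theorem sep_mono {S : Type} [Semigroup S] (m n : ℕ) (h : m ≤ n) (hs : Satisfies S (sep m)) :
    Satisfies S (sep n) := by
  intro f
  obtain ⟨v, ⟨i, j, hi, hj, hij, rfl⟩, h1⟩ := hs f
  exact ⟨_, ⟨i, j, by omega, by omega, hij, rfl⟩, h1⟩

theorem gen_isInclusive (T : Type) [Semigroup T] : IsInclusiveVariety (generated T) := by
  refine ⟨{i | Satisfies T i}, ?_⟩
  intro S _
  exact Iff.rfl

theorem gen_self (T : Type) [Semigroup T] : generated T T := fun _ h => h

theorem main : ∃ (S : Type) (_ : Semigroup S), Finite S ∧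
    (inclusiveSubvarieties (generated S)).Infinite := by
  refine ⟨WithOne S5, inferInstance, inferInstanceAs (Finite (Option S5)), ?_⟩
  have hinj : Function.Injective (fun n : ℕ => generated (Tn (n + 1))) := by
    have key : ∀ a b : ℕ, a < b → generated (Tn (a + 1)) ≠ generated (Tn (b + 1)) := by
      intro a b hab h
      have h1 : generated (Tn (a + 1)) (Tn (b + 1)) := by
        rw [h]
        exact gen_self _
      have h2 := h1 (sep (b + 1)) (sep_mono (a + 1 + 1) (b + 1) (by omega)
        (sep_sat (a + 1) (by omega)))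
      exact sep_not_sat (b + 1) (by omega) h2
    intro a b hab
    rcases lt_trichotomy a b with h | h | h
    · exact absurd hab (key a b h)
    · exact h
    · exact absurd hab.symm (key b a h)
  refine Set.infinite_of_injective_forall_mem hinj ?_
  intro n
  refine ⟨gen_isInclusive _, ?_⟩
  intro T _ hT i hi
  exact hT i (Tn_mem (n + 1) i (sat_of_withOne i hi))

end Pool.Agent.H5.Mea093d
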