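import Mathlib

set_option autoImplicit false

namespace Pool.Agent.H5.Mef54ea

/-- The value group. -/
abbrev Gam := ℤ ×ₗ ℤ

/-- The large field. -/
abbrev ZZ := HahnSeries Gam ℚ

/-- Parity of the order. -/
def par (g : Gam) : ZMod 2 × ZMod 2 := (((ofLex g).1 : ZMod 2), ((ofLex g).2 : ZMod 2))

theorem par_add (g h : Gam) : par (g + h) = par g + par h := by
  simp [par]

theorem par_double (g : Gam) : par (g + g) = 0 := by
  rw [par_add]
  generalize par g = p
  revert p
  decide

/-- Nonzero elements have order with parity in the given set. -/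
def PP (z : ZZ) (s : Finset (ZMod 2 × ZMod 2)) : Prop := z ≠ 0 → par z.order ∈ s

theorem PP_add {x y : ZZ} {s t : Finset (ZMod 2 × ZMod 2)} (hst : Disjoint s t) (hx : PP x s)
    (hy : PP y t) : PP (x + y) (s ∪ t) ∧ (x + y = 0 → x = 0 ∧ y = 0) := by
  by_cases h0 : x = 0
  · subst h0
    refine ⟨?_, ?_⟩
    · intro h
      rw [zero_add] at h ⊢
      exact Finset.mem_union_right _ (hy h)
    · intro h
      rw [zero_add] at h
      exact ⟨rfl, h⟩
  by_cases h1 : y = 0
  · subst h1
    refine ⟨?_, ?_⟩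
    · intro h
      rw [add_zero] at h ⊢
      exact Finset.mem_union_left _ (hx h)
    · intro h
      rw [add_zero] at h
      exact ⟨h, rfl⟩
  have hx' := hx h0
  have hy' := hy h1
  have hne : x.order ≠ y.order := by
    intro h
    rw [h] at hx'
    exact Finset.disjoint_left.1 hst hx' hy'
  rcases lt_or_gt_of_ne hne with h | h
  · have hc : (x + y).coeff x.order ≠ 0 := by
      rw [HahnSeries.coeff_add, HahnSeries.coeff_eq_zero_of_lt_order h, add_zero]
      exact HahnSeries.coeff_order_eq_zero.not.2 h0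
    have hne0 : x + y ≠ 0 := by
      intro h'
      rw [h'] at hc
      exact hc rfl
    have ho : (x + y).order = x.order := by
      apply le_antisymm (HahnSeries.order_le_of_coeff_ne_zero hc)
      have := HahnSeries.min_order_le_order_add hne0
      rwa [min_eq_left h.le] at this
    refine ⟨?_, fun h' => absurd h' hne0⟩
    intro _
    rw [ho]
    exact Finset.mem_union_left _ hx'
  · have hc : (x + y).coeff y.order ≠ 0 := by
      rw [HahnSeries.coeff_add, HahnSeries.coeff_eq_zero_of_lt_order h, zero_add]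
      exact HahnSeries.coeff_order_eq_zero.not.2 h1
    have hne0 : x + y ≠ 0 := by
      intro h'
      rw [h'] at hc
      exact hc rfl
    have ho : (x + y).order = y.order := by
      apply le_antisymm (HahnSeries.order_le_of_coeff_ne_zero hc)
      have := HahnSeries.min_order_le_order_add hne0
      rwa [min_eq_right h.le] at this
    refine ⟨?_, fun h' => absurd h' hne0⟩
    intro _
    rw [ho]
    exact Finset.mem_union_right _ hy'

/-- First uniformizer. -/
noncomputable def xx : ZZ := HahnSeries.single (toLex (1, 0)) 1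
/-- Second uniformizer. -/
noncomputable def yy : ZZ := HahnSeries.single (toLex (0, 1)) 1

theorem xx_ne : xx ≠ 0 := HahnSeries.single_ne_zero one_ne_zero
theorem yy_ne : yy ≠ 0 := HahnSeries.single_ne_zero one_ne_zero
theorem xx_order : xx.order = toLex (1, 0) := HahnSeries.order_single one_ne_zero
theorem yy_order : yy.order = toLex (0, 1) := HahnSeries.order_single one_ne_zero

theorem PP_sq (a m : ZZ) (g : Gam) (hm : m ≠ 0) (hg : m.order = g) :
    PP (m * (a * a)) {par g} := by
  intro h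
  have ha : a ≠ 0 := by
    rintro rfl
    apply h
    rw [mul_zero, mul_zero]
  rw [HahnSeries.order_mul hm (mul_ne_zero ha ha), HahnSeries.order_mul ha ha, par_add,
    par_double, add_zero, hg]
  exact Finset.mem_singleton_self _

/-- The quadratic form. -/
noncomputable def qq (a b c : ZZ) : ZZ := yy * (a * a) + xx * (b * b) + (xx * yy) * (c * c)

theorem qq_aniso (a b c : ZZ) : (qq a b c = 0 → a = 0 ∧ b = 0 ∧ c = 0) ∧
    (qq a b c ≠ 0 → (qq a b c).order ≠ 0) := by
  have hxy : xx * yy ≠ 0 := mul_ne_zero xx_ne yy_ne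
  have hxyo : (xx * yy).order = toLex (1, 1) := by
    rw [HahnSeries.order_mul xx_ne yy_ne, xx_order, yy_order]
    rfl
  have h1 := PP_sq a yy _ yy_ne yy_order
  have h2 := PP_sq b xx _ xx_ne xx_order
  have h3 := PP_sq c (xx * yy) _ hxy hxyo
  have p1 : par (toLex ((0 : ℤ), (1 : ℤ))) = (0, 1) := by decide
  have p2 : par (toLex ((1 : ℤ), (0 : ℤ))) = (1, 0) := by decide
  have p3 : par (toLex ((1 : ℤ), (1 : ℤ))) = (1, 1) := by decide
  rw [p1] at h1
  rw [p2] at h2
  rw [p3] at h3
  obtain ⟨h4, h4'⟩ := PP_add (by decide) h1 h2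
  obtain ⟨h5, h5'⟩ := PP_add (by decide) h4 h3
  constructor
  · intro h
    obtain ⟨h6, h7⟩ := h5' h
    obtain ⟨h8, h9⟩ := h4' h6
    refine ⟨?_, ?_, ?_⟩
    · simpa [yy_ne] using h8
    · simpa [xx_ne] using h9
    · simpa [xx_ne, yy_ne] using h7
  · intro h h0
    have h6 := h5 h
    have h7 : (yy * (a * a) + xx * (b * b) + (xx * yy) * (c * c)).order = 0 := h0
    rw [h7] at h6
    revert h6
    have : par 0 = (0, 0) := by decide
    rw [this]
    decide

theorem transc (z : ZZ) (hz : z ≠ 0) (ho : z.order ≠ 0) (p : Polynomial ℚ) (hp : p ≠ 0) :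
    Polynomial.aeval z p ≠ 0 := by
  intro h
  obtain ⟨i0, hi0, hmin⟩ := Finset.exists_min_image p.support (fun i => i • z.order)
    (Polynomial.support_nonempty.2 hp)
  have h1 := congrArg (fun w : ZZ => w.coeff (i0 • z.order)) h
  simp only [HahnSeries.coeff_zero] at h1
  rw [Polynomial.aeval_eq_sum_range, HahnSeries.coeff_sum] at h1
  rw [Finset.sum_eq_single i0] at h1
  · rw [HahnSeries.coeff_smul, smul_eq_mul] at h1
    rcases mul_eq_zero.1 h1 with h2 | h2
    · exact (Polynomial.mem_support_iff.1 hi0) h2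
    · rw [← HahnSeries.order_pow] at h2
      exact HahnSeries.coeff_order_eq_zero.not.2 (pow_ne_zero _ hz) h2
  · intro i _ hi
    rw [HahnSeries.coeff_smul, smul_eq_mul]
    by_cases hc : p.coeff i = 0
    · rw [hc, zero_mul]
    · have h2 := hmin i (Polynomial.mem_support_iff.2 hc)
      have h3 : i0 • z.order < (z ^ i).order := by
        rw [HahnSeries.order_pow]
        refine lt_of_le_of_ne h2 ?_
        intro h4
        apply hi
        have h5 : i0 • ofLex z.order = i • ofLex z.order := congrArg ofLex h4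
        have h6 : ofLex z.order ≠ 0 := fun h => ho h
        by_contra hne
        apply h6
        have h7 : (i0 : ℤ) - (i : ℤ) ≠ 0 := by
          intro h
          apply hne
          omega
        have h8 : ((i0 : ℤ) - (i : ℤ)) • ofLex z.order = 0 := by
          rw [sub_smul, natCast_zsmul, natCast_zsmul, h5, sub_self]
        exact (smul_eq_zero.1 h8).resolve_left h7
      rw [HahnSeries.coeff_eq_zero_of_lt_order h3, mul_zero]
  · intro h2
    exfalso
    apply h2
    rw [Finset.mem_range]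
    exact Nat.lt_succ_of_le (Polynomial.le_natDegree_of_mem_supp _ hi0)

/-! ### The Lie algebra -/

/-- The Lie algebra: triples over the large field. -/
@[ext] structure L3 where
  a : ZZ
  b : ZZ
  c : ZZ

noncomputable instance : Zero L3 := ⟨⟨0, 0, 0⟩⟩
noncomputable instance : Add L3 := ⟨fun u v => ⟨u.a + v.a, u.b + v.b, u.c + v.c⟩⟩
noncomputable instance : Neg L3 := ⟨fun u => ⟨-u.a, -u.b, -u.c⟩⟩
noncomputable instance : SMul ℚ L3 := ⟨fun r u => ⟨r • u.a, r • u.b, r • u.c⟩⟩

theorem zero_a : (0 : L3).a = 0 := rfl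
theorem zero_b : (0 : L3).b = 0 := rfl
theorem zero_c : (0 : L3).c = 0 := rfl
theorem add_a (u v : L3) : (u + v).a = u.a + v.a := rfl
theorem add_b (u v : L3) : (u + v).b = u.b + v.b := rfl
theorem add_c (u v : L3) : (u + v).c = u.c + v.c := rfl
theorem neg_a (u : L3) : (-u).a = -u.a := rfl
theorem neg_b (u : L3) : (-u).b = -u.b := rfl
theorem neg_c (u : L3) : (-u).c = -u.c := rfl
theorem smul_a (r : ℚ) (u : L3) : (r • u).a = r • u.a := rfl
theorem smul_b (r : ℚ) (u : L3) : (r • u).b = r • u.b := rfl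
theorem smul_c (r : ℚ) (u : L3) : (r • u).c = r • u.c := rfl

noncomputable instance : AddCommGroup L3 where
  add_assoc u v w := by ext1 <;> simp only [add_a, add_b, add_c] <;> ring
  zero_add u := by ext1 <;> simp only [add_a, add_b, add_c, zero_a, zero_b, zero_c] <;> ring
  add_zero u := by ext1 <;> simp only [add_a, add_b, add_c, zero_a, zero_b, zero_c] <;> ring
  add_comm u v := by ext1 <;> simp only [add_a, add_b, add_c] <;> ring
  neg_add_cancel u := by
    ext1 <;> simp only [add_a, add_b, add_c, neg_a, neg_b, neg_c, zero_a, zero_b, zero_c] <;> ring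
  nsmul := nsmulRec
  zsmul := zsmulRec

noncomputable instance : Module ℚ L3 where
  one_smul u := by ext1 <;> simp only [smul_a, smul_b, smul_c, one_smul]
  mul_smul r s u := by ext1 <;> simp only [smul_a, smul_b, smul_c, mul_smul]
  smul_zero r := by ext1 <;> simp only [smul_a, smul_b, smul_c, zero_a, zero_b, zero_c, smul_zero]
  smul_add r u v := by
    ext1 <;> simp only [smul_a, smul_b, smul_c, add_a, add_b, add_c, smul_add]
  add_smul r s u := by
    ext1 <;> simp only [smul_a, smul_b, smul_c, add_a, add_b, add_c, add_smul]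
  zero_smul u := by ext1 <;> simp only [smul_a, smul_b, smul_c, zero_a, zero_b, zero_c, zero_smul]

/-- The bracket. -/
noncomputable def br (u w : L3) : L3 :=
  ⟨xx * (u.b * w.c - u.c * w.b), yy * (u.c * w.a - u.a * w.c), u.a * w.b - u.b * w.a⟩

noncomputable instance : Bracket L3 L3 := ⟨br⟩

theorem br_a (u w : L3) : ⁅u, w⁆.a = xx * (u.b * w.c - u.c * w.b) := rfl
theorem br_b (u w : L3) : ⁅u, w⁆.b = yy * (u.c * w.a - u.a * w.c) := rfl
theorem br_c (u w : L3) : ⁅u, w⁆.c = u.a * w.b - u.b * w.a := rfl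

noncomputable instance : LieRing L3 where
  add_lie u v w := by
    ext1 <;> simp only [br_a, br_b, br_c, add_a, add_b, add_c] <;> ring
  lie_add u v w := by
    ext1 <;> simp only [br_a, br_b, br_c, add_a, add_b, add_c] <;> ring
  lie_self u := by
    ext1 <;> simp only [br_a, br_b, br_c, zero_a, zero_b, zero_c] <;> ring
  leibniz_lie u v w := by
    ext1 <;> simp only [br_a, br_b, br_c, add_a, add_b, add_c] <;> ring

noncomputable instance : LieAlgebra ℚ L3 where
  lie_smul r u v := by
    ext1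
    · simp only [br_a, smul_a, smul_b, smul_c, mul_smul_comm]
      rw [← smul_sub, mul_smul_comm]
    · simp only [br_b, smul_a, smul_b, smul_c, mul_smul_comm]
      rw [← smul_sub, mul_smul_comm]
    · simp only [br_c, smul_a, smul_b, smul_c, mul_smul_comm, smul_sub]

/-- Multiplication by an element of the large field. -/
noncomputable def sc (z : ZZ) (u : L3) : L3 := ⟨z * u.a, z * u.b, z * u.c⟩

theorem cube (u w : L3) : ⁅u, ⁅u, ⁅u, w⁆⁆⁆ = sc (-(qq u.a u.b u.c)) ⁅u, w⁆ := by
  ext1 <;> simp only [br_a, br_b, br_c, sc, qq] <;> ring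

/-! ### Purity -/

theorem pure (u : L3) (V : Submodule ℚ L3) (hV : FiniteDimensional ℚ V)
    (hinv : ∀ v ∈ V, ⁅u, v⁆ ∈ V) (v : L3) (hv : v ∈ V) : ⁅u, v⁆ = 0 := by
  by_contra hne
  have hu : u ≠ 0 := by
    rintro rfl
    exact hne (zero_lie v)
  obtain ⟨hq1, hq2⟩ := qq_aniso u.a u.b u.c
  have hq : qq u.a u.b u.c ≠ 0 := by
    intro h
    obtain ⟨h1, h2, h3⟩ := hq1 h
    apply hu
    ext1
    · exact h1
    · exact h2
    · exact h3
  set q := -(qq u.a u.b u.c) with hqdef
  have hq0 : q ≠ 0 := neg_ne_zero.2 hq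
  have hqo : q.order ≠ 0 := by
    rw [hqdef, HahnSeries.order_neg]
    exact hq2 hq
  let T : V →ₗ[ℚ] V :=
    { toFun := fun x => ⟨⁅u, ⁅u, (x : L3)⁆⁆, hinv _ (hinv _ x.2)⟩
      map_add' := by
        intro x y
        apply Subtype.ext
        show ⁅u, ⁅u, (x : L3) + y⁆⁆ = ⁅u, ⁅u, (x : L3)⁆⁆ + ⁅u, ⁅u, (y : L3)⁆⁆
        rw [lie_add, lie_add]
      map_smul' := by
        intro r x
        apply Subtype.ext
        show ⁅u, ⁅u, r • (x : L3)⁆⁆ = r • ⁅u, ⁅u, (x : L3)⁆⁆
        rw [lie_smul, lie_smul] }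
  let w : V := ⟨⁅u, v⁆, hinv v hv⟩
  have hTn : ∀ n : ℕ, (((T ^ n) w : V) : L3) = sc (q ^ n) ⁅u, v⁆ := by
    intro n
    induction n with
    | zero =>
      ext1 <;> simp [sc, w]
    | succ n ih =>
      rw [pow_succ']
      show ⁅u, ⁅u, (((T ^ n) w : V) : L3)⁆⁆ = _
      rw [ih]
      have hlin : ∀ (z : ZZ) (y : L3), ⁅u, sc z y⁆ = sc z ⁅u, y⁆ := by
        intro z y
        ext1 <;> simp only [br_a, br_b, br_c, sc] <;> ring
      rw [hlin, hlin, cube, ← hqdef]
      ext1 <;> simp only [sc] <;> ring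
  have hp : ∀ p : Polynomial ℚ, ((Polynomial.aeval T p w : V) : L3) =
      sc (Polynomial.aeval q p) ⁅u, v⁆ := by
    intro p
    induction p using Polynomial.induction_on' with
    | add p1 p2 h1 h2 =>
      rw [map_add, map_add, LinearMap.add_apply, Submodule.coe_add, h1, h2]
      ext1 <;> simp only [sc, add_a, add_b, add_c] <;> ring
    | monomial n r =>
      rw [Polynomial.aeval_monomial, Polynomial.aeval_monomial, Module.algebraMap_end_eq_smul_id,
        Module.End.mul_apply]
      show ((r • ((T ^ n) w) : V) : L3) = _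
      rw [Submodule.coe_smul, hTn]
      ext1 <;> simp only [sc, smul_a, smul_b, smul_c, Algebra.algebraMap_eq_smul_one,
        smul_mul_assoc, one_mul]
  have hm : Polynomial.aeval T (minpoly ℚ T) = 0 := minpoly.aeval ℚ T
  have hmn : minpoly ℚ T ≠ 0 := minpoly.ne_zero (Algebra.IsIntegral.isIntegral T)
  have h1 := hp (minpoly ℚ T)
  rw [hm, LinearMap.zero_apply, Submodule.coe_zero] at h1
  have h2 := transc q hq0 hqo _ hmn
  apply hne
  have ha := congrArg L3.a h1
  have hb := congrArg L3.b h1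
  have hc := congrArg L3.c h1
  ext1
  · exact (mul_eq_zero.1 ha.symm).resolve_left h2
  · exact (mul_eq_zero.1 hb.symm).resolve_left h2
  · exact (mul_eq_zero.1 hc.symm).resolve_left h2

/-! ### Simplicity -/

theorem full_of_c (I : LieIdeal ℚ L3) (u : L3) (hu : u ∈ I) (hc : u.c ≠ 0) : I = ⊤ := by
  have h1 : ∀ z : ZZ, (⟨0, -(yy * (z * u.c)), z * u.b⟩ : L3) ∈ I := by
    intro z
    have h := I.lie_mem (x := (⟨z, 0, 0⟩ : L3)) hu
    have e : ⁅(⟨z, 0, 0⟩ : L3), u⁆ = ⟨0, -(yy * (z * u.c)), z * u.b⟩ := by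
      ext1 <;> simp only [br_a, br_b, br_c] <;> ring
    rwa [e] at h
  have h2 : ∀ w : ZZ, (⟨w, 0, 0⟩ : L3) ∈ I := by
    intro w
    have h := I.lie_mem (x := (⟨0, 0, 1⟩ : L3)) (h1 (w * (xx * yy * u.c)⁻¹))
    have e : ⁅(⟨0, 0, 1⟩ : L3), (⟨0, -(yy * ((w * (xx * yy * u.c)⁻¹) * u.c)),
        (w * (xx * yy * u.c)⁻¹) * u.b⟩ : L3)⁆ = ⟨w, 0, 0⟩ := by
      have hx := xx_ne
      have hy := yy_ne
      ext1
      · simp only [br_a]
        field_simp
        ring
      · simp only [br_b]
        ring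
      · simp only [br_c]
        ring
    rwa [e] at h
  have h3 : ∀ w : ZZ, (⟨0, w, 0⟩ : L3) ∈ I := by
    intro w
    have h := I.lie_mem (x := (⟨0, 0, 1⟩ : L3)) (h2 (w * yy⁻¹))
    have e : ⁅(⟨0, 0, 1⟩ : L3), (⟨w * yy⁻¹, 0, 0⟩ : L3)⁆ = ⟨0, w, 0⟩ := by
      have hy := yy_ne
      ext1
      · simp only [br_a]
        ring
      · simp only [br_b]
        field_simp
        ring
      · simp only [br_c]
        ring
    rwa [e] at h
  have h4 : ∀ w : ZZ, (⟨0, 0, w⟩ : L3) ∈ I := by
    intro w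
    have h := I.lie_mem (x := (⟨1, 0, 0⟩ : L3)) (h3 w)
    have e : ⁅(⟨1, 0, 0⟩ : L3), (⟨0, w, 0⟩ : L3)⁆ = ⟨0, 0, w⟩ := by
      ext1 <;> simp only [br_a, br_b, br_c] <;> ring
    rwa [e] at h
  rw [eq_top_iff]
  intro v _
  have h5 := I.add_mem (I.add_mem (h2 v.a) (h3 v.b)) (h4 v.c)
  have e : (⟨v.a, 0, 0⟩ : L3) + ⟨0, v.b, 0⟩ + ⟨0, 0, v.c⟩ = v := by
    ext1 <;> simp only [add_a, add_b, add_c] <;> ring
  rwa [e] at h5

theorem simple_L3 : LieAlgebra.IsSimple ℚ L3 where
  eq_bot_or_eq_top := by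
    intro I
    by_cases hI : I = ⊥
    · exact Or.inl hI
    · right
      rw [LieSubmodule.eq_bot_iff] at hI
      push Not at hI
      obtain ⟨u, hu, hu0⟩ := hI
      by_cases hc : u.c = 0
      · by_cases ha : u.a = 0
        · have hb : u.b ≠ 0 := by
            intro hb
            apply hu0
            ext1
            · exact ha
            · exact hb
            · exact hc
          refine full_of_c I _ (I.lie_mem (x := (⟨1, 0, 0⟩ : L3)) hu) ?_
          rw [br_c]
          simpa using hb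
        · refine full_of_c I _ (I.lie_mem (x := (⟨0, 1, 0⟩ : L3)) hu) ?_
          rw [br_c]
          simpa using ha
      · exact full_of_c I u hu hc
  non_abelian := by
    intro h
    have h1 : ⁅(⟨1, 0, 0⟩ : L3), (⟨0, 1, 0⟩ : L3)⁆ = 0 := h.trivial _ _
    have h2 := congrArg L3.c h1
    rw [br_c] at h2
    simp [zero_c] at h2

end Pool.Agent.H5.Mef54ea
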