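import Mathlib

set_option autoImplicit false

namespace Pool.Agent.H5.Mf52e03

/-- Letters: generators with a sign. -/
abbrev Lt := ℕ × Bool

/-- Inverse letter. -/
def iv (a : Lt) : Lt := (a.1, !a.2)

theorem iv_iv (a : Lt) : iv (iv a) = a := by
  unfold iv
  simp

theorem iv_ne (a : Lt) : a ≠ iv a := by
  intro h
  have := congrArg Prod.snd h
  unfold iv at this
  simp at this

/-- Reduced words. -/
def Red (L : List Lt) : Prop := L.IsChain (fun a b => a ≠ iv b)

section abstract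

variable {V : Type}

/-- Walks; the head letter is the last step. -/
def Wk (E : Lt → V → V → Prop) : List Lt → V → V → Prop
  | [], u, v => u = v
  | a :: L, u, v => ∃ w, Wk E L u w ∧ E a w v

/-- No nonempty reduced closed walks. -/
def Forest (E : Lt → V → V → Prop) : Prop := ∀ L u, L ≠ [] → Red L → ¬ Wk E L u u

theorem Wk_snoc (E : Lt → V → V → Prop) (L : List Lt) (b : Lt) (u v : V) :
    Wk E (L ++ [b]) u v ↔ ∃ w, E b u w ∧ Wk E L w v := by
  induction L generalizing v with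
  | nil =>
    constructor
    · rintro ⟨w, rfl, h⟩
      exact ⟨v, h, rfl⟩
    · rintro ⟨w, h, rfl⟩
      exact ⟨u, rfl, h⟩
  | cons a L ih =>
    constructor
    · rintro ⟨w, h1, h2⟩
      obtain ⟨x, h3, h4⟩ := (ih w).1 h1
      exact ⟨x, h3, w, h4, h2⟩
    · rintro ⟨x, h3, w, h4, h2⟩
      exact ⟨w, (ih w).2 ⟨x, h3, h4⟩, h2⟩

theorem Wk_mono {E E' : Lt → V → V → Prop} (h : ∀ a u v, E a u v → E' a u v) (L : List Lt)
    (u v : V) (hw : Wk E L u v) : Wk E' L u v := by
  induction L generalizing v with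
  | nil => exact hw
  | cons a L ih =>
    obtain ⟨w, h1, h2⟩ := hw
    exact ⟨w, ih w h1, h _ _ _ h2⟩

theorem leaf1 (E E' : Lt → V → V → Prop) (Y : V → Prop)
    (h1 : ∀ a u v, ¬ Y u → ¬ Y v → E' a u v → E a u v)
    (h2 : ∀ u, Y u → ∀ a b v w, E' a u v → E' b u w → a = b ∧ v = w)
    (hs : ∀ a u v, E' a u v → E' (iv a) v u) (L : List Lt) (u v : V) (hu : ¬ Y u) (hv : ¬ Y v)
    (hr : Red L) (hw : Wk E' L u v) : Wk E L u v := by
  induction L generalizing v with
  | nil => exact hw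
  | cons a L ih =>
    obtain ⟨w, hw1, hw2⟩ := hw
    have hrL : Red L := hr.tail
    by_cases hY : Y w
    · exfalso
      cases L with
      | nil =>
        have : u = w := hw1
        rw [this] at hu
        exact hu hY
      | cons b L' =>
        obtain ⟨w', _, h4⟩ := hw1
        have h5 := hs _ _ _ h4
        obtain ⟨h6, _⟩ := h2 w hY _ _ _ _ hw2 h5
        have h7 : a ≠ iv b := (List.isChain_cons_cons.1 hr).1
        exact h7 h6
    · exact ⟨w, ih w hY hrL hw1, h1 _ _ _ hY hv hw2⟩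

theorem leaf2 (E E' : Lt → V → V → Prop) (Y : V → Prop)
    (h1 : ∀ a u v, ¬ Y u → ¬ Y v → E' a u v → E a u v)
    (h2 : ∀ u, Y u → ∀ a b v w, E' a u v → E' b u w → a = b ∧ v = w)
    (hs : ∀ a u v, E' a u v → E' (iv a) v u) (hE : Forest E) : Forest E' := by
  have key : ∀ n : ℕ, ∀ L : List Lt, L.length = n → ∀ u, L ≠ [] → Red L → ¬ Wk E' L u u := by
    intro n
    induction n using Nat.strong_induction_on with
    | _ n ih =>
      intro L hL u hne hr hw
      by_cases hY : Y u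
      · cases L with
        | nil => exact hne rfl
        | cons a L1 =>
          obtain ⟨w, hw1, hw2⟩ := hw
          have h3 := hs _ _ _ hw2
          rcases List.eq_nil_or_concat' L1 with rfl | ⟨L2, b, rfl⟩
          · have h4 : u = w := hw1
            subst h4
            exact iv_ne a (h2 u hY _ _ _ _ hw2 h3).1
          · rw [Wk_snoc] at hw1
            obtain ⟨w2, h5, h6⟩ := hw1
            obtain ⟨h7, h8⟩ := h2 u hY _ _ _ _ h3 h5
            subst h8
            have hr2 : Red L2 := by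
              have : Red (L2 ++ [b]) := hr.tail
              exact List.IsChain.left_of_append this
            by_cases hL2 : L2 = []
            · subst hL2
              have h9 : a ≠ iv b := (List.isChain_cons_cons.1 hr).1
              apply h9
              rw [← h7, iv_iv]
            · refine ih L2.length ?_ L2 rfl w hL2 hr2 h6
              rw [← hL]
              simp only [List.length_cons, List.length_append, List.length_nil]
              omega
      · exact hE L u hne hr (leaf1 E E' Y h1 h2 hs L u u hY hY hr hw)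
  intro L u
  exact key _ L rfl u

theorem join1 (E E' : Lt → V → V → Prop) (K : V → Prop)
    (hK : ∀ a u v, E' a u v → (K u ↔ K v) → E a u v) (L : List Lt) (u v : V)
    (hw : Wk E' L u v) (hne : ¬ (K u ↔ K v)) :
    ∃ L1 L2 d x y, L = L1 ++ d :: L2 ∧ (K x ↔ K u) ∧ (K y ↔ K v) ∧ E' d x y ∧ Wk E L1 y v := by
  induction L generalizing v with
  | nil =>
    have : u = v := hw
    rw [this] at hne
    exact absurd Iff.rfl hne
  | cons a L ih =>
    obtain ⟨w, hw1, hw2⟩ := hw
    by_cases h : K w ↔ K v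
    · have h1 := hK _ _ _ hw2 h
      obtain ⟨L1, L2, d, x, y, h2, h3, h4, h5, h6⟩ := ih w hw1 (by
        intro h'
        exact hne (h'.trans h))
      exact ⟨a :: L1, L2, d, x, y, by rw [h2]; rfl, h3, h4.trans h, h5, w, h6, h1⟩
    · refine ⟨[], L, a, w, v, rfl, ?_, Iff.rfl, hw2, rfl⟩
      tauto

theorem join2 (E E' : Lt → V → V → Prop) (K : V → Prop) (c : Lt) (A B : V)
    (hE' : ∀ a u v, E' a u v → E a u v ∨ (a = c ∧ u = A ∧ v = B) ∨ (a = iv c ∧ u = B ∧ v = A))
    (hKE : ∀ a u v, E a u v → (K u ↔ K v)) (hA : K A) (hB : ¬ K B) (hE : Forest E)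
    (L : List Lt) (u v : V) (hr : Red L) (hw : Wk E' L u v) (huv : K u ↔ K v) :
    Wk E L u v := by
  have hK : ∀ a u v, E' a u v → (K u ↔ K v) → E a u v := by
    intro a u v h h'
    rcases hE' a u v h with h1 | ⟨_, rfl, rfl⟩ | ⟨_, rfl, rfl⟩
    · exact h1
    · exact absurd (h'.1 hA) hB
    · exact absurd (h'.2 hA) hB
  induction L generalizing v with
  | nil => exact hw
  | cons a L ih =>
    obtain ⟨w, hw1, hw2⟩ := hw
    have hrL : Red L := hr.tail
    rcases hE' a w v hw2 with h1 | ⟨ha, hwA, hvB⟩ | ⟨ha, hwB, hvA⟩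
    · exact ⟨w, ih w hrL hw1 (huv.trans (hKE _ _ _ h1).symm), h1⟩
    · exfalso
      subst hwA hvB
      have hKu : ¬ K u := fun h => hB (huv.1 h)
      obtain ⟨L1, L2, d, x, y, h2, h3, h4, h5, h6⟩ := join1 E E' K hK L u w hw1 (by
        intro h'
        exact hKu (h'.2 hA))
      have hx : ¬ K x := fun h => hKu (h3.1 h)
      have hy : K y := h4.2 hA
      rcases hE' d x y h5 with h7 | ⟨_, rfl, _⟩ | ⟨hd, _, rfl⟩
      · exact hx ((hKE _ _ _ h7).2 hy)
      · exact hx hA
      · by_cases hL1 : L1 = []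
        · subst hL1
          rw [h2] at hr
          have h9 : a ≠ iv d := (List.isChain_cons_cons.1 hr).1
          apply h9
          rw [hd, iv_iv, ha]
        · have hr1 : Red L1 := by
            rw [h2] at hrL
            exact List.IsChain.left_of_append hrL
          exact hE L1 y hL1 hr1 h6
    · exfalso
      subst hwB hvA
      have hKu : K u := huv.2 hA
      obtain ⟨L1, L2, d, x, y, h2, h3, h4, h5, h6⟩ := join1 E E' K hK L u w hw1 (by
        intro h'
        exact hB (h'.1 hKu))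
      have hx : K x := h3.2 hKu
      have hy : ¬ K y := fun h => hB (h4.1 h)
      rcases hE' d x y h5 with h7 | ⟨hd, _, rfl⟩ | ⟨_, rfl, _⟩
      · exact hy ((hKE _ _ _ h7).1 hx)
      · by_cases hL1 : L1 = []
        · subst hL1
          rw [h2] at hr
          have h9 : a ≠ iv d := (List.isChain_cons_cons.1 hr).1
          apply h9
          rw [hd, ha]
        · have hr1 : Red L1 := by
            rw [h2] at hrL
            exact List.IsChain.left_of_append hrL
          exact hE L1 y hL1 hr1 h6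
      · exact hB hx

theorem join3 (E E' : Lt → V → V → Prop) (K : V → Prop) (c : Lt) (A B : V)
    (hE' : ∀ a u v, E' a u v → E a u v ∨ (a = c ∧ u = A ∧ v = B) ∨ (a = iv c ∧ u = B ∧ v = A))
    (hKE : ∀ a u v, E a u v → (K u ↔ K v)) (hA : K A) (hB : ¬ K B) (hE : Forest E) :
    Forest E' := by
  intro L u hne hr hw
  exact hE L u hne hr (join2 E E' K c A B hE' hKE hA hB hE L u u hr hw Iff.rfl)

end abstract

/-! ### Partial systems -/

/-- Edges on `t`-sets. -/
def Ed (t : ℕ) (R : Lt → ℕ → ℕ → Prop) (a : Lt) (u v : Finset ℕ) : Prop :=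
  u.card = t ∧ v.card = t ∧ (∀ x ∈ u, ∃ y ∈ v, R a x y) ∧ (∀ y ∈ v, ∃ x ∈ u, R a x y)

/-- Good partial systems. -/
structure Good (t : ℕ) (R : Lt → ℕ → ℕ → Prop) : Prop where
  symm : ∀ a x y, R a x y → R (iv a) y x
  det : ∀ a x y y', R a x y → R a x y' → y = y'
  fin : {p : Lt × ℕ × ℕ | R p.1 p.2.1 p.2.2}.Finite
  forest : Forest (Ed t R)

theorem Ed_symm {t : ℕ} {R : Lt → ℕ → ℕ → Prop} (hs : ∀ a x y, R a x y → R (iv a) y x)
    (a : Lt) (u v : Finset ℕ) (h : Ed t R a u v) : Ed t R (iv a) v u := by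
  obtain ⟨h1, h2, h3, h4⟩ := h
  refine ⟨h2, h1, ?_, ?_⟩
  · intro y hy
    obtain ⟨x, hx, hxy⟩ := h4 y hy
    exact ⟨x, hx, hs _ _ _ hxy⟩
  · intro x hx
    obtain ⟨y, hy, hxy⟩ := h3 x hx
    exact ⟨y, hy, hs _ _ _ hxy⟩

theorem Ed_det {t : ℕ} {R : Lt → ℕ → ℕ → Prop} (hd : ∀ a x y y', R a x y → R a x y' → y = y')
    (a : Lt) (u v w : Finset ℕ) (h : Ed t R a u v) (h' : Ed t R a u w) : v = w := by
  obtain ⟨_, _, h3, h4⟩ := h
  obtain ⟨_, _, h3', h4'⟩ := h'
  ext y
  constructor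
  · intro hy
    obtain ⟨x, hx, hxy⟩ := h4 y hy
    obtain ⟨z, hz, hxz⟩ := h3' x hx
    rw [hd _ _ _ _ hxy hxz]
    exact hz
  · intro hy
    obtain ⟨x, hx, hxy⟩ := h4' y hy
    obtain ⟨z, hz, hxz⟩ := h3 x hx
    rw [hd _ _ _ _ hxy hxz]
    exact hz

theorem Ed_mono {t : ℕ} {R R' : Lt → ℕ → ℕ → Prop} (h : ∀ a x y, R a x y → R' a x y)
    (a : Lt) (u v : Finset ℕ) (he : Ed t R a u v) : Ed t R' a u v := by
  obtain ⟨h1, h2, h3, h4⟩ := he
  refine ⟨h1, h2, ?_, ?_⟩
  · intro x hx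
    obtain ⟨y, hy, hxy⟩ := h3 x hx
    exact ⟨y, hy, h _ _ _ hxy⟩
  · intro y hy
    obtain ⟨x, hx, hxy⟩ := h4 y hy
    exact ⟨x, hx, h _ _ _ hxy⟩

theorem good_empty (t : ℕ) (ht : 1 ≤ t) : Good t (fun _ _ _ => False) where
  symm := fun _ _ _ h => h
  det := fun _ _ _ _ h => h.elim
  fin := by simp
  forest := by
    intro L u hne _ hw
    cases L with
    | nil => exact hne rfl
    | cons a L =>
      obtain ⟨w, _, h⟩ := hw
      obtain ⟨h1, _, h3, _⟩ := h
      obtain ⟨x, hx⟩ := Finset.card_pos.1 (by omega : 0 < w.card)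
      obtain ⟨y, _, hy⟩ := h3 x hx
      exact hy

theorem extend (t : ℕ) (R : Lt → ℕ → ℕ → Prop) (hR : Good t R) (a : Lt) (x : ℕ) :
    ∃ R' : Lt → ℕ → ℕ → Prop, Good t R' ∧ (∀ a x y, R a x y → R' a x y) ∧ ∃ y, R' a x y := by
  by_cases hx : ∃ y, R a x y
  · exact ⟨R, hR, fun _ _ _ h => h, hx⟩
  push Not at hx
  have hfin : ({z : ℕ | ∃ b z', R b z z'} ∪ {x}).Finite := by
    apply Set.Finite.union _ (Set.finite_singleton x)
    apply (hR.fin.image (fun p : Lt × ℕ × ℕ => p.2.1)).subset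
    rintro z ⟨b, z', h⟩
    exact ⟨(b, z, z'), h, rfl⟩
  obtain ⟨y, hy⟩ := hfin.exists_notMem
  have hy1 : ∀ b z, ¬ R b y z := fun b z h => hy (Or.inl ⟨b, z, h⟩)
  have hy2 : y ≠ x := fun h => hy (Or.inr h)
  let R' : Lt → ℕ → ℕ → Prop := fun b z z' =>
    R b z z' ∨ (b = a ∧ z = x ∧ z' = y) ∨ (b = iv a ∧ z = y ∧ z' = x)
  have hsymm : ∀ b z z', R' b z z' → R' (iv b) z' z := by
    rintro b z z' (h | ⟨rfl, rfl, rfl⟩ | ⟨rfl, rfl, rfl⟩)
    · exact Or.inl (hR.symm _ _ _ h)
    · exact Or.inr (Or.inr ⟨rfl, rfl, rfl⟩)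
    · exact Or.inr (Or.inl ⟨iv_iv a, rfl, rfl⟩)
  have hdet : ∀ b z y1 y2, R' b z y1 → R' b z y2 → y1 = y2 := by
    rintro b z y1 y2 (h | ⟨rfl, rfl, rfl⟩ | ⟨rfl, rfl, rfl⟩) (h' | ⟨h1, h2, h3⟩ | ⟨h1, h2, h3⟩)
    · exact hR.det _ _ _ _ h h'
    · rw [h1, h2] at h
      exact absurd h (hx _)
    · rw [h2] at h
      exact absurd h (hy1 _ _)
    · exact absurd h' (hx _)
    · exact h3.symm
    · exact absurd h1 (iv_ne b)
    · exact absurd h' (hy1 _ _)
    · exact absurd h1.symm (iv_ne a)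
    · exact h3.symm
  refine ⟨R', ⟨hsymm, hdet, ?_, ?_⟩, fun _ _ _ h => Or.inl h, y, Or.inr (Or.inl ⟨rfl, rfl, rfl⟩)⟩
  · apply (hR.fin.union ((Set.finite_singleton (a, x, y)).union
      (Set.finite_singleton (iv a, y, x)))).subset
    rintro ⟨b, z, z'⟩ (h | ⟨h1, h2, h3⟩ | ⟨h1, h2, h3⟩)
    · exact Or.inl h
    · right; left
      rw [Set.mem_singleton_iff]
      exact Prod.ext h1 (Prod.ext h2 h3)
    · right; right
      rw [Set.mem_singleton_iff]
      exact Prod.ext h1 (Prod.ext h2 h3)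
  · apply leaf2 (Ed t R) (Ed t R') (fun u => y ∈ u) _ _ (Ed_symm hsymm) hR.forest
    · rintro b u v hu hv ⟨h1, h2, h3, h4⟩
      refine ⟨h1, h2, ?_, ?_⟩
      · intro z hz
        obtain ⟨z', hz', h⟩ := h3 z hz
        refine ⟨z', hz', ?_⟩
        rcases h with h | ⟨_, _, rfl⟩ | ⟨_, rfl, _⟩
        · exact h
        · exact absurd hz' hv
        · exact absurd hz hu
      · intro z' hz'
        obtain ⟨z, hz, h⟩ := h4 z' hz'
        refine ⟨z, hz, ?_⟩
        rcases h with h | ⟨_, _, rfl⟩ | ⟨_, rfl, _⟩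
        · exact h
        · exact absurd hz' hv
        · exact absurd hz hu
    · intro u hu b b' v w h h'
      have e : ∀ b v, Ed t R' b u v → b = iv a := by
        intro b v h
        obtain ⟨z, _, h⟩ := h.2.2.1 y hu
        rcases h with h | ⟨_, h, _⟩ | ⟨h, _, _⟩
        · exact absurd h (hy1 _ _)
        · exact absurd h hy2
        · exact h
      have e1 := e b v h
      have e2 := e b' w h'
      subst e1
      subst e2
      exact ⟨rfl, Ed_det hdet _ _ _ _ h h'⟩

theorem connect (t : ℕ) (R : Lt → ℕ → ℕ → Prop) (hR : Good t R) (A B : Finset ℕ)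
    (hA : A.card = t) (hB : B.card = t) :
    ∃ R' : Lt → ℕ → ℕ → Prop, Good t R' ∧ (∀ a x y, R a x y → R' a x y) ∧
      ∃ L, Wk (Ed t R') L A B := by
  by_cases hAB : ∃ L, Wk (Ed t R) L A B
  · exact ⟨R, hR, fun _ _ _ h => h, hAB⟩
  have hfin : {n : ℕ | ∃ b z z', R (n, b) z z'}.Finite := by
    apply (hR.fin.image (fun p : Lt × ℕ × ℕ => p.1.1)).subset
    rintro n ⟨b, z, z', h⟩
    exact ⟨((n, b), z, z'), h, rfl⟩
  obtain ⟨n, hn⟩ := hfin.exists_notMem
  have hn' : ∀ b z z', ¬ R (n, b) z z' := fun b z z' h => hn ⟨b, z, z', h⟩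
  have hcard : A.card = B.card := hA.trans hB.symm
  let e : A ≃ B := Finset.equivOfCardEq hcard
  let rho : ℕ → ℕ → Prop := fun x y => ∃ h : x ∈ A, ((e ⟨x, h⟩ : B) : ℕ) = y
  have rho_det : ∀ x y y', rho x y → rho x y' → y = y' := by
    rintro x y y' ⟨h, rfl⟩ ⟨h', rfl⟩
    rfl
  have rho_inj : ∀ x x' y, rho x y → rho x' y → x = x' := by
    rintro x x' y ⟨h, h1⟩ ⟨h', h2⟩
    have h3 : e ⟨x, h⟩ = e ⟨x', h'⟩ := Subtype.ext (h1.trans h2.symm)
    exact congrArg Subtype.val (e.injective h3)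
  have rho_A : ∀ x y, rho x y → x ∈ A := fun x y h => h.1
  have rho_B : ∀ x y, rho x y → y ∈ B := by
    rintro x y ⟨h, rfl⟩
    exact (e ⟨x, h⟩).2
  have rho_tot : ∀ x ∈ A, ∃ y ∈ B, rho x y := fun x hx => ⟨_, (e ⟨x, hx⟩).2, hx, rfl⟩
  have rho_sur : ∀ y ∈ B, ∃ x ∈ A, rho x y := by
    intro y hy
    refine ⟨e.symm ⟨y, hy⟩, (e.symm ⟨y, hy⟩).2, (e.symm ⟨y, hy⟩).2, ?_⟩
    simp
  let R' : Lt → ℕ → ℕ → Prop := fun b z z' =>
    R b z z' ∨ (b = (n, true) ∧ rho z z') ∨ (b = (n, false) ∧ rho z' z)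
  have hsymm : ∀ b z z', R' b z z' → R' (iv b) z' z := by
    rintro b z z' (h | ⟨rfl, h⟩ | ⟨rfl, h⟩)
    · exact Or.inl (hR.symm _ _ _ h)
    · exact Or.inr (Or.inr ⟨rfl, h⟩)
    · exact Or.inr (Or.inl ⟨rfl, h⟩)
  have hdet : ∀ b z y1 y2, R' b z y1 → R' b z y2 → y1 = y2 := by
    rintro b z y1 y2 (h | ⟨rfl, h⟩ | ⟨rfl, h⟩) (h' | ⟨h1, h2⟩ | ⟨h1, h2⟩)
    · exact hR.det _ _ _ _ h h'
    · rw [h1] at h
      exact absurd h (hn' _ _ _)
    · rw [h1] at h
      exact absurd h (hn' _ _ _)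
    · exact absurd h' (hn' _ _ _)
    · exact rho_det _ _ _ h h2
    · simp at h1
    · exact absurd h' (hn' _ _ _)
    · simp at h1
    · exact rho_inj _ _ _ h h2
  have hEc : Ed t R' (n, true) A B := by
    refine ⟨hA, hB, ?_, ?_⟩
    · intro x hx
      obtain ⟨y, hy, h⟩ := rho_tot x hx
      exact ⟨y, hy, Or.inr (Or.inl ⟨rfl, h⟩)⟩
    · intro y hy
      obtain ⟨x, hx, h⟩ := rho_sur y hy
      exact ⟨x, hx, Or.inr (Or.inl ⟨rfl, h⟩)⟩
  refine ⟨R', ⟨hsymm, hdet, ?_, ?_⟩, fun _ _ _ h => Or.inl h, [(n, true)], A, rfl, hEc⟩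
  · have f1 : ((A ×ˢ B : Finset (ℕ × ℕ)) : Set (ℕ × ℕ)).Finite := Finset.finite_toSet _
    have f2 : ((B ×ˢ A : Finset (ℕ × ℕ)) : Set (ℕ × ℕ)).Finite := Finset.finite_toSet _
    apply (hR.fin.union ((f1.image (fun q : ℕ × ℕ => (((n, true), q) : Lt × ℕ × ℕ))).union
      (f2.image (fun q : ℕ × ℕ => (((n, false), q) : Lt × ℕ × ℕ))))).subset
    rintro ⟨b, z, z'⟩ (h | ⟨h1, h2⟩ | ⟨h1, h2⟩)
    · exact Or.inl h
    · right; left
      refine ⟨(z, z'), ?_, ?_⟩
      · exact Finset.mem_coe.2 (Finset.mem_product.2 ⟨rho_A _ _ h2, rho_B _ _ h2⟩)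
      · exact Prod.ext h1.symm rfl
    · right; right
      refine ⟨(z, z'), ?_, ?_⟩
      · exact Finset.mem_coe.2 (Finset.mem_product.2 ⟨rho_B _ _ h2, rho_A _ _ h2⟩)
      · exact Prod.ext h1.symm rfl
  · apply join3 (Ed t R) (Ed t R') (fun v => ∃ L, Wk (Ed t R) L A v) (n, true) A B
    · rintro b u v h
      by_cases hb : b.1 = n
      · obtain ⟨b1, b2⟩ := b
        have hb' : b1 = n := hb
        subst hb'
        obtain ⟨h1, h2, h3, h4⟩ := h
        cases b2 with
        | true =>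
          right; left
          have k1 : u ⊆ A := by
            intro z hz
            obtain ⟨z', _, hz'⟩ := h3 z hz
            rcases hz' with h | ⟨_, h⟩ | ⟨h, _⟩
            · exact absurd h (hn' _ _ _)
            · exact rho_A _ _ h
            · simp at h
          have k2 : v ⊆ B := by
            intro z hz
            obtain ⟨z', _, hz'⟩ := h4 z hz
            rcases hz' with h | ⟨_, h⟩ | ⟨h, _⟩
            · exact absurd h (hn' _ _ _)
            · exact rho_B _ _ h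
            · simp at h
          exact ⟨rfl, Finset.eq_of_subset_of_card_le k1 (by rw [hA, h1]),
            Finset.eq_of_subset_of_card_le k2 (by rw [hB, h2])⟩
        | false =>
          right; right
          have k1 : u ⊆ B := by
            intro z hz
            obtain ⟨z', _, hz'⟩ := h3 z hz
            rcases hz' with h | ⟨h, _⟩ | ⟨_, h⟩
            · exact absurd h (hn' _ _ _)
            · simp at h
            · exact rho_B _ _ h
          have k2 : v ⊆ A := by
            intro z hz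
            obtain ⟨z', _, hz'⟩ := h4 z hz
            rcases hz' with h | ⟨h, _⟩ | ⟨_, h⟩
            · exact absurd h (hn' _ _ _)
            · simp at h
            · exact rho_A _ _ h
          exact ⟨rfl, Finset.eq_of_subset_of_card_le k1 (by rw [hB, h1]),
            Finset.eq_of_subset_of_card_le k2 (by rw [hA, h2])⟩
      · left
        have k : ∀ z z', R' b z z' → R b z z' := by
          rintro z z' (h | ⟨h, _⟩ | ⟨h, _⟩)
          · exact h
          · exact absurd (congrArg Prod.fst h) hb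
          · exact absurd (congrArg Prod.fst h) hb
        obtain ⟨h1, h2, h3, h4⟩ := h
        refine ⟨h1, h2, ?_, ?_⟩
        · intro z hz
          obtain ⟨z', hz', h⟩ := h3 z hz
          exact ⟨z', hz', k _ _ h⟩
        · intro z' hz'
          obtain ⟨z, hz, h⟩ := h4 z' hz'
          exact ⟨z, hz, k _ _ h⟩
    · intro a u v h
      constructor
      · rintro ⟨L, hL⟩
        exact ⟨a :: L, u, hL, h⟩
      · rintro ⟨L, hL⟩
        exact ⟨iv a :: L, v, hL, Ed_symm hR.symm _ _ _ h⟩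
    · exact ⟨[], rfl⟩
    · exact hAB
    · exact hR.forest

/-! ### The limit -/

/-- Requirements. -/
abbrev Req := (Lt × ℕ) ⊕ (Finset ℕ × Finset ℕ)

/-- Satisfaction of requirements. -/
def Sat (t : ℕ) (R : Lt → ℕ → ℕ → Prop) : Req → Prop
  | Sum.inl q => ∃ y, R q.1 q.2 y
  | Sum.inr q => q.1.card = t → q.2.card = t → ∃ L, Wk (Ed t R) L q.1 q.2

theorem step (t : ℕ) (R : Lt → ℕ → ℕ → Prop) (hR : Good t R) (q : Req) :
    ∃ R' : Lt → ℕ → ℕ → Prop, Good t R' ∧ (∀ a x y, R a x y → R' a x y) ∧ Sat t R' q := by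
  cases q with
  | inl q => exact extend t R hR q.1 q.2
  | inr q =>
    by_cases h : q.1.card = t ∧ q.2.card = t
    · obtain ⟨R', h1, h2, h3⟩ := connect t R hR q.1 q.2 h.1 h.2
      exact ⟨R', h1, h2, fun _ _ => h3⟩
    · exact ⟨R, hR, fun _ _ _ h => h, fun h1 h2 => absurd ⟨h1, h2⟩ h⟩

theorem exists_limit (t : ℕ) (ht : 1 ≤ t) : ∃ R : Lt → ℕ → ℕ → Prop,
    (∀ a x y, R a x y → R (iv a) y x) ∧ (∀ a x y y', R a x y → R a x y' → y = y') ∧
    Forest (Ed t R) ∧ ∀ q, Sat t R q := by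
  obtain ⟨en, hen⟩ := exists_surjective_nat Req
  let St := {R : Lt → ℕ → ℕ → Prop // Good t R}
  have hstep : ∀ (s : St) (q : Req), ∃ s' : St, (∀ a x y, s.1 a x y → s'.1 a x y) ∧
      Sat t s'.1 q := by
    intro s q
    obtain ⟨R', h1, h2, h3⟩ := step t s.1 s.2 q
    exact ⟨⟨R', h1⟩, h2, h3⟩
  choose nx hnx1 hnx2 using hstep
  let sq : ℕ → St := fun n => Nat.rec ⟨_, good_empty t ht⟩ (fun n s => nx s (en n)) n
  have hsq : ∀ n, sq (n + 1) = nx (sq n) (en n) := fun n => rfl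
  have mono1 : ∀ n a x y, (sq n).1 a x y → (sq (n + 1)).1 a x y := by
    intro n a x y h
    rw [hsq]
    exact hnx1 _ _ _ _ _ h
  have mono : ∀ m n, m ≤ n → ∀ a x y, (sq m).1 a x y → (sq n).1 a x y := by
    intro m n hmn
    induction n, hmn using Nat.le_induction with
    | base => exact fun _ _ _ h => h
    | succ n _ ih => exact fun a x y h => mono1 n a x y (ih a x y h)
  let R : Lt → ℕ → ℕ → Prop := fun a x y => ∃ n, (sq n).1 a x y
  have hle : ∀ n a x y, (sq n).1 a x y → R a x y := fun n a x y h => ⟨n, h⟩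
  refine ⟨R, ?_, ?_, ?_, ?_⟩
  · rintro a x y ⟨n, h⟩
    exact ⟨n, (sq n).2.symm _ _ _ h⟩
  · rintro a x y y' ⟨n, h⟩ ⟨m, h'⟩
    exact (sq (max n m)).2.det a x y y' (mono _ _ (le_max_left _ _) _ _ _ h)
      (mono _ _ (le_max_right _ _) _ _ _ h')
  · have hEd : ∀ a u v, Ed t R a u v → ∃ n, Ed t (sq n).1 a u v := by
      rintro a u v ⟨h1, h2, h3, h4⟩
      have h3' : ∀ x : u, ∃ n, ∃ y ∈ v, (sq n).1 a x y := by
        intro x
        obtain ⟨y, hy, n, h⟩ := h3 x x.2
        exact ⟨n, y, hy, h⟩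
      have h4' : ∀ y : v, ∃ n, ∃ x ∈ u, (sq n).1 a x y := by
        intro y
        obtain ⟨x, hx, n, h⟩ := h4 y y.2
        exact ⟨n, x, hx, h⟩
      choose f hf using h3'
      choose g hg using h4'
      obtain ⟨N, hN⟩ : ∃ N, (∀ x : u, f x ≤ N) ∧ ∀ y : v, g y ≤ N :=
        ⟨max (Finset.univ.sup f) (Finset.univ.sup g),
          fun x => (Finset.le_sup (Finset.mem_univ x)).trans (le_max_left _ _),
          fun y => (Finset.le_sup (Finset.mem_univ y)).trans (le_max_right _ _)⟩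
      refine ⟨N, h1, h2, ?_, ?_⟩
      · intro x hx
        obtain ⟨y, hy, h⟩ := hf ⟨x, hx⟩
        exact ⟨y, hy, mono _ _ (hN.1 _) _ _ _ h⟩
      · intro y hy
        obtain ⟨x, hx, h⟩ := hg ⟨y, hy⟩
        exact ⟨x, hx, mono _ _ (hN.2 _) _ _ _ h⟩
    have hWk : ∀ L u v, Wk (Ed t R) L u v → ∃ n, Wk (Ed t (sq n).1) L u v := by
      intro L
      induction L with
      | nil => exact fun u v h => ⟨0, h⟩
      | cons a L ih =>
        rintro u v ⟨w, h1, h2⟩
        obtain ⟨n, hn⟩ := ih u w h1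
        obtain ⟨m, hm⟩ := hEd a w v h2
        exact ⟨max n m, w,
          Wk_mono (Ed_mono (mono _ _ (le_max_left n m))) L u w hn,
          Ed_mono (mono _ _ (le_max_right n m)) a w v hm⟩
    intro L u hne hr hw
    obtain ⟨n, hn⟩ := hWk L u u hw
    exact (sq n).2.forest L u hne hr hn
  · intro q
    obtain ⟨n, rfl⟩ := hen q
    have h := hnx2 (sq n) (en n)
    rw [← hsq] at h
    generalize en n = q at h
    cases q with
    | inl q =>
      obtain ⟨y, hy⟩ := h
      exact ⟨y, hle (n + 1) _ _ _ hy⟩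
    | inr q =>
      intro h1 h2
      obtain ⟨L, hL⟩ := h h1 h2
      exact ⟨L, Wk_mono (Ed_mono (hle (n + 1))) L _ _ hL⟩

/-! ### The group -/

theorem main (t : ℕ) (ht : 1 ≤ t) : ∃ G : Subgroup (Equiv.Perm ℕ),
    ∀ A B : Finset ℕ, A.card = t → B.card = t →
      ∃! g : G, A.map (Equiv.toEmbedding (g : Equiv.Perm ℕ)) = B := by
  obtain ⟨R, hsymm, hdet, hfor, hsat⟩ := exists_limit t ht
  have htot : ∀ (a : Lt) (x : ℕ), ∃ y, R a x y := fun a x => hsat (Sum.inl (a, x))
  choose s hs using htot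
  have hinv : ∀ a x, s (iv a) (s a x) = x := by
    intro a x
    exact hdet _ _ _ _ (hs _ _) (hsymm _ _ _ (hs a x))
  let sg : ℕ → Equiv.Perm ℕ := fun i =>
    { toFun := s (i, true)
      invFun := s (i, false)
      left_inv := fun x => hinv (i, true) x
      right_inv := fun x => hinv (i, false) x }
  let sigma : FreeGroup ℕ →* Equiv.Perm ℕ := FreeGroup.lift sg
  have hsl : ∀ (i : ℕ) (b : Bool) (x : ℕ), sigma (FreeGroup.mk [(i, b)]) x = s (i, b) x := by
    intro i b x
    cases b with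
    | true =>
      have h1 : sigma (FreeGroup.mk [(i, true)]) = sg i := FreeGroup.lift_apply_of (f := sg) (x := i)
      rw [h1]
      rfl
    | false =>
      have h1 : sigma (FreeGroup.mk [(i, false)]) = (sg i)⁻¹ := by
        have h2 : (FreeGroup.mk [(i, false)] : FreeGroup ℕ) = (FreeGroup.of i)⁻¹ := rfl
        rw [h2, map_inv]
        congr 1
      rw [h1]
      rfl
  have hcons : ∀ (a : Lt) (L : List Lt) (x : ℕ),
      sigma (FreeGroup.mk (a :: L)) x = s a (sigma (FreeGroup.mk L) x) := by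
    intro a L x
    have : FreeGroup.mk (a :: L) = FreeGroup.mk [a] * FreeGroup.mk L := by
      rw [FreeGroup.mul_mk]
      rfl
    rw [this, map_mul, Equiv.Perm.mul_apply]
    exact hsl a.1 a.2 _
  have hEdge : ∀ (a : Lt) (u : Finset ℕ) (p q : Equiv.Perm ℕ), u.card = t →
      (∀ x, q x = s a (p x)) → Ed t R a (u.map p.toEmbedding) (u.map q.toEmbedding) := by
    intro a u p q hu hq
    refine ⟨by rw [Finset.card_map, hu], by rw [Finset.card_map, hu], ?_, ?_⟩
    · intro z hz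
      obtain ⟨x, hx, rfl⟩ := Finset.mem_map.1 hz
      refine ⟨q x, Finset.mem_map.2 ⟨x, hx, rfl⟩, ?_⟩
      rw [hq]
      exact hs _ _
    · intro z hz
      obtain ⟨x, hx, rfl⟩ := Finset.mem_map.1 hz
      refine ⟨p x, Finset.mem_map.2 ⟨x, hx, rfl⟩, ?_⟩
      have : q.toEmbedding x = s a (p x) := hq x
      rw [this]
      exact hs _ _
  have hWk : ∀ (L : List Lt) (A : Finset ℕ), A.card = t →
      Wk (Ed t R) L A (A.map (sigma (FreeGroup.mk L)).toEmbedding) := by
    intro L A hA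
    induction L with
    | nil =>
      show A = A.map (sigma (FreeGroup.mk [])).toEmbedding
      have : sigma (FreeGroup.mk []) = 1 := by
        rw [← FreeGroup.one_eq_mk, map_one]
      rw [this]
      ext x
      constructor
      · intro hx
        exact Finset.mem_map.2 ⟨x, hx, rfl⟩
      · intro hx
        obtain ⟨y, hy, rfl⟩ := Finset.mem_map.1 hx
        exact hy
    | cons a L ih =>
      exact ⟨_, ih, hEdge a A _ _ hA (hcons a L)⟩
  have hdetW : ∀ (L : List Lt) (u v w : Finset ℕ), Wk (Ed t R) L u v → Wk (Ed t R) L u w →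
      v = w := by
    intro L
    induction L with
    | nil =>
      intro u v w h1 h2
      exact (show u = v from h1).symm.trans h2
    | cons a L ih =>
      rintro u v w ⟨x, h1, h2⟩ ⟨y, h3, h4⟩
      have := ih u x y h1 h3
      subst this
      exact Ed_det hdet _ _ _ _ h2 h4
  refine ⟨sigma.range, ?_⟩
  intro A B hA hB
  obtain ⟨L, hL⟩ := hsat (Sum.inr (A, B)) hA hB
  have hLB := hdetW L A _ _ (hWk L A hA) hL
  refine ⟨⟨sigma (FreeGroup.mk L), _, rfl⟩, hLB, ?_⟩
  rintro ⟨g, w, rfl⟩ hg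
  apply Subtype.ext
  show sigma w = sigma (FreeGroup.mk L)
  have hg' : A.map (sigma w).toEmbedding = B := hg
  set w' : FreeGroup ℕ := FreeGroup.mk L with hw'
  have hh : A.map (sigma (w'⁻¹ * w)).toEmbedding = A := by
    ext x
    constructor
    · intro hx
      obtain ⟨y, hy, rfl⟩ := Finset.mem_map.1 hx
      have h1 : (sigma w) y ∈ A.map (sigma w').toEmbedding := by
        have hLB' : A.map (sigma w').toEmbedding = B := hLB
        rw [hLB', ← hg']
        exact Finset.mem_map.2 ⟨y, hy, rfl⟩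
      obtain ⟨z, hz, h2⟩ := Finset.mem_map.1 h1
      have h3 : (sigma w') z = (sigma w) y := h2
      show sigma (w'⁻¹ * w) y ∈ A
      rw [map_mul, map_inv, Equiv.Perm.mul_apply, ← h3]
      show (sigma w').symm (sigma w' z) ∈ A
      rw [Equiv.symm_apply_apply]
      exact hz
    · intro hx
      have h1 : (sigma w') x ∈ A.map (sigma w).toEmbedding := by
        have hLB' : A.map (sigma w').toEmbedding = B := hLB
        rw [hg', ← hLB']
        exact Finset.mem_map.2 ⟨x, hx, rfl⟩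
      obtain ⟨z, hz, h2⟩ := Finset.mem_map.1 h1
      have h3 : (sigma w) z = (sigma w') x := h2
      refine Finset.mem_map.2 ⟨z, hz, ?_⟩
      show sigma (w'⁻¹ * w) z = x
      rw [map_mul, map_inv, Equiv.Perm.mul_apply, h3]
      exact Equiv.symm_apply_apply _ _
  have h1 : w'⁻¹ * w = 1 := by
    by_contra hne
    have h2 := hWk (w'⁻¹ * w).toWord A hA
    rw [FreeGroup.mk_toWord, hh] at h2
    refine hfor _ A ?_ ?_ h2
    · intro h3
      exact hne (FreeGroup.toWord_eq_nil_iff.1 h3)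
    · have h4 : FreeGroup.IsReduced (w'⁻¹ * w).toWord := FreeGroup.isReduced_toWord
      refine List.IsChain.imp ?_ h4
      intro a b hab hab'
      have h5 : a.1 = b.1 := by rw [hab']; rfl
      have h6 := hab h5
      have h7 : a.2 = !b.2 := by rw [hab']; rfl
      rw [h6] at h7
      simp at h7
  have h2 : w = w' := by
    have := congrArg (fun z => w' * z) h1
    simpa using this
  rw [h2]

end Pool.Agent.H5.Mf52e03
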