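import Pool.Agent.H5.Mf7573eDefs

set_option autoImplicit false

namespace Pool.Agent.H5.Mf7573e

/-! ### Functions on words -/

def code : List (Fin 5) → ℕ
  | [] => 0
  | a :: l => 8 ^ (a : ℕ) + code l

def kk (s a r : ℕ) : ℕ :=
  if a = 1 then
    (if s = 0 then (if r = 4674 then 1 else 0)
      else if s = 1 then (if r = 4736 then 1 else 0) else 0)
  else if a = 3 then (if s = 10 then (if r = 4160 then 1 else 0) else 0) else 0

def auxN (s t : ℕ) : List (Fin 5) → ℕ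
  | [] => 0
  | a :: l => kk s a (code l + t) + auxN (s + 8 ^ (a : ℕ)) t l

def kapN (l : List (Fin 5)) : ℕ :=
  if l.length = 6 ∧ ∀ i : Fin 5, i ∈ l then auxN 0 0 l else 0

def ccN (l : List (Fin 5)) : ℕ := if l = [0, 1, 2, 3, 4] then 1 else 0

theorem code_append (u v : List (Fin 5)) : code (u ++ v) = code u + code v := by
  induction u with
  | nil => simp [code]
  | cons a u ih => simp only [List.cons_append, code, ih]; ring

theorem auxN_append (s t : ℕ) (u v : List (Fin 5)) :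
    auxN s t (u ++ v) = auxN s (t + code v) u + auxN (s + code u) t v := by
  induction u generalizing s with
  | nil => simp [code, auxN]
  | cons a u ih =>
    simp only [List.cons_append, auxN, ih, code_append, code]
    rw [show code u + code v + t = code u + (t + code v) by ring,
      show s + 8 ^ (a : ℕ) + code u = s + (8 ^ (a : ℕ) + code u) by ring]
    ring

theorem kapN_of_not_mem {l : List (Fin 5)} (i : Fin 5) (h : i ∉ l) : kapN l = 0 := by
  unfold kapN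
  rw [if_neg]
  rintro ⟨_, h2⟩
  exact h (h2 i)

theorem kapN_of_length {l : List (Fin 5)} (h : l.length ≠ 6) : kapN l = 0 := by
  unfold kapN
  rw [if_neg]
  rintro ⟨h1, _⟩
  exact h h1

theorem ccN_of_not_mem {l : List (Fin 5)} (i : Fin 5) (h : i ∉ l) : ccN l = 0 := by
  unfold ccN
  rw [if_neg]
  rintro rfl
  apply h
  fin_cases i <;> simp

theorem ccN_of_length {l : List (Fin 5)} (h : l.length ≠ 5) : ccN l = 0 := by
  unfold ccN
  rw [if_neg]
  rintro rfl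
  exact h rfl

theorem kapN_comm (P a b e c d Q : List (Fin 5)) :
    kapN (P ++ (a ++ (b ++ (e ++ (c ++ (d ++ Q)))))) +
      kapN (P ++ (b ++ (a ++ (e ++ (d ++ (c ++ Q)))))) =
    kapN (P ++ (b ++ (a ++ (e ++ (c ++ (d ++ Q)))))) +
      kapN (P ++ (a ++ (b ++ (e ++ (d ++ (c ++ Q)))))) := by
  by_cases h : (P ++ (a ++ (b ++ (e ++ (c ++ (d ++ Q)))))).length = 6 ∧
      ∀ i : Fin 5, i ∈ P ++ (a ++ (b ++ (e ++ (c ++ (d ++ Q)))))
  · obtain ⟨h1, h2⟩ := h
    have e1 : kapN (P ++ (a ++ (b ++ (e ++ (c ++ (d ++ Q)))))) =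
        auxN 0 0 (P ++ (a ++ (b ++ (e ++ (c ++ (d ++ Q)))))) := by
      unfold kapN
      rw [if_pos ⟨h1, h2⟩]
    have e2 : kapN (P ++ (b ++ (a ++ (e ++ (d ++ (c ++ Q)))))) =
        auxN 0 0 (P ++ (b ++ (a ++ (e ++ (d ++ (c ++ Q)))))) := by
      unfold kapN
      rw [if_pos]
      refine ⟨?_, ?_⟩
      · simp only [List.length_append] at h1 ⊢
        omega
      · intro i
        have := h2 i
        simp only [List.mem_append] at this ⊢
        tauto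
    have e3 : kapN (P ++ (b ++ (a ++ (e ++ (c ++ (d ++ Q)))))) =
        auxN 0 0 (P ++ (b ++ (a ++ (e ++ (c ++ (d ++ Q)))))) := by
      unfold kapN
      rw [if_pos]
      refine ⟨?_, ?_⟩
      · simp only [List.length_append] at h1 ⊢
        omega
      · intro i
        have := h2 i
        simp only [List.mem_append] at this ⊢
        tauto
    have e4 : kapN (P ++ (a ++ (b ++ (e ++ (d ++ (c ++ Q)))))) =
        auxN 0 0 (P ++ (a ++ (b ++ (e ++ (d ++ (c ++ Q)))))) := by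
      unfold kapN
      rw [if_pos]
      refine ⟨?_, ?_⟩
      · simp only [List.length_append] at h1 ⊢
        omega
      · intro i
        have := h2 i
        simp only [List.mem_append] at this ⊢
        tauto
    rw [e1, e2, e3, e4]
    simp only [auxN_append, code_append]
    ring_nf
  · have key : ∀ l : List (Fin 5), l.length =
        (P ++ (a ++ (b ++ (e ++ (c ++ (d ++ Q)))))).length →
        (∀ i, i ∈ l ↔ i ∈ P ++ (a ++ (b ++ (e ++ (c ++ (d ++ Q)))))) → kapN l = 0 := by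
      intro l hl hm
      unfold kapN
      rw [if_neg]
      rintro ⟨h1, h2⟩
      exact h ⟨hl ▸ h1, fun i => (hm i).1 (h2 i)⟩
    rw [key _ rfl (fun i => Iff.rfl), key, key, key]
    all_goals first
      | (simp only [List.length_append]; omega)
      | (intro i; simp only [List.mem_append]; tauto)

/-! ### The finite check -/

def cnt (P x y z t Q : List (Fin 5)) : ℕ :=
  (ccN (P ++ (x ++ (y ++ (z ++ (t ++ Q))))) +
    ccN (P ++ (y ++ (x ++ (t ++ (z ++ Q))))) +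
    ccN (P ++ (z ++ (t ++ (x ++ (y ++ Q))))) +
    ccN (P ++ (t ++ (z ++ (y ++ (x ++ Q))))) +
    ccN (P ++ (x ++ (z ++ (t ++ (y ++ Q))))) +
    ccN (P ++ (z ++ (x ++ (y ++ (t ++ Q))))) +
    ccN (P ++ (y ++ (t ++ (z ++ (x ++ Q))))) +
    ccN (P ++ (t ++ (y ++ (x ++ (z ++ Q))))) +
    ccN (P ++ (x ++ (y ++ (t ++ (z ++ Q))))) +
    ccN (P ++ (y ++ (x ++ (z ++ (t ++ Q))))) +
    ccN (P ++ (z ++ (t ++ (y ++ (x ++ Q))))) +
    ccN (P ++ (t ++ (z ++ (x ++ (y ++ Q))))) +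
    ccN (P ++ (x ++ (z ++ (y ++ (t ++ Q))))) +
    ccN (P ++ (z ++ (x ++ (t ++ (y ++ Q))))) +
    ccN (P ++ (y ++ (t ++ (x ++ (z ++ Q))))) +
    ccN (P ++ (t ++ (y ++ (z ++ (x ++ Q)))))) +
  (kapN (P ++ (x ++ (x ++ (y ++ (z ++ (t ++ Q)))))) +
    kapN (P ++ (x ++ (x ++ (y ++ (t ++ (z ++ Q)))))) +
    kapN (P ++ (x ++ (x ++ (z ++ (y ++ (t ++ Q)))))) +
    kapN (P ++ (x ++ (x ++ (z ++ (t ++ (y ++ Q)))))) +
    kapN (P ++ (y ++ (t ++ (x ++ (x ++ (z ++ Q)))))) +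
    kapN (P ++ (z ++ (t ++ (x ++ (x ++ (y ++ Q)))))) +
    kapN (P ++ (t ++ (y ++ (x ++ (x ++ (z ++ Q)))))) +
    kapN (P ++ (t ++ (z ++ (x ++ (x ++ (y ++ Q)))))) +
    kapN (P ++ (x ++ (y ++ (y ++ (z ++ (t ++ Q)))))) +
    kapN (P ++ (x ++ (y ++ (y ++ (t ++ (z ++ Q)))))) +
    kapN (P ++ (x ++ (z ++ (y ++ (y ++ (t ++ Q)))))) +
    kapN (P ++ (y ++ (y ++ (t ++ (x ++ (z ++ Q)))))) +
    kapN (P ++ (y ++ (y ++ (t ++ (z ++ (x ++ Q)))))) +
    kapN (P ++ (z ++ (x ++ (y ++ (y ++ (t ++ Q)))))) +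
    kapN (P ++ (z ++ (t ++ (x ++ (y ++ (y ++ Q)))))) +
    kapN (P ++ (t ++ (z ++ (x ++ (y ++ (y ++ Q)))))) +
    kapN (P ++ (x ++ (y ++ (z ++ (z ++ (t ++ Q)))))) +
    kapN (P ++ (x ++ (z ++ (z ++ (y ++ (t ++ Q)))))) +
    kapN (P ++ (x ++ (z ++ (z ++ (t ++ (y ++ Q)))))) +
    kapN (P ++ (y ++ (x ++ (z ++ (z ++ (t ++ Q)))))) +
    kapN (P ++ (y ++ (t ++ (x ++ (z ++ (z ++ Q)))))) +
    kapN (P ++ (z ++ (z ++ (t ++ (x ++ (y ++ Q)))))) +
    kapN (P ++ (z ++ (z ++ (t ++ (y ++ (x ++ Q)))))) +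
    kapN (P ++ (t ++ (y ++ (x ++ (z ++ (z ++ Q)))))) +
    kapN (P ++ (x ++ (y ++ (z ++ (t ++ (t ++ Q)))))) +
    kapN (P ++ (x ++ (z ++ (y ++ (t ++ (t ++ Q)))))) +
    kapN (P ++ (y ++ (x ++ (z ++ (t ++ (t ++ Q)))))) +
    kapN (P ++ (y ++ (t ++ (t ++ (x ++ (z ++ Q)))))) +
    kapN (P ++ (y ++ (t ++ (t ++ (z ++ (x ++ Q)))))) +
    kapN (P ++ (z ++ (x ++ (y ++ (t ++ (t ++ Q)))))) +
    kapN (P ++ (z ++ (t ++ (t ++ (x ++ (y ++ Q)))))) +
    kapN (P ++ (z ++ (t ++ (t ++ (y ++ (x ++ Q)))))))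

theorem cnt_of_not_mem (P x y z t Q : List (Fin 5)) (i : Fin 5) (hP : i ∉ P) (hx : i ∉ x)
    (hy : i ∉ y) (hz : i ∉ z) (ht : i ∉ t) (hQ : i ∉ Q) : cnt P x y z t Q = 0 := by
  have hc : ∀ l : List (Fin 5), i ∉ l → ccN l = 0 := fun l h => ccN_of_not_mem i h
  have hk : ∀ l : List (Fin 5), i ∉ l → kapN l = 0 := fun l h => kapN_of_not_mem i h
  have ha : ∀ u v : List (Fin 5), i ∉ u → i ∉ v → i ∉ u ++ v := by
    intro u v h1 h2 h3
    rcases List.mem_append.1 h3 with h | h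
    · exact h1 h
    · exact h2 h
  unfold cnt
  rw [hc _ (ha _ _ hP (ha _ _ hx (ha _ _ hy (ha _ _ hz (ha _ _ ht hQ))))),
    hc _ (ha _ _ hP (ha _ _ hy (ha _ _ hx (ha _ _ ht (ha _ _ hz hQ))))),
    hc _ (ha _ _ hP (ha _ _ hz (ha _ _ ht (ha _ _ hx (ha _ _ hy hQ))))),
    hc _ (ha _ _ hP (ha _ _ ht (ha _ _ hz (ha _ _ hy (ha _ _ hx hQ))))),
    hc _ (ha _ _ hP (ha _ _ hx (ha _ _ hz (ha _ _ ht (ha _ _ hy hQ))))),
    hc _ (ha _ _ hP (ha _ _ hz (ha _ _ hx (ha _ _ hy (ha _ _ ht hQ))))),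
    hc _ (ha _ _ hP (ha _ _ hy (ha _ _ ht (ha _ _ hz (ha _ _ hx hQ))))),
    hc _ (ha _ _ hP (ha _ _ ht (ha _ _ hy (ha _ _ hx (ha _ _ hz hQ))))),
    hc _ (ha _ _ hP (ha _ _ hx (ha _ _ hy (ha _ _ ht (ha _ _ hz hQ))))),
    hc _ (ha _ _ hP (ha _ _ hy (ha _ _ hx (ha _ _ hz (ha _ _ ht hQ))))),
    hc _ (ha _ _ hP (ha _ _ hz (ha _ _ ht (ha _ _ hy (ha _ _ hx hQ))))),
    hc _ (ha _ _ hP (ha _ _ ht (ha _ _ hz (ha _ _ hx (ha _ _ hy hQ))))),
    hc _ (ha _ _ hP (ha _ _ hx (ha _ _ hz (ha _ _ hy (ha _ _ ht hQ))))),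
    hc _ (ha _ _ hP (ha _ _ hz (ha _ _ hx (ha _ _ ht (ha _ _ hy hQ))))),
    hc _ (ha _ _ hP (ha _ _ hy (ha _ _ ht (ha _ _ hx (ha _ _ hz hQ))))),
    hc _ (ha _ _ hP (ha _ _ ht (ha _ _ hy (ha _ _ hz (ha _ _ hx hQ))))),
    hk _ (ha _ _ hP (ha _ _ hx (ha _ _ hx (ha _ _ hy (ha _ _ hz (ha _ _ ht hQ)))))),
    hk _ (ha _ _ hP (ha _ _ hx (ha _ _ hx (ha _ _ hy (ha _ _ ht (ha _ _ hz hQ)))))),
    hk _ (ha _ _ hP (ha _ _ hx (ha _ _ hx (ha _ _ hz (ha _ _ hy (ha _ _ ht hQ)))))),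
    hk _ (ha _ _ hP (ha _ _ hx (ha _ _ hx (ha _ _ hz (ha _ _ ht (ha _ _ hy hQ)))))),
    hk _ (ha _ _ hP (ha _ _ hy (ha _ _ ht (ha _ _ hx (ha _ _ hx (ha _ _ hz hQ)))))),
    hk _ (ha _ _ hP (ha _ _ hz (ha _ _ ht (ha _ _ hx (ha _ _ hx (ha _ _ hy hQ)))))),
    hk _ (ha _ _ hP (ha _ _ ht (ha _ _ hy (ha _ _ hx (ha _ _ hx (ha _ _ hz hQ)))))),
    hk _ (ha _ _ hP (ha _ _ ht (ha _ _ hz (ha _ _ hx (ha _ _ hx (ha _ _ hy hQ)))))),
    hk _ (ha _ _ hP (ha _ _ hx (ha _ _ hy (ha _ _ hy (ha _ _ hz (ha _ _ ht hQ)))))),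
    hk _ (ha _ _ hP (ha _ _ hx (ha _ _ hy (ha _ _ hy (ha _ _ ht (ha _ _ hz hQ)))))),
    hk _ (ha _ _ hP (ha _ _ hx (ha _ _ hz (ha _ _ hy (ha _ _ hy (ha _ _ ht hQ)))))),
    hk _ (ha _ _ hP (ha _ _ hy (ha _ _ hy (ha _ _ ht (ha _ _ hx (ha _ _ hz hQ)))))),
    hk _ (ha _ _ hP (ha _ _ hy (ha _ _ hy (ha _ _ ht (ha _ _ hz (ha _ _ hx hQ)))))),
    hk _ (ha _ _ hP (ha _ _ hz (ha _ _ hx (ha _ _ hy (ha _ _ hy (ha _ _ ht hQ)))))),
    hk _ (ha _ _ hP (ha _ _ hz (ha _ _ ht (ha _ _ hx (ha _ _ hy (ha _ _ hy hQ)))))),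
    hk _ (ha _ _ hP (ha _ _ ht (ha _ _ hz (ha _ _ hx (ha _ _ hy (ha _ _ hy hQ)))))),
    hk _ (ha _ _ hP (ha _ _ hx (ha _ _ hy (ha _ _ hz (ha _ _ hz (ha _ _ ht hQ)))))),
    hk _ (ha _ _ hP (ha _ _ hx (ha _ _ hz (ha _ _ hz (ha _ _ hy (ha _ _ ht hQ)))))),
    hk _ (ha _ _ hP (ha _ _ hx (ha _ _ hz (ha _ _ hz (ha _ _ ht (ha _ _ hy hQ)))))),
    hk _ (ha _ _ hP (ha _ _ hy (ha _ _ hx (ha _ _ hz (ha _ _ hz (ha _ _ ht hQ)))))),
    hk _ (ha _ _ hP (ha _ _ hy (ha _ _ ht (ha _ _ hx (ha _ _ hz (ha _ _ hz hQ)))))),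
    hk _ (ha _ _ hP (ha _ _ hz (ha _ _ hz (ha _ _ ht (ha _ _ hx (ha _ _ hy hQ)))))),
    hk _ (ha _ _ hP (ha _ _ hz (ha _ _ hz (ha _ _ ht (ha _ _ hy (ha _ _ hx hQ)))))),
    hk _ (ha _ _ hP (ha _ _ ht (ha _ _ hy (ha _ _ hx (ha _ _ hz (ha _ _ hz hQ)))))),
    hk _ (ha _ _ hP (ha _ _ hx (ha _ _ hy (ha _ _ hz (ha _ _ ht (ha _ _ ht hQ)))))),
    hk _ (ha _ _ hP (ha _ _ hx (ha _ _ hz (ha _ _ hy (ha _ _ ht (ha _ _ ht hQ)))))),
    hk _ (ha _ _ hP (ha _ _ hy (ha _ _ hx (ha _ _ hz (ha _ _ ht (ha _ _ ht hQ)))))),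
    hk _ (ha _ _ hP (ha _ _ hy (ha _ _ ht (ha _ _ ht (ha _ _ hx (ha _ _ hz hQ)))))),
    hk _ (ha _ _ hP (ha _ _ hy (ha _ _ ht (ha _ _ ht (ha _ _ hz (ha _ _ hx hQ)))))),
    hk _ (ha _ _ hP (ha _ _ hz (ha _ _ hx (ha _ _ hy (ha _ _ ht (ha _ _ ht hQ)))))),
    hk _ (ha _ _ hP (ha _ _ hz (ha _ _ ht (ha _ _ ht (ha _ _ hx (ha _ _ hy hQ)))))),
    hk _ (ha _ _ hP (ha _ _ hz (ha _ _ ht (ha _ _ ht (ha _ _ hy (ha _ _ hx hQ))))))]

set_option maxRecDepth 100000 in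
theorem chk1 : ∀ a b c d e : Fin 5, (∀ i : Fin 5, i ∈ [a, b, c, d, e]) →
    cnt [a] [b] [c] [d] [e] [] % 2 = 0 ∧ cnt [] [a, b] [c] [d] [e] [] % 2 = 0 ∧
    cnt [] [a] [b, c] [d] [e] [] % 2 = 0 ∧ cnt [] [a] [b] [c, d] [e] [] % 2 = 0 ∧
    cnt [] [a] [b] [c] [d, e] [] % 2 = 0 ∧ cnt [] [a] [b] [c] [d] [e] % 2 = 0 := by
  decide +kernel

theorem chk (a b c d e : Fin 5) :
    cnt [a] [b] [c] [d] [e] [] % 2 = 0 ∧ cnt [] [a, b] [c] [d] [e] [] % 2 = 0 ∧
    cnt [] [a] [b, c] [d] [e] [] % 2 = 0 ∧ cnt [] [a] [b] [c, d] [e] [] % 2 = 0 ∧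
    cnt [] [a] [b] [c] [d, e] [] % 2 = 0 ∧ cnt [] [a] [b] [c] [d] [e] % 2 = 0 := by
  by_cases h : ∀ i : Fin 5, i ∈ [a, b, c, d, e]
  · exact chk1 a b c d e h
  · push Not at h
    obtain ⟨i, hi⟩ := h
    simp only [List.mem_cons, List.not_mem_nil, or_false, not_or] at hi
    obtain ⟨h1, h2, h3, h4, h5⟩ := hi
    have hn : i ∉ ([] : List (Fin 5)) := by simp
    have s1 : ∀ u : Fin 5, i ≠ u → i ∉ [u] := by
      intro u hu
      simpa using hu
    have s2 : ∀ u v : Fin 5, i ≠ u → i ≠ v → i ∉ [u, v] := by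
      intro u v hu hv
      simp [hu, hv]
    rw [cnt_of_not_mem [a] [b] [c] [d] [e] [] i (s1 _ h1) (s1 _ h2) (s1 _ h3) (s1 _ h4) (s1 _ h5) hn,
      cnt_of_not_mem [] [a, b] [c] [d] [e] [] i hn (s2 _ _ h1 h2) (s1 _ h3) (s1 _ h4) (s1 _ h5) hn,
      cnt_of_not_mem [] [a] [b, c] [d] [e] [] i hn (s1 _ h1) (s2 _ _ h2 h3) (s1 _ h4) (s1 _ h5) hn,
      cnt_of_not_mem [] [a] [b] [c, d] [e] [] i hn (s1 _ h1) (s1 _ h2) (s2 _ _ h3 h4) (s1 _ h5) hn,
      cnt_of_not_mem [] [a] [b] [c] [d, e] [] i hn (s1 _ h1) (s1 _ h2) (s1 _ h3) (s2 _ _ h4 h5) hn,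
      cnt_of_not_mem [] [a] [b] [c] [d] [e] i hn (s1 _ h1) (s1 _ h2) (s1 _ h3) (s1 _ h4) (s1 _ h5)]
    simp

theorem cnt_even (P x y z t Q : List (Fin 5)) (hx : x ≠ []) (hy : y ≠ []) (hz : z ≠ [])
    (ht : t ≠ []) : cnt P x y z t Q % 2 = 0 := by
  have lx : 1 ≤ x.length := List.length_pos_iff.2 hx
  have ly : 1 ≤ y.length := List.length_pos_iff.2 hy
  have lz : 1 ≤ z.length := List.length_pos_iff.2 hz
  have lt : 1 ≤ t.length := List.length_pos_iff.2 ht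
  by_cases htot : P.length + x.length + y.length + z.length + t.length + Q.length = 5
  · have hcases : (P.length = 1 ∧ x.length = 1 ∧ y.length = 1 ∧ z.length = 1 ∧ t.length = 1 ∧
        Q.length = 0) ∨ (P.length = 0 ∧ x.length = 2 ∧ y.length = 1 ∧ z.length = 1 ∧
        t.length = 1 ∧ Q.length = 0) ∨ (P.length = 0 ∧ x.length = 1 ∧ y.length = 2 ∧
        z.length = 1 ∧ t.length = 1 ∧ Q.length = 0) ∨ (P.length = 0 ∧ x.length = 1 ∧
        y.length = 1 ∧ z.length = 2 ∧ t.length = 1 ∧ Q.length = 0) ∨ (P.length = 0 ∧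
        x.length = 1 ∧ y.length = 1 ∧ z.length = 1 ∧ t.length = 2 ∧ Q.length = 0) ∨
        (P.length = 0 ∧ x.length = 1 ∧ y.length = 1 ∧ z.length = 1 ∧ t.length = 1 ∧
        Q.length = 1) := by omega
    rcases hcases with ⟨h1, h2, h3, h4, h5, h6⟩ | ⟨h1, h2, h3, h4, h5, h6⟩ |
      ⟨h1, h2, h3, h4, h5, h6⟩ | ⟨h1, h2, h3, h4, h5, h6⟩ | ⟨h1, h2, h3, h4, h5, h6⟩ |
      ⟨h1, h2, h3, h4, h5, h6⟩
    · obtain ⟨a, rfl⟩ := List.length_eq_one_iff.1 h1
      obtain ⟨b, rfl⟩ := List.length_eq_one_iff.1 h2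
      obtain ⟨c, rfl⟩ := List.length_eq_one_iff.1 h3
      obtain ⟨d, rfl⟩ := List.length_eq_one_iff.1 h4
      obtain ⟨e, rfl⟩ := List.length_eq_one_iff.1 h5
      obtain rfl := List.length_eq_zero_iff.1 h6
      exact (chk a b c d e).1
    · obtain rfl := List.length_eq_zero_iff.1 h1
      obtain ⟨a, b, rfl⟩ := List.length_eq_two.1 h2
      obtain ⟨c, rfl⟩ := List.length_eq_one_iff.1 h3
      obtain ⟨d, rfl⟩ := List.length_eq_one_iff.1 h4
      obtain ⟨e, rfl⟩ := List.length_eq_one_iff.1 h5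
      obtain rfl := List.length_eq_zero_iff.1 h6
      exact (chk a b c d e).2.1
    · obtain rfl := List.length_eq_zero_iff.1 h1
      obtain ⟨a, rfl⟩ := List.length_eq_one_iff.1 h2
      obtain ⟨b, c, rfl⟩ := List.length_eq_two.1 h3
      obtain ⟨d, rfl⟩ := List.length_eq_one_iff.1 h4
      obtain ⟨e, rfl⟩ := List.length_eq_one_iff.1 h5
      obtain rfl := List.length_eq_zero_iff.1 h6
      exact (chk a b c d e).2.2.1
    · obtain rfl := List.length_eq_zero_iff.1 h1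
      obtain ⟨a, rfl⟩ := List.length_eq_one_iff.1 h2
      obtain ⟨b, rfl⟩ := List.length_eq_one_iff.1 h3
      obtain ⟨c, d, rfl⟩ := List.length_eq_two.1 h4
      obtain ⟨e, rfl⟩ := List.length_eq_one_iff.1 h5
      obtain rfl := List.length_eq_zero_iff.1 h6
      exact (chk a b c d e).2.2.2.1
    · obtain rfl := List.length_eq_zero_iff.1 h1
      obtain ⟨a, rfl⟩ := List.length_eq_one_iff.1 h2
      obtain ⟨b, rfl⟩ := List.length_eq_one_iff.1 h3
      obtain ⟨c, rfl⟩ := List.length_eq_one_iff.1 h4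
      obtain ⟨d, e, rfl⟩ := List.length_eq_two.1 h5
      obtain rfl := List.length_eq_zero_iff.1 h6
      exact (chk a b c d e).2.2.2.2.1
    · obtain rfl := List.length_eq_zero_iff.1 h1
      obtain ⟨a, rfl⟩ := List.length_eq_one_iff.1 h2
      obtain ⟨b, rfl⟩ := List.length_eq_one_iff.1 h3
      obtain ⟨c, rfl⟩ := List.length_eq_one_iff.1 h4
      obtain ⟨d, rfl⟩ := List.length_eq_one_iff.1 h5
      obtain ⟨e, rfl⟩ := List.length_eq_one_iff.1 h6
      exact (chk a b c d e).2.2.2.2.2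
  · have hz0 : cnt P x y z t Q = 0 := by
      unfold cnt
      have c0 : ∀ l : List (Fin 5), l.length =
          P.length + x.length + y.length + z.length + t.length + Q.length → ccN l = 0 := by
        intro l hl
        exact ccN_of_length (by omega)
      have k1 : ∀ l : List (Fin 5), l.length =
          P.length + x.length + y.length + z.length + t.length + Q.length + x.length →
          kapN l = 0 := by
        intro l hl
        exact kapN_of_length (by omega)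
      have k2 : ∀ l : List (Fin 5), l.length =
          P.length + x.length + y.length + z.length + t.length + Q.length + y.length →
          kapN l = 0 := by
        intro l hl
        exact kapN_of_length (by omega)
      have k3 : ∀ l : List (Fin 5), l.length =
          P.length + x.length + y.length + z.length + t.length + Q.length + z.length →
          kapN l = 0 := by
        intro l hl
        exact kapN_of_length (by omega)
      have k4 : ∀ l : List (Fin 5), l.length =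
          P.length + x.length + y.length + z.length + t.length + Q.length + t.length →
          kapN l = 0 := by
        intro l hl
        exact kapN_of_length (by omega)
      rw [c0 (P ++ (x ++ (y ++ (z ++ (t ++ Q))))) (by simp only [List.length_append]; omega),
        c0 (P ++ (y ++ (x ++ (t ++ (z ++ Q))))) (by simp only [List.length_append]; omega),
        c0 (P ++ (z ++ (t ++ (x ++ (y ++ Q))))) (by simp only [List.length_append]; omega),
        c0 (P ++ (t ++ (z ++ (y ++ (x ++ Q))))) (by simp only [List.length_append]; omega),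
        c0 (P ++ (x ++ (z ++ (t ++ (y ++ Q))))) (by simp only [List.length_append]; omega),
        c0 (P ++ (z ++ (x ++ (y ++ (t ++ Q))))) (by simp only [List.length_append]; omega),
        c0 (P ++ (y ++ (t ++ (z ++ (x ++ Q))))) (by simp only [List.length_append]; omega),
        c0 (P ++ (t ++ (y ++ (x ++ (z ++ Q))))) (by simp only [List.length_append]; omega),
        c0 (P ++ (x ++ (y ++ (t ++ (z ++ Q))))) (by simp only [List.length_append]; omega),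
        c0 (P ++ (y ++ (x ++ (z ++ (t ++ Q))))) (by simp only [List.length_append]; omega),
        c0 (P ++ (z ++ (t ++ (y ++ (x ++ Q))))) (by simp only [List.length_append]; omega),
        c0 (P ++ (t ++ (z ++ (x ++ (y ++ Q))))) (by simp only [List.length_append]; omega),
        c0 (P ++ (x ++ (z ++ (y ++ (t ++ Q))))) (by simp only [List.length_append]; omega),
        c0 (P ++ (z ++ (x ++ (t ++ (y ++ Q))))) (by simp only [List.length_append]; omega),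
        c0 (P ++ (y ++ (t ++ (x ++ (z ++ Q))))) (by simp only [List.length_append]; omega),
        c0 (P ++ (t ++ (y ++ (z ++ (x ++ Q))))) (by simp only [List.length_append]; omega),
        k1 (P ++ (x ++ (x ++ (y ++ (z ++ (t ++ Q)))))) (by simp only [List.length_append]; omega),
        k1 (P ++ (x ++ (x ++ (y ++ (t ++ (z ++ Q)))))) (by simp only [List.length_append]; omega),
        k1 (P ++ (x ++ (x ++ (z ++ (y ++ (t ++ Q)))))) (by simp only [List.length_append]; omega),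
        k1 (P ++ (x ++ (x ++ (z ++ (t ++ (y ++ Q)))))) (by simp only [List.length_append]; omega),
        k1 (P ++ (y ++ (t ++ (x ++ (x ++ (z ++ Q)))))) (by simp only [List.length_append]; omega),
        k1 (P ++ (z ++ (t ++ (x ++ (x ++ (y ++ Q)))))) (by simp only [List.length_append]; omega),
        k1 (P ++ (t ++ (y ++ (x ++ (x ++ (z ++ Q)))))) (by simp only [List.length_append]; omega),
        k1 (P ++ (t ++ (z ++ (x ++ (x ++ (y ++ Q)))))) (by simp only [List.length_append]; omega),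
        k2 (P ++ (x ++ (y ++ (y ++ (z ++ (t ++ Q)))))) (by simp only [List.length_append]; omega),
        k2 (P ++ (x ++ (y ++ (y ++ (t ++ (z ++ Q)))))) (by simp only [List.length_append]; omega),
        k2 (P ++ (x ++ (z ++ (y ++ (y ++ (t ++ Q)))))) (by simp only [List.length_append]; omega),
        k2 (P ++ (y ++ (y ++ (t ++ (x ++ (z ++ Q)))))) (by simp only [List.length_append]; omega),
        k2 (P ++ (y ++ (y ++ (t ++ (z ++ (x ++ Q)))))) (by simp only [List.length_append]; omega),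
        k2 (P ++ (z ++ (x ++ (y ++ (y ++ (t ++ Q)))))) (by simp only [List.length_append]; omega),
        k2 (P ++ (z ++ (t ++ (x ++ (y ++ (y ++ Q)))))) (by simp only [List.length_append]; omega),
        k2 (P ++ (t ++ (z ++ (x ++ (y ++ (y ++ Q)))))) (by simp only [List.length_append]; omega),
        k3 (P ++ (x ++ (y ++ (z ++ (z ++ (t ++ Q)))))) (by simp only [List.length_append]; omega),
        k3 (P ++ (x ++ (z ++ (z ++ (y ++ (t ++ Q)))))) (by simp only [List.length_append]; omega),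
        k3 (P ++ (x ++ (z ++ (z ++ (t ++ (y ++ Q)))))) (by simp only [List.length_append]; omega),
        k3 (P ++ (y ++ (x ++ (z ++ (z ++ (t ++ Q)))))) (by simp only [List.length_append]; omega),
        k3 (P ++ (y ++ (t ++ (x ++ (z ++ (z ++ Q)))))) (by simp only [List.length_append]; omega),
        k3 (P ++ (z ++ (z ++ (t ++ (x ++ (y ++ Q)))))) (by simp only [List.length_append]; omega),
        k3 (P ++ (z ++ (z ++ (t ++ (y ++ (x ++ Q)))))) (by simp only [List.length_append]; omega),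
        k3 (P ++ (t ++ (y ++ (x ++ (z ++ (z ++ Q)))))) (by simp only [List.length_append]; omega),
        k4 (P ++ (x ++ (y ++ (z ++ (t ++ (t ++ Q)))))) (by simp only [List.length_append]; omega),
        k4 (P ++ (x ++ (z ++ (y ++ (t ++ (t ++ Q)))))) (by simp only [List.length_append]; omega),
        k4 (P ++ (y ++ (x ++ (z ++ (t ++ (t ++ Q)))))) (by simp only [List.length_append]; omega),
        k4 (P ++ (y ++ (t ++ (t ++ (x ++ (z ++ Q)))))) (by simp only [List.length_append]; omega),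
        k4 (P ++ (y ++ (t ++ (t ++ (z ++ (x ++ Q)))))) (by simp only [List.length_append]; omega),
        k4 (P ++ (z ++ (x ++ (y ++ (t ++ (t ++ Q)))))) (by simp only [List.length_append]; omega),
        k4 (P ++ (z ++ (t ++ (t ++ (x ++ (y ++ Q)))))) (by simp only [List.length_append]; omega),
        k4 (P ++ (z ++ (t ++ (t ++ (y ++ (x ++ Q)))))) (by simp only [List.length_append]; omega)]
    rw [hz0]


/-! ### The polynomial -/

section Poly
variable {B : Type} [NonUnitalRing B]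

def u0p (X Y Z T : B) : B :=
  (X * Y - Y * X) * (Z * T - T * Z) + (Z * T - T * Z) * (X * Y - Y * X) -
    ((X * Z - Z * X) * (Y * T - T * Y) + (Y * T - T * Y) * (X * Z - Z * X))

def wp (X Y Z T : B) : B :=
  X * X * Y * Z * T + X * X * Y * T * Z + X * X * Z * Y * T + X * X * Z * T * Y +
    Y * T * X * X * Z + Z * T * X * X * Y + T * Y * X * X * Z + T * Z * X * X * Y +
    X * Y * Y * Z * T + X * Y * Y * T * Z + X * Z * Y * Y * T + Y * Y * T * X * Z +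
    Y * Y * T * Z * X + Z * X * Y * Y * T + Z * T * X * Y * Y + T * Z * X * Y * Y +
    X * Y * Z * Z * T + X * Z * Z * Y * T + X * Z * Z * T * Y + Y * X * Z * Z * T +
    Y * T * X * Z * Z + Z * Z * T * X * Y + Z * Z * T * Y * X + T * Y * X * Z * Z +
    X * Y * Z * T * T + X * Z * Y * T * T + Y * X * Z * T * T + Y * T * T * X * Z +
    Y * T * T * Z * X + Z * X * Y * T * T + Z * T * T * X * Y + Z * T * T * Y * X

def Fp (X Y Z T : B) : B := u0p X Y Z T + (wp X Y Z T + wp X Y Z T)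

end Poly

/-! ### The free algebra on five letters -/

abbrev A : Type := MonoidAlgebra ℤ (FreeMonoid (Fin 5))

noncomputable def W (l : List (Fin 5)) : A := MonoidAlgebra.single (FreeMonoid.ofList l) 1

theorem W_mul (u v : List (Fin 5)) : W (u ++ v) = W u * W v := by
  unfold W
  rw [MonoidAlgebra.single_mul_single, one_mul]
  rfl

theorem W_nil : W [] = 1 := rfl

noncomputable def K : A →+ ZMod 4 :=
  MonoidAlgebra.liftNC (Int.castAddHom (ZMod 4)) (fun l => ((kapN (FreeMonoid.toList l) : ℕ) : ZMod 4))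

noncomputable def C : A →+ ZMod 4 :=
  MonoidAlgebra.liftNC (Int.castAddHom (ZMod 4)) (fun l => ((ccN (FreeMonoid.toList l) : ℕ) : ZMod 4))

theorem K_W (l : List (Fin 5)) : K (W l) = (kapN l : ZMod 4) := by
  unfold K W
  rw [MonoidAlgebra.liftNC_single]
  simp

theorem C_W (l : List (Fin 5)) : C (W l) = (ccN l : ZMod 4) := by
  unfold C W
  rw [MonoidAlgebra.liftNC_single]
  simp

noncomputable def Lam : A →+ ZMod 4 := K + C + C

theorem Lam_apply (x : A) : Lam x = K x + C x + C x := rfl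

theorem A_ind {p : A → Prop} (h0 : p 0) (ha : ∀ x y, p x → p y → p (x + y))
    (hn : ∀ x, p x → p (-x)) (hw : ∀ l, p (W l)) : ∀ x, p x := by
  intro x
  let S : AddSubgroup A :=
    { carrier := {x | p x}
      zero_mem' := h0
      add_mem' := fun {a b} h1 h2 => ha a b h1 h2
      neg_mem' := fun {a} h => hn a h }
  have hS : ∀ x, x ∈ S := by
    intro x
    refine MonoidAlgebra.induction_on x ?_ ?_ ?_
    · intro g
      exact hw (FreeMonoid.toList g)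
    · intro f g hf hg
      exact S.add_mem hf hg
    · intro r f hf
      exact S.zsmul_mem hf r
  exact hS x

def NK : AddSubgroup A where
  carrier := {t | ∀ p q : A, K (p * t * q) = 0}
  zero_mem' := by intro p q; simp
  add_mem' := by
    intro a b ha hb p q
    rw [mul_add, add_mul, map_add, ha, hb, add_zero]
  neg_mem' := by
    intro a ha p q
    rw [mul_neg, neg_mul, map_neg, ha, neg_zero]

def N : AddSubgroup A where
  carrier := {t | ∀ p q : A, Lam (p * t * q) = 0}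
  zero_mem' := by intro p q; simp
  add_mem' := by
    intro a b ha hb p q
    rw [mul_add, add_mul, map_add, ha, hb, add_zero]
  neg_mem' := by
    intro a ha p q
    rw [mul_neg, neg_mul, map_neg, ha, neg_zero]

theorem ext_words (φ : A →+ ZMod 4) (t : A) (h : ∀ P Q : List (Fin 5), φ (W P * t * W Q) = 0) :
    ∀ p q : A, φ (p * t * q) = 0 := by
  have h1 : ∀ (P : List (Fin 5)) (q : A), φ (W P * t * q) = 0 := by
    intro P
    apply A_ind
    · simp
    · intro x y hx hy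
      rw [mul_add, map_add, hx, hy, add_zero]
    · intro x hx
      rw [mul_neg, map_neg, hx, neg_zero]
    · intro l
      exact h P l
  intro p q
  revert p
  apply A_ind
  · simp
  · intro x y hx hy
    rw [add_mul, add_mul, map_add, hx, hy, add_zero]
  · intro x hx
    rw [neg_mul, neg_mul, map_neg, hx, neg_zero]
  · intro l
    exact h1 l q

theorem NK_mul_left (x : A) {t : A} (h : t ∈ NK) : x * t ∈ NK := by
  intro p q
  rw [← mul_assoc]
  exact h (p * x) q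

theorem NK_mul_right (x : A) {t : A} (h : t ∈ NK) : t * x ∈ NK := by
  intro p q
  rw [show p * (t * x) * q = p * t * (x * q) by noncomm_ring]
  exact h p (x * q)

theorem comm_mem (a b e c d : A) : (a * b - b * a) * e * (c * d - d * c) ∈ NK := by
  revert a
  apply A_ind
  · simp [NK.zero_mem]
  · intro x y hx hy
    rw [show ((x + y) * b - b * (x + y)) * e * (c * d - d * c) =
      (x * b - b * x) * e * (c * d - d * c) + (y * b - b * y) * e * (c * d - d * c) by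
        noncomm_ring]
    exact NK.add_mem hx hy
  · intro x hx
    rw [show (-x * b - b * -x) * e * (c * d - d * c) =
      -((x * b - b * x) * e * (c * d - d * c)) by noncomm_ring]
    exact NK.neg_mem hx
  intro a
  revert b
  apply A_ind
  · simp [NK.zero_mem]
  · intro x y hx hy
    rw [show (W a * (x + y) - (x + y) * W a) * e * (c * d - d * c) =
      (W a * x - x * W a) * e * (c * d - d * c) + (W a * y - y * W a) * e * (c * d - d * c) by
        noncomm_ring]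
    exact NK.add_mem hx hy
  · intro x hx
    rw [show (W a * -x - -x * W a) * e * (c * d - d * c) =
      -((W a * x - x * W a) * e * (c * d - d * c)) by noncomm_ring]
    exact NK.neg_mem hx
  intro b
  revert e
  apply A_ind
  · simp [NK.zero_mem]
  · intro x y hx hy
    rw [mul_add, add_mul]
    exact NK.add_mem hx hy
  · intro x hx
    rw [mul_neg, neg_mul]
    exact NK.neg_mem hx
  intro e
  revert c
  apply A_ind
  · simp [NK.zero_mem]
  · intro x y hx hy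
    rw [show (W a * W b - W b * W a) * W e * ((x + y) * d - d * (x + y)) =
      (W a * W b - W b * W a) * W e * (x * d - d * x) +
      (W a * W b - W b * W a) * W e * (y * d - d * y) by noncomm_ring]
    exact NK.add_mem hx hy
  · intro x hx
    rw [show (W a * W b - W b * W a) * W e * (-x * d - d * -x) =
      -((W a * W b - W b * W a) * W e * (x * d - d * x)) by noncomm_ring]
    exact NK.neg_mem hx
  intro c
  revert d
  apply A_ind
  · simp [NK.zero_mem]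
  · intro x y hx hy
    rw [show (W a * W b - W b * W a) * W e * (W c * (x + y) - (x + y) * W c) =
      (W a * W b - W b * W a) * W e * (W c * x - x * W c) +
      (W a * W b - W b * W a) * W e * (W c * y - y * W c) by noncomm_ring]
    exact NK.add_mem hx hy
  · intro x hx
    rw [show (W a * W b - W b * W a) * W e * (W c * -x - -x * W c) =
      -((W a * W b - W b * W a) * W e * (W c * x - x * W c)) by noncomm_ring]
    exact NK.neg_mem hx
  intro d
  apply ext_words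
  intro P Q
  have h : W P * ((W a * W b - W b * W a) * W e * (W c * W d - W d * W c)) * W Q =
      W (P ++ (a ++ (b ++ (e ++ (c ++ (d ++ Q)))))) +
      W (P ++ (b ++ (a ++ (e ++ (d ++ (c ++ Q)))))) -
      (W (P ++ (b ++ (a ++ (e ++ (c ++ (d ++ Q)))))) +
      W (P ++ (a ++ (b ++ (e ++ (d ++ (c ++ Q))))))) := by
    simp only [W_mul]
    noncomm_ring
  rw [h, map_sub, map_add, map_add, K_W, K_W, K_W, K_W, ← Nat.cast_add, ← Nat.cast_add,
    kapN_comm, sub_self]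

theorem comm_mem1 (a b c d : A) : (a * b - b * a) * (c * d - d * c) ∈ NK := by
  have := comm_mem a b 1 c d
  rwa [mul_one] at this

theorem four_zero : (4 : ZMod 4) = 0 := rfl

theorem two_mem {g : A} (h : g ∈ NK) (j : A) : g + g + (j + j + j + j) ∈ N := by
  intro p q
  have e : p * (g + g + (j + j + j + j)) * q = p * g * q + p * g * q +
      (p * j * q + p * j * q + p * j * q + p * j * q) := by noncomm_ring
  rw [e, Lam_apply]
  simp only [map_add]
  rw [h p q]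
  linear_combination (C (p * g * q) + K (p * j * q) + 2 * C (p * j * q)) * four_zero

theorem u0p_mem (X Y Z T : A) : u0p X Y Z T ∈ NK := by
  unfold u0p
  exact NK.sub_mem (NK.add_mem (comm_mem1 _ _ _ _) (comm_mem1 _ _ _ _))
    (NK.add_mem (comm_mem1 _ _ _ _) (comm_mem1 _ _ _ _))

theorem Fp_words (x y z t : List (Fin 5)) (hx : x ≠ []) (hy : y ≠ []) (hz : z ≠ [])
    (ht : t ≠ []) : Fp (W x) (W y) (W z) (W t) ∈ N := by
  apply ext_words
  intro P Q
  have e1 : W P * Fp (W x) (W y) (W z) (W t) * W Q = W P * u0p (W x) (W y) (W z) (W t) * W Q +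
      (W P * wp (W x) (W y) (W z) (W t) * W Q + W P * wp (W x) (W y) (W z) (W t) * W Q) := by
    unfold Fp
    noncomm_ring
  have e2 : W P * u0p (W x) (W y) (W z) (W t) * W Q =
      (W (P ++ (x ++ (y ++ (z ++ (t ++ Q))))) + W (P ++ (y ++ (x ++ (t ++ (z ++ Q))))) + W (P ++ (z ++ (t ++ (x ++ (y ++ Q))))) + W (P ++ (t ++ (z ++ (y ++ (x ++ Q))))) + W (P ++ (x ++ (z ++ (t ++ (y ++ Q))))) + W (P ++ (z ++ (x ++ (y ++ (t ++ Q))))) + W (P ++ (y ++ (t ++ (z ++ (x ++ Q))))) + W (P ++ (t ++ (y ++ (x ++ (z ++ Q)))))) -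
      (W (P ++ (x ++ (y ++ (t ++ (z ++ Q))))) + W (P ++ (y ++ (x ++ (z ++ (t ++ Q))))) + W (P ++ (z ++ (t ++ (y ++ (x ++ Q))))) + W (P ++ (t ++ (z ++ (x ++ (y ++ Q))))) + W (P ++ (x ++ (z ++ (y ++ (t ++ Q))))) + W (P ++ (z ++ (x ++ (t ++ (y ++ Q))))) + W (P ++ (y ++ (t ++ (x ++ (z ++ Q))))) + W (P ++ (t ++ (y ++ (z ++ (x ++ Q)))))) := by
    simp only [W_mul, u0p]
    noncomm_ring
  have e3 : W P * wp (W x) (W y) (W z) (W t) * W Q =
      W (P ++ (x ++ (x ++ (y ++ (z ++ (t ++ Q)))))) + W (P ++ (x ++ (x ++ (y ++ (t ++ (z ++ Q)))))) + W (P ++ (x ++ (x ++ (z ++ (y ++ (t ++ Q)))))) + W (P ++ (x ++ (x ++ (z ++ (t ++ (y ++ Q)))))) + W (P ++ (y ++ (t ++ (x ++ (x ++ (z ++ Q)))))) + W (P ++ (z ++ (t ++ (x ++ (x ++ (y ++ Q)))))) + W (P ++ (t ++ (y ++ (x ++ (x ++ (z ++ Q)))))) + W (P ++ (t ++ (z ++ (x ++ (x ++ (y ++ Q)))))) + W (P ++ (x ++ (y ++ (y ++ (z ++ (t ++ Q)))))) + W (P ++ (x ++ (y ++ (y ++ (t ++ (z ++ Q))))))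 + W (P ++ (x ++ (z ++ (y ++ (y ++ (t ++ Q)))))) + W (P ++ (y ++ (y ++ (t ++ (x ++ (z ++ Q)))))) + W (P ++ (y ++ (y ++ (t ++ (z ++ (x ++ Q)))))) + W (P ++ (z ++ (x ++ (y ++ (y ++ (t ++ Q)))))) + W (P ++ (z ++ (t ++ (x ++ (y ++ (y ++ Q)))))) + W (P ++ (t ++ (z ++ (x ++ (y ++ (y ++ Q)))))) + W (P ++ (x ++ (y ++ (z ++ (z ++ (t ++ Q)))))) + W (P ++ (x ++ (z ++ (z ++ (y ++ (t ++ Q)))))) + W (P ++ (x ++ (z ++ (z ++ (t ++ (y ++ Q)))))) + W (P ++ (y ++ (x ++ (z ++ (z ++ (t ++ Q)))))) + W (P ++ (y ++ (t ++ (x ++ (z ++ (z ++ Q)))))) + W (P ++ (z ++ (z ++ (t ++ (x ++ (y ++ Q)))))) + W (P ++ (z ++ (z ++ (t ++ (y ++ (x ++ Q)))))) + W (P ++ (t ++ (y ++ (x ++ (z ++ (z ++ Q)))))) + W (P ++ (x ++ (y ++ (z ++ (t ++ (t ++ Q)))))) + W (P ++ (x ++ (z ++ (y ++ (t ++ (t ++ Q)))))) + W (P ++ (y ++ (x ++ (z ++ (t ++ (t ++ Q)))))) + W (P ++ (y ++ (t ++ (t ++ (x ++ (z ++ Q)))))) + W (P ++ (y ++ (t ++ (t ++ (z ++ (x ++ Q)))))) + W (P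 ++ (z ++ (x ++ (y ++ (t ++ (t ++ Q)))))) + W (P ++ (z ++ (t ++ (t ++ (x ++ (y ++ Q)))))) + W (P ++ (z ++ (t ++ (t ++ (y ++ (x ++ Q)))))) := by
    simp only [W_mul, wp]
    noncomm_ring
  have c1 : C (W P * u0p (W x) (W y) (W z) (W t) * W Q) =
      ((ccN (P ++ (x ++ (y ++ (z ++ (t ++ Q))))) : ZMod 4) + (ccN (P ++ (y ++ (x ++ (t ++ (z ++ Q))))) : ZMod 4) + (ccN (P ++ (z ++ (t ++ (x ++ (y ++ Q))))) : ZMod 4) + (ccN (P ++ (t ++ (z ++ (y ++ (x ++ Q))))) : ZMod 4) + (ccN (P ++ (x ++ (z ++ (t ++ (y ++ Q))))) : ZMod 4) + (ccN (P ++ (z ++ (x ++ (y ++ (t ++ Q))))) : ZMod 4) + (ccN (P ++ (y ++ (t ++ (z ++ (x ++ Q))))) : ZMod 4) + (ccN (P ++ (t ++ (y ++ (x ++ (z ++ Q))))) : ZMod 4)) -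
      ((ccN (P ++ (x ++ (y ++ (t ++ (z ++ Q))))) : ZMod 4) + (ccN (P ++ (y ++ (x ++ (z ++ (t ++ Q))))) : ZMod 4) + (ccN (P ++ (z ++ (t ++ (y ++ (x ++ Q))))) : ZMod 4) + (ccN (P ++ (t ++ (z ++ (x ++ (y ++ Q))))) : ZMod 4) + (ccN (P ++ (x ++ (z ++ (y ++ (t ++ Q))))) : ZMod 4) + (ccN (P ++ (z ++ (x ++ (t ++ (y ++ Q))))) : ZMod 4) + (ccN (P ++ (y ++ (t ++ (x ++ (z ++ Q))))) : ZMod 4) + (ccN (P ++ (t ++ (y ++ (z ++ (x ++ Q))))) : ZMod 4)) := by
    rw [e2]
    simp only [map_add, map_sub, C_W]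
  have c2 : K (W P * wp (W x) (W y) (W z) (W t) * W Q) =
      (kapN (P ++ (x ++ (x ++ (y ++ (z ++ (t ++ Q)))))) : ZMod 4) + (kapN (P ++ (x ++ (x ++ (y ++ (t ++ (z ++ Q)))))) : ZMod 4) + (kapN (P ++ (x ++ (x ++ (z ++ (y ++ (t ++ Q)))))) : ZMod 4) + (kapN (P ++ (x ++ (x ++ (z ++ (t ++ (y ++ Q)))))) : ZMod 4) + (kapN (P ++ (y ++ (t ++ (x ++ (x ++ (z ++ Q)))))) : ZMod 4) + (kapN (P ++ (z ++ (t ++ (x ++ (x ++ (y ++ Q)))))) : ZMod 4) + (kapN (P ++ (t ++ (y ++ (x ++ (x ++ (z ++ Q)))))) : ZMod 4) + (kapN (P ++ (t ++ (z ++ (x ++ (x ++ (y ++ Q)))))) : ZMod 4) + (kapN (P ++ (x ++ (y ++ (y ++ (z ++ (t ++ Q)))))) : ZMod 4) + (kapN (P ++ (x ++ (y ++ (y ++ (t ++ (z ++ Q)))))) : ZMod 4) + (kapN (P ++ (x ++ (z ++ (y ++ (y ++ (t ++ Q)))))) : ZMod 4) + (kapN (P ++ (y ++ (y ++ (t ++ (x ++ (z ++ Q)))))) : ZMod 4) + (kapN (P ++ (y ++ (y ++ (t ++ (z ++ (x ++ Q)))))) : ZMod 4) + (kapN (P ++ (z ++ (x ++ (y ++ (y ++ (t ++ Q))))))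 : ZMod 4) + (kapN (P ++ (z ++ (t ++ (x ++ (y ++ (y ++ Q)))))) : ZMod 4) + (kapN (P ++ (t ++ (z ++ (x ++ (y ++ (y ++ Q)))))) : ZMod 4) + (kapN (P ++ (x ++ (y ++ (z ++ (z ++ (t ++ Q)))))) : ZMod 4) + (kapN (P ++ (x ++ (z ++ (z ++ (y ++ (t ++ Q)))))) : ZMod 4) + (kapN (P ++ (x ++ (z ++ (z ++ (t ++ (y ++ Q)))))) : ZMod 4) + (kapN (P ++ (y ++ (x ++ (z ++ (z ++ (t ++ Q)))))) : ZMod 4) + (kapN (P ++ (y ++ (t ++ (x ++ (z ++ (z ++ Q)))))) : ZMod 4) + (kapN (P ++ (z ++ (z ++ (t ++ (x ++ (y ++ Q)))))) : ZMod 4) + (kapN (P ++ (z ++ (z ++ (t ++ (y ++ (x ++ Q)))))) : ZMod 4) + (kapN (P ++ (t ++ (y ++ (x ++ (z ++ (z ++ Q)))))) : ZMod 4) + (kapN (P ++ (x ++ (y ++ (z ++ (t ++ (t ++ Q)))))) : ZMod 4) + (kapN (P ++ (x ++ (z ++ (y ++ (t ++ (t ++ Q)))))) : ZMod 4) + (kapN (P ++ (y ++ (x ++ (z ++ (t ++ (t ++ Q)))))) : ZMod 4) + (kapN (P ++ (y ++ (t ++ (t ++ (x ++ (z ++ Q)))))) : ZMod 4) + (kapN (P ++ (y ++ (t ++ (t ++ (z ++ (x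 ++ Q)))))) : ZMod 4) + (kapN (P ++ (z ++ (x ++ (y ++ (t ++ (t ++ Q)))))) : ZMod 4) + (kapN (P ++ (z ++ (t ++ (t ++ (x ++ (y ++ Q)))))) : ZMod 4) + (kapN (P ++ (z ++ (t ++ (t ++ (y ++ (x ++ Q)))))) : ZMod 4) := by
    rw [e3]
    simp only [map_add, K_W]
  have c3 : K (W P * u0p (W x) (W y) (W z) (W t) * W Q) = 0 := u0p_mem _ _ _ _ _ _
  have c4 : (2 : ZMod 4) * (cnt P x y z t Q : ZMod 4) = 0 := by
    have h := cnt_even P x y z t Q hx hy hz ht
    obtain ⟨k, hk⟩ : ∃ k, cnt P x y z t Q = 2 * k := ⟨cnt P x y z t Q / 2, by omega⟩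
    rw [hk]
    push_cast
    linear_combination (k : ZMod 4) * four_zero
  rw [e1, Lam_apply]
  simp only [map_add]
  rw [c3, c1, c2]
  unfold cnt at c4
  push_cast at c4
  linear_combination c4 - (((ccN (P ++ (x ++ (y ++ (t ++ (z ++ Q))))) : ZMod 4) + (ccN (P ++ (y ++ (x ++ (z ++ (t ++ Q))))) : ZMod 4) + (ccN (P ++ (z ++ (t ++ (y ++ (x ++ Q))))) : ZMod 4) + (ccN (P ++ (t ++ (z ++ (x ++ (y ++ Q))))) : ZMod 4) + (ccN (P ++ (x ++ (z ++ (y ++ (t ++ Q))))) : ZMod 4) + (ccN (P ++ (z ++ (x ++ (t ++ (y ++ Q))))) : ZMod 4) + (ccN (P ++ (y ++ (t ++ (x ++ (z ++ Q))))) : ZMod 4) + (ccN (P ++ (t ++ (y ++ (z ++ (x ++ Q))))) : ZMod 4)) -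
    C (W P * wp (W x) (W y) (W z) (W t) * W Q)) * four_zero

/-! ### Additivity in each variable modulo `N` -/

theorem add_X (X X' Y Z T : A) : Fp (X + X') Y Z T - Fp X Y Z T - Fp X' Y Z T ∈ N := by
  have h := two_mem (g := (X * X' - X' * X) * (Y * Z - Z * Y) * T +
      (X * X' - X' * X) * (Y * T * Z - Z * (Y * T)) + (X * X' - X' * X) * Z * (Y * T - T * Y) +
      (Y * T - T * Y) * (X * X' - X' * X) * Z + (Z * T - T * Z) * (X * X' - X' * X) * Y)
    (NK.add_mem (NK.add_mem (NK.add_mem (NK.add_mem (NK_mul_right _ (comm_mem1 _ _ _ _))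
      (comm_mem1 _ _ _ _)) (comm_mem _ _ _ _ _)) (NK_mul_right _ (comm_mem1 _ _ _ _)))
      (NK_mul_right _ (comm_mem1 _ _ _ _)))
    (X' * X * (Y * Z * T + Y * T * Z + Z * Y * T + Z * T * Y) +
      (X * X' - X' * X) * Z * Y * T + (X * X' - X' * X) * Z * T * Y +
      (T * Y * (X * X' - X' * X) * Z + (Y * T - T * Y) * X' * X * Z + 
        (T * Y * X' * X * Z + T * Y * X' * X * Z)) +
      (T * Z * (X * X' - X' * X) * Y + (Z * T - T * Z) * X' * X * Y +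
        (T * Z * X' * X * Y + T * Z * X' * X * Y)))
  convert h using 1
  unfold Fp u0p wp
  noncomm_ring

theorem add_Y (X Y Y' Z T : A) : Fp X (Y + Y') Z T - Fp X Y Z T - Fp X Y' Z T ∈ N := by
  have h := two_mem (g := X * ((Y * Y' - Y' * Y) * (Z * T - T * Z)) +
      (X * Z - Z * X) * (Y * Y' - Y' * Y) * T + (Y * Y' - Y' * Y) * T * (X * Z - Z * X) +
      (Z * T - T * Z) * X * (Y * Y' - Y' * Y))
    (NK.add_mem (NK.add_mem (NK.add_mem (NK_mul_left _ (comm_mem1 _ _ _ _))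
      (NK_mul_right _ (comm_mem1 _ _ _ _))) (comm_mem _ _ _ _ _)) (comm_mem _ _ _ _ _))
    ((X * (Y * Y' - Y' * Y) * T * Z + X * Y' * Y * (Z * T - T * Z) +
        (X * Y' * Y * T * Z + X * Y' * Y * T * Z)) +
      (Z * X * (Y * Y' - Y' * Y) * T + (X * Z - Z * X) * Y' * Y * T +
        (Z * X * Y' * Y * T + Z * X * Y' * Y * T)) +
      ((Y * Y' - Y' * Y) * T * Z * X + Y' * Y * T * (X * Z - Z * X) +
        (Y' * Y * T * Z * X + Y' * Y * T * Z * X)) +
      (T * Z * X * (Y * Y' - Y' * Y) + (Z * T - T * Z) * X * Y' * Y +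
        (T * Z * X * Y' * Y + T * Z * X * Y' * Y)))
  convert h using 1
  unfold Fp u0p wp
  noncomm_ring

theorem add_Z (X Y Z Z' T : A) : Fp X Y (Z + Z') T - Fp X Y Z T - Fp X Y Z' T ∈ N := by
  have h := two_mem (g := (X * Y - Y * X) * (Z * Z' - Z' * Z) * T +
      X * ((Z * Z' - Z' * Z) * (Y * T - T * Y)) + (Y * T - T * Y) * X * (Z * Z' - Z' * Z) +
      (Z * Z' - Z' * Z) * T * (X * Y - Y * X))
    (NK.add_mem (NK.add_mem (NK.add_mem (NK_mul_right _ (comm_mem1 _ _ _ _))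
      (NK_mul_left _ (comm_mem1 _ _ _ _))) (comm_mem _ _ _ _ _)) (comm_mem _ _ _ _ _))
    ((Y * X * (Z * Z' - Z' * Z) * T + (X * Y - Y * X) * Z' * Z * T +
        (Y * X * Z' * Z * T + Y * X * Z' * Z * T)) +
      (X * (Z * Z' - Z' * Z) * T * Y + X * Z' * Z * (Y * T - T * Y) +
        (X * Z' * Z * T * Y + X * Z' * Z * T * Y)) +
      (T * Y * X * (Z * Z' - Z' * Z) + (Y * T - T * Y) * X * Z' * Z +
        (T * Y * X * Z' * Z + T * Y * X * Z' * Z)) +
      ((Z * Z' - Z' * Z) * T * Y * X + Z' * Z * T * (X * Y - Y * X) +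
        (Z' * Z * T * Y * X + Z' * Z * T * Y * X)))
  convert h using 1
  unfold Fp u0p wp
  noncomm_ring

theorem add_T (X Y Z T T' : A) : Fp X Y Z (T + T') - Fp X Y Z T - Fp X Y Z T' ∈ N := by
  have h := two_mem (g := X * ((Y * Z - Z * Y) * (T * T' - T' * T)) +
      (Y * (X * Z) - X * Z * Y) * (T * T' - T' * T) +
      (X * Z - Z * X) * Y * (T * T' - T' * T) +
      Y * ((T * T' - T' * T) * (X * Z - Z * X)) + Z * ((T * T' - T' * T) * (X * Y - Y * X)))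
    (NK.add_mem (NK.add_mem (NK.add_mem (NK.add_mem (NK_mul_left _ (comm_mem1 _ _ _ _))
      (comm_mem1 _ _ _ _)) (comm_mem _ _ _ _ _)) (NK_mul_left _ (comm_mem1 _ _ _ _)))
      (NK_mul_left _ (comm_mem1 _ _ _ _)))
    ((X * Z * Y * (T * T' - T' * T) + X * (Y * Z - Z * Y) * T' * T +
        (X * Z * Y * T' * T + X * Z * Y * T' * T)) +
      (Z * X * Y * (T * T' - T' * T) + (Y * (X * Z) - X * Z * Y) * T' * T +
        (X * Z - Z * X) * Y * T' * T + (Z * X * Y * T' * T + Z * X * Y * T' * T)) +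
      (Y * (T * T' - T' * T) * Z * X + Y * T' * T * (X * Z - Z * X) +
        (Y * T' * T * Z * X + Y * T' * T * Z * X)) +
      (Z * (T * T' - T' * T) * Y * X + Z * T' * T * (X * Y - Y * X) +
        (Z * T' * T * Y * X + Z * T' * T * Y * X)))
  convert h using 1
  unfold Fp u0p wp
  noncomm_ring

/-! ### Elements without constant term -/

/-- The ideal-like subring generated by the letters. -/
noncomputable def Ap : NonUnitalSubring A :=
  NonUnitalSubring.closure (Set.range fun i : Fin 5 => W [i])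

theorem Ap_ind {p : A → Prop} (h0 : p 0) (ha : ∀ x y, p x → p y → p (x + y))
    (hn : ∀ x, p x → p (-x)) (hw : ∀ l, l ≠ [] → p (W l)) : ∀ x ∈ Ap, p x := by
  intro x hx
  have hx' := NonUnitalSubring.mem_closure_iff.1 hx
  refine AddSubgroup.closure_induction (p := fun x _ => p x) ?_ h0 ?_ ?_ hx'
  · intro y hy
    have : ∃ l, l ≠ [] ∧ y = W l := by
      refine Subsemigroup.closure_induction
        (p := fun y _ => ∃ l, l ≠ [] ∧ y = W l) ?_ ?_ hy
      · rintro z ⟨i, rfl⟩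
        exact ⟨[i], by simp, rfl⟩
      · rintro a b _ _ ⟨l, hl, rfl⟩ ⟨m, hm, rfl⟩
        exact ⟨l ++ m, by simp [hl], (W_mul l m).symm⟩
    obtain ⟨l, hl, rfl⟩ := this
    exact hw l hl
  · intro a b _ _ h1 h2
    exact ha a b h1 h2
  · intro a _ h
    exact hn a h

theorem neg_of_add {φ : A → A} (h0 : φ 0 = 0)
    (hadd : ∀ a b, φ (a + b) - φ a - φ b ∈ N) (x : A) (hx : φ x ∈ N) : φ (-x) ∈ N := by
  have h := hadd x (-x)
  rw [add_neg_cancel, h0] at h
  have h2 := N.neg_mem (N.add_mem h hx)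
  convert h2 using 1
  abel

theorem add_of_add {φ : A → A} (hadd : ∀ a b, φ (a + b) - φ a - φ b ∈ N) (x y : A)
    (hx : φ x ∈ N) (hy : φ y ∈ N) : φ (x + y) ∈ N := by
  have h := N.add_mem (N.add_mem (hadd x y) hx) hy
  convert h using 1
  abel

theorem Fp_mem : ∀ X ∈ Ap, ∀ Y ∈ Ap, ∀ Z ∈ Ap, ∀ T ∈ Ap, Fp X Y Z T ∈ N := by
  have z1 : ∀ Y Z T : A, Fp 0 Y Z T = 0 := by intro Y Z T; simp [Fp, u0p, wp]
  have z2 : ∀ X Z T : A, Fp X 0 Z T = 0 := by intro Y Z T; simp [Fp, u0p, wp]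
  have z3 : ∀ X Y T : A, Fp X Y 0 T = 0 := by intro Y Z T; simp [Fp, u0p, wp]
  have z4 : ∀ X Y Z : A, Fp X Y Z 0 = 0 := by intro Y Z T; simp [Fp, u0p, wp]
  apply Ap_ind
  · intro Y _ Z _ T _
    rw [z1]
    exact N.zero_mem
  · intro a b ha hb Y hY Z hZ T hT
    exact add_of_add (φ := fun X => Fp X Y Z T) (fun a b => add_X a b Y Z T) a b
      (ha Y hY Z hZ T hT) (hb Y hY Z hZ T hT)
  · intro a ha Y hY Z hZ T hT
    exact neg_of_add (φ := fun X => Fp X Y Z T) (z1 Y Z T) (fun a b => add_X a b Y Z T) a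
      (ha Y hY Z hZ T hT)
  intro x hx
  apply Ap_ind
  · intro Z _ T _
    rw [z2]
    exact N.zero_mem
  · intro a b ha hb Z hZ T hT
    exact add_of_add (φ := fun Y => Fp (W x) Y Z T) (fun a b => add_Y (W x) a b Z T) a b
      (ha Z hZ T hT) (hb Z hZ T hT)
  · intro a ha Z hZ T hT
    exact neg_of_add (φ := fun Y => Fp (W x) Y Z T) (z2 (W x) Z T)
      (fun a b => add_Y (W x) a b Z T) a (ha Z hZ T hT)
  intro y hy
  apply Ap_ind
  · intro T _
    rw [z3]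
    exact N.zero_mem
  · intro a b ha hb T hT
    exact add_of_add (φ := fun Z => Fp (W x) (W y) Z T) (fun a b => add_Z (W x) (W y) a b T) a b
      (ha T hT) (hb T hT)
  · intro a ha T hT
    exact neg_of_add (φ := fun Z => Fp (W x) (W y) Z T) (z3 (W x) (W y) T)
      (fun a b => add_Z (W x) (W y) a b T) a (ha T hT)
  intro z hz
  apply Ap_ind
  · rw [z4]
    exact N.zero_mem
  · intro a b ha hb
    exact add_of_add (φ := fun T => Fp (W x) (W y) (W z) T)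
      (fun a b => add_T (W x) (W y) (W z) a b) a b ha hb
  · intro a ha
    exact neg_of_add (φ := fun T => Fp (W x) (W y) (W z) T) (z4 (W x) (W y) (W z))
      (fun a b => add_T (W x) (W y) (W z) a b) a ha
  intro t ht
  exact Fp_words x y z t hx hy hz ht


/-! ### The identity as an element of the free ring -/

def terms : List (FreeSemigroup ℕ × ℤ) :=
  [(⟨0, [1, 2, 3]⟩, 1),
    (⟨1, [0, 3, 2]⟩, 1),
    (⟨2, [3, 0, 1]⟩, 1),
    (⟨3, [2, 1, 0]⟩, 1),
    (⟨0, [2, 3, 1]⟩, 1),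
    (⟨2, [0, 1, 3]⟩, 1),
    (⟨1, [3, 2, 0]⟩, 1),
    (⟨3, [1, 0, 2]⟩, 1),
    (⟨0, [1, 3, 2]⟩, -1),
    (⟨1, [0, 2, 3]⟩, -1),
    (⟨2, [3, 1, 0]⟩, -1),
    (⟨3, [2, 0, 1]⟩, -1),
    (⟨0, [2, 1, 3]⟩, -1),
    (⟨2, [0, 3, 1]⟩, -1),
    (⟨1, [3, 0, 2]⟩, -1),
    (⟨3, [1, 2, 0]⟩, -1),
    (⟨0, [0, 1, 2, 3]⟩, 2),
    (⟨0, [0, 1, 3, 2]⟩, 2),
    (⟨0, [0, 2, 1, 3]⟩, 2),
    (⟨0, [0, 2, 3, 1]⟩, 2),
    (⟨1, [3, 0, 0, 2]⟩, 2),
    (⟨2, [3, 0, 0, 1]⟩, 2),
    (⟨3, [1, 0, 0, 2]⟩, 2),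
    (⟨3, [2, 0, 0, 1]⟩, 2),
    (⟨0, [1, 1, 2, 3]⟩, 2),
    (⟨0, [1, 1, 3, 2]⟩, 2),
    (⟨0, [2, 1, 1, 3]⟩, 2),
    (⟨1, [1, 3, 0, 2]⟩, 2),
    (⟨1, [1, 3, 2, 0]⟩, 2),
    (⟨2, [0, 1, 1, 3]⟩, 2),
    (⟨2, [3, 0, 1, 1]⟩, 2),
    (⟨3, [2, 0, 1, 1]⟩, 2),
    (⟨0, [1, 2, 2, 3]⟩, 2),
    (⟨0, [2, 2, 1, 3]⟩, 2),
    (⟨0, [2, 2, 3, 1]⟩, 2),
    (⟨1, [0, 2, 2, 3]⟩, 2),
    (⟨1, [3, 0, 2, 2]⟩, 2),
    (⟨2, [2, 3, 0, 1]⟩, 2),
    (⟨2, [2, 3, 1, 0]⟩, 2),
    (⟨3, [1, 0, 2, 2]⟩, 2),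
    (⟨0, [1, 2, 3, 3]⟩, 2),
    (⟨0, [2, 1, 3, 3]⟩, 2),
    (⟨1, [0, 2, 3, 3]⟩, 2),
    (⟨1, [3, 3, 0, 2]⟩, 2),
    (⟨1, [3, 3, 2, 0]⟩, 2),
    (⟨2, [0, 1, 3, 3]⟩, 2),
    (⟨2, [3, 3, 0, 1]⟩, 2),
    (⟨2, [3, 3, 1, 0]⟩, 2)]

noncomputable def listSum (l : List (FreeSemigroup ℕ × ℤ)) : FreeRing :=
  (l.map fun q => Finsupp.single q.1 q.2).sum

theorem value_add {R : Type} [NonUnitalRing R] (v : ℕ → R) (f g : FreeRing) :
    value v (f + g) = value v f + value v g := by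
  unfold value
  apply Finsupp.sum_add_index'
  · intro a
    exact zero_smul _ _
  · intro a b c
    exact add_smul _ _ _

theorem value_single {R : Type} [NonUnitalRing R] (v : ℕ → R) (w : FreeSemigroup ℕ) (c : ℤ) :
    value v (Finsupp.single w c) = c • FreeSemigroup.lift v w := by
  unfold value
  apply Finsupp.sum_single_index
  exact zero_smul _ _

theorem value_zero {R : Type} [NonUnitalRing R] (v : ℕ → R) : value v 0 = 0 :=
  Finsupp.sum_zero_index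

theorem value_listSum {R : Type} [NonUnitalRing R] (v : ℕ → R)
    (l : List (FreeSemigroup ℕ × ℤ)) :
    value v (listSum l) = (l.map fun q => q.2 • FreeSemigroup.lift v q.1).sum := by
  induction l with
  | nil => exact value_zero v
  | cons q l ih =>
    have : listSum (q :: l) = Finsupp.single q.1 q.2 + listSum l := by
      simp [listSum]
    rw [this, value_add, ih, value_single]
    simp

theorem value_terms {R : Type} [NonUnitalRing R] (v : ℕ → R) :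
    value v (listSum terms) = Fp (v 0) (v 1) (v 2) (v 3) := by
  rw [value_listSum]
  have hl4 : ∀ a b c d : ℕ, FreeSemigroup.lift v ⟨a, [b, c, d]⟩ = v a * v b * v c * v d :=
    fun a b c d => rfl
  have hl5 : ∀ a b c d e : ℕ,
      FreeSemigroup.lift v ⟨a, [b, c, d, e]⟩ = v a * v b * v c * v d * v e :=
    fun a b c d e => rfl
  unfold terms
  simp only [List.map_cons, List.map_nil, List.sum_cons, List.sum_nil, hl4, hl5, Fp, u0p, wp,
    mul_sub, sub_mul, ← mul_assoc, one_smul, neg_smul, two_smul, add_zero]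
  abel

theorem listSum_apply_ne {l : List (FreeSemigroup ℕ × ℤ)} {w : FreeSemigroup ℕ}
    (h : listSum l w ≠ 0) : ∃ q ∈ l, q.1 = w := by
  induction l with
  | nil => exact absurd rfl h
  | cons q l ih =>
    have e : listSum (q :: l) = Finsupp.single q.1 q.2 + listSum l := by
      simp [listSum]
    rw [e, Finsupp.add_apply] at h
    by_cases hq : q.1 = w
    · exact ⟨q, List.mem_cons_self, hq⟩
    · rw [Finsupp.single_eq_of_ne (Ne.symm hq), zero_add] at h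
      obtain ⟨r, hr, hw⟩ := ih h
      exact ⟨r, List.mem_cons_of_mem _ hr, hw⟩

theorem terms_length : ∀ q ∈ terms, FreeSemigroup.length q.1 ≤ 5 := by
  unfold terms
  simp only [List.mem_cons, List.not_mem_nil, or_false, forall_eq_or_imp, forall_eq]
  refine ⟨?_, ?_, ?_, ?_, ?_, ?_, ?_, ?_, ?_, ?_, ?_, ?_, ?_, ?_, ?_, ?_, ?_, ?_, ?_, ?_, ?_, ?_, ?_, ?_, ?_, ?_, ?_, ?_, ?_, ?_, ?_, ?_, ?_, ?_, ?_, ?_, ?_, ?_, ?_, ?_, ?_, ?_, ?_, ?_, ?_, ?_, ?_, ?_⟩ <;> decide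

theorem coef_one : listSum terms ⟨0, [1, 2, 3]⟩ = 1 := by
  simp [listSum, terms]

theorem coef_two : listSum terms ⟨0, [0, 1, 2, 3]⟩ = 2 := by
  simp [listSum, terms]

theorem degree_terms : degree (listSum terms) = 5 := by
  apply le_antisymm
  · apply Finset.sup_le
    intro w hw
    obtain ⟨q, hq, rfl⟩ := listSum_apply_ne (Finsupp.mem_support_iff.1 hw)
    exact terms_length q hq
  · have h : (⟨0, [0, 1, 2, 3]⟩ : FreeSemigroup ℕ) ∈ (listSum terms).support := by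
      rw [Finsupp.mem_support_iff, coef_two]
      norm_num
    exact Finset.le_sup (f := FreeSemigroup.length) h

theorem coprime_terms : CoprimeCoefficients (listSum terms) := by
  intro m hm
  have := hm ⟨0, [1, 2, 3]⟩
  rw [coef_one] at this
  exact isUnit_of_dvd_one this

theorem terms_ne : listSum terms ≠ 0 := by
  intro h
  have := coef_one
  rw [h] at this
  simp at this

/-! ### The ring -/

def con : RingCon A where
  r a b := ∀ p q : A, Lam (p * a * q) = Lam (p * b * q)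
  iseqv := ⟨fun a p q => rfl, fun h p q => (h p q).symm, fun h1 h2 p q => (h1 p q).trans (h2 p q)⟩
  mul' := by
    intro a b c d h1 h2 p q
    rw [show p * (a * c) * q = p * a * (c * q) by noncomm_ring, h1,
      show p * b * (c * q) = (p * b) * c * q by noncomm_ring, h2,
      show (p * b) * d * q = p * (b * d) * q by noncomm_ring]
  add' := by
    intro a b c d h1 h2 p q
    rw [show p * (a + c) * q = p * a * q + p * c * q by noncomm_ring, map_add, h1, h2,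
      ← map_add, show p * b * q + p * d * q = p * (b + d) * q by noncomm_ring]

/-- The ring: image of the elements without constant term. -/
noncomputable def RR : NonUnitalSubring con.Quotient :=
  Ap.map (con.mk' : A →ₙ+* con.Quotient)


theorem lift_RR (r : RR) : ∃ a ∈ Ap, con.mk' a = (r : con.Quotient) := by
  obtain ⟨r, hr⟩ := r
  obtain ⟨a, ha, h⟩ := NonUnitalSubring.mem_map.1 hr
  exact ⟨a, ha, h⟩

theorem mk_eq_zero_iff (t : A) : con.mk' t = 0 ↔ t ∈ N := by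
  constructor
  · intro h p q
    have h1 : con t 0 := (RingCon.eq con).1 h
    have h2 := h1 p q
    rw [h2]
    simp
  · intro h
    refine (RingCon.eq con).2 ?_
    intro p q
    rw [h p q]
    simp

theorem satisfies : Satisfies RR (listSum terms) := by
  refine ⟨terms_ne, ?_⟩
  intro v
  rw [value_terms]
  obtain ⟨X, hX, eX⟩ := lift_RR (v 0)
  obtain ⟨Y, hY, eY⟩ := lift_RR (v 1)
  obtain ⟨Z, hZ, eZ⟩ := lift_RR (v 2)
  obtain ⟨T, hT, eT⟩ := lift_RR (v 3)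
  apply Subtype.ext
  have h1 : ((Fp (v 0) (v 1) (v 2) (v 3) : RR) : con.Quotient) =
      Fp (v 0 : con.Quotient) (v 1 : con.Quotient) (v 2 : con.Quotient) (v 3 : con.Quotient) := rfl
  rw [h1, ← eX, ← eY, ← eZ, ← eT]
  have h2 : Fp (con.mk' X) (con.mk' Y) (con.mk' Z) (con.mk' T) = con.mk' (Fp X Y Z T) := by
    simp only [Fp, u0p, wp, map_add, map_sub, map_mul]
  rw [h2]
  exact (mk_eq_zero_iff _).2 (Fp_mem X hX Y hY Z hZ T hT)

theorem permWord_eq (τ : Equiv.Perm (Fin 5)) :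
    permWord τ = ⟨(τ 0 : ℕ), [(τ 1 : ℕ), (τ 2 : ℕ), (τ 3 : ℕ), (τ 4 : ℕ)]⟩ := rfl

theorem not_one (α : Equiv.Perm (Fin 5) → ℤ) (h : Satisfies RR (multilinear (n := 4) α))
    (σ : Equiv.Perm (Fin 5)) : α σ ≠ 1 := by
  intro hσ
  have hmem : ∀ i : Fin 5, con.mk' (W [i]) ∈ RR := by
    intro i
    exact NonUnitalSubring.mem_map.2 ⟨W [i], NonUnitalSubring.subset_closure ⟨i, rfl⟩, rfl⟩
  let v : ℕ → RR := fun k => if hk : k < 5 then ⟨con.mk' (W [σ.symm ⟨k, hk⟩]), hmem _⟩ else 0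
  have hv : ∀ i : Fin 5, ((v (i : ℕ) : RR) : con.Quotient) = con.mk' (W [σ.symm i]) := by
    intro i
    simp only [v]
    rw [dif_pos i.isLt]
  have h0 := h.2 v
  let V : FreeRing →+ RR := AddMonoidHom.mk' (value v) (value_add v)
  have h1 : value v (multilinear (n := 4) α) =
      ∑ τ : Equiv.Perm (Fin 5), α τ • FreeSemigroup.lift v (permWord τ) := by
    show V (multilinear (n := 4) α) = _
    unfold multilinear
    rw [map_sum]
    apply Finset.sum_congr rfl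
    intro τ _
    exact value_single v _ _
  rw [h1] at h0
  have h2 : ∀ τ : Equiv.Perm (Fin 5), ((FreeSemigroup.lift v (permWord τ) : RR) : con.Quotient) =
      con.mk' (W [σ.symm (τ 0), σ.symm (τ 1), σ.symm (τ 2), σ.symm (τ 3), σ.symm (τ 4)]) := by
    intro τ
    rw [permWord_eq]
    have e : (FreeSemigroup.lift v ⟨(τ 0 : ℕ), [(τ 1 : ℕ), (τ 2 : ℕ), (τ 3 : ℕ), (τ 4 : ℕ)]⟩ : RR) =
        v (τ 0 : ℕ) * v (τ 1 : ℕ) * v (τ 2 : ℕ) * v (τ 3 : ℕ) * v (τ 4 : ℕ) := rfl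
    rw [e]
    show (v (τ 0 : ℕ) : con.Quotient) * v (τ 1 : ℕ) * v (τ 2 : ℕ) * v (τ 3 : ℕ) * v (τ 4 : ℕ) = _
    rw [hv, hv, hv, hv, hv, ← map_mul, ← map_mul, ← map_mul, ← map_mul, ← W_mul, ← W_mul,
      ← W_mul, ← W_mul]
    rfl
  have h3 : con.mk' (∑ τ : Equiv.Perm (Fin 5), α τ •
      W [σ.symm (τ 0), σ.symm (τ 1), σ.symm (τ 2), σ.symm (τ 3), σ.symm (τ 4)]) = 0 := by
    have h4 := congrArg (fun r : RR => (r : con.Quotient)) h0
    rw [map_sum]
    have h5 : ((∑ τ : Equiv.Perm (Fin 5), α τ • FreeSemigroup.lift v (permWord τ) : RR) :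
        con.Quotient) = ∑ τ : Equiv.Perm (Fin 5),
          α τ • ((FreeSemigroup.lift v (permWord τ) : RR) : con.Quotient) := by
      rw [AddSubmonoidClass.coe_finsetSum]
      rfl
    have h4' : ((∑ τ : Equiv.Perm (Fin 5), α τ • FreeSemigroup.lift v (permWord τ) : RR) :
        con.Quotient) = 0 := h4
    rw [h5] at h4'
    rw [← h4']
    apply Finset.sum_congr rfl
    intro τ _
    rw [map_zsmul, h2]
  have h7 := (mk_eq_zero_iff _).1 h3 1 1
  rw [one_mul, mul_one, map_sum, Finset.sum_eq_single σ] at h7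
  · rw [map_zsmul, hσ, one_smul, Lam_apply, K_W, C_W] at h7
    simp only [Equiv.symm_apply_apply] at h7
    have e1 : kapN [0, 1, 2, 3, 4] = 0 := kapN_of_length (by simp)
    have e2 : ccN [0, 1, 2, 3, 4] = 1 := by simp [ccN]
    rw [e1, e2] at h7
    revert h7
    decide
  · intro τ _ hτ
    rw [map_zsmul, Lam_apply, K_W, C_W]
    have e1 : kapN [σ.symm (τ 0), σ.symm (τ 1), σ.symm (τ 2), σ.symm (τ 3), σ.symm (τ 4)] = 0 :=
      kapN_of_length (by simp)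
    have e2 : ccN [σ.symm (τ 0), σ.symm (τ 1), σ.symm (τ 2), σ.symm (τ 3), σ.symm (τ 4)] = 0 := by
      unfold ccN
      rw [if_neg]
      intro hl
      simp only [List.cons.injEq, and_true] at hl
      obtain ⟨a0, a1, a2, a3, a4⟩ := hl
      apply hτ
      ext i
      have hi : σ.symm (τ i) = i := by
        fin_cases i
        · exact a0
        · exact a1
        · exact a2
        · exact a3
        · exact a4
      have := congrArg σ hi
      rw [Equiv.apply_symm_apply] at this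
      rw [this]
    rw [e1, e2]
    simp
  · intro h8
    exact absurd (Finset.mem_univ σ) h8

theorem main : ∃ (R : Type) (_ : NonUnitalRing R) (n : ℕ),
    (∃ f : FreeRing, Satisfies R f ∧ degree f = n + 1 ∧ CoprimeCoefficients f) ∧
    ∀ α : Equiv.Perm (Fin (n + 1)) → ℤ, Satisfies R (multilinear α) → ∀ σ, α σ ≠ 1 :=
  ⟨RR, inferInstance, 4, ⟨listSum terms, satisfies, degree_terms, coprime_terms⟩,
    fun α h σ => not_one α h σ⟩

end Pool.Agent.H5.Mf7573e
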