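import Mathlib

set_option autoImplicit false

namespace Pool.Agent.H5.Mf7573e

/-- Elements of the free associative ring without unit on the variables `x_0, x_1, x_2, ...`:
integer combinations of nonempty words (`FreeSemigroup ℕ` is the type of nonempty words). -/
abbrev FreeRing : Type := FreeSemigroup ℕ →₀ ℤ

/-- The value of `f` when the variable `x_i` is replaced by `v i`. -/
noncomputable def value {R : Type} [NonUnitalRing R] (v : ℕ → R) (f : FreeRing) : R :=
  f.sum fun w c => c • FreeSemigroup.lift v w

/-- The ring `R` satisfies the identity `f`. -/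
def Satisfies (R : Type) [NonUnitalRing R] (f : FreeRing) : Prop :=
  f ≠ 0 ∧ ∀ v : ℕ → R, value v f = 0

/-- The total degree: the maximal length of a word occurring in `f`. -/
def degree (f : FreeRing) : ℕ := f.support.sup FreeSemigroup.length

/-- The coefficients of `f` are coprime: only units divide all of them. -/
def CoprimeCoefficients (f : FreeRing) : Prop :=
  ∀ m : ℤ, (∀ w, m ∣ f w) → IsUnit m

/-- The word `x_{σ 0} x_{σ 1} ... x_{σ n}`. -/
def permWord {n : ℕ} (σ : Equiv.Perm (Fin (n + 1))) : FreeSemigroup ℕ :=
  ⟨(σ 0 : ℕ), List.ofFn fun i : Fin n => ((σ i.succ : Fin (n + 1)) : ℕ)⟩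

/-- The multilinear polynomial of degree `n + 1` with coefficients `α`. -/
noncomputable def multilinear {n : ℕ} (α : Equiv.Perm (Fin (n + 1)) → ℤ) : FreeRing :=
  ∑ σ : Equiv.Perm (Fin (n + 1)), Finsupp.single (permWord σ) (α σ)

end Pool.Agent.H5.Mf7573e
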