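import Pool.Agent.H5.TriangularGroup

/-! Semilinear groups `F ⋊ (Fˣ ⋊ Gam)` for a field `F` of characteristic two on which `Gam` acts
with an element acting as Frobenius. -/

set_option autoImplicit false

namespace Pool.Agent.H5.Tri

open scoped commutatorElement

/-- inverse of the translation of coordinate zero -/
def fr : Gam := ⟨(sh 0)⁻¹, inv_mem (TriG_le_Gam _ (sh_mem 0))⟩

theorem solv_step {G : Type} [Group G] {H K : Subgroup G} (h : ∀ σ ∈ H, ∀ τ ∈ H, ⁅σ, τ⁆ ∈ K)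
    (hK : Group.IsSolvable K) : Group.IsSolvable H := by
  have h1 : ∀ x : commutator H, ((x : H) : G) ∈ K := by
    intro x
    have h2 : (commutator H) ≤ K.comap H.subtype := by
      rw [commutator_def, Subgroup.commutator_le]
      intro a _ b _
      exact h a a.2 b b.2
    exact h2 x.2
  have h3 : Group.IsSolvable (commutator H) := by
    apply Group.isSolvable_of_isSolvable_injective (f := ((H.subtype.comp (commutator H).subtype).codRestrict K h1))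
    intro x y hxy
    have := congrArg (fun z : K => (z : G)) hxy
    exact Subtype.ext (Subtype.ext this)
  apply Group.isSolvable_of_ker_le_range (commutator H).subtype Abelianization.of
  rw [Abelianization.ker_of, Subgroup.range_subtype]

/-- the level `(N, k)` part of `Gam` -/
def Gk (N k : ℕ) : Subgroup Gam := (TriG N k).comap Gam.subtype

theorem Gk_zero (N : ℕ) : Gk N 0 ≤ ⊥ := by
  intro g hg
  rw [Subgroup.mem_bot]
  exact Subtype.ext (TriG_zero hg)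

theorem Gk_comm (N k : ℕ) : ∀ g₁ ∈ Gk N (k + 1), ∀ g₂ ∈ Gk N (k + 1), ⁅g₁, g₂⁆ ∈ Gk N k :=
  fun _ h1 _ h2 => comm_mem h1 h2

variable {F : Type} [Field F] (Φ : Gam →* (F ≃+* F))

/-- the map `x ↦ a * γ x + b` -/
def aff (a : Fˣ) (b : F) (g : Gam) : Equiv.Perm F where
  toFun x := a * Φ g x + b
  invFun y := (Φ g).symm ((a⁻¹ : Fˣ) * (y - b))
  left_inv x := by simp
  right_inv y := by simp

theorem aff_apply (a : Fˣ) (b : F) (g : Gam) (x : F) : aff Φ a b g x = a * Φ g x + b := rfl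

def act (g : Gam) (a : Fˣ) : Fˣ := Units.map (Φ g : F →* F) a

theorem act_coe (g : Gam) (a : Fˣ) : ((act Φ g a : Fˣ) : F) = Φ g a := rfl

theorem act_one (a : Fˣ) : act Φ 1 a = a := by
  ext
  rw [act_coe, map_one]
  rfl

theorem act_one_right (g : Gam) : act Φ g 1 = 1 := by
  ext
  rw [act_coe, Units.val_one, map_one]

theorem Phi_one (x : F) : Φ 1 x = x := by rw [map_one]; rfl

theorem Phi_mul (g h : Gam) (x : F) : Φ g (Φ h x) = Φ (g * h) x := by rw [map_mul]; rfl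

theorem aff_mul (a a' : Fˣ) (b b' : F) (g g' : Gam) :
    aff Φ a b g * aff Φ a' b' g' = aff Φ (a * act Φ g a') (a * Φ g b' + b) (g * g') := by
  ext x
  rw [Equiv.Perm.mul_apply, aff_apply, aff_apply, aff_apply, ← Phi_mul, Units.val_mul, act_coe,
    map_add, map_mul]
  ring

theorem aff_one : aff Φ 1 0 1 = 1 := by
  ext x
  rw [aff_apply, Phi_one]
  simp

theorem aff_inv (a : Fˣ) (b : F) (g : Gam) : (aff Φ a b g)⁻¹ =
    aff Φ (act Φ g⁻¹ a⁻¹) (- (Φ g⁻¹ ((a⁻¹ : Fˣ) * b))) g⁻¹ := by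
  rw [inv_eq_iff_mul_eq_one, aff_mul, ← aff_one Φ]
  have e1 : a * act Φ g (act Φ g⁻¹ a⁻¹) = 1 := by
    apply Units.ext
    rw [Units.val_mul, act_coe, act_coe, Phi_mul, mul_inv_cancel, Phi_one]
    simp
  have e2 : (a : F) * Φ g (- (Φ g⁻¹ ((a⁻¹ : Fˣ) * b))) + b = 0 := by
    rw [map_neg, Phi_mul, mul_inv_cancel, Phi_one]
    simp
  rw [e1, e2, mul_inv_cancel]

/-- the semilinear maps whose field automorphism comes from the subgroup `H` -/
def Q (H : Subgroup Gam) : Subgroup (Equiv.Perm F) where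
  carrier := {σ | ∃ a b, ∃ g ∈ H, σ = aff Φ a b g}
  one_mem' := ⟨1, 0, 1, one_mem _, (aff_one Φ).symm⟩
  mul_mem' := by
    rintro _ _ ⟨a, b, g, hg, rfl⟩ ⟨a', b', g', hg', rfl⟩
    exact ⟨_, _, _, mul_mem hg hg', aff_mul _ _ _ _ _ _ _⟩
  inv_mem' := by
    rintro _ ⟨a, b, g, hg, rfl⟩
    exact ⟨_, _, _, inv_mem hg, aff_inv _ _ _ _⟩

theorem Q_mono {H H' : Subgroup Gam} (h : H ≤ H') : Q Φ H ≤ Q Φ H' := by
  rintro _ ⟨a, b, g, hg, rfl⟩
  exact ⟨a, b, g, h hg, rfl⟩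

theorem Q_comm {H H' : Subgroup Gam} (h : ∀ g₁ ∈ H, ∀ g₂ ∈ H, ⁅g₁, g₂⁆ ∈ H') :
    ∀ σ ∈ Q Φ H, ∀ τ ∈ Q Φ H, ⁅σ, τ⁆ ∈ Q Φ H' := by
  rintro _ ⟨a, b, g, hg, rfl⟩ _ ⟨a', b', g', hg', rfl⟩
  rw [commutatorElement_def, aff_inv, aff_inv, aff_mul, aff_mul, aff_mul]
  exact ⟨_, _, _, h g hg g' hg', rfl⟩

/-- the translations -/
def T : Subgroup (Equiv.Perm F) where
  carrier := {σ | ∃ b, σ = aff Φ 1 b 1}
  one_mem' := ⟨0, (aff_one Φ).symm⟩
  mul_mem' := by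
    rintro _ _ ⟨b, rfl⟩ ⟨b', rfl⟩
    exact ⟨b' + b, by rw [aff_mul]; simp [act_one, Phi_one]⟩
  inv_mem' := by
    rintro _ ⟨b, rfl⟩
    exact ⟨-b, by rw [aff_inv]; simp [act_one, Phi_one]⟩

theorem Q_bot_comm : ∀ σ ∈ Q Φ ⊥, ∀ τ ∈ Q Φ ⊥, ⁅σ, τ⁆ ∈ T Φ := by
  rintro _ ⟨a, b, g, hg, rfl⟩ _ ⟨a', b', g', hg', rfl⟩
  rw [Subgroup.mem_bot] at hg hg'
  subst hg
  subst hg'
  rw [commutatorElement_def, aff_inv, aff_inv, aff_mul, aff_mul, aff_mul]
  simp only [inv_one, mul_one, act_one]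
  have : a * a' * a⁻¹ * a'⁻¹ = 1 := by
    rw [mul_comm a a', mul_inv_cancel_right, mul_inv_cancel]
  rw [this]
  exact ⟨_, rfl⟩

theorem T_comm : ∀ σ ∈ T Φ, ∀ τ ∈ T Φ, ⁅σ, τ⁆ = 1 := by
  rintro _ ⟨b, rfl⟩ _ ⟨b', rfl⟩
  rw [commutatorElement_eq_one_iff_mul_comm, aff_mul, aff_mul]
  simp [act_one, Phi_one, add_comm]

theorem Q_solv (N : ℕ) : ∀ k, Group.IsSolvable (Q Φ (Gk N k)) := by
  have hT : Group.IsSolvable (T Φ) := by
    apply solv_step (K := ⊥)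
    · intro σ hσ τ hτ
      rw [Subgroup.mem_bot]
      exact T_comm Φ σ hσ τ hτ
    · infer_instance
  have hB : Group.IsSolvable (Q Φ ⊥) := solv_step (Q_bot_comm Φ) hT
  intro k
  induction k with
  | zero =>
    apply solv_step (K := Q Φ ⊥) _ hB
    intro σ hσ τ hτ
    have h1 := Q_mono Φ (Gk_zero N) hσ
    have h2 := Q_mono Φ (Gk_zero N) hτ
    exact mul_mem (mul_mem (mul_mem h1 h2) (inv_mem h1)) (inv_mem h2)
  | succ k ih => exact solv_step (Q_comm Φ (Gk_comm N k)) ih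

/-- the group -/
abbrev G : Subgroup (Equiv.Perm F) := Q Φ ⊤

theorem mem_G (a : Fˣ) (b : F) (g : Gam) : aff Φ a b g ∈ G Φ :=
  ⟨a, b, g, Subgroup.mem_top _, rfl⟩

theorem finset_level (S : Finset (G Φ)) : ∃ N, ∀ σ ∈ S, (σ : Equiv.Perm F) ∈ Q Φ (Gk N N) := by
  classical
  induction S using Finset.induction_on with
  | empty => exact ⟨0, by simp⟩
  | insert σ S _ ih =>
    obtain ⟨N, hN⟩ := ih
    obtain ⟨a, b, ⟨g, M, hg⟩, _, h⟩ := σ.2
    refine ⟨max N M, fun τ hτ => ?_⟩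
    rw [Finset.mem_insert] at hτ
    rcases hτ with rfl | hτ
    · rw [h]
      exact ⟨a, b, ⟨g, M, hg⟩, TriG_mono (le_max_right _ _) (le_max_right _ _) hg, rfl⟩
    · have hle : Gk N N ≤ Gk (max N M) (max N M) :=
        Subgroup.comap_mono (TriG_mono (le_max_left _ _) (le_max_left _ _))
      exact Q_mono Φ hle (hN τ hτ)

theorem local_solv (S : Finset (G Φ)) : Group.IsSolvable (Subgroup.closure (S : Set (G Φ))) := by
  obtain ⟨N, hN⟩ := finset_level Φ S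
  have hle : Subgroup.closure (S : Set (G Φ)) ≤ (Q Φ (Gk N N)).comap (G Φ).subtype := by
    rw [Subgroup.closure_le]
    exact fun σ hσ => hN σ hσ
  have hs := Q_solv Φ N N
  apply Group.isSolvable_of_isSolvable_injective
    (f := (((G Φ).subtype.comp (Subgroup.closure (S : Set (G Φ))).subtype).codRestrict
      (Q Φ (Gk N N)) (fun x => hle x.2)))
  intro x y hxy
  have := congrArg (fun z : Q Φ (Gk N N) => (z : Equiv.Perm F)) hxy
  exact Subtype.ext (Subtype.ext this)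

/-! ### Representations -/

def eG : Gam →* G Φ where
  toFun g := ⟨aff Φ 1 0 g, mem_G Φ _ _ _⟩
  map_one' := Subtype.ext (aff_one Φ)
  map_mul' g g' := Subtype.ext (by
    show aff Φ 1 0 (g * g') = aff Φ 1 0 g * aff Φ 1 0 g'
    rw [aff_mul, act_one_right, map_zero]; simp)

def mG (a : Fˣ) : G Φ := ⟨aff Φ a 0 1, mem_G Φ _ _ _⟩
def tG (b : F) : G Φ := ⟨aff Φ 1 b 1, mem_G Φ _ _ _⟩

theorem mG_sq (hfr : ∀ x, Φ fr x = x ^ 2) (a : Fˣ) :
    eG Φ fr * mG Φ a = mG Φ a * mG Φ a * eG Φ fr := by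
  apply Subtype.ext
  show aff Φ 1 0 fr * aff Φ a 0 1 = aff Φ a 0 1 * aff Φ a 0 1 * aff Φ 1 0 fr
  rw [aff_mul, aff_mul, aff_mul]
  ext x
  simp only [aff_apply, Units.val_mul, act_coe, hfr, mul_one, one_mul, map_zero,
    mul_zero, add_zero, Units.val_one, Phi_one]
  ring

theorem mG_tG (a : Fˣ) (b : F) : mG Φ a * tG Φ b = tG Φ (a * b) * mG Φ a := by
  apply Subtype.ext
  show aff Φ a 0 1 * aff Φ 1 b 1 = aff Φ 1 (a * b) 1 * aff Φ a 0 1
  rw [aff_mul, aff_mul, act_one, act_one, Phi_one, Phi_one]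
  simp

theorem tG_add (b c : F) : tG Φ b * tG Φ c = tG Φ (b + c) := by
  apply Subtype.ext
  show aff Φ 1 b 1 * aff Φ 1 c 1 = aff Φ 1 (b + c) 1
  rw [aff_mul, act_one, Phi_one]
  simp [add_comm]

theorem G_decomp (a : Fˣ) (b : F) (g : Gam) :
    (⟨aff Φ a b g, mem_G Φ _ _ _⟩ : G Φ) = tG Φ b * mG Φ a * eG Φ g := by
  apply Subtype.ext
  show aff Φ a b g = aff Φ 1 b 1 * aff Φ a 0 1 * aff Φ 1 0 g
  rw [aff_mul, aff_mul, mul_one, act_one, act_one, Phi_one]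
  simp

theorem rep_trivial [Infinite F] (hfr : ∀ x, Φ fr x = x ^ 2)
    {K V : Type} [Field K] [AddCommGroup V] [Module K V] [FiniteDimensional K V]
    (ρ : G Φ →* (V →ₗ[K] V)) (σ : G Φ) : ρ σ = 1 := by
  have hinv : ∀ x : G Φ, ρ x * ρ x⁻¹ = 1 := fun x => by rw [← map_mul, mul_inv_cancel, map_one]
  have h1 : ∀ g, ρ (eG Φ g) = 1 := fun g => kill_Gam ρ (eG Φ) g
  have h2 : ∀ a, ρ (mG Φ a) = 1 := by
    intro a
    have h := congrArg ρ (mG_sq Φ hfr a)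
    rw [map_mul, map_mul, map_mul, h1, one_mul, mul_one] at h
    calc ρ (mG Φ a) = ρ (mG Φ a) * (ρ (mG Φ a) * ρ (mG Φ a)⁻¹) := by rw [hinv, mul_one]
      _ = 1 := by rw [← mul_assoc, ← h, hinv]
  classical
  obtain ⟨l, hl⟩ : ∃ l : F, l ≠ 0 ∧ l ≠ 1 := by
    obtain ⟨l, hl⟩ := Infinite.exists_notMem_finset ({0, 1} : Finset F)
    exact ⟨l, by simpa using hl⟩
  have h3 : ∀ c, ρ (tG Φ c) = 1 := by
    intro c
    have h := congrArg ρ (mG_tG Φ (Units.mk0 l hl.1) (c / (l - 1)))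
    rw [map_mul, map_mul, h2, one_mul, mul_one] at h
    have h4 : (l * (c / (l - 1))) = c / (l - 1) + c := by
      have : l - 1 ≠ 0 := sub_ne_zero.2 hl.2
      field_simp
      ring
    rw [Units.val_mk0, h4, ← tG_add, map_mul] at h
    have h5 : ρ (tG Φ (c / (l - 1)))⁻¹ * ρ (tG Φ (c / (l - 1))) = 1 := by
      rw [← map_mul, inv_mul_cancel, map_one]
    calc ρ (tG Φ c) = ρ (tG Φ (c / (l - 1)))⁻¹ * (ρ (tG Φ (c / (l - 1))) * ρ (tG Φ c)) := by
          rw [← mul_assoc, h5, one_mul]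
      _ = 1 := by rw [← h, h5]
  obtain ⟨σ, a, b, g, _, rfl⟩ := σ
  have := G_decomp Φ a b g
  rw [show (⟨aff Φ a b g, _⟩ : G Φ) = tG Φ b * mG Φ a * eG Φ g from this, map_mul, map_mul, h1, h2,
    h3]
  simp

theorem tG_inj : Function.Injective (tG Φ) := by
  intro b c h
  have h1 : aff Φ 1 b 1 = aff Φ 1 c 1 := congrArg (fun z : G Φ => (z : Equiv.Perm F)) h
  have h2 := congrArg (fun z : Equiv.Perm F => z 0) h1
  simpa [aff_apply] using h2

theorem two_trans : MulAction.IsMultiplyPretransitive (G Φ) F 2 := by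
  rw [MulAction.is_two_pretransitive_iff]
  intro a b c d hab hcd
  have h1 : (d - c) / (b - a) ≠ 0 :=
    div_ne_zero (sub_ne_zero.2 (Ne.symm hcd)) (sub_ne_zero.2 (Ne.symm hab))
  have h2 : b - a ≠ 0 := sub_ne_zero.2 (Ne.symm hab)
  refine ⟨⟨aff Φ (Units.mk0 _ h1) (c - (d - c) / (b - a) * a) 1, mem_G Φ _ _ _⟩, ?_, ?_⟩
  · show aff Φ (Units.mk0 _ h1) (c - (d - c) / (b - a) * a) 1 a = c
    rw [aff_apply, Phi_one]
    simp
  · show aff Φ (Units.mk0 _ h1) (c - (d - c) / (b - a) * a) 1 b = d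
    rw [aff_apply, Phi_one]
    simp only [Units.val_mk0]
    field_simp
    ring

end Pool.Agent.H5.Tri
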