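import Mathlib
import Pool.Agent.H5.Exterior

set_option autoImplicit false

namespace Pool.Agent.H5.Chain

open Matrix

abbrev Mat (R : Type) := Matrix (Fin 2) (Fin 2) R

section general

variable {R : Type} [CommRing R]

/-- `1 + s A` for `s ^ 2 = 0`. -/
def E (s : R) (hs : s * s = 0) (A : Mat R) : (Mat R)ˣ where
  val := 1 + s • A
  inv := 1 - s • A
  val_inv := by
    have : (s • A) * (s • A) = 0 := by
      rw [smul_mul_smul_comm, hs, zero_smul]
    rw [mul_sub, mul_one, add_mul, one_mul, this]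
    abel
  inv_val := by
    have : (s • A) * (s • A) = 0 := by
      rw [smul_mul_smul_comm, hs, zero_smul]
    rw [mul_add, mul_one, sub_mul, one_mul, this]
    abel

theorem E_val (s : R) (hs : s * s = 0) (A : Mat R) : (E s hs A : Mat R) = 1 + s • A := rfl

theorem E_mul (s : R) (hs : s * s = 0) (A B : Mat R) : E s hs A * E s hs B = E s hs (A + B) := by
  apply Units.ext
  have : (s • A) * (s • B) = 0 := by
    rw [smul_mul_smul_comm, hs, zero_smul]
  rw [Units.val_mul, E_val, E_val, E_val, mul_add, mul_one, add_mul, one_mul, this, smul_add]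
  abel

theorem E_inv (s : R) (hs : s * s = 0) (A : Mat R) : (E s hs A)⁻¹ = E s hs (-A) := by
  apply Units.ext
  show 1 - s • A = 1 + s • (-A)
  rw [smul_neg, sub_eq_add_neg]

theorem E_conj (s : R) (hs : s * s = 0) (A : Mat R) (u : (Mat R)ˣ) :
    u⁻¹ * E s hs A * u = E s hs ((u⁻¹ : (Mat R)ˣ) * A * u) := by
  apply Units.ext
  rw [Units.val_mul, Units.val_mul, E_val, E_val, mul_add, add_mul, mul_one, mul_smul_comm,
    smul_mul_assoc, Units.inv_mul]

theorem E_smul (s t : R) (hs : s * s = 0) (ht : (s * t) * (s * t) = 0) (A : Mat R) :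
    E s hs (t • A) = E (s * t) ht A := by
  apply Units.ext
  rw [E_val, E_val, smul_smul]

theorem E_congr {s s' : R} (h : s = s') (hs : s * s = 0) (hs' : s' * s' = 0) (A : Mat R) :
    E s hs A = E s' hs' A := by
  subst h; rfl

/-- commutator of two such elements -/
theorem E_comm (s t : R) (hs : s * s = 0) (ht : t * t = 0) (hst : (s * t) * (s * t) = 0)
    (A B : Mat R) :
    (E s hs A)⁻¹ * ((E t ht B)⁻¹ * E s hs A * E t ht B) = E (s * t) hst (A * B - B * A) := by
  rw [E_conj, E_inv, E_mul, ← E_smul s t hs hst]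
  congr 1
  rw [E_inv, E_val, E_val]
  have h1 : (1 + t • (-B)) * A * (1 + t • B) = A + t • (A * B - B * A) - (t * t) • (B * A * B) := by
    simp only [smul_neg, add_mul, mul_add, one_mul, mul_one, neg_mul, smul_mul_assoc,
      mul_smul_comm, smul_sub, smul_smul, smul_add]
    abel
  rw [h1, ht, zero_smul]
  abel

/-- the diagonal generator -/
def H : Mat R := !![1, 0; 0, -1]
/-- the lower generator -/
def F : Mat R := !![0, 0; 1, 0]

theorem comm1 {L0 L1 : Subgroup (Mat R)ˣ} (hn : ∀ a ∈ L0, ∀ b ∈ L1, a * b * a⁻¹ ∈ L1)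
    {x : (Mat R)ˣ} (hx : x ∈ L1) {s : R} (hs : s * s = 0) {A : Mat R} (hA : E s hs A ∈ L0) :
    E s hs (A - (x⁻¹ : (Mat R)ˣ) * A * x) ∈ L1 := by
  have h1 := hn _ (inv_mem hA) _ hx
  rw [inv_inv] at h1
  have h2 := mul_mem (inv_mem hx) h1
  have h3 : x⁻¹ * ((E s hs A)⁻¹ * x * E s hs A) = E s hs (A - (x⁻¹ : (Mat R)ˣ) * A * x) := by
    have : x⁻¹ * ((E s hs A)⁻¹ * x * E s hs A) = (x⁻¹ * (E s hs A)⁻¹ * x) * E s hs A := by group
    rw [this, E_inv, E_conj, E_mul]
    congr 1
    rw [mul_neg, neg_mul]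
    abel
  rwa [h3] at h2

theorem comm2 {L0 L1 : Subgroup (Mat R)ˣ} (hn : ∀ a ∈ L0, ∀ b ∈ L1, a * b * a⁻¹ ∈ L1)
    {s t : R} (hs : s * s = 0) (ht : t * t = 0) (hst : (s * t) * (s * t) = 0) {A B : Mat R}
    (hA : E s hs A ∈ L1) (hB : E t ht B ∈ L0) :
    E (s * t) hst (A * B - B * A) ∈ L1 := by
  rw [← E_comm s t hs ht hst]
  have h1 := hn _ (inv_mem hB) _ hA
  rw [inv_inv] at h1
  exact mul_mem (inv_mem hA) h1

theorem step {L0 L1 : Subgroup (Mat R)ˣ} (hn : ∀ a ∈ L0, ∀ b ∈ L1, a * b * a⁻¹ ∈ L1)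
    (h3 : (3 : R) = 0) {x : (Mat R)ˣ} (hx : x ∈ L1) {c : R}
    (hxc : (x : Mat R) = !![1, c; 0, 1]) (hc : c = 1 ∨ c = -1)
    {s t : R} (hs : s * s = 0) (ht : t * t = 0) (hst : (s * t) * (s * t) = 0)
    (hH : E s hs H ∈ L0) (hF : E s hs F ∈ L0) (hF' : E t ht F ∈ L0) :
    E (s * t) hst H ∈ L1 ∧ E (s * t) hst F ∈ L1 := by
  have hxinv : ((x⁻¹ : (Mat R)ˣ) : Mat R) = !![1, -c; 0, 1] := by
    have h1 : (x : Mat R) * !![1, -c; 0, 1] = 1 := by
      rw [hxc]
      ext i j
      fin_cases i <;> fin_cases j <;> simp [Matrix.mul_apply, Fin.sum_univ_two]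
    calc ((x⁻¹ : (Mat R)ˣ) : Mat R) = (x⁻¹ : (Mat R)ˣ) * ((x : Mat R) * !![1, -c; 0, 1]) := by
          rw [h1, mul_one]
      _ = !![1, -c; 0, 1] := by rw [← mul_assoc, Units.inv_mul, one_mul]
  have k1 := comm2 hn hs ht hst (comm1 hn hx hs hH) hF'
  have k2 := comm2 hn hs ht hst (comm1 hn hx hs hF) hF'
  rw [hxinv, hxc] at k1 k2
  rcases hc with rfl | rfl
  · have e1 : ((H - !![1, -1; 0, 1] * H * !![1, 1; 0, 1]) * F
        - F * (H - !![1, -1; 0, 1] * H * !![1, 1; 0, 1]) : Mat R) = H := by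
      ext i j
      fin_cases i <;> fin_cases j <;> simp [Matrix.mul_apply, Fin.sum_univ_two, H, F] <;>
        first | linear_combination h3 | linear_combination (-1 : R) * h3
    have e2 : ((F - !![1, -1; 0, 1] * F * !![1, 1; 0, 1]) * F
        - F * (F - !![1, -1; 0, 1] * F * !![1, 1; 0, 1]) : Mat R) = F + H := by
      ext i j
      fin_cases i <;> fin_cases j <;> simp [Matrix.mul_apply, Fin.sum_univ_two, H, F] <;>
        first | linear_combination h3 | linear_combination (-1 : R) * h3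
    rw [e1] at k1
    rw [e2, ← E_mul] at k2
    refine ⟨k1, ?_⟩
    have := mul_mem k2 (inv_mem k1)
    rwa [mul_assoc, mul_inv_cancel, mul_one] at this
  · have e1 : ((H - !![1, -(-1); 0, 1] * H * !![1, -1; 0, 1]) * F
        - F * (H - !![1, -(-1); 0, 1] * H * !![1, -1; 0, 1]) : Mat R) = -H := by
      ext i j
      fin_cases i <;> fin_cases j <;> simp [Matrix.mul_apply, Fin.sum_univ_two, H, F] <;>
        first | linear_combination h3 | linear_combination (-1 : R) * h3
    have e2 : ((F - !![1, -(-1); 0, 1] * F * !![1, -1; 0, 1]) * F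
        - F * (F - !![1, -(-1); 0, 1] * F * !![1, -1; 0, 1]) : Mat R) = -F + H := by
      ext i j
      fin_cases i <;> fin_cases j <;> simp [Matrix.mul_apply, Fin.sum_univ_two, H, F] <;>
        first | linear_combination h3 | linear_combination (-1 : R) * h3
    rw [e1, ← E_inv] at k1
    have k1' := inv_mem k1
    rw [inv_inv] at k1'
    rw [e2, ← E_mul] at k2
    refine ⟨k1', ?_⟩
    have := mul_mem k2 k1
    rw [mul_assoc, mul_inv_cancel, mul_one, ← E_inv] at this
    have := inv_mem this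
    rwa [inv_inv] at this

end general

end Pool.Agent.H5.Chain
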