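import Mathlib

/-! A locally soluble group `Gam` of triangular translations of `ℕ → ℤ` all of whose
finite-dimensional representations are trivial. -/

set_option autoImplicit false

namespace Pool.Agent.H5.Tri

open scoped commutatorElement

abbrev X := ℕ → ℤ

theorem ais {α : Type*} (g : Equiv.Perm α) (x : α) : g (g⁻¹ x) = x := Equiv.apply_symm_apply g x

/-- `g` moves only the coordinates below `k`, and the displacement of coordinate `j` depends only on
the coordinates `i` with `j < i < N`. -/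
def IsTri (N k : ℕ) (g : Equiv.Perm X) : Prop :=
  (∀ x j, k ≤ j → g x j = x j) ∧
  ∀ j x y, (∀ i, j < i → i < N → x i = y i) → g x j - x j = g y j - y j

theorem IsTri.agree {N k : ℕ} {g : Equiv.Perm X} (hg : IsTri N k g) {j : ℕ} {x y : X}
    (h : ∀ i, j < i → i < N → x i = y i) : ∀ i, j < i → i < N → g x i = g y i := by
  intro i hi hN
  have := hg.2 i x y (fun l hl hlN => h l (hi.trans hl) hlN)
  have := h i hi hN
  omega

theorem IsTri.one (N k : ℕ) : IsTri N k 1 := ⟨fun _ _ _ => rfl, fun _ _ _ _ => by simp⟩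

theorem IsTri.mul {N k : ℕ} {g h : Equiv.Perm X} (hg : IsTri N k g) (hh : IsTri N k h) :
    IsTri N k (g * h) := by
  refine ⟨fun x j hj => ?_, fun j x y hxy => ?_⟩
  · rw [Equiv.Perm.mul_apply, hg.1 _ _ hj, hh.1 _ _ hj]
  · rw [Equiv.Perm.mul_apply, Equiv.Perm.mul_apply]
    have h1 := hh.2 j x y hxy
    have h2 := hg.2 j (h x) (h y) (hh.agree hxy)
    omega

theorem IsTri.agree_inv {N k : ℕ} {g : Equiv.Perm X} (hg : IsTri N k g) {j : ℕ} {u v : X}
    (h : ∀ i, j < i → i < N → g u i = g v i) : ∀ i, j < i → i < N → u i = v i := by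
  have key : ∀ n i, N - i ≤ n → j < i → i < N → u i = v i := by
    intro n
    induction n with
    | zero => intro i hn _ hN; omega
    | succ n ih =>
      intro i hn hi hN
      have h1 := hg.2 i u v (fun l hl hlN => ih l (by omega) (hi.trans hl) hlN)
      have h2 := h i hi hN
      omega
  intro i hi hN
  exact key (N - i) i le_rfl hi hN

theorem IsTri.inv {N k : ℕ} {g : Equiv.Perm X} (hg : IsTri N k g) : IsTri N k g⁻¹ := by
  refine ⟨fun x j hj => ?_, fun j x y hxy => ?_⟩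
  · have := hg.1 (g⁻¹ x) j hj
    rw [ais] at this
    exact this.symm
  · have h1 : ∀ i, j < i → i < N → (g⁻¹ x) i = (g⁻¹ y) i := by
      apply hg.agree_inv
      intro i hi hN
      rw [ais, ais]
      exact hxy i hi hN
    have h2 := hg.2 j _ _ h1
    rw [ais, ais] at h2
    omega

/-- triangular translations of level `(N, k)` -/
def TriG (N k : ℕ) : Subgroup (Equiv.Perm X) where
  carrier := {g | IsTri N k g}
  one_mem' := IsTri.one N k
  mul_mem' := IsTri.mul
  inv_mem' := IsTri.inv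

theorem mem_TriG {N k : ℕ} {g : Equiv.Perm X} : g ∈ TriG N k ↔ IsTri N k g := Iff.rfl

theorem TriG_zero {N : ℕ} {g : Equiv.Perm X} (hg : g ∈ TriG N 0) : g = 1 := by
  ext x j
  exact hg.1 x j (Nat.zero_le _)

theorem TriG_mono {N M k l : ℕ} (h : N ≤ M) (h' : k ≤ l) : TriG N k ≤ TriG M l := by
  intro g hg
  exact ⟨fun x j hj => hg.1 x j (h'.trans hj),
    fun j x y hxy => hg.2 j x y (fun i hi hN => hxy i hi (hN.trans_le h))⟩

theorem comm_mem {N k : ℕ} {g h : Equiv.Perm X} (hg : g ∈ TriG N (k + 1))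
    (hh : h ∈ TriG N (k + 1)) : ⁅g, h⁆ ∈ TriG N k := by
  have hmem : ⁅g, h⁆ ∈ TriG N (k + 1) :=
    mul_mem (mul_mem (mul_mem hg hh) (inv_mem hg)) (inv_mem hh)
  have key : ∀ x, (g * h) x k = (h * g) x k := by
    intro x
    rw [Equiv.Perm.mul_apply, Equiv.Perm.mul_apply]
    have h1 := hg.2 k (h x) x (fun i hi _ => hh.1 x i hi)
    have h2 := hh.2 k (g x) x (fun i hi _ => hg.1 x i hi)
    omega
  refine ⟨fun x j hj => ?_, hmem.2⟩
  rcases eq_or_lt_of_le hj with rfl | hj'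
  · have : ⁅g, h⁆ x = (g * h) ((h * g)⁻¹ x) := by
      rw [← Equiv.Perm.mul_apply, commutatorElement_def, mul_inv_rev, ← mul_assoc]
    rw [this, key, ais]
  · exact hmem.1 x j hj'

/-- the union -/
def Gam : Subgroup (Equiv.Perm X) where
  carrier := {g | ∃ N, g ∈ TriG N N}
  one_mem' := ⟨0, one_mem _⟩
  mul_mem' := by
    rintro g h ⟨N, hN⟩ ⟨M, hM⟩
    exact ⟨max N M, mul_mem (TriG_mono (le_max_left _ _) (le_max_left _ _) hN)
      (TriG_mono (le_max_right _ _) (le_max_right _ _) hM)⟩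
  inv_mem' := by
    rintro g ⟨N, hN⟩
    exact ⟨N, inv_mem hN⟩

theorem TriG_le_Gam (N : ℕ) : TriG N N ≤ Gam := fun _ h => ⟨N, h⟩

/-! ### translations of one coordinate -/

/-- translation of the coordinate `i` by one -/
def sh (i : ℕ) : Equiv.Perm X where
  toFun x := x + Pi.single i 1
  invFun x := x - Pi.single i 1
  left_inv x := by simp
  right_inv x := by simp

theorem sh_apply (i : ℕ) (x : X) : sh i x = x + Pi.single i 1 := rfl

theorem sh_mem (i : ℕ) : sh i ∈ TriG (i + 1) (i + 1) := by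
  refine ⟨fun x j hj => ?_, fun j x y _ => ?_⟩
  · rw [sh_apply, Pi.add_apply, Pi.single_eq_of_ne (by omega), add_zero]
  · simp [sh_apply]

/-- elements of level `N` commute with translations of coordinates which are zero or at least `N` -/
theorem sh_comm {N k : ℕ} {g : Equiv.Perm X} (hg : IsTri N k g) {i : ℕ} (hi : i = 0 ∨ N ≤ i)
    (x : X) : g (x + Pi.single i 1) = g x + Pi.single i 1 := by
  ext j
  have := hg.2 j (x + Pi.single i 1) x (fun l hl hlN => by
    rw [Pi.add_apply, Pi.single_eq_of_ne (by omega), add_zero])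
  rw [Pi.add_apply] at this ⊢
  omega

/-! ### Heisenberg families -/

theorem IsTri.zpow {N k : ℕ} {g : Equiv.Perm X} (hg : IsTri N k g) (z : ℤ) : IsTri N k (g ^ z) :=
  zpow_mem (show g ∈ TriG N k from hg) z

/-- `x ↦ h ^ (x i) x` where `h` has level `N ≤ i` -/
def tw {N : ℕ} {h : Equiv.Perm X} (hh : IsTri N N h) (i : ℕ) (hi : N ≤ i) : Equiv.Perm X where
  toFun x := (h ^ (x i)) x
  invFun x := (h ^ (-x i)) x
  left_inv x := by
    show (h ^ (-((h ^ (x i)) x i))) ((h ^ (x i)) x) = x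
    rw [(hh.zpow _).1 x i hi, ← Equiv.Perm.mul_apply, ← zpow_add, neg_add_cancel, zpow_zero]
    rfl
  right_inv x := by
    show (h ^ ((h ^ (-x i)) x i)) ((h ^ (-x i)) x) = x
    rw [(hh.zpow _).1 x i hi, ← Equiv.Perm.mul_apply, ← zpow_add, add_neg_cancel, zpow_zero]
    rfl

theorem tw_apply {N : ℕ} {h : Equiv.Perm X} (hh : IsTri N N h) (i : ℕ) (hi : N ≤ i) (x : X) :
    tw hh i hi x = (h ^ (x i)) x := rfl

theorem tw_mem {N : ℕ} {h : Equiv.Perm X} (hh : IsTri N N h) (i : ℕ) (hi : N ≤ i) :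
    tw hh i hi ∈ TriG (i + 1) (i + 1) := by
  refine ⟨fun x j hj => ?_, fun j x y hxy => ?_⟩
  · rw [tw_apply, (hh.zpow _).1 x j (by omega)]
  · rw [tw_apply, tw_apply]
    by_cases hj : j < i
    · rw [hxy i hj (by omega)]
      exact (hh.zpow _).2 j x y (fun l hl hlN => hxy l hl (by omega))
    · rw [(hh.zpow _).1 x j (by omega), (hh.zpow _).1 y j (by omega), sub_self, sub_self]

theorem sh_tw_ne {N : ℕ} {h : Equiv.Perm X} (hh : IsTri N N h) (i : ℕ) (hi : N ≤ i) (l : ℕ)
    (hl : N ≤ l) (hne : i ≠ l) : sh l * tw hh i hi = tw hh i hi * sh l := by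
  ext1 x
  rw [Equiv.Perm.mul_apply, Equiv.Perm.mul_apply, tw_apply, tw_apply, sh_apply, sh_apply,
    sh_comm (hh.zpow _) (Or.inr hl), Pi.add_apply, Pi.single_eq_of_ne hne, add_zero]

theorem sh_tw_eq {N : ℕ} {h : Equiv.Perm X} (hh : IsTri N N h) (i : ℕ) (hi : N ≤ i) :
    sh i * tw hh i hi = tw hh i hi * h⁻¹ * sh i := by
  ext1 x
  have hinv : IsTri N N h⁻¹ := hh.inv
  simp only [Equiv.Perm.mul_apply, tw_apply, sh_apply]
  rw [sh_comm hinv (Or.inr hi), sh_comm (hh.zpow _) (Or.inr hi), Pi.add_apply,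
    Pi.single_eq_same, hinv.1 x i hi, ← Equiv.Perm.mul_apply, zpow_add, zpow_one,
    mul_inv_cancel_right]

/-- the abstract killing lemma -/
theorem kill {G : Type*} [Group G] {K V : Type*} [Field K] [AddCommGroup V] [Module K V]
    [FiniteDimensional K V] (ρ : G →* (V →ₗ[K] V)) (h : G)
    (H : ∀ m : ℕ, ∃ g t : Fin m → G, (∀ j k, j ≠ k → t k * g j = g j * t k) ∧
      ∀ k, t k * g k = g k * h⁻¹ * t k) : ρ h = 1 := by
  obtain ⟨g, t, h1, h2⟩ := H (Module.finrank K (V →ₗ[K] V) + 1)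
  have hdep : ¬ LinearIndependent K (fun j => ρ (g j)) := by
    intro hli
    have := hli.fintype_card_le_finrank
    simp at this
  rw [Fintype.not_linearIndependent_iff] at hdep
  obtain ⟨c, hc, k, hk⟩ := hdep
  have e1 : ρ (t k) * ∑ j, c j • ρ (g j) = (∑ j, c j • ρ (g j)) * ρ (t k) +
      c k • (ρ (g k) * (ρ h⁻¹ - 1) * ρ (t k)) := by
    rw [Finset.mul_sum, Finset.sum_mul, ← Finset.add_sum_erase _ _ (Finset.mem_univ k),
      ← Finset.add_sum_erase _ (fun j => c j • ρ (g j) * ρ (t k)) (Finset.mem_univ k)]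
    have e2 : ∑ x ∈ Finset.univ.erase k, ρ (t k) * c x • ρ (g x) =
        ∑ x ∈ Finset.univ.erase k, c x • ρ (g x) * ρ (t k) := by
      apply Finset.sum_congr rfl
      intro j hj
      rw [mul_smul_comm, smul_mul_assoc, ← map_mul, ← map_mul, h1 j k (Finset.ne_of_mem_erase hj)]
    rw [e2, mul_smul_comm, ← map_mul, h2 k, map_mul, map_mul, smul_mul_assoc, mul_sub, sub_mul,
      mul_one, smul_sub]
    abel
  rw [hc, mul_zero, zero_mul, zero_add] at e1
  have e3 : ρ (g k) * (ρ h⁻¹ - 1) * ρ (t k) = 0 := by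
    rcases smul_eq_zero.1 e1.symm with h | h
    · exact absurd h hk
    · exact h
  have e4 : ρ h⁻¹ - 1 = 0 := by
    have : ρ (g k)⁻¹ * (ρ (g k) * (ρ h⁻¹ - 1) * ρ (t k)) * ρ (t k)⁻¹ = ρ h⁻¹ - 1 := by
      rw [← mul_assoc, ← mul_assoc, ← map_mul, inv_mul_cancel, map_one, one_mul, mul_assoc,
        ← map_mul, mul_inv_cancel, map_one, mul_one]
    rw [← this, e3]
    simp
  have e5 : ρ h⁻¹ = 1 := sub_eq_zero.1 e4
  calc ρ h = ρ h * ρ h⁻¹ := by rw [e5, mul_one]
    _ = 1 := by rw [← map_mul, mul_inv_cancel, map_one]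

theorem heis (h : Gam) (m : ℕ) : ∃ g t : Fin m → Gam, (∀ j k, j ≠ k → t k * g j = g j * t k) ∧
    ∀ k, t k * g k = g k * h⁻¹ * t k := by
  obtain ⟨h, N, hN⟩ := h
  refine ⟨fun j => ⟨tw hN (N + j) (by omega), _, tw_mem hN _ _⟩,
    fun j => ⟨sh (N + j), _, sh_mem _⟩, fun j k hjk => ?_, fun k => ?_⟩
  · apply Subtype.ext
    exact sh_tw_ne hN (N + j) (by omega) (N + k) (by omega)
      (fun h => hjk (Fin.ext (by omega)))
  · apply Subtype.ext
    exact sh_tw_eq hN (N + k) (by omega)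

/-- every finite-dimensional representation of a group kills the image of `Gam` -/
theorem kill_Gam {G : Type*} [Group G] {K V : Type*} [Field K] [AddCommGroup V] [Module K V]
    [FiniteDimensional K V] (ρ : G →* (V →ₗ[K] V)) (φ : Gam →* G) (h : Gam) :
    ρ (φ h) = 1 :=
  kill (ρ.comp φ) h (fun m => heis h m)

end Pool.Agent.H5.Tri
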